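import Pool.Agent.Lib.MP_d3943d_an.BM3

set_option autoImplicit false

/-!
Anderson's inequality for boxes.
-/

namespace Pool.Agent.Lib.MP_d3943d_an

open MeasureTheory Set
open scoped ENNReal ContDiff Pointwise

/-- The open box with centre `c` and half side lengths `h`. -/
def bx {m : ℕ} (c h : Fin m → ℝ) : Set (Fin m → ℝ) :=
  Set.pi univ (fun i => Ioo (c i - h i) (c i + h i))

theorem anderson {m : ℕ} (hBM : BM m) {C : Set (Fin m → ℝ)} (hC : Convex ℝ C)
    (hCm : MeasurableSet C) (hsym : ∀ t ∈ C, -t ∈ C) (c h : Fin m → ℝ) {s : ℝ}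
    (hs0 : 0 ≤ s) (hs1 : s ≤ 1) :
    volume (C ∩ bx c h) ≤ volume (C ∩ bx (s • c) h) := by
  have hbm : ∀ c' : Fin m → ℝ, MeasurableSet (bx c' h) := fun c' =>
    MeasurableSet.univ_pi fun i => measurableSet_Ioo
  rcases hs1.eq_or_lt with rfl | hs1
  · simp
  set A : Set (Fin m → ℝ) := C ∩ bx c h with hA
  set B : Set (Fin m → ℝ) := C ∩ bx (-c) h with hB
  have hAB : B = -A := by
    ext x
    simp only [hA, hB, bx, Set.mem_neg, Set.mem_inter_iff, Set.mem_pi, Set.mem_univ,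
      true_implies, Set.mem_Ioo, Pi.neg_apply]
    constructor
    · rintro ⟨h1, h2⟩
      refine ⟨hsym x h1, fun i => ?_⟩
      obtain ⟨h3, h4⟩ := h2 i
      constructor <;> linarith
    · rintro ⟨h1, h2⟩
      refine ⟨by simpa using hsym _ h1, fun i => ?_⟩
      obtain ⟨h3, h4⟩ := h2 i
      constructor <;> linarith
  have hvol : volume B = volume A := by
    rw [hAB]; exact Measure.measure_neg _ _
  have hl : 0 < (1 + s) / 2 := by linarith
  have hk : 0 < (1 - s) / 2 := by linarith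
  have hlk : (1 + s) / 2 + (1 - s) / 2 = 1 := by ring
  have hmain := hBM A B (hCm.inter (hbm _)) (hCm.inter (hbm _)) _ _ hl hk hlk
  rw [hvol, ← ENNReal.rpow_add_of_nonneg _ _ hl.le hk.le, hlk, ENNReal.rpow_one] at hmain
  refine hmain.trans (measure_mono ?_)
  rintro x ⟨u, ⟨a, ha, rfl⟩, v, ⟨b, hb, rfl⟩, rfl⟩
  refine ⟨hC ha.1 hb.1 hl.le hk.le hlk, ?_⟩
  intro i _
  have ha2 := ha.2 i (Set.mem_univ i)
  have hb2 := hb.2 i (Set.mem_univ i)
  simp only [Set.mem_Ioo, Pi.neg_apply] at ha2 hb2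
  simp only [Set.mem_Ioo, Pi.add_apply, Pi.smul_apply, smul_eq_mul]
  constructor
  · nlinarith [mul_lt_mul_of_pos_left ha2.1 hl, mul_lt_mul_of_pos_left hb2.1 hk]
  · nlinarith [mul_lt_mul_of_pos_left ha2.2 hl, mul_lt_mul_of_pos_left hb2.2 hk]

end Pool.Agent.Lib.MP_d3943d_an
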