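import Pool.Agent.Lib.MP_d3943d_an.Steiner

set_option autoImplicit false

/-!
Lipschitz approximation of open sets.
-/

namespace Pool.Agent.Lib.MP_d3943d_an

open MeasureTheory Set
open scoped ENNReal ContDiff Pointwise

/-- Lipschitz approximation from below of a bounded open set. -/
noncomputable def approxSet {N : ℕ} (Ω : Set (E N)) (k : ℕ) (x : E N) : ℝ :=
  min 1 ((k : ℝ) * Metric.infDist x Ωᶜ)

theorem approxSet_adm {N : ℕ} (hN : 1 ≤ N) {Ω : Set (E N)} (hΩ : IsOpen Ω)
    (hb : Bornology.IsBounded Ω) :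
    ∃ ρ : ℝ, ∀ k : ℕ, Adm (k : ℝ) ρ (approxSet Ω k) := by
  obtain ⟨ρ, hρ⟩ := hb.subset_ball (0 : E N)
  refine ⟨ρ, fun k => ⟨fun x y => ?_, fun x => ?_, fun x => min_le_left _ _, fun x hx => ?_⟩⟩
  · have h1 : |Metric.infDist x Ωᶜ - Metric.infDist y Ωᶜ| ≤ ‖x - y‖ := by
      have := (Metric.lipschitz_infDist_pt Ωᶜ).dist_le_mul x y
      rwa [NNReal.coe_one, one_mul, Real.dist_eq, dist_eq_norm] at this
    unfold approxSet
    calc |min 1 ((k : ℝ) * Metric.infDist x Ωᶜ) - min 1 ((k : ℝ) * Metric.infDist y Ωᶜ)|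
        ≤ |(k : ℝ) * Metric.infDist x Ωᶜ - (k : ℝ) * Metric.infDist y Ωᶜ| := by
          refine (abs_min_sub_min_le_max _ _ _ _).trans ?_
          rw [sub_self, abs_zero]
          exact max_le (abs_nonneg _) le_rfl
      _ = (k : ℝ) * |Metric.infDist x Ωᶜ - Metric.infDist y Ωᶜ| := by
          rw [← mul_sub, abs_mul, Nat.abs_cast]
      _ ≤ (k : ℝ) * ‖x - y‖ := mul_le_mul_of_nonneg_left h1 (Nat.cast_nonneg k)
  · exact le_min zero_le_one (mul_nonneg (Nat.cast_nonneg k) Metric.infDist_nonneg)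
  · have hx' : x ∈ Ωᶜ := by
      intro hxΩ
      have := hρ hxΩ
      rw [Metric.mem_ball, dist_zero_right] at this
      linarith
    unfold approxSet
    rw [Metric.infDist_zero_of_mem hx', mul_zero]
    exact min_eq_right zero_le_one

theorem approxSet_mono {N : ℕ} (Ω : Set (E N)) (x : E N) :
    Monotone (fun k : ℕ => approxSet Ω k x) := by
  intro k l hkl
  have h : (k : ℝ) ≤ (l : ℝ) := by exact_mod_cast hkl
  exact min_le_min le_rfl (mul_le_mul_of_nonneg_right h Metric.infDist_nonneg)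

theorem approxSet_iSup {N : ℕ} (hN : 1 ≤ N) {Ω : Set (E N)} (hΩ : IsOpen Ω)
    (hb : Bornology.IsBounded Ω) (x : E N) :
    ⨆ k : ℕ, ENNReal.ofReal (approxSet Ω k x) = Ω.indicator (fun _ => 1) x := by
  have : Nonempty (Fin N) := ⟨⟨0, by omega⟩⟩
  by_cases hx : x ∈ Ω
  · rw [indicator_of_mem hx]
    have hne : (Ωᶜ).Nonempty := by
      by_contra hcon
      rw [not_nonempty_iff_eq_empty, compl_empty_iff] at hcon
      rw [hcon] at hb
      exact NormedSpace.unbounded_univ ℝ (E N) hb
    have hpos : 0 < Metric.infDist x Ωᶜ := by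
      rw [← hΩ.isClosed_compl.notMem_iff_infDist_pos hne]
      exact fun h => h hx
    apply le_antisymm
    · refine iSup_le fun k => ?_
      rw [← ENNReal.ofReal_one]
      exact ENNReal.ofReal_le_ofReal (min_le_left _ _)
    · obtain ⟨k, hk⟩ := exists_nat_ge (1 / Metric.infDist x Ωᶜ)
      refine le_trans ?_ (le_iSup _ k)
      have : approxSet Ω k x = 1 := by
        unfold approxSet
        apply min_eq_left
        rwa [div_le_iff₀ hpos] at hk
      rw [this, ENNReal.ofReal_one]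
  · rw [indicator_of_notMem hx]
    have : ∀ k : ℕ, approxSet Ω k x = 0 := by
      intro k
      unfold approxSet
      rw [Metric.infDist_zero_of_mem (show x ∈ Ωᶜ from hx), mul_zero]
      exact min_eq_right zero_le_one
    simp [this]

end Pool.Agent.Lib.MP_d3943d_an
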