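import Pool.Agent.Lib.MP_d3943d_an.Anderson

set_option autoImplicit false

/-!
Brascamp-Lieb-Luttinger on the line for finite unions of intervals.
-/

namespace Pool.Agent.Lib.MP_d3943d_an

open MeasureTheory Set
open scoped ENNReal ContDiff Pointwise

/-- The centres are at distance at least the sum of the half lengths. -/
private def Sep {m : ℕ} (J : Fin m → Finset (ℝ × ℝ)) : Prop :=
  ∀ i, ∀ p ∈ J i, ∀ q ∈ J i, p ≠ q → p.2 + q.2 ≤ |p.1 - q.1|

private theorem disj_of_sep {a b c d : ℝ} (h : b + d ≤ |a - c|) :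
    Disjoint (Ioo (a - b) (a + b)) (Ioo (c - d) (c + d)) := by
  rw [Set.disjoint_left]
  rintro x ⟨h1, h2⟩ ⟨h3, h4⟩
  rcases abs_cases (a - c) with ⟨h5, -⟩ | ⟨h5, -⟩ <;> linarith

private theorem sep_of_disj {a b c d : ℝ} (hb : 0 < b) (hd : 0 < d)
    (h : Disjoint (Ioo (a - b) (a + b)) (Ioo (c - d) (c + d))) : b + d ≤ |a - c| := by
  rw [Ioo_disjoint_Ioo] at h
  rcases le_total (a + b) (c + d) with h1 | h1 <;> rcases le_total (a - b) (c - d) with h2 | h2
  · rw [min_eq_left h1, max_eq_right h2] at h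
    have := neg_abs_le (a - c)
    linarith
  · rw [min_eq_left h1, max_eq_left h2] at h
    linarith
  · rw [min_eq_right h1, max_eq_right h2] at h
    linarith
  · rw [min_eq_right h1, max_eq_left h2] at h
    have := le_abs_self (a - c)
    linarith

private theorem pi_union {m : ℕ} (J : Fin m → Finset (ℝ × ℝ)) (I : ℝ × ℝ → Set ℝ) :
    Set.pi univ (fun i => ⋃ p ∈ J i, I p) =
      ⋃ f ∈ Fintype.piFinset J, Set.pi univ (fun i => I (f i)) := by
  ext x
  simp only [mem_univ_pi, mem_iUnion, Fintype.mem_piFinset, exists_prop]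
  constructor
  · intro h
    choose f hf using h
    exact ⟨f, fun i => (hf i).1, fun i => (hf i).2⟩
  · rintro ⟨f, hf1, hf2⟩ i
    exact ⟨f i, hf1 i, hf2 i⟩

private theorem measure_pi {m : ℕ} {C : Set (Fin m → ℝ)} (hCm : MeasurableSet C)
    (J : Fin m → Finset (ℝ × ℝ)) (I : ℝ × ℝ → Set ℝ) (hI : ∀ p, MeasurableSet (I p))
    (hd : ∀ i, ∀ p ∈ J i, ∀ q ∈ J i, p ≠ q → Disjoint (I p) (I q)) :
    volume (C ∩ Set.pi univ (fun i => ⋃ p ∈ J i, I p)) =
      ∑ f ∈ Fintype.piFinset J, volume (C ∩ Set.pi univ (fun i => I (f i))) := by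
  rw [pi_union, inter_iUnion₂]
  refine measure_biUnion_finset ?_ ?_
  · intro f hf g hg hfg
    have hne : ∃ i, f i ≠ g i := by
      by_contra h
      push Not at h
      exact hfg (funext h)
    obtain ⟨i, hi⟩ := hne
    have hfJ := Fintype.mem_piFinset.mp (Finset.mem_coe.mp hf) i
    have hgJ := Fintype.mem_piFinset.mp (Finset.mem_coe.mp hg) i
    have h1 := hd i _ hfJ _ hgJ hi
    simp only [Function.onFun]
    rw [Set.disjoint_left] at h1 ⊢
    rintro x ⟨-, hx1⟩ ⟨-, hx2⟩
    exact h1 (hx1 i (mem_univ i)) (hx2 i (mem_univ i))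
  · intro f _
    exact hCm.inter (MeasurableSet.univ_pi fun i => hI _)

/-- scaling step -/
private theorem scale_step {m : ℕ} (hBM : BM m) {C : Set (Fin m → ℝ)} (hC : Convex ℝ C)
    (hCm : MeasurableSet C) (hsym : ∀ t ∈ C, -t ∈ C) (J : Fin m → Finset (ℝ × ℝ))
    (hsep : Sep J) {s : ℝ} (hs0 : 0 < s) (hs1 : s ≤ 1)
    (hs : ∀ i, ∀ p ∈ J i, ∀ q ∈ J i, p ≠ q → p.2 + q.2 ≤ s * |p.1 - q.1|) :
    volume (C ∩ Set.pi univ (fun i => ⋃ p ∈ J i, Ioo (p.1 - p.2) (p.1 + p.2))) ≤
    volume (C ∩ Set.pi univ (fun i => ⋃ p ∈ (J i).image (fun p => (s * p.1, p.2)),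
      Ioo (p.1 - p.2) (p.1 + p.2))) := by
  classical
  have e1 := measure_pi hCm J (fun p => Ioo (p.1 - p.2) (p.1 + p.2)) (fun p => measurableSet_Ioo)
    (fun i p hp q hq hpq => disj_of_sep (hsep i p hp q hq hpq))
  have e2 := measure_pi hCm J (fun p => Ioo (s * p.1 - p.2) (s * p.1 + p.2))
    (fun p => measurableSet_Ioo)
    (fun i p hp q hq hpq => disj_of_sep (by
      rw [← mul_sub, abs_mul, abs_of_pos hs0]
      exact hs i p hp q hq hpq))
  have e3 : (fun i => ⋃ p ∈ (J i).image (fun p => (s * p.1, p.2)), Ioo (p.1 - p.2) (p.1 + p.2)) =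
      fun i => ⋃ p ∈ J i, Ioo (s * p.1 - p.2) (s * p.1 + p.2) := by
    funext i
    rw [Finset.set_biUnion_finset_image]
  rw [e3, e1, e2]
  refine Finset.sum_le_sum fun f _ => ?_
  exact anderson hBM hC hCm hsym (fun i => (f i).1) (fun i => (f i).2) hs0.le hs1

/-- merging step -/
private theorem merge_step {m : ℕ} (J : Fin m → Finset (ℝ × ℝ))
    (hpos : ∀ i, ∀ p ∈ J i, 0 < p.2) (hsep : Sep J) (i₀ : Fin m) (p q : ℝ × ℝ)
    (hp : p ∈ J i₀) (hq : q ∈ J i₀) (hpq : p ≠ q) (h : q.1 - p.1 = p.2 + q.2) :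
    ∃ J' : Fin m → Finset (ℝ × ℝ), (∀ i, ∀ p ∈ J' i, 0 < p.2) ∧ Sep J' ∧
      (∀ i, ⋃ p ∈ J i, Ioo (p.1 - p.2) (p.1 + p.2) ⊆
        ⋃ p ∈ J' i, Ioo (p.1 - p.2) (p.1 + p.2)) ∧
      (∀ i, ∑ p ∈ J' i, p.2 = ∑ p ∈ J i, p.2) ∧
      ∑ i, (J' i).card < ∑ i, (J i).card := by
  classical
  have hp0 : 0 < p.2 := hpos _ p hp
  have hq0 : 0 < q.2 := hpos _ q hq
  set new : ℝ × ℝ := (p.1 + q.2, p.2 + q.2) with hnew
  set R : Finset (ℝ × ℝ) := ((J i₀).erase p).erase q with hR
  have hRJ : ∀ r ∈ R, r ∈ J i₀ ∧ r ≠ p ∧ r ≠ q := by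
    intro r hr
    rw [hR, Finset.mem_erase, Finset.mem_erase] at hr
    exact ⟨hr.2.2, hr.2.1, hr.1⟩
  have hnewR : new ∉ R := by
    intro hr
    obtain ⟨h1, h2, h3⟩ := hRJ _ hr
    have h4 := hsep i₀ _ h1 p hp h2
    simp only [hnew] at h4
    rw [show p.1 + q.2 - p.1 = q.2 by ring, abs_of_pos hq0] at h4
    linarith
  have hsepnew : ∀ r ∈ R, r.2 + (p.2 + q.2) ≤ |r.1 - (p.1 + q.2)| := by
    intro r hr
    obtain ⟨h1, h2, h3⟩ := hRJ _ hr
    have h4 := hsep i₀ r h1 p hp h2
    have h5 := hsep i₀ r h1 q hq h3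
    have h6 := hpos _ r h1
    rcases abs_cases (r.1 - p.1) with ⟨h7, h8⟩ | ⟨h7, h8⟩
    · rcases abs_cases (r.1 - q.1) with ⟨h9, h10⟩ | ⟨h9, h10⟩
      · refine le_trans ?_ (le_abs_self _)
        linarith
      · linarith
    · refine le_trans ?_ (neg_le_abs _)
      linarith
  have hupd : ∀ i, i ≠ i₀ → Function.update J i₀ (insert new R) i = J i :=
    fun i hi => Function.update_of_ne hi _ _
  have hupd0 : Function.update J i₀ (insert new R) i₀ = insert new R :=
    Function.update_self _ _ _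
  have hqe : q ∈ (J i₀).erase p := Finset.mem_erase.mpr ⟨hpq.symm, hq⟩
  have hins : J i₀ = insert p (insert q R) := by
    rw [hR, Finset.insert_erase hqe, Finset.insert_erase hp]
  have hcard2 : 2 ≤ (J i₀).card := by
    have : ({p, q} : Finset (ℝ × ℝ)) ⊆ J i₀ := by
      intro r hr
      rw [Finset.mem_insert, Finset.mem_singleton] at hr
      rcases hr with rfl | rfl
      · exact hp
      · exact hq
    have h2 := Finset.card_le_card this
    rwa [Finset.card_pair hpq] at h2
  refine ⟨Function.update J i₀ (insert new R), ?_, ?_, ?_, ?_, ?_⟩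
  · intro i r hr
    by_cases hi : i = i₀
    · subst hi
      rw [hupd0, Finset.mem_insert] at hr
      rcases hr with rfl | hr
      · simp only [hnew]; linarith
      · exact hpos _ r (hRJ r hr).1
    · rw [hupd i hi] at hr
      exact hpos i r hr
  · intro i r hr r' hr' hne
    by_cases hi : i = i₀
    · subst hi
      rw [hupd0, Finset.mem_insert] at hr hr'
      rcases hr with rfl | hr <;> rcases hr' with rfl | hr'
      · exact absurd rfl hne
      · have := hsepnew r' hr'
        rw [abs_sub_comm]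
        simp only [hnew] at this ⊢
        linarith
      · have := hsepnew r hr
        simp only [hnew] at this ⊢
        linarith
      · exact hsep _ r (hRJ r hr).1 r' (hRJ r' hr').1 hne
    · rw [hupd i hi] at hr hr'
      exact hsep i r hr r' hr' hne
  · intro i
    by_cases hi : i = i₀
    · subst hi
      rw [hupd0]
      refine iUnion₂_subset fun r hr => ?_
      rw [hins, Finset.mem_insert, Finset.mem_insert] at hr
      rcases hr with rfl | rfl | hr
      · refine Subset.trans ?_ (subset_iUnion₂_of_subset new (Finset.mem_insert_self _ _)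
          Subset.rfl)
        refine Ioo_subset_Ioo ?_ ?_ <;> simp only [hnew] <;> linarith
      · refine Subset.trans ?_ (subset_iUnion₂_of_subset new (Finset.mem_insert_self _ _)
          Subset.rfl)
        refine Ioo_subset_Ioo ?_ ?_ <;> simp only [hnew] <;> linarith
      · exact subset_iUnion₂_of_subset r (Finset.mem_insert_of_mem hr) Subset.rfl
    · rw [hupd i hi]
  · intro i
    by_cases hi : i = i₀
    · subst hi
      have h1 : p ∉ insert q R := by
        rw [Finset.mem_insert, not_or]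
        exact ⟨hpq, fun h => (hRJ p h).2.1 rfl⟩
      have h2 : q ∉ R := fun h => (hRJ q h).2.2 rfl
      rw [hupd0, Finset.sum_insert hnewR]
      conv_rhs => rw [hins, Finset.sum_insert h1, Finset.sum_insert h2]
      simp only [hnew]
      ring
    · rw [hupd i hi]
  · refine Finset.sum_lt_sum ?_ ⟨i₀, Finset.mem_univ _, ?_⟩
    · intro i _
      by_cases hi : i = i₀
      · subst hi
        rw [hupd0, Finset.card_insert_of_notMem hnewR, hR, Finset.card_erase_of_mem hqe,
          Finset.card_erase_of_mem hp]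
        omega
      · rw [hupd i hi]
    · rw [hupd0, Finset.card_insert_of_notMem hnewR, hR, Finset.card_erase_of_mem hqe,
        Finset.card_erase_of_mem hp]
      omega

private theorem bll_sep {m : ℕ} (hBM : BM m) {C : Set (Fin m → ℝ)} (hC : Convex ℝ C)
    (hCm : MeasurableSet C) (hsym : ∀ t ∈ C, -t ∈ C) (n : ℕ) :
    ∀ J : Fin m → Finset (ℝ × ℝ), (∑ i, (J i).card = n) → (∀ i, ∀ p ∈ J i, 0 < p.2) → Sep J →
    volume (C ∩ Set.pi univ (fun i => ⋃ p ∈ J i, Ioo (p.1 - p.2) (p.1 + p.2)))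
      ≤ volume (C ∩ Set.pi univ (fun i => Ioo (-(∑ p ∈ J i, p.2)) (∑ p ∈ J i, p.2))) := by
  classical
  induction n using Nat.strong_induction_on with
  | _ n ih =>
  intro J hn hpos hsep
  by_cases hemp : ∃ i, J i = ∅
  · -- an empty factor
    obtain ⟨i, hi⟩ := hemp
    have h1 : C ∩ Set.pi univ (fun i => ⋃ p ∈ J i, Ioo (p.1 - p.2) (p.1 + p.2)) = ∅ := by
      rw [Set.eq_empty_iff_forall_notMem]
      rintro x ⟨-, hx⟩
      have := hx i (mem_univ i)
      simp only at this
      rw [hi] at this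
      simp at this
    rw [h1, measure_empty]
    exact zero_le
  · push Not at hemp
    by_cases hone : ∀ i, (J i).card = 1
    · -- all singletons
      have h1 : ∀ i, ∃ p, J i = {p} := fun i => Finset.card_eq_one.mp (hone i)
      choose p hp using h1
      have e1 : (fun i => ⋃ p ∈ J i, Ioo (p.1 - p.2) (p.1 + p.2)) =
          fun i => Ioo ((p i).1 - (p i).2) ((p i).1 + (p i).2) := by
        funext i
        rw [hp i]
        simp
      have e2 : (fun i => Ioo (-(∑ p ∈ J i, p.2)) (∑ p ∈ J i, p.2)) =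
          fun i => Ioo (((0:ℝ) • (fun i => (p i).1)) i - (p i).2)
            (((0:ℝ) • (fun i => (p i).1)) i + (p i).2) := by
        funext i
        rw [hp i]
        simp
      rw [e1, e2]
      exact anderson hBM hC hCm hsym (fun i => (p i).1) (fun i => (p i).2) le_rfl zero_le_one
    · -- some factor has at least two intervals
      push Not at hone
      obtain ⟨i₁, hi₁⟩ := hone
      have hcard : 1 < (J i₁).card := by
        have := Finset.card_pos.mpr (Finset.nonempty_iff_ne_empty.mpr (hemp i₁).ne_empty)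
        omega
      obtain ⟨p₁, hp₁, q₁, hq₁, hpq₁⟩ := Finset.one_lt_card.mp hcard
      let T : Finset (Σ _ : Fin m, (ℝ × ℝ) × (ℝ × ℝ)) :=
        Finset.univ.sigma fun i => (J i).offDiag
      have hT : T.Nonempty := ⟨⟨i₁, (p₁, q₁)⟩, by
        simp only [T, Finset.mem_sigma, Finset.mem_univ, true_and, Finset.mem_offDiag]
        exact ⟨hp₁, hq₁, hpq₁⟩⟩
      obtain ⟨⟨i₀, p, q⟩, hmem, hmax⟩ := T.exists_max_image
        (fun x => (x.2.1.2 + x.2.2.2) / |x.2.1.1 - x.2.2.1|) hT
      simp only [T, Finset.mem_sigma, Finset.mem_univ, true_and, Finset.mem_offDiag] at hmem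
      obtain ⟨hp, hq, hpq⟩ := hmem
      have hdist : ∀ i, ∀ p ∈ J i, ∀ q ∈ J i, p ≠ q → 0 < |p.1 - q.1| := by
        intro i p hp q hq hpq
        have h1 := hsep i p hp q hq hpq
        have h2 := hpos i p hp
        have h3 := hpos i q hq
        linarith
      set s : ℝ := (p.2 + q.2) / |p.1 - q.1| with hs
      have hs0 : 0 < s := div_pos (add_pos (hpos _ p hp) (hpos _ q hq)) (hdist _ p hp q hq hpq)
      have hs1 : s ≤ 1 := by
        rw [hs, div_le_one (hdist _ p hp q hq hpq)]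
        exact hsep _ p hp q hq hpq
      have hsall : ∀ i, ∀ p ∈ J i, ∀ q ∈ J i, p ≠ q → p.2 + q.2 ≤ s * |p.1 - q.1| := by
        intro i p' hp' q' hq' hpq'
        have h1 := hmax ⟨i, (p', q')⟩ (by
          simp only [T, Finset.mem_sigma, Finset.mem_univ, true_and, Finset.mem_offDiag]
          exact ⟨hp', hq', hpq'⟩)
        simp only at h1
        rwa [div_le_iff₀ (hdist _ p' hp' q' hq' hpq')] at h1
      refine (scale_step hBM hC hCm hsym J hsep hs0 hs1 hsall).trans ?_
      -- the scaled family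
      let F : ℝ × ℝ → ℝ × ℝ := fun p => (s * p.1, p.2)
      have hF : Function.Injective F := by
        rintro ⟨a, b⟩ ⟨c, d⟩ h
        simp only [F, Prod.mk.injEq] at h
        rw [Prod.mk.injEq]
        exact ⟨mul_left_cancel₀ hs0.ne' h.1, h.2⟩
      set J' : Fin m → Finset (ℝ × ℝ) := fun i => (J i).image F with hJ'
      have hpos' : ∀ i, ∀ p ∈ J' i, 0 < p.2 := by
        intro i r hr
        obtain ⟨r', hr', rfl⟩ := Finset.mem_image.mp hr
        exact hpos i r' hr'
      have hsep' : Sep J' := by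
        intro i r hr t ht hrt
        obtain ⟨r', hr', rfl⟩ := Finset.mem_image.mp hr
        obtain ⟨t', ht', rfl⟩ := Finset.mem_image.mp ht
        simp only [F]
        rw [← mul_sub, abs_mul, abs_of_pos hs0]
        exact hsall i r' hr' t' ht' (fun h => hrt (by rw [h]))
      have hsum' : ∀ i, ∑ p ∈ J' i, p.2 = ∑ p ∈ J i, p.2 := by
        intro i
        rw [hJ']
        simp only
        rw [Finset.sum_image fun x _ y _ h => hF h]
      have hcard' : ∀ i, (J' i).card = (J i).card := fun i =>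
        Finset.card_image_of_injective _ hF
      -- the touching pair
      have htouch : |s * p.1 - s * q.1| = p.2 + q.2 := by
        rw [← mul_sub, abs_mul, abs_of_pos hs0, hs, div_mul_cancel₀ _ (hdist _ p hp q hq hpq).ne']
      have hpair : ∃ a ∈ J' i₀, ∃ b ∈ J' i₀, a ≠ b ∧ b.1 - a.1 = a.2 + b.2 := by
        have hFp : F p ∈ J' i₀ := Finset.mem_image_of_mem F hp
        have hFq : F q ∈ J' i₀ := Finset.mem_image_of_mem F hq
        have hFne : F p ≠ F q := fun h => hpq (hF h)
        rcases abs_cases (s * p.1 - s * q.1) with ⟨h1, -⟩ | ⟨h1, -⟩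
        · refine ⟨F q, hFq, F p, hFp, hFne.symm, ?_⟩
          simp only [F]
          linarith
        · refine ⟨F p, hFp, F q, hFq, hFne, ?_⟩
          simp only [F]
          linarith
      obtain ⟨a, ha, b, hb, hab, hab2⟩ := hpair
      obtain ⟨J'', h1, h2, h3, h4, h5⟩ := merge_step J' hpos' hsep' i₀ a b ha hb hab hab2
      have h6 : ∑ i, (J'' i).card < n := by
        rw [← hn]
        simpa only [hcard'] using h5
      have h7 := ih _ h6 J'' rfl h1 h2
      simp only [h4, hsum'] at h7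
      refine le_trans (measure_mono ?_) h7
      exact inter_subset_inter_right _ (pi_mono fun i _ => h3 i)

theorem bll_finite {m : ℕ} (hBM : BM m) {C : Set (Fin m → ℝ)} (hC : Convex ℝ C)
    (hCm : MeasurableSet C) (hsym : ∀ t ∈ C, -t ∈ C) (J : Fin m → Finset (ℝ × ℝ))
    (hpos : ∀ i, ∀ p ∈ J i, 0 < p.2)
    (hdisj : ∀ i, (J i : Set (ℝ × ℝ)).PairwiseDisjoint (fun p => Ioo (p.1 - p.2) (p.1 + p.2))) :
    volume (C ∩ Set.pi univ (fun i => ⋃ p ∈ J i, Ioo (p.1 - p.2) (p.1 + p.2)))
      ≤ volume (C ∩ Set.pi univ (fun i => Ioo (-(∑ p ∈ J i, p.2)) (∑ p ∈ J i, p.2))) :=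
  bll_sep hBM hC hCm hsym _ J rfl hpos fun i p hp q hq hpq =>
    sep_of_disj (hpos i p hp) (hpos i q hq) (hdisj i hp hq hpq)

end Pool.Agent.Lib.MP_d3943d_an
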