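import Pool.Agent.Lib.MP_d3943d_an.BLLOpen

set_option autoImplicit false

/-!
Brascamp-Lieb-Luttinger on the line for functions.
-/

namespace Pool.Agent.Lib.MP_d3943d_an

open MeasureTheory Set
open scoped ENNReal ContDiff Pointwise

/-- The symmetric decreasing rearrangement on the line. -/
noncomputable def star (f : ℝ → ℝ) (s : ℝ) : ℝ :=
  sInf {c : ℝ | 0 ≤ c ∧ volume {t | c < f t} ≤ ENNReal.ofReal (2 * |s|)}

theorem lt_star_iff {f : ℝ → ℝ} (hf : Continuous f) (hc : HasCompactSupport f)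
    (hf0 : ∀ t, 0 ≤ f t) {c : ℝ} (hc0 : 0 ≤ c) (s : ℝ) :
    c < star f s ↔ ENNReal.ofReal (2 * |s|) < volume {t | c < f t} := by
  constructor
  · intro h
    by_contra hcon
    push Not at hcon
    have hmem : c ∈ {c : ℝ | 0 ≤ c ∧ volume {t | c < f t} ≤ ENNReal.ofReal (2 * |s|)} :=
      ⟨hc0, hcon⟩
    have hle : star f s ≤ c := csInf_le ⟨0, fun x hx => hx.1⟩ hmem
    linarith
  · intro h
    -- right continuity
    have hmono : Monotone (fun n : ℕ => {t | c + 1 / ((n : ℝ) + 1) < f t}) := by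
      intro a b hab t ht
      simp only [mem_ofPred_eq] at ht ⊢
      have : 1 / ((b : ℝ) + 1) ≤ 1 / ((a : ℝ) + 1) := by
        apply one_div_le_one_div_of_le
        · positivity
        · have : (a : ℝ) ≤ b := by exact_mod_cast hab
          linarith
      linarith
    have hU : (⋃ n : ℕ, {t | c + 1 / ((n : ℝ) + 1) < f t}) = {t | c < f t} := by
      ext t
      simp only [mem_iUnion, mem_ofPred_eq]
      constructor
      · rintro ⟨n, hn⟩
        have : 0 < 1 / ((n : ℝ) + 1) := by positivity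
        linarith
      · intro ht
        obtain ⟨n, hn⟩ := exists_nat_one_div_lt (sub_pos.mpr ht)
        exact ⟨n, by linarith⟩
    have hlim := tendsto_measure_iUnion_atTop (μ := volume) hmono
    rw [hU] at hlim
    obtain ⟨n, hn⟩ := ((hlim.eventually (lt_mem_nhds h)).exists)
    have hne : {c : ℝ | 0 ≤ c ∧ volume {t | c < f t} ≤ ENNReal.ofReal (2 * |s|)}.Nonempty := by
      obtain ⟨C, hC⟩ := hc.exists_bound_of_continuous hf
      refine ⟨max C 0, le_max_right _ _, ?_⟩
      have : {t | max C 0 < f t} = ∅ := by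
        ext t
        simp only [mem_ofPred_eq, mem_empty_iff_false, iff_false, not_lt]
        exact ((le_abs_self _).trans (hC t)).trans (le_max_left _ _)
      rw [this]
      simp
    have hge : c + 1 / ((n : ℝ) + 1) ≤ star f s := by
      refine le_csInf hne ?_
      intro b hb
      by_contra hlt
      push Not at hlt
      have hsub : {t | c + 1 / ((n : ℝ) + 1) < f t} ⊆ {t | b < f t} := by
        intro t ht
        simp only [mem_ofPred_eq] at ht ⊢
        linarith
      exact absurd ((measure_mono hsub).trans hb.2) (not_le.mpr hn)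
    have : 0 < 1 / ((n : ℝ) + 1) := by positivity
    linarith

theorem bllFun_star_nonneg (f : ℝ → ℝ) (s : ℝ) : 0 ≤ star f s :=
  Real.sInf_nonneg (fun _ hx => hx.1)

theorem bllFun_finite {f : ℝ → ℝ} (hc : HasCompactSupport f) {c : ℝ} (hc0 : 0 ≤ c) :
    volume {t | c < f t} ≠ ⊤ := by
  refine ((measure_mono ?_).trans_lt hc.isCompact.measure_lt_top).ne
  intro t ht
  apply subset_tsupport
  simp only [mem_ofPred_eq] at ht
  rw [Function.mem_support]
  linarith

theorem bllFun_level {f : ℝ → ℝ} (hf : Continuous f) (hc : HasCompactSupport f)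
    (hf0 : ∀ t, 0 ≤ f t) {c : ℝ} (hc0 : 0 ≤ c) :
    {s | c < star f s} = Ioo (-((volume {t | c < f t}).toReal / 2))
      ((volume {t | c < f t}).toReal / 2) := by
  have hfin := bllFun_finite (f := f) hc hc0
  ext s
  rw [mem_ofPred_eq, lt_star_iff hf hc hf0 hc0, mem_Ioo, ← abs_lt,
    ENNReal.ofReal_lt_iff_lt_toReal (by positivity) hfin]
  constructor
  · intro h; linarith
  · intro h; linarith

theorem bllFun_measurable_star {f : ℝ → ℝ} (hf : Continuous f) (hc : HasCompactSupport f)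
    (hf0 : ∀ t, 0 ≤ f t) : Measurable (star f) := by
  apply measurable_of_Ioi
  intro c
  rcases le_or_gt 0 c with h | h
  · have : star f ⁻¹' Ioi c = {s | c < star f s} := rfl
    rw [this, bllFun_level hf hc hf0 h]
    exact measurableSet_Ioo
  · have : star f ⁻¹' Ioi c = univ := by
      ext s
      simp only [mem_preimage, mem_Ioi, mem_univ, iff_true]
      exact lt_of_lt_of_le h (bllFun_star_nonneg f s)
    rw [this]
    exact MeasurableSet.univ

theorem bllFun_vol (x : ℝ≥0∞) : volume {c : ℝ | 0 < c ∧ ENNReal.ofReal c < x} = x := by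
  by_cases hx : x = ⊤
  · subst hx
    have : {c : ℝ | 0 < c ∧ ENNReal.ofReal c < ⊤} = Ioi 0 := by
      ext c; simp
    rw [this, Real.volume_Ioi]
  · have : {c : ℝ | 0 < c ∧ ENNReal.ofReal c < x} = Ioo 0 x.toReal := by
      ext c
      simp only [mem_ofPred_eq, mem_Ioo]
      constructor
      · rintro ⟨h1, h2⟩
        exact ⟨h1, (ENNReal.ofReal_lt_iff_lt_toReal h1.le hx).mp h2⟩
      · rintro ⟨h1, h2⟩
        exact ⟨h1, (ENNReal.ofReal_lt_iff_lt_toReal h1.le hx).mpr h2⟩
    rw [this, Real.volume_Ioo, sub_zero, ENNReal.ofReal_toReal hx]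

theorem bllFun_layer {m : ℕ} (k : (Fin m → ℝ) → ℝ≥0∞) (hk : Measurable k) (g : Fin m → ℝ → ℝ)
    (hg : ∀ i, Measurable (g i)) :
    ∫⁻ t, k t * ∏ i, ENNReal.ofReal (g i (t i)) =
      ∫⁻ p : ℝ × (Fin m → ℝ), volume {t : Fin m → ℝ | (0 < p.1 ∧ ENNReal.ofReal p.1 < k t) ∧
        ∀ i, 0 < p.2 i ∧ p.2 i < g i (t i)} := by
  set E : Set ((Fin m → ℝ) × (ℝ × (Fin m → ℝ))) :=
    {z | (0 < z.2.1 ∧ ENNReal.ofReal z.2.1 < k z.1) ∧ ∀ i, 0 < z.2.2 i ∧ z.2.2 i < g i (z.1 i)}
    with hE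
  have hEm : MeasurableSet E := by
    have h1 : Measurable (fun z : (Fin m → ℝ) × (ℝ × (Fin m → ℝ)) => z.2.1) :=
      measurable_fst.comp measurable_snd
    have h2 : MeasurableSet {z : (Fin m → ℝ) × (ℝ × (Fin m → ℝ)) | 0 < z.2.1} :=
      measurableSet_lt measurable_const h1
    have h3 : MeasurableSet {z : (Fin m → ℝ) × (ℝ × (Fin m → ℝ)) |
        ENNReal.ofReal z.2.1 < k z.1} :=
      measurableSet_lt (ENNReal.measurable_ofReal.comp h1) (hk.comp measurable_fst)
    have h4 : ∀ i, Measurable (fun z : (Fin m → ℝ) × (ℝ × (Fin m → ℝ)) => z.2.2 i) :=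
      fun i => (measurable_pi_apply i).comp (measurable_snd.comp measurable_snd)
    have h5 : ∀ i, Measurable (fun z : (Fin m → ℝ) × (ℝ × (Fin m → ℝ)) => g i (z.1 i)) :=
      fun i => (hg i).comp ((measurable_pi_apply i).comp measurable_fst)
    have h6 : MeasurableSet {z : (Fin m → ℝ) × (ℝ × (Fin m → ℝ)) |
        ∀ i, 0 < z.2.2 i ∧ z.2.2 i < g i (z.1 i)} := by
      rw [ofPred_forall]
      exact MeasurableSet.iInter fun i =>
        (measurableSet_lt measurable_const (h4 i)).inter (measurableSet_lt (h4 i) (h5 i))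
    exact (h2.inter h3).inter h6
  have e1 := Measure.prod_apply (μ := (volume : Measure (Fin m → ℝ)))
    (ν := (volume : Measure (ℝ × (Fin m → ℝ)))) hEm
  have e2 := Measure.prod_apply_symm (μ := (volume : Measure (Fin m → ℝ)))
    (ν := (volume : Measure (ℝ × (Fin m → ℝ)))) hEm
  rw [e1] at e2
  have e3 : ∀ t : Fin m → ℝ, volume (Prod.mk t ⁻¹' E) =
      k t * ∏ i, ENNReal.ofReal (g i (t i)) := by
    intro t
    have : Prod.mk t ⁻¹' E = {c : ℝ | 0 < c ∧ ENNReal.ofReal c < k t} ×ˢ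
        Set.pi univ (fun i => Ioo (0 : ℝ) (g i (t i))) := by
      ext z
      simp only [hE, mem_preimage, mem_ofPred_eq, mem_prod, mem_pi, mem_univ, true_imp_iff, mem_Ioo]
    rw [this, Measure.volume_eq_prod, Measure.prod_prod, bllFun_vol, Real.volume_pi_Ioo]
    simp
  rw [← lintegral_congr e3, e2]
  rfl

theorem bll_fun {m : ℕ} (hBM : BM m) (k : (Fin m → ℝ) → ℝ≥0∞) (hk : Measurable k)
    (hconv : ∀ c, Convex ℝ {t | c < k t}) (hsym : ∀ t, k (-t) = k t) (f : Fin m → ℝ → ℝ)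
    (hf : ∀ i, Continuous (f i)) (hfc : ∀ i, HasCompactSupport (f i)) (hf0 : ∀ i t, 0 ≤ f i t) :
    ∫⁻ t, k t * ∏ i, ENNReal.ofReal (f i (t i))
      ≤ ∫⁻ t, k t * ∏ i, ENNReal.ofReal (star (f i) (t i)) := by
  rw [bllFun_layer k hk f (fun i => (hf i).measurable),
    bllFun_layer k hk (fun i => star (f i))
      (fun i => bllFun_measurable_star (hf i) (hfc i) (hf0 i))]
  refine lintegral_mono ?_
  rintro ⟨c₀, c⟩
  by_cases h : 0 < c₀ ∧ ∀ i, 0 < c i
  · have hC : MeasurableSet {t : Fin m → ℝ | ENNReal.ofReal c₀ < k t} :=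
      measurableSet_lt measurable_const hk
    have h1 := bll_open hBM (hconv (ENNReal.ofReal c₀)) hC
      (fun t ht => by simpa [hsym t] using ht) (fun i => {s | c i < f i s})
      (fun i => isOpen_lt continuous_const (hf i))
      (fun i => bllFun_finite (hfc i) (h.2 i).le)
    have e1 : {t : Fin m → ℝ | (0 < c₀ ∧ ENNReal.ofReal c₀ < k t) ∧
        ∀ i, 0 < c i ∧ c i < f i (t i)} =
        {t : Fin m → ℝ | ENNReal.ofReal c₀ < k t} ∩ Set.pi univ (fun i => {s | c i < f i s}) := by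
      ext t
      simp only [mem_ofPred_eq, mem_inter_iff, mem_pi, mem_univ, true_imp_iff]
      constructor
      · rintro ⟨a, b⟩; exact ⟨a.2, fun i => (b i).2⟩
      · rintro ⟨a, b⟩; exact ⟨⟨h.1, a⟩, fun i => ⟨h.2 i, b i⟩⟩
    have e2 : {t : Fin m → ℝ | (0 < c₀ ∧ ENNReal.ofReal c₀ < k t) ∧
        ∀ i, 0 < c i ∧ c i < star (f i) (t i)} =
        {t : Fin m → ℝ | ENNReal.ofReal c₀ < k t} ∩ Set.pi univ
          (fun i => Ioo (-((volume {s | c i < f i s}).toReal / 2))
            ((volume {s | c i < f i s}).toReal / 2)) := by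
      ext t
      simp only [mem_ofPred_eq, mem_inter_iff, mem_pi, mem_univ, true_imp_iff]
      constructor
      · rintro ⟨a, b⟩
        refine ⟨a.2, fun i => ?_⟩
        rw [← bllFun_level (hf i) (hfc i) (hf0 i) (h.2 i).le]
        exact (b i).2
      · rintro ⟨a, b⟩
        refine ⟨⟨h.1, a⟩, fun i => ⟨h.2 i, ?_⟩⟩
        have := b i
        rw [← bllFun_level (hf i) (hfc i) (hf0 i) (h.2 i).le] at this
        exact this
    show volume {t : Fin m → ℝ | (0 < c₀ ∧ ENNReal.ofReal c₀ < k t) ∧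
        ∀ i, 0 < c i ∧ c i < f i (t i)} ≤ volume {t : Fin m → ℝ |
        (0 < c₀ ∧ ENNReal.ofReal c₀ < k t) ∧ ∀ i, 0 < c i ∧ c i < star (f i) (t i)}
    rw [e1, e2]
    exact h1
  · have e1 : {t : Fin m → ℝ | (0 < c₀ ∧ ENNReal.ofReal c₀ < k t) ∧
        ∀ i, 0 < c i ∧ c i < f i (t i)} = ∅ := by
      ext t
      simp only [mem_ofPred_eq, mem_empty_iff_false, iff_false]
      rintro ⟨a, b⟩
      exact h ⟨a.1, fun i => (b i).1⟩
    show volume {t : Fin m → ℝ | (0 < c₀ ∧ ENNReal.ofReal c₀ < k t) ∧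
        ∀ i, 0 < c i ∧ c i < f i (t i)} ≤ _
    rw [e1]
    simp

end Pool.Agent.Lib.MP_d3943d_an
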