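import Pool.Agent.Lib.MP_d3943d_an.BLLFinite

set_option autoImplicit false

/-!
Brascamp-Lieb-Luttinger on the line for open sets.
-/

namespace Pool.Agent.Lib.MP_d3943d_an

open MeasureTheory Set
open scoped ENNReal ContDiff Pointwise

private def dI (k : ℕ) (j : ℤ) : Set ℝ := Ico ((j : ℝ) / 2 ^ k) (((j : ℝ) + 1) / 2 ^ k)

private theorem mem_dI {k : ℕ} {j : ℤ} {x : ℝ} : x ∈ dI k j ↔ (j : ℝ) ≤ x * 2 ^ k ∧
    x * 2 ^ k < (j : ℝ) + 1 := by
  have h : (0 : ℝ) < 2 ^ k := by positivity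
  unfold dI
  rw [mem_Ico, div_le_iff₀ h, lt_div_iff₀ h]

private theorem dI_eq {k : ℕ} {j : ℤ} {x : ℝ} (h : x ∈ dI k j) : j = ⌊x * 2 ^ k⌋ := by
  rw [mem_dI] at h
  exact (Int.floor_eq_iff.2 h).symm

private theorem mem_floor (k : ℕ) (x : ℝ) : x ∈ dI k ⌊x * 2 ^ k⌋ := by
  rw [mem_dI]
  exact ⟨Int.floor_le _, Int.lt_floor_add_one _⟩

open Classical in
private noncomputable def dJ (A : Set ℝ) (k : ℕ) : Finset ℤ :=
  (Finset.Ico (-((k : ℤ) * 2 ^ k)) ((k : ℤ) * 2 ^ k)).filter (fun j => dI k j ⊆ A)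

private def dB (A : Set ℝ) (k : ℕ) : Set ℝ := ⋃ j ∈ dJ A k, dI k j

private theorem mem_dB {A : Set ℝ} {k : ℕ} {x : ℝ} : x ∈ dB A k ↔
    (-((k : ℤ) * 2 ^ k) ≤ ⌊x * 2 ^ k⌋ ∧ ⌊x * 2 ^ k⌋ < (k : ℤ) * 2 ^ k) ∧
      dI k ⌊x * 2 ^ k⌋ ⊆ A := by
  classical
  unfold dB dJ
  rw [mem_iUnion₂]
  constructor
  · rintro ⟨j, hj, hx⟩
    rw [← dI_eq hx]
    rw [Finset.mem_filter, Finset.mem_Ico] at hj
    exact hj
  · intro h
    refine ⟨⌊x * 2 ^ k⌋, ?_, mem_floor k x⟩
    rw [Finset.mem_filter, Finset.mem_Ico]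
    exact h

private theorem dB_subset (A : Set ℝ) (k : ℕ) : dB A k ⊆ A := fun x hx =>
  (mem_dB.1 hx).2 (mem_floor k x)

private theorem dB_mono (A : Set ℝ) : Monotone (dB A) := by
  refine monotone_nat_of_le_succ fun k x hx => ?_
  rw [mem_dB] at hx ⊢
  obtain ⟨⟨h1, h2⟩, h3⟩ := hx
  set j : ℤ := ⌊x * 2 ^ k⌋ with hj
  have h4 := mem_dI.1 (mem_floor k x)
  rw [← hj] at h4
  have h5 : 2 * j ≤ ⌊x * 2 ^ (k + 1)⌋ := by
    rw [Int.le_floor]
    push_cast
    rw [pow_succ]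
    linarith [h4.1]
  have h6 : ⌊x * 2 ^ (k + 1)⌋ ≤ 2 * j + 1 := by
    rw [← Int.lt_add_one_iff, Int.floor_lt]
    push_cast
    rw [pow_succ]
    linarith [h4.2]
  generalize ⌊x * 2 ^ (k + 1)⌋ = j' at h5 h6 ⊢
  refine ⟨⟨?_, ?_⟩, ?_⟩
  · push_cast
    have : (0 : ℤ) < 2 ^ k := by positivity
    rw [pow_succ]
    nlinarith
  · push_cast
    have : (0 : ℤ) < 2 ^ k := by positivity
    rw [pow_succ]
    nlinarith
  · refine Subset.trans (fun y hy => ?_) h3
    rw [mem_dI] at hy ⊢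
    have h5' : (2 * j : ℝ) ≤ (j' : ℝ) := by exact_mod_cast h5
    have h6' : (j' : ℝ) ≤ 2 * j + 1 := by exact_mod_cast h6
    rw [pow_succ, ← mul_assoc] at hy
    constructor <;> linarith [hy.1, hy.2]

private theorem dB_iUnion {A : Set ℝ} (hA : IsOpen A) : ⋃ k, dB A k = A := by
  apply Subset.antisymm (iUnion_subset fun k => dB_subset A k)
  intro x hx
  obtain ⟨ε, hε, hball⟩ := Metric.isOpen_iff.1 hA x hx
  obtain ⟨k₁, hk₁⟩ := exists_nat_gt |x|
  obtain ⟨k₂, hk₂⟩ := exists_pow_lt_of_lt_one hε (show (1 / 2 : ℝ) < 1 by norm_num)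
  rw [mem_iUnion]
  refine ⟨max k₁ k₂, ?_⟩
  set k := max k₁ k₂ with hk
  have hpow : (0 : ℝ) < 2 ^ k := by positivity
  have hxk : |x| < k := lt_of_lt_of_le hk₁ (by exact_mod_cast le_max_left k₁ k₂)
  have hεk : 1 < ε * 2 ^ k := by
    have h1 : (1 / 2 : ℝ) ^ k ≤ (1 / 2) ^ k₂ :=
      pow_le_pow_of_le_one (by norm_num) (by norm_num) (le_max_right k₁ k₂)
    have h2 : (1 / 2 : ℝ) ^ k < ε := lt_of_le_of_lt h1 hk₂
    have h3 : (1 / 2 : ℝ) ^ k * 2 ^ k = 1 := by rw [← mul_pow]; norm_num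
    rw [← h3]
    exact mul_lt_mul_of_pos_right h2 hpow
  rw [abs_lt] at hxk
  rw [mem_dB]
  refine ⟨⟨?_, ?_⟩, ?_⟩
  · rw [Int.le_floor]
    push_cast
    nlinarith [hxk.1]
  · rw [Int.floor_lt]
    push_cast
    nlinarith [hxk.2]
  · intro y hy
    apply hball
    rw [Metric.mem_ball, Real.dist_eq]
    have h1 := mem_dI.1 hy
    have h2 := mem_dI.1 (mem_floor k x)
    have h3 : |(y - x) * 2 ^ k| < 1 := by
      rw [abs_lt]
      constructor <;> linarith [h1.1, h1.2, h2.1, h2.2]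
    rw [abs_mul, abs_of_pos hpow] at h3
    exact lt_of_mul_lt_mul_right (h3.trans hεk) hpow.le

private theorem vol_dB (A : Set ℝ) (k : ℕ) :
    volume (dB A k) = ENNReal.ofReal ((dJ A k).card / 2 ^ k) := by
  unfold dB
  rw [measure_biUnion_finset]
  · have : ∀ j : ℤ, volume (dI k j) = ENNReal.ofReal (1 / 2 ^ k) := by
      intro j
      unfold dI
      rw [Real.volume_Ico]
      congr 1
      ring
    simp_rw [this]
    rw [Finset.sum_const, nsmul_eq_mul, ← ENNReal.ofReal_natCast,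
      ← ENNReal.ofReal_mul (Nat.cast_nonneg _)]
    congr 1
    ring
  · intro j _ j' _ hne
    simp only [Function.onFun]
    rw [Set.disjoint_left]
    intro x hx hx'
    exact hne ((dI_eq hx).trans (dI_eq hx').symm)
  · intro j _
    exact measurableSet_Ico

theorem bll_open {m : ℕ} (hBM : BM m) {C : Set (Fin m → ℝ)} (hC : Convex ℝ C)
    (hCm : MeasurableSet C) (hsym : ∀ t ∈ C, -t ∈ C) (A : Fin m → Set ℝ)
    (hA : ∀ i, IsOpen (A i)) (hfin : ∀ i, volume (A i) ≠ ⊤) :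
    volume (C ∩ Set.pi univ A)
      ≤ volume (C ∩ Set.pi univ
          (fun i => Ioo (-((volume (A i)).toReal / 2)) ((volume (A i)).toReal / 2))) := by
  classical
  have hmono : Monotone (fun k => C ∩ Set.pi univ (fun i => dB (A i) k)) := by
    intro k l hkl
    exact inter_subset_inter_right _ (pi_mono fun i _ => dB_mono (A i) hkl)
  have hun : C ∩ Set.pi univ A = ⋃ k, C ∩ Set.pi univ (fun i => dB (A i) k) := by
    rw [← inter_iUnion]
    congr 1
    ext x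
    rw [mem_iUnion]
    constructor
    · intro hx
      have h1 : ∀ i, ∃ k, x i ∈ dB (A i) k := by
        intro i
        have := hx i (mem_univ i)
        rw [← dB_iUnion (hA i)] at this
        exact mem_iUnion.1 this
      choose k hk using h1
      refine ⟨Finset.univ.sup k, fun i _ => dB_mono (A i) (Finset.le_sup (Finset.mem_univ i))
        (hk i)⟩
    · rintro ⟨k, hk⟩ i _
      exact dB_subset (A i) k (hk i (mem_univ i))
  rw [hun, hmono.measure_iUnion]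
  refine iSup_le fun k => ?_
  have hpow : (0 : ℝ) < 2 ^ k := by positivity
  let F : ℤ → ℝ × ℝ := fun j => (((j : ℝ) + 1 / 2) / 2 ^ k, 1 / 2 / 2 ^ k)
  have hF : Function.Injective F := by
    intro j j' h
    have h1 := congrArg Prod.fst h
    simp only [F] at h1
    rw [div_left_inj' hpow.ne'] at h1
    have h2 : (j : ℝ) = j' := by linarith
    exact_mod_cast h2
  have hFI : ∀ j : ℤ, Ioo ((F j).1 - (F j).2) ((F j).1 + (F j).2)
      = Ioo ((j : ℝ) / 2 ^ k) (((j : ℝ) + 1) / 2 ^ k) := by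
    intro j
    simp only [F]
    congr 1 <;> ring
  let J : Fin m → Finset (ℝ × ℝ) := fun i => (dJ (A i) k).image F
  have hcov : ∀ i, (dB (A i) k : Set ℝ) =ᵐ[volume]
      (⋃ p ∈ J i, Ioo (p.1 - p.2) (p.1 + p.2) : Set ℝ) := by
    intro i
    have h1 : (⋃ p ∈ J i, Ioo (p.1 - p.2) (p.1 + p.2) : Set ℝ)
        = ⋃ j ∈ dJ (A i) k, Ioo ((j : ℝ) / 2 ^ k) (((j : ℝ) + 1) / 2 ^ k) := by
      simp only [J]
      rw [Finset.set_biUnion_finset_image]
      simp_rw [hFI]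
    rw [h1]
    unfold dB
    refine Filter.EventuallyEq.symm ?_
    have h2 := Filter.EventuallyEq.countable_bUnion (l := ae (volume : Measure ℝ))
      (S := ((dJ (A i) k : Finset ℤ) : Set ℤ)) (Finset.countable_toSet _)
      (s := fun j _ => Ioo ((j : ℝ) / 2 ^ k) (((j : ℝ) + 1) / 2 ^ k))
      (t := fun j _ => dI k j) (fun j _ => Ioo_ae_eq_Ico)
    exact h2
  have hpi : (Set.pi univ (fun i => dB (A i) k) : Set (Fin m → ℝ)) =ᵐ[volume]
      (Set.pi univ (fun i => ⋃ p ∈ J i, Ioo (p.1 - p.2) (p.1 + p.2)) : Set (Fin m → ℝ)) :=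
    Measure.ae_eq_set_pi fun i _ => hcov i
  rw [measure_congr ((Filter.EventuallyEq.refl _ _).inter hpi)]
  refine (bll_finite hBM hC hCm hsym J ?_ ?_).trans ?_
  · intro i p hp
    obtain ⟨j, _, rfl⟩ := Finset.mem_image.1 hp
    simp only [F]
    positivity
  · intro i p hp q hq hpq
    obtain ⟨j, _, rfl⟩ := Finset.mem_image.1 (Finset.mem_coe.1 hp)
    obtain ⟨j', _, rfl⟩ := Finset.mem_image.1 (Finset.mem_coe.1 hq)
    simp only [Function.onFun]
    rw [hFI, hFI, Set.disjoint_left]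
    intro x hx hx'
    exact hpq (congrArg F ((dI_eq (Ioo_subset_Ico_self hx)).trans
      (dI_eq (Ioo_subset_Ico_self hx')).symm))
  · refine measure_mono (inter_subset_inter_right _ (pi_mono fun i _ => ?_))
    have h1 : ∑ p ∈ J i, p.2 = (dJ (A i) k).card / 2 ^ k / 2 := by
      simp only [J]
      rw [Finset.sum_image fun x _ y _ h => hF h]
      simp only [F]
      rw [Finset.sum_const, nsmul_eq_mul]
      ring
    have h2 : ((dJ (A i) k).card / 2 ^ k : ℝ) ≤ (volume (A i)).toReal := by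
      have h3 := measure_mono (μ := volume) (dB_subset (A i) k)
      rw [vol_dB] at h3
      exact (ENNReal.ofReal_le_iff_le_toReal (hfin i)).1 h3
    rw [h1]
    exact Ioo_subset_Ioo (by linarith) (by linarith)

end Pool.Agent.Lib.MP_d3943d_an
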