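import Pool.Agent.Lib.MP_6d4359_pr.PL

set_option autoImplicit false

/-!
Brunn-Minkowski in small dimensions.
-/

namespace Pool.Agent.Lib.MP_d3943d_an

open MeasureTheory Set
open scoped ENNReal ContDiff Pointwise

/-- Multiplicative Brunn-Minkowski in dimension `m`. -/
def BM (m : ℕ) : Prop :=
  ∀ A B : Set (Fin m → ℝ), MeasurableSet A → MeasurableSet B → ∀ l k : ℝ, 0 < l → 0 < k →
    l + k = 1 → volume A ^ l * volume B ^ k ≤ volume (l • A + k • B)

theorem bm_2 : BM 2 := by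
  intro A B hA hB l k hl hk hlk
  exact Pool.Agent.Lib.MP_6d4359_pr.bm_fin_two hA hB hl hk hlk

/-- Multiplicative Brunn-Minkowski in `ℝ × (Fin m → ℝ)` for compact sets. -/
theorem bm_prod_compact {m : ℕ} (hBM : BM m) {A B : Set (ℝ × (Fin m → ℝ))} (hA : IsCompact A)
    (hB : IsCompact B) {l k : ℝ} (hl : 0 < l) (hk : 0 < k) (hlk : l + k = 1) :
    volume A ^ l * volume B ^ k ≤ volume (l • A + k • B) := by
  set C := l • A + k • B with hCdef
  have hC : IsCompact C := (hA.smul l).add (hB.smul k)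
  have fin : ∀ {S : Set (ℝ × (Fin m → ℝ))}, IsCompact S → ∀ y : ℝ,
      volume (Prod.mk y ⁻¹' S) ≤ volume (Prod.snd '' S) := by
    intro S _ y
    refine measure_mono (fun x hx => ⟨(y, x), hx, rfl⟩)
  have fintop : ∀ {S : Set (ℝ × (Fin m → ℝ))}, IsCompact S → volume (Prod.snd '' S) ≠ ⊤ :=
    fun hS => (hS.image continuous_snd).measure_lt_top.ne
  have sectop : ∀ {S : Set (ℝ × (Fin m → ℝ))}, IsCompact S → ∀ y : ℝ,
      volume (Prod.mk y ⁻¹' S) ≠ ⊤ :=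
    fun hS y => ne_top_of_le_ne_top (fintop hS) (fin hS y)
  have meas : ∀ {S : Set (ℝ × (Fin m → ℝ))}, IsCompact S →
      Measurable (fun y : ℝ => (volume (Prod.mk y ⁻¹' S)).toReal) :=
    fun hS => (measurable_measure_prodMk_left hS.measurableSet).ennreal_toReal
  have vol : ∀ {S : Set (ℝ × (Fin m → ℝ))}, IsCompact S →
      volume S = ∫⁻ y : ℝ, ENNReal.ofReal (volume (Prod.mk y ⁻¹' S)).toReal := by
    intro S hS
    rw [Measure.volume_eq_prod, Measure.prod_apply hS.measurableSet]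
    exact lintegral_congr (fun y => (ENNReal.ofReal_toReal (sectop hS y)).symm)
  have bdd : ∀ {S : Set (ℝ × (Fin m → ℝ))}, IsCompact S →
      BddAbove (range (fun y : ℝ => (volume (Prod.mk y ⁻¹' S)).toReal)) := by
    intro S hS
    refine ⟨(volume (Prod.snd '' S)).toReal, ?_⟩
    rintro _ ⟨y, rfl⟩
    exact ENNReal.toReal_mono (fintop hS) (fin hS y)
  rw [vol hA, vol hB, vol hC]
  refine Pool.Agent.Lib.MP_6d4359_pr.pl_one (meas hA) (meas hB) (meas hC)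
    (fun _ => ENNReal.toReal_nonneg)
    (fun _ => ENNReal.toReal_nonneg) (fun _ => ENNReal.toReal_nonneg) (bdd hA) (bdd hB)
    hl hk hlk (fun y z => ?_)
  have hcont : ∀ y : ℝ, Continuous (Prod.mk y : (Fin m → ℝ) → ℝ × (Fin m → ℝ)) := fun y =>
    continuous_const.prodMk continuous_id
  have h1 := hBM (Prod.mk y ⁻¹' A) (Prod.mk z ⁻¹' B)
    ((hcont y).measurable hA.measurableSet) ((hcont z).measurable hB.measurableSet) l k hl hk hlk
  have h2 : l • (Prod.mk y ⁻¹' A) + k • (Prod.mk z ⁻¹' B) ⊆ Prod.mk (l * y + k * z) ⁻¹' C := by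
    rintro _ ⟨_, ⟨x, hx, rfl⟩, _, ⟨x', hx', rfl⟩, rfl⟩
    refine ⟨l • (y, x), ⟨_, hx, rfl⟩, k • (z, x'), ⟨_, hx', rfl⟩, ?_⟩
    simp
  have h3 := h1.trans (measure_mono h2)
  have h4 := ENNReal.toReal_mono (sectop hC _) h3
  rwa [ENNReal.toReal_mul, ← ENNReal.toReal_rpow, ← ENNReal.toReal_rpow] at h4

theorem bm_prod {m : ℕ} (hBM : BM m) {A B : Set (ℝ × (Fin m → ℝ))} (hA : MeasurableSet A)
    (hB : MeasurableSet B) {l k : ℝ} (hl : 0 < l) (hk : 0 < k) (hlk : l + k = 1) :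
    volume A ^ l * volume B ^ k ≤ volume (l • A + k • B) := by
  have e : ∀ {S : Set (ℝ × (Fin m → ℝ))}, MeasurableSet S → ∀ {r : ℝ}, 0 < r →
      volume S ^ r = ⨆ (K : Set (ℝ × (Fin m → ℝ))) (_ : K ⊆ S ∧ IsCompact K), volume K ^ r := by
    intro S hS r hr
    rw [hS.measure_eq_iSup_isCompact]
    simp only [iSup_and']
    exact (ENNReal.orderIsoRpow r hr).map_iSup₂ _
  rw [e hA hl, e hB hk]
  simp only [ENNReal.iSup_mul, ENNReal.mul_iSup]
  refine iSup_le (fun K => iSup_le (fun hK => iSup_le (fun L => iSup_le (fun hL => ?_))))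
  refine (bm_prod_compact hBM hL.2 hK.2 hl hk hlk).trans (measure_mono ?_)
  exact Set.add_subset_add (Set.smul_set_mono hL.1) (Set.smul_set_mono hK.1)

theorem bm_succ {m : ℕ} (hBM : BM m) : BM (m + 1) := by
  intro A B hA hB l k hl hk hlk
  set T := MeasurableEquiv.piFinSuccAbove (fun _ : Fin (m + 1) => ℝ) 0 with hT
  have hmp := volume_preserving_piFinSuccAbove (fun _ : Fin (m + 1) => ℝ) 0
  have h : ∀ S : Set (Fin (m + 1) → ℝ), volume S = volume (T '' S) := by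
    intro S
    rw [MeasurableEquiv.image_eq_preimage_symm]
    exact ((hmp.symm _).measure_preimage_equiv S).symm
  have hadd : ∀ a b : Fin (m + 1) → ℝ, T (a + b) = T a + T b := fun a b => rfl
  have hsmul : ∀ (r : ℝ) (a : Fin (m + 1) → ℝ), T (r • a) = r • T a := fun r a => rfl
  have hlin : T '' (l • A + k • B) = l • (T '' A) + k • (T '' B) := by
    ext z
    constructor
    · rintro ⟨_, ⟨_, ⟨a, ha, rfl⟩, _, ⟨b, hb, rfl⟩, rfl⟩, rfl⟩
      exact ⟨_, ⟨_, ⟨a, ha, rfl⟩, rfl⟩, _, ⟨_, ⟨b, hb, rfl⟩, rfl⟩, rfl⟩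
    · rintro ⟨_, ⟨_, ⟨a, ha, rfl⟩, rfl⟩, _, ⟨_, ⟨b, hb, rfl⟩, rfl⟩, rfl⟩
      exact ⟨_, ⟨_, ⟨a, ha, rfl⟩, _, ⟨b, hb, rfl⟩, rfl⟩, rfl⟩
  rw [h A, h B, h (l • A + k • B), hlin]
  exact bm_prod hBM ((MeasurableEquiv.measurableSet_image _).2 hA)
    ((MeasurableEquiv.measurableSet_image _).2 hB) hl hk hlk

theorem bm_3 : BM 3 := bm_succ bm_2

end Pool.Agent.Lib.MP_d3943d_an
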