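import Pool.Agent.Lib.MP_d3943d_an.LinesMX

set_option autoImplicit false

/-!
The line functional of the ball.
-/

namespace Pool.Agent.Lib.MP_d3943d_an

open MeasureTheory Set
open scoped ENNReal ContDiff

private theorem lint_Ioo {a b : ℝ} (hab : a ≤ b) (f F : ℝ → ℝ) (hf : Continuous f)
    (hF : ∀ x, HasDerivAt F (f x) x) (h0 : ∀ x ∈ Ioo a b, 0 ≤ f x) :
    ∫⁻ s in Ioo a b, ENNReal.ofReal (f s) = ENNReal.ofReal (F b - F a) := by
  rw [← ofReal_integral_eq_lintegral_ofReal]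
  · rw [← integral_Ioc_eq_integral_Ioo, ← intervalIntegral.integral_of_le hab,
      intervalIntegral.integral_eq_sub_of_hasDerivAt (fun x _ => hF x)
        (hf.intervalIntegrable _ _)]
  · exact (hf.integrableOn_Icc).mono_set Ioo_subset_Icc_self
  · exact (ae_restrict_iff' measurableSet_Ioo).2 (Filter.Eventually.of_forall h0)

private theorem inner_cube {h s : ℝ} (hs : s ∈ Ioo (-h) h) :
    ∫⁻ r in Ioo (-h) h, ENNReal.ofReal (|s - r| ^ 3)
      = ENNReal.ofReal (((s + h) ^ 4 + (h - s) ^ 4) / 4) := by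
  rw [← Ioc_union_Ioo_eq_Ioo hs.1.le hs.2, lintegral_union measurableSet_Ioo
    (by
      rw [Set.disjoint_left]
      intro x hx hx'
      exact absurd hx.2 (not_le.2 hx'.1)), setLIntegral_congr (Ioo_ae_eq_Ioc.symm)]
  have h1 : ∫⁻ r in Ioo (-h) s, ENNReal.ofReal (|s - r| ^ 3)
      = ENNReal.ofReal ((s + h) ^ 4 / 4) := by
    rw [setLIntegral_congr_fun measurableSet_Ioo (g := fun r => ENNReal.ofReal ((s - r) ^ 3))
      (fun r hr => by
        simp only
        rw [abs_of_pos (sub_pos.2 hr.2)])]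
    rw [lint_Ioo hs.1.le (fun r => (s - r) ^ 3) (fun r => - (s - r) ^ 4 / 4) (by fun_prop)]
    · congr 1
      ring
    · intro x
      have := (((hasDerivAt_id x).const_sub s).pow 4).neg.div_const 4
      refine this.congr_deriv ?_
      simp only [id_eq]
      ring
    · intro x hx
      exact pow_nonneg (sub_nonneg.2 hx.2.le) 3
  have h2 : ∫⁻ r in Ioo s h, ENNReal.ofReal (|s - r| ^ 3)
      = ENNReal.ofReal ((h - s) ^ 4 / 4) := by
    rw [setLIntegral_congr_fun measurableSet_Ioo (g := fun r => ENNReal.ofReal ((r - s) ^ 3))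
      (fun r hr => by
        simp only
        rw [abs_sub_comm, abs_of_pos (sub_pos.2 hr.1)])]
    rw [lint_Ioo hs.2.le (fun r => (r - s) ^ 3) (fun r => (r - s) ^ 4 / 4) (by fun_prop)]
    · congr 1
      ring
    · intro x
      have := (((hasDerivAt_id x).sub_const s).pow 4).div_const 4
      refine this.congr_deriv ?_
      simp only [id_eq]
      ring
    · intro x hx
      exact pow_nonneg (sub_nonneg.2 hx.1.le) 3
  rw [h1, h2, ← ENNReal.ofReal_add (by positivity) (by positivity)]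
  congr 1
  ring

private theorem outer_cube {h : ℝ} (hh : 0 ≤ h) :
    ∫⁻ s in Ioo (-h) h, ∫⁻ r in Ioo (-h) h, ENNReal.ofReal (|s - r| ^ 3)
      = ENNReal.ofReal (3 * (16 / 15 * h ^ 5)) := by
  rw [setLIntegral_congr_fun measurableSet_Ioo
    (g := fun s => ENNReal.ofReal (((s + h) ^ 4 + (h - s) ^ 4) / 4))
    (fun s hs => inner_cube hs)]
  rw [lint_Ioo (by linarith) (fun s => ((s + h) ^ 4 + (h - s) ^ 4) / 4)
    (fun s => ((s + h) ^ 5 - (h - s) ^ 5) / 20) (by fun_prop)]
  · congr 1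
    ring
  · intro x
    have := ((((hasDerivAt_id x).add_const h).pow 5).sub
      (((hasDerivAt_id x).const_sub h).pow 5)).div_const 20
    refine this.congr_deriv ?_
    simp only [id_eq]
    ring
  · intro x _
    positivity

private theorem sq_int {h : ℝ} (hh : 0 ≤ h) :
    ∫⁻ s in Ioo (-h) h, ENNReal.ofReal ((h ^ 2 - s ^ 2) ^ 2)
      = ENNReal.ofReal (16 / 15 * h ^ 5) := by
  rw [lint_Ioo (by linarith) (fun s => (h ^ 2 - s ^ 2) ^ 2)
    (fun s => h ^ 4 * s - 2 * h ^ 2 * s ^ 3 / 3 + s ^ 5 / 5) (by fun_prop)]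
  · congr 1
    ring
  · intro x
    have := ((((hasDerivAt_id x).const_mul (h ^ 4)).sub
      ((((hasDerivAt_id x).pow 3).const_mul (2 * h ^ 2)).div_const 3))).add
        (((hasDerivAt_id x).pow 5).div_const 5)
    refine this.congr_deriv ?_
    simp only [id_eq]
    ring
  · intro x _
    positivity

private theorem chord {n : ℕ} {R : ℝ} (hR : 0 < R) (y : E n) :
    {s : ℝ | ins s y ∈ Metric.ball (0 : E (n + 1)) R}
      = Ioo (-√(R ^ 2 - ‖y‖ ^ 2)) (√(R ^ 2 - ‖y‖ ^ 2)) := by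
  ext s
  rw [mem_ofPred_eq, Metric.mem_ball, dist_zero_right, mem_Ioo, ← abs_lt,
    ← abs_of_nonneg (Real.sqrt_nonneg _), ← sq_lt_sq, ← abs_of_nonneg (norm_nonneg (ins s y)),
    ← abs_of_pos hR, ← sq_lt_sq, norm_ins_sq, abs_of_pos hR]
  rcases le_total 0 (R ^ 2 - ‖y‖ ^ 2) with h | h
  · rw [Real.sq_sqrt h]
    constructor <;> intro h' <;> linarith
  · rw [Real.sqrt_eq_zero_of_nonpos h]
    constructor
    · intro h'
      nlinarith [sq_nonneg s]
    · intro h'
      nlinarith [sq_nonneg s]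

theorem MX_ball {n : ℕ} (R : ℝ) (hR : 0 < R) (X : E (n + 1)) (hX : X ≠ 0) :
    MX (Metric.ball (0 : E (n + 1)) R) X
      = ENNReal.ofReal (3 / ‖X‖ ^ 4 * ∫ x in Metric.ball (0 : E (n + 1)) R,
          (R ^ 2 - ‖x‖ ^ 2) ^ 2) := by
  have hXn : 0 < ‖X‖ := norm_pos_iff.2 hX
  obtain ⟨g, hg⟩ := exists_isometry (‖X‖⁻¹ • X) (by
    rw [norm_smul, norm_inv, norm_norm, inv_mul_cancel₀ hXn.ne'])
  have hpre : g ⁻¹' (Metric.ball (0 : E (n + 1)) R) = Metric.ball (0 : E (n + 1)) R := by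
    ext x
    simp
  have h1 : MX (Metric.ball (0 : E (n + 1)) R) X
      = ENNReal.ofReal ((‖X‖ ^ 4)⁻¹) * MX (Metric.ball (0 : E (n + 1)) R) (e 0) := by
    have h2 := MX_isom g (Metric.ball (0 : E (n + 1)) R) measurableSet_ball (e 0)
    rw [hpre, hg] at h2
    have h3 := MX_smul (Metric.ball (0 : E (n + 1)) R) (‖X‖⁻¹ • X) ‖X‖ hXn
    rw [smul_smul, mul_inv_cancel₀ hXn.ne', one_smul] at h3
    rw [h3, h2]
  have hcont : Continuous (fun x : E (n + 1) => (R ^ 2 - ‖x‖ ^ 2) ^ 2) := by fun_prop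
  have h4 : ENNReal.ofReal (∫ x in Metric.ball (0 : E (n + 1)) R, (R ^ 2 - ‖x‖ ^ 2) ^ 2)
      = ∫⁻ y : E n, ENNReal.ofReal (16 / 15 * (√(R ^ 2 - ‖y‖ ^ 2)) ^ 5) := by
    rw [ofReal_integral_eq_lintegral_ofReal, ← lintegral_indicator measurableSet_ball,
      lintegral_ins]
    · refine lintegral_congr fun y => ?_
      rw [← sq_int (Real.sqrt_nonneg _), ← lintegral_indicator measurableSet_Ioo]
      refine lintegral_congr fun s => ?_
      by_cases hs : ins s y ∈ Metric.ball (0 : E (n + 1)) R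
      · have hs' : s ∈ {s : ℝ | ins s y ∈ Metric.ball (0 : E (n + 1)) R} := hs
        rw [chord hR] at hs'
        rw [indicator_of_mem hs, indicator_of_mem hs', norm_ins_sq]
        have hpos : 0 ≤ R ^ 2 - ‖y‖ ^ 2 := by
          by_contra hneg
          rw [not_le] at hneg
          rw [Real.sqrt_eq_zero_of_nonpos hneg.le] at hs'
          simp at hs'
        rw [Real.sq_sqrt hpos]
        congr 2
        ring
      · have hs' : s ∉ {s : ℝ | ins s y ∈ Metric.ball (0 : E (n + 1)) R} := hs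
        rw [chord hR] at hs'
        rw [indicator_of_notMem hs, indicator_of_notMem hs']
    · exact (hcont.measurable.ennreal_ofReal).indicator measurableSet_ball
    · exact (hcont.continuousOn.integrableOn_compact (isCompact_closedBall _ _)).mono_set
        Metric.ball_subset_closedBall
    · exact Filter.Eventually.of_forall fun x => by positivity
  rw [h1, MX_e0 _ measurableSet_ball]
  simp_rw [chord hR, outer_cube (Real.sqrt_nonneg _)]
  rw [show (3 : ℝ) / ‖X‖ ^ 4 * ∫ x in Metric.ball (0 : E (n + 1)) R, (R ^ 2 - ‖x‖ ^ 2) ^ 2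
    = (‖X‖ ^ 4)⁻¹ * (3 * ∫ x in Metric.ball (0 : E (n + 1)) R, (R ^ 2 - ‖x‖ ^ 2) ^ 2) by ring,
    ENNReal.ofReal_mul (by positivity), ENNReal.ofReal_mul (by norm_num), h4]
  congr 1
  rw [← lintegral_const_mul' _ _ ENNReal.ofReal_ne_top]
  refine lintegral_congr fun y => ?_
  rw [ENNReal.ofReal_mul (by norm_num)]

end Pool.Agent.Lib.MP_d3943d_an
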