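import Pool.Agent.Lib.MP_d3943d_an.RieszStep

set_option autoImplicit false

/-!
The bathtub step of the Riesz inequality.
-/

namespace Pool.Agent.Lib.MP_d3943d_an

open MeasureTheory Set
open scoped ENNReal ContDiff Pointwise RealInnerProductSpace

/-- abstract bathtub principle -/
private theorem bath {N : ℕ} {H : E N → ℝ≥0∞} (hm : Measurable H) (h1 : ∀ x, H x ≤ 1)
    {U : E N → ℝ≥0∞} (hUm : Measurable U) (hU : ∀ x y : E N, ‖x‖ ≤ ‖y‖ → U y ≤ U x) (R : ℝ)
    (hint : ∫⁻ x, H x ≤ volume (Metric.ball (0 : E N) R)) :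
    ∫⁻ x, H x * U x ≤ ∫⁻ x in Metric.ball (0 : E N) R, U x := by
  set B : Set (E N) := Metric.ball (0 : E N) R with hB
  have hBm : MeasurableSet B := measurableSet_ball
  set c : ℝ≥0∞ := ⨆ y ∈ Bᶜ, U y with hc
  have hcB : ∀ x ∈ B, c ≤ U x := by
    intro x hx
    refine iSup₂_le (fun y hy => hU x y ?_)
    rw [hB, mem_ball_zero_iff] at hx
    rw [hB, mem_compl_iff, mem_ball_zero_iff, not_lt] at hy
    exact hx.le.trans hy
  have hcC : ∀ y ∈ Bᶜ, U y ≤ c := fun y hy => le_iSup₂_of_le y hy le_rfl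
  have hfin : ∫⁻ x in B, H x ≠ ⊤ := by
    have h2 : ∫⁻ x in B, H x ≤ volume B := (setLIntegral_le_lintegral _ _).trans hint
    exact ne_top_of_le_ne_top measure_ball_lt_top.ne h2
  have hsplit : (∫⁻ x in B, H x) + ∫⁻ x in Bᶜ, H x = ∫⁻ x, H x := lintegral_add_compl _ hBm
  have hsub : ∀ x, H x + (1 - H x) = 1 := fun x => add_tsub_cancel_of_le (h1 x)
  have hm1 : Measurable (fun x => 1 - H x) := measurable_const.sub hm
  have hmU : Measurable (fun x => H x * U x) := hm.mul hUm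
  have hvol : (∫⁻ x in B, H x) + ∫⁻ x in B, (1 - H x) = volume B := by
    rw [← lintegral_add_left hm]
    simp only [hsub]
    simp
  have hcomp : ∫⁻ x in Bᶜ, H x ≤ ∫⁻ x in B, (1 - H x) := by
    have : (∫⁻ x in B, H x) + ∫⁻ x in Bᶜ, H x ≤ (∫⁻ x in B, H x) + ∫⁻ x in B, (1 - H x) := by
      rw [hsplit, hvol]
      exact hint
    exact (ENNReal.add_le_add_iff_left hfin).1 this
  calc ∫⁻ x, H x * U x = (∫⁻ x in B, H x * U x) + ∫⁻ x in Bᶜ, H x * U x :=
        (lintegral_add_compl _ hBm).symm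
    _ ≤ (∫⁻ x in B, H x * U x) + ∫⁻ x in Bᶜ, H x * c :=
        add_le_add le_rfl (setLIntegral_mono (hm.mul_const c)
          (fun x hx => mul_le_mul_right (hcC x hx) _))
    _ = (∫⁻ x in B, H x * U x) + (∫⁻ x in Bᶜ, H x) * c := by rw [lintegral_mul_const c hm]
    _ ≤ (∫⁻ x in B, H x * U x) + (∫⁻ x in B, (1 - H x)) * c := by gcongr
    _ = (∫⁻ x in B, H x * U x) + ∫⁻ x in B, (1 - H x) * c := by
        rw [lintegral_mul_const c hm1]
    _ ≤ (∫⁻ x in B, H x * U x) + ∫⁻ x in B, (1 - H x) * U x :=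
        add_le_add le_rfl (setLIntegral_mono (hm1.mul hUm)
          (fun x hx => mul_le_mul_right (hcB x hx) _))
    _ = ∫⁻ x in B, U x := by
        rw [← lintegral_add_left hmU]
        congr 1
        funext x
        rw [← add_mul, hsub, one_mul]

/-- rearrangement inequality in `ℝ≥0∞` -/
private theorem rearr {a b A B : ℝ≥0∞} (h : b ≤ a) (h' : B ≤ A) :
    a * B + b * A ≤ a * A + b * B := by
  obtain ⟨u, rfl⟩ := exists_add_of_le h
  obtain ⟨w, rfl⟩ := exists_add_of_le h'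
  have : (b + u) * (B + w) + b * B = ((b + u) * B + b * (B + w)) + u * w := by ring
  rw [this]
  exact le_self_add

/-- the potential of a radially nonincreasing function is radially nonincreasing -/
private theorem pot_mono {N : ℕ} {K : ℝ → ℝ} (hK : Antitone K) {H : E N → ℝ≥0∞}
    (hm : Measurable H) (hrad : ∀ x y : E N, ‖x‖ ≤ ‖y‖ → H y ≤ H x) {x y : E N}
    (hxy : ‖x‖ ≤ ‖y‖) :
    ∫⁻ z, H z * ENNReal.ofReal (K ‖y - z‖) ≤ ∫⁻ z, H z * ENNReal.ofReal (K ‖x - z‖) := by
  by_cases hne : x = y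
  · rw [hne]
  have hKm : Measurable K := hK.measurable
  set v : E N := y - x with hv
  have hv0 : v ≠ 0 := sub_ne_zero.2 (fun h => hne h.symm)
  have hv2 : ‖v‖ ^ 2 ≠ 0 := pow_ne_zero _ (norm_ne_zero_iff.2 hv0)
  set m : E N := (1 / 2 : ℝ) • (x + y) with hmdef
  set ρ : E N ≃ₗᵢ[ℝ] E N := (Submodule.reflection (ℝ ∙ v)ᗮ) with hρ
  set s : E N → E N := fun z => ρ (z - m) + m with hs
  have hρa : ∀ w, ρ w = w - (2 * ⟪v, w⟫ / ‖v‖ ^ 2) • v := by
    intro w
    rw [hρ, Submodule.reflection_orthogonal_apply, Submodule.reflection_singleton_apply]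
    simp only [RCLike.ofReal_real_eq_id, id, neg_sub]
    congr 1
    rw [two_nsmul, ← add_smul]
    congr 1
    ring
  have hsm : Measurable s := by
    exact ((ρ.continuous.comp (continuous_id.sub continuous_const)).add
      continuous_const).measurable
  have hss : ∀ z, s (s z) = z := by
    intro z
    show ρ ((ρ (z - m) + m) - m) + m = z
    rw [add_sub_cancel_right, hρ, Submodule.reflection_reflection, sub_add_cancel]
  have hsd : ∀ z w, ‖s z - s w‖ = ‖z - w‖ := by
    intro z w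
    show ‖(ρ (z - m) + m) - (ρ (w - m) + m)‖ = ‖z - w‖
    rw [add_sub_add_right_eq_sub, ← map_sub, ρ.norm_map, sub_sub_sub_cancel_right]
  have hsx : s x = y := by
    show ρ (x - m) + m = y
    have h1 : x - m = (-(1 / 2) : ℝ) • v := by
      rw [hmdef, hv]
      module
    have h2 : ρ v = -v := by
      rw [hρa, real_inner_self_eq_norm_sq]
      have : 2 * ‖v‖ ^ 2 / ‖v‖ ^ 2 = 2 := by field_simp
      rw [this]
      module
    rw [h1, map_smul, h2, hmdef, hv]
    module
  have hsy : s y = x := by rw [← hsx, hss]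
  -- change of variables
  have hcv : ∀ g : E N → ℝ≥0∞, ∫⁻ z, g (s z) = ∫⁻ z, g z := by
    intro g
    calc ∫⁻ z, g (ρ (z - m) + m) = ∫⁻ z, g (ρ z + m) :=
          lintegral_sub_right_eq_self (fun z => g (ρ z + m)) m
      _ = ∫⁻ z, g (z + m) := lintegral_isom ρ (fun z => g (z + m))
      _ = ∫⁻ z, g z := lintegral_add_right_eq_self g m
  -- the geometric fact
  have hgeo : ∀ z, ‖z - x‖ ≤ ‖z - y‖ → ‖z‖ ≤ ‖s z‖ := by
    intro z hz
    have hz2 : ‖z - x‖ ^ 2 ≤ ‖z - y‖ ^ 2 := pow_le_pow_left₀ (norm_nonneg _) hz 2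
    set t : ℝ := 2 * ⟪v, z - m⟫ / ‖v‖ ^ 2 with ht
    have hsz : s z = z - t • v := by
      show ρ (z - m) + m = _
      rw [hρa, ← ht]
      abel
    have hvm : 2 * ⟪v, m⟫ = ‖y‖ ^ 2 - ‖x‖ ^ 2 := by
      rw [hv, hmdef, real_inner_smul_right, inner_sub_left, inner_add_right, inner_add_right,
        real_inner_self_eq_norm_sq, real_inner_self_eq_norm_sq, real_inner_comm x y]
      ring
    have hvz : 2 * ⟪v, z - m⟫ = ‖z - x‖ ^ 2 - ‖z - y‖ ^ 2 := by
      rw [inner_sub_right, mul_sub, hvm, hv, inner_sub_left, norm_sub_sq_real, norm_sub_sq_real,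
        real_inner_comm y z, real_inner_comm x z]
      ring
    have ht0 : t ≤ 0 := by
      rw [ht, hvz]
      exact div_nonpos_of_nonpos_of_nonneg (by linarith) (sq_nonneg _)
    have hvm0 : 0 ≤ 2 * ⟪v, m⟫ := by
      rw [hvm]
      have := pow_le_pow_left₀ (norm_nonneg _) hxy 2
      linarith
    have htv : t * ‖v‖ ^ 2 = 2 * ⟪v, z - m⟫ := by
      rw [ht]
      field_simp
    have hn : ‖s z‖ ^ 2 = ‖z‖ ^ 2 - t * (2 * ⟪v, m⟫) := by
      rw [hsz, norm_sub_sq_real, real_inner_smul_right, norm_smul, mul_pow, Real.norm_eq_abs,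
        sq_abs]
      have h3 : t ^ 2 * ‖v‖ ^ 2 = t * (2 * ⟪v, z - m⟫) := by rw [← htv]; ring
      rw [h3, real_inner_comm v z, inner_sub_right v z m]
      ring
    have h4 : ‖z‖ ^ 2 ≤ ‖s z‖ ^ 2 := by
      rw [hn]
      nlinarith
    exact (pow_le_pow_iff_left₀ (norm_nonneg _) (norm_nonneg _) two_ne_zero).1 h4
  set kx : E N → ℝ≥0∞ := fun z => ENNReal.ofReal (K ‖x - z‖) with hkx
  set ky : E N → ℝ≥0∞ := fun z => ENNReal.ofReal (K ‖y - z‖) with hky
  have hkxm : Measurable kx := (hKm.comp (by fun_prop)).ennreal_ofReal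
  have hkym : Measurable ky := (hKm.comp (by fun_prop)).ennreal_ofReal
  have hkxs : ∀ z, kx (s z) = ky z := by
    intro z
    simp only [hkx, hky]
    rw [← hsd x (s z), hsx, hss]
  have hkys : ∀ z, ky (s z) = kx z := by
    intro z
    rw [← hkxs (s z), hss]
  have hpt : ∀ z, H z * ky z + H (s z) * kx z ≤ H z * kx z + H (s z) * ky z := by
    intro z
    rcases le_total ‖z - x‖ ‖z - y‖ with hz | hz
    · apply rearr (hrad _ _ (hgeo z hz))
      simp only [hkx, hky]
      apply ENNReal.ofReal_le_ofReal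
      apply hK
      rw [norm_sub_rev x z, norm_sub_rev y z]
      exact hz
    · have hz' : ‖s z - x‖ ≤ ‖s z - y‖ := by
        have h5 : ‖s z - x‖ = ‖z - y‖ := by
          have := hsd z y
          rwa [hsy] at this
        have h6 : ‖s z - y‖ = ‖z - x‖ := by
          have := hsd z x
          rwa [hsx] at this
        rw [h5, h6]
        exact hz
      have h1 := hgeo (s z) hz'
      rw [hss] at h1
      have h2 : kx z ≤ ky z := by
        simp only [hkx, hky]
        apply ENNReal.ofReal_le_ofReal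
        apply hK
        rw [norm_sub_rev x z, norm_sub_rev y z]
        exact hz
      have := rearr (hrad _ _ h1) h2
      rw [add_comm (H z * ky z), add_comm (H z * kx z)]
      exact this
  have hx2 : ∫⁻ z, H z * kx z = ∫⁻ z, H (s z) * ky z := by
    rw [← hcv (fun z => H z * kx z)]
    simp only [hkxs]
  have hy2 : ∫⁻ z, H z * ky z = ∫⁻ z, H (s z) * kx z := by
    rw [← hcv (fun z => H z * ky z)]
    simp only [hkys]
  have hsum : ∫⁻ z, (H z * ky z + H (s z) * kx z) ≤ ∫⁻ z, (H z * kx z + H (s z) * ky z) :=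
    lintegral_mono hpt
  have hmy : Measurable (fun z => H z * ky z) := hm.mul hkym
  have hmx : Measurable (fun z => H z * kx z) := hm.mul hkxm
  rw [lintegral_add_left hmy, lintegral_add_left hmx, ← hx2, ← hy2,
    ← two_mul, ← two_mul] at hsum
  exact (ENNReal.mul_le_mul_iff_right two_ne_zero ENNReal.ofNat_ne_top).1 hsum

private noncomputable def ker {N : ℕ} (K : ℝ → ℝ) (x z : E N) : ℝ≥0∞ :=
  ENNReal.ofReal (K ‖x - z‖)

private theorem ker_symm {N : ℕ} (K : ℝ → ℝ) (x z : E N) : ker K x z = ker K z x := by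
  unfold ker
  rw [norm_sub_rev]

private theorem ker_meas {N : ℕ} {K : ℝ → ℝ} (hK : Measurable K) :
    Measurable (fun p : E N × E N => ker K p.1 p.2) := by
  have h1 : Measurable (fun p : E N × E N => ‖p.1 - p.2‖) :=
    (measurable_fst.sub measurable_snd).norm
  exact (hK.comp h1).ennreal_ofReal

/-- The bathtub step. -/
theorem FKl_le_ball {N : ℕ} {K : ℝ → ℝ} (hK : Antitone K) (hK0 : ∀ r, 0 ≤ K r) {M : ℝ}
    (hKM : ∀ r, K r ≤ M) {L ρ : ℝ} {h : E N → ℝ} (hh : Adm L ρ h)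
    (hrad : ∀ x y, ‖x‖ ≤ ‖y‖ → h y ≤ h x) (R : ℝ) (hR : 0 < R)
    (hint : ENNReal.ofReal (∫ x, h x) ≤ volume (Metric.ball (0 : E N) R)) :
    FKl K h h ≤ ∫⁻ x in Metric.ball (0 : E N) R, ∫⁻ z in Metric.ball (0 : E N) R,
      ENNReal.ofReal (K ‖x - z‖) := by
  have hKm : Measurable K := hK.measurable
  have hhc : Continuous h := hh.continuous
  set H : E N → ℝ≥0∞ := fun x => ENNReal.ofReal (h x) with hH
  have hHm : Measurable H := hhc.measurable.ennreal_ofReal
  have hH1 : ∀ x, H x ≤ 1 := fun x => by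
    simp only [hH]
    exact ENNReal.ofReal_le_one.2 (hh.le_one x)
  have hHr : ∀ x y : E N, ‖x‖ ≤ ‖y‖ → H y ≤ H x := fun x y hxy =>
    ENNReal.ofReal_le_ofReal (hrad x y hxy)
  have hHi : ∫⁻ x, H x ≤ volume (Metric.ball (0 : E N) R) := by
    rw [← ofReal_integral_eq_lintegral_ofReal
      (hhc.integrable_of_hasCompactSupport hh.hasCompactSupport)
      (Filter.Eventually.of_forall hh.nonneg)]
    exact hint
  set B : Set (E N) := Metric.ball (0 : E N) R with hB
  have hBm : MeasurableSet B := measurableSet_ball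
  obtain ⟨k, hk⟩ : ∃ k : E N → E N → ℝ≥0∞, k = ker K := ⟨_, rfl⟩
  have hk' : ∀ x z, ENNReal.ofReal (K ‖x - z‖) = k x z := fun x z => by rw [hk]; rfl
  have hkm2 : Measurable (fun p : E N × E N => k p.1 p.2) := by
    rw [hk]
    exact ker_meas hKm
  have hksymm : ∀ x z, k x z = k z x := fun x z => by
    rw [hk]
    exact ker_symm K x z
  have hkm1 : ∀ x, Measurable (k x) := fun x => hkm2.comp (measurable_const.prodMk measurable_id)
  have hUm : ∀ F : E N → ℝ≥0∞, Measurable F → Measurable (fun x => ∫⁻ z, F z * k x z) := by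
    intro F hF
    exact Measurable.lintegral_prod_right' (f := fun p : E N × E N => F p.2 * k p.1 p.2)
      ((hF.comp measurable_snd).mul hkm2)
  -- first step
  have h1 : FKl K h h = ∫⁻ x, H x * ∫⁻ z, H z * k x z := by
    unfold FKl
    congr 1
    funext x
    have hmk : Measurable (fun z => H z * k x z) := hHm.mul (hkm1 x)
    rw [← lintegral_const_mul _ hmk]
    congr 1
    funext z
    rw [hk']
    simp only [hH]
    ring
  have hpm : ∀ F : E N → ℝ≥0∞, Measurable F → (∀ x y : E N, ‖x‖ ≤ ‖y‖ → F y ≤ F x) →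
      ∀ x y : E N, ‖x‖ ≤ ‖y‖ → ∫⁻ z, F z * k y z ≤ ∫⁻ z, F z * k x z := by
    intro F hF hFr x y hxy
    have := pot_mono hK hF hFr hxy
    simpa only [hk'] using this
  have h2 : ∫⁻ x, H x * ∫⁻ z, H z * k x z ≤ ∫⁻ x in B, ∫⁻ z, H z * k x z :=
    bath hHm hH1 (hUm H hHm) (hpm H hHm hHr) R hHi
  -- swap
  set I : E N → ℝ≥0∞ := B.indicator (fun _ => 1) with hI
  have hIm : Measurable I := measurable_const.indicator hBm
  have hIr : ∀ x y : E N, ‖x‖ ≤ ‖y‖ → I y ≤ I x := by
    intro x y hxy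
    by_cases hy : y ∈ B
    · have hx : x ∈ B := by
        rw [hB, mem_ball_zero_iff] at hy ⊢
        exact hxy.trans_lt hy
      rw [hI, indicator_of_mem hx, indicator_of_mem hy]
    · rw [hI, indicator_of_notMem hy]
      exact zero_le
  have hIset : ∀ (F : E N → ℝ≥0∞), ∫⁻ x in B, F x = ∫⁻ x, I x * F x := by
    intro F
    rw [← lintegral_indicator hBm]
    congr 1
    funext x
    by_cases hx : x ∈ B
    · rw [hI, indicator_of_mem hx, indicator_of_mem hx, one_mul]
    · rw [hI, indicator_of_notMem hx, indicator_of_notMem hx, zero_mul]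
  have h3 : ∫⁻ x in B, ∫⁻ z, H z * k x z = ∫⁻ z, H z * ∫⁻ x, I x * k z x := by
    rw [lintegral_lintegral_swap]
    · congr 1
      funext z
      rw [lintegral_const_mul _ (by
        have : (fun x => k x z) = k z := by
          funext x
          exact hksymm x z
        rw [this]
        exact hkm1 z), hIset]
      simp only [hksymm z]
    · exact ((hHm.comp measurable_snd).mul hkm2).aemeasurable
  have h4 : ∫⁻ z, H z * ∫⁻ x, I x * k z x ≤ ∫⁻ z in B, ∫⁻ x, I x * k z x :=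
    bath hHm hH1 (hUm I hIm) (hpm I hIm hIr) R hHi
  have h5 : ∫⁻ z in B, ∫⁻ x, I x * k z x = ∫⁻ x in B, ∫⁻ z in B, k x z := by
    congr 1
    funext z
    rw [hIset]
  calc FKl K h h = ∫⁻ x, H x * ∫⁻ z, H z * k x z := h1
    _ ≤ ∫⁻ x in B, ∫⁻ z, H z * k x z := h2
    _ = ∫⁻ z, H z * ∫⁻ x, I x * k z x := h3
    _ ≤ ∫⁻ z in B, ∫⁻ x, I x * k z x := h4
    _ = ∫⁻ x in B, ∫⁻ z in B, k x z := h5
    _ = ∫⁻ x in B, ∫⁻ z in B, ENNReal.ofReal (K ‖x - z‖) := by simp only [hk']

end Pool.Agent.Lib.MP_d3943d_an
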