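import Mathlib

set_option autoImplicit false

/-!
The one-dimensional clamped beam, sharp `L¹` inequality on an interval.
-/

namespace Pool.Agent.Lib.MP_d3943d_an

open MeasureTheory Set
open scoped ENNReal ContDiff

namespace BeamAux

/-- The kernel: `v s = ∫ K s t v''(t) dt` for clamped `v` on `[0,1]`. -/
noncomputable def K (s t : ℝ) : ℝ := max (s - t) 0 + s ^ 2 * (s - 2) + s ^ 2 * (3 - 2 * s) * t

theorem K_cont : Continuous (fun p : ℝ × ℝ => K p.1 p.2) := by
  unfold K
  fun_prop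

theorem K_cont_left (s : ℝ) : Continuous (fun t : ℝ => K s t) := by
  unfold K
  fun_prop

theorem K_bdd {s t : ℝ} (hs0 : 0 ≤ s) (hs1 : s ≤ 1) (ht0 : 0 ≤ t) (ht1 : t ≤ 1) :
    |K s t| ≤ 6 := by
  unfold K
  have h1 : max (s - t) 0 ≤ 1 := max_le (by linarith) (by norm_num)
  have h2 : 0 ≤ max (s - t) 0 := le_max_right _ _
  have h3 : s ^ 2 ≤ 1 := by nlinarith
  have h4 : 0 ≤ s ^ 2 := sq_nonneg s
  have h5 : |s ^ 2 * (s - 2)| ≤ 2 := by
    rw [abs_mul, abs_of_nonneg h4]
    have : |s - 2| ≤ 2 := abs_le.2 ⟨by linarith, by linarith⟩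
    nlinarith [abs_nonneg (s - 2)]
  have h6 : |s ^ 2 * (3 - 2 * s) * t| ≤ 3 := by
    rw [abs_mul, abs_mul, abs_of_nonneg h4, abs_of_nonneg ht0]
    have h7 : |3 - 2 * s| ≤ 3 := abs_le.2 ⟨by linarith, by linarith⟩
    have h8 : s ^ 2 * |3 - 2 * s| ≤ 3 := by nlinarith [abs_nonneg (3 - 2 * s)]
    have h9 : 0 ≤ s ^ 2 * |3 - 2 * s| := by positivity
    nlinarith
  rw [abs_le] at h5 h6 ⊢
  constructor <;> linarith [h5.1, h5.2, h6.1, h6.2]

/-- Integration by parts against an affine function on `[a,b]`. -/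
theorem int_affine {v : ℝ → ℝ} (hv : ContDiff ℝ 2 v) (A B a b : ℝ) :
    ∫ t in a..b, (A + B * t) * deriv (deriv v) t =
      ((A + B * b) * deriv v b - B * v b) - ((A + B * a) * deriv v a - B * v a) := by
  have hd1 : ∀ t, HasDerivAt v (deriv v t) t := fun t =>
    (hv.differentiable (by norm_num)).differentiableAt.hasDerivAt
  have hv1 : ContDiff ℝ 1 (deriv v) := hv.deriv'
  have hd2 : ∀ t, HasDerivAt (deriv v) (deriv (deriv v) t) t := fun t =>
    (hv1.differentiable (by norm_num)).differentiableAt.hasDerivAt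
  have hc : Continuous (deriv (deriv v)) := hv1.continuous_deriv le_rfl
  have h := intervalIntegral.integral_eq_sub_of_hasDerivAt
    (f := fun t => (A + B * t) * deriv v t - B * v t)
    (f' := fun t => (A + B * t) * deriv (deriv v) t) (a := a) (b := b) (fun t _ => ?_) ?_
  · exact h
  · have h1 : HasDerivAt (fun t => A + B * t) B t := by
      simpa using ((hasDerivAt_id t).const_mul B).const_add A
    have h2 := (h1.mul (hd2 t)).sub ((hd1 t).const_mul B)
    exact h2.congr_deriv (by ring)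
  · exact (by fun_prop : Continuous fun t => (A + B * t) * deriv (deriv v) t).intervalIntegrable _ _

/-- The part with the maximum. -/
theorem int_max {g : ℝ → ℝ} (hg : Continuous g) {s : ℝ} (hs0 : 0 ≤ s) (hs1 : s ≤ 1) :
    ∫ t in (0 : ℝ)..1, max (s - t) 0 * g t = ∫ t in (0 : ℝ)..s, (s - t) * g t := by
  have hc : Continuous fun t => max (s - t) 0 * g t := by fun_prop
  rw [← intervalIntegral.integral_add_adjacent_intervals (hc.intervalIntegrable 0 s)
    (hc.intervalIntegrable s 1)]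
  have h1 : ∫ t in s..1, max (s - t) 0 * g t = ∫ _ in s..1, (0 : ℝ) := by
    refine intervalIntegral.integral_congr fun t ht => ?_
    rw [uIcc_of_le hs1] at ht
    rw [max_eq_right (by linarith [ht.1]), zero_mul]
  have h2 : ∫ t in (0 : ℝ)..s, max (s - t) 0 * g t = ∫ t in (0 : ℝ)..s, (s - t) * g t := by
    refine intervalIntegral.integral_congr fun t ht => ?_
    rw [uIcc_of_le hs0] at ht
    rw [max_eq_left (by linarith [ht.2])]
  rw [h1, h2]
  simp

/-- Representation of a clamped function. -/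
theorem repr {v : ℝ → ℝ} (hv : ContDiff ℝ 2 v) (h0 : v 0 = 0) (h0' : deriv v 0 = 0)
    (h1 : v 1 = 0) (h1' : deriv v 1 = 0) {s : ℝ} (hs0 : 0 ≤ s) (hs1 : s ≤ 1) :
    ∫ t in (0 : ℝ)..1, K s t * deriv (deriv v) t = v s := by
  have hc : Continuous (deriv (deriv v)) := hv.deriv'.continuous_deriv le_rfl
  have e1 : ∫ t in (0 : ℝ)..1, K s t * deriv (deriv v) t =
      (∫ t in (0 : ℝ)..1, max (s - t) 0 * deriv (deriv v) t) +
      ∫ t in (0 : ℝ)..1, (s ^ 2 * (s - 2) + s ^ 2 * (3 - 2 * s) * t) * deriv (deriv v) t := by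
    rw [← intervalIntegral.integral_add]
    · refine intervalIntegral.integral_congr fun t _ => ?_
      simp only [K]
      ring
    · exact (by fun_prop : Continuous fun t =>
        max (s - t) 0 * deriv (deriv v) t).intervalIntegrable _ _
    · exact (by fun_prop : Continuous fun t =>
        (s ^ 2 * (s - 2) + s ^ 2 * (3 - 2 * s) * t) * deriv (deriv v) t).intervalIntegrable _ _
  have e2 := int_affine hv (s ^ 2 * (s - 2)) (s ^ 2 * (3 - 2 * s)) 0 1
  have e3 := int_affine hv s (-1) 0 s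
  have e4 : ∫ t in (0 : ℝ)..s, (s - t) * deriv (deriv v) t =
      ∫ t in (0 : ℝ)..s, (s + -1 * t) * deriv (deriv v) t := by
    refine intervalIntegral.integral_congr fun t _ => ?_
    ring
  rw [e1, e2, int_max hc hs0 hs1, e4, e3, h0, h0', h1, h1']
  ring

/-- Integrals of quadratic polynomials. -/
theorem int_quad (a b α β γ : ℝ) : ∫ t in a..b, (α + β * t + γ * t ^ 2) =
    α * (b - a) + β * (b ^ 2 - a ^ 2) / 2 + γ * (b ^ 3 - a ^ 3) / 3 := by
  have h := intervalIntegral.integral_eq_sub_of_hasDerivAt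
    (f := fun t => α * t + β * t ^ 2 / 2 + γ * t ^ 3 / 3)
    (f' := fun t => α + β * t + γ * t ^ 2) (a := a) (b := b) (fun t _ => ?_) ?_
  · rw [h]
    ring
  · have h1 : HasDerivAt (fun t : ℝ => α * t) α t := by simpa using (hasDerivAt_id t).const_mul α
    have h2 := (((hasDerivAt_pow 2 t).const_mul β).div_const 2)
    have h3 := (((hasDerivAt_pow 3 t).const_mul γ).div_const 3)
    exact ((h1.add h2).add h3).congr_deriv (by push_cast; ring)
  · exact (by fun_prop : Continuous fun t : ℝ => α + β * t + γ * t ^ 2).intervalIntegrable _ _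

theorem int_K {r : ℝ} (hr0 : 0 ≤ r) (hr1 : r ≤ 1) : ∫ t in (0 : ℝ)..1, K r t = 0 := by
  have e1 : ∫ t in (0 : ℝ)..1, K r t = (∫ t in (0 : ℝ)..1, max (r - t) 0 * 1) +
      ∫ t in (0 : ℝ)..1, (r ^ 2 * (r - 2) + r ^ 2 * (3 - 2 * r) * t + 0 * t ^ 2) := by
    rw [← intervalIntegral.integral_add]
    · refine intervalIntegral.integral_congr fun t _ => ?_
      simp only [K]
      ring
    · exact (by fun_prop : Continuous fun t => max (r - t) 0 * 1).intervalIntegrable _ _
    · exact (by fun_prop : Continuous fun t =>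
        (r ^ 2 * (r - 2) + r ^ 2 * (3 - 2 * r) * t + 0 * t ^ 2)).intervalIntegrable _ _
  have e2 : ∫ t in (0 : ℝ)..r, (r - t) * 1 = ∫ t in (0 : ℝ)..r, (r + (-1) * t + 0 * t ^ 2) := by
    refine intervalIntegral.integral_congr fun t _ => ?_
    ring
  rw [e1, int_max continuous_const hr0 hr1, e2, int_quad, int_quad]
  ring

theorem int_tK {r : ℝ} (hr0 : 0 ≤ r) (hr1 : r ≤ 1) : ∫ t in (0 : ℝ)..1, t * K r t = 0 := by
  have e1 : ∫ t in (0 : ℝ)..1, t * K r t = (∫ t in (0 : ℝ)..1, max (r - t) 0 * t) +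
      ∫ t in (0 : ℝ)..1, (0 + r ^ 2 * (r - 2) * t + r ^ 2 * (3 - 2 * r) * t ^ 2) := by
    rw [← intervalIntegral.integral_add]
    · refine intervalIntegral.integral_congr fun t _ => ?_
      simp only [K]
      ring
    · exact (by fun_prop : Continuous fun t => max (r - t) 0 * t).intervalIntegrable _ _
    · exact (by fun_prop : Continuous fun t =>
        (0 + r ^ 2 * (r - 2) * t + r ^ 2 * (3 - 2 * r) * t ^ 2)).intervalIntegrable _ _
  have e2 : ∫ t in (0 : ℝ)..r, (r - t) * t = ∫ t in (0 : ℝ)..r, (0 + r * t + (-1) * t ^ 2) := by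
    refine intervalIntegral.integral_congr fun t _ => ?_
    ring
  rw [e1, int_max continuous_id' hr0 hr1, e2, int_quad, int_quad]
  ring

/-- The Green function. -/
noncomputable def G (s r : ℝ) : ℝ := ∫ t in (0 : ℝ)..1, K s t * K r t

theorem G_symm (s r : ℝ) : G s r = G r s := by
  unfold G
  refine intervalIntegral.integral_congr fun t _ => ?_
  ring

theorem G_le {s r : ℝ} (hs0 : 0 ≤ s) (hsr : s ≤ r) (hr1 : r ≤ 1) :
    G s r = s ^ 2 * (1 - r) ^ 2 * (3 * r - s - 2 * s * r) / 6 := by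
  have hr0 := hs0.trans hsr
  have hs1 := hsr.trans hr1
  have hKc : Continuous (K r) := K_cont_left r
  have e1 : G s r = (∫ t in (0 : ℝ)..1, max (s - t) 0 * K r t) +
      ((∫ t in (0 : ℝ)..1, s ^ 2 * (s - 2) * K r t) +
      ∫ t in (0 : ℝ)..1, s ^ 2 * (3 - 2 * s) * (t * K r t)) := by
    rw [← intervalIntegral.integral_add, ← intervalIntegral.integral_add]
    · unfold G
      refine intervalIntegral.integral_congr fun t _ => ?_
      have : K s t = max (s - t) 0 + s ^ 2 * (s - 2) + s ^ 2 * (3 - 2 * s) * t := rfl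
      rw [this]
      ring
    · exact (by fun_prop : Continuous fun t => max (s - t) 0 * K r t).intervalIntegrable _ _
    · exact (by fun_prop : Continuous fun t => s ^ 2 * (s - 2) * K r t +
        s ^ 2 * (3 - 2 * s) * (t * K r t)).intervalIntegrable _ _
    · exact (by fun_prop : Continuous fun t => s ^ 2 * (s - 2) * K r t).intervalIntegrable _ _
    · exact (by fun_prop : Continuous fun t =>
        s ^ 2 * (3 - 2 * s) * (t * K r t)).intervalIntegrable _ _
  have e2 : ∫ t in (0 : ℝ)..s, (s - t) * K r t =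
      ∫ t in (0 : ℝ)..s, (s * (r + r ^ 2 * (r - 2)) +
        (s * (r ^ 2 * (3 - 2 * r) - 1) - (r + r ^ 2 * (r - 2))) * t +
        (1 - r ^ 2 * (3 - 2 * r)) * t ^ 2) := by
    refine intervalIntegral.integral_congr fun t ht => ?_
    rw [uIcc_of_le hs0] at ht
    simp only [K]
    rw [max_eq_left (by linarith [ht.2])]
    ring
  rw [e1, int_max hKc hs0 hs1, intervalIntegral.integral_const_mul,
    intervalIntegral.integral_const_mul, int_K hr0 hr1, int_tK hr0 hr1, e2, int_quad]
  ring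

theorem G_nonneg {s r : ℝ} (hs0 : 0 ≤ s) (hs1 : s ≤ 1) (hr0 : 0 ≤ r) (hr1 : r ≤ 1) :
    0 ≤ G s r := by
  have key : ∀ s r : ℝ, 0 ≤ s → s ≤ r → r ≤ 1 → 0 ≤ G s r := by
    intro s r hs0 hsr hr1
    rw [G_le hs0 hsr hr1]
    have : 0 ≤ 3 * r - s - 2 * s * r := by nlinarith
    positivity
  rcases le_total s r with h | h
  · exact key s r hs0 h hr1
  · rw [G_symm]
    exact key r s hr0 h hs1

theorem int_cubic (a b α β γ δ : ℝ) : ∫ t in a..b, (α + β * t + γ * t ^ 2 + δ * t ^ 3) =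
    α * (b - a) + β * (b ^ 2 - a ^ 2) / 2 + γ * (b ^ 3 - a ^ 3) / 3 +
      δ * (b ^ 4 - a ^ 4) / 4 := by
  have h := intervalIntegral.integral_eq_sub_of_hasDerivAt
    (f := fun t => α * t + β * t ^ 2 / 2 + γ * t ^ 3 / 3 + δ * t ^ 4 / 4)
    (f' := fun t => α + β * t + γ * t ^ 2 + δ * t ^ 3) (a := a) (b := b) (fun t _ => ?_) ?_
  · rw [h]
    ring
  · have h1 : HasDerivAt (fun t : ℝ => α * t) α t := by simpa using (hasDerivAt_id t).const_mul α
    have h2 := (((hasDerivAt_pow 2 t).const_mul β).div_const 2)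
    have h3 := (((hasDerivAt_pow 3 t).const_mul γ).div_const 3)
    have h4 := (((hasDerivAt_pow 4 t).const_mul δ).div_const 4)
    exact (((h1.add h2).add h3).add h4).congr_deriv (by push_cast; ring)
  · exact (by fun_prop : Continuous fun t : ℝ =>
      α + β * t + γ * t ^ 2 + δ * t ^ 3).intervalIntegrable _ _

theorem G_cont (s : ℝ) : Continuous (G s) := by
  unfold G
  refine intervalIntegral.continuous_parametric_intervalIntegral_of_continuous' ?_ 0 1
  unfold Function.uncurry K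
  fun_prop

theorem int_G {s : ℝ} (hs0 : 0 ≤ s) (hs1 : s ≤ 1) :
    ∫ r in (0 : ℝ)..1, G s r = s ^ 2 * (1 - s) ^ 2 / 24 := by
  rw [← intervalIntegral.integral_add_adjacent_intervals ((G_cont s).intervalIntegrable 0 s)
    ((G_cont s).intervalIntegrable s 1)]
  have e1 : ∫ r in (0 : ℝ)..s, G s r = ∫ r in (0 : ℝ)..s, (0 + 0 * r +
      ((1 - s) ^ 2 / 6 * (3 * s)) * r ^ 2 + (-((1 - s) ^ 2 / 6 * (1 + 2 * s))) * r ^ 3) := by
    refine intervalIntegral.integral_congr fun r hr => ?_
    rw [uIcc_of_le hs0] at hr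
    rw [G_symm, G_le hr.1 hr.2 hs1]
    ring
  have e2 : ∫ r in s..1, G s r = ∫ r in s..1, (-(s ^ 3 / 6) + (s ^ 2 / 2) * r +
      (-(s ^ 2 * (6 - 3 * s) / 6)) * r ^ 2 + (s ^ 2 * (3 - 2 * s) / 6) * r ^ 3) := by
    refine intervalIntegral.integral_congr fun r hr => ?_
    rw [uIcc_of_le hs1] at hr
    rw [G_le hs0 hr.1 hr.2]
    ring
  rw [e1, e2, int_cubic, int_cubic]
  ring

/-- Lebesgue measure on the unit interval. -/
noncomputable def μI : Measure ℝ := volume.restrict (Ioc (0 : ℝ) 1)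

instance : IsFiniteMeasure μI := by
  unfold μI
  infer_instance

theorem ae_μI : ∀ᵐ x ∂μI, 0 ≤ x ∧ x ≤ 1 := by
  unfold μI
  filter_upwards [ae_restrict_mem measurableSet_Ioc] with x hx
  exact ⟨hx.1.le, hx.2⟩

theorem int_μI (f : ℝ → ℝ) : ∫ x, f x ∂μI = ∫ x in (0 : ℝ)..1, f x := by
  rw [intervalIntegral.integral_of_le zero_le_one]
  rfl

theorem swap {a b : ℝ → ℝ} (ha : Measurable a) (hb : Measurable b) {A B : ℝ}
    (ha' : ∀ x, 0 ≤ x → x ≤ 1 → |a x| ≤ A) (hb' : ∀ x, 0 ≤ x → x ≤ 1 → |b x| ≤ B) :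
    ∫ t, b t * ∫ s, K s t * a s ∂μI ∂μI = ∫ s, a s * ∫ t, K s t * b t ∂μI ∂μI := by
  have hint : Integrable (Function.uncurry fun t s => b t * (K s t * a s)) (μI.prod μI) := by
    refine Integrable.of_bound ?_ (B * (6 * A)) ?_
    · have hK : Measurable (fun p : ℝ × ℝ => K p.2 p.1) := by
        have : Continuous (fun p : ℝ × ℝ => K p.2 p.1) := by
          unfold K
          fun_prop
        exact this.measurable
      have : Measurable (fun p : ℝ × ℝ => b p.1 * (K p.2 p.1 * a p.2)) :=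
        (hb.comp measurable_fst).mul (hK.mul (ha.comp measurable_snd))
      exact this.aestronglyMeasurable
    · have h1 : ∀ᵐ p ∂(μI.prod μI), (0 ≤ p.1 ∧ p.1 ≤ 1) ∧ (0 ≤ p.2 ∧ p.2 ≤ 1) := by
        unfold μI
        rw [Measure.prod_restrict]
        filter_upwards [ae_restrict_mem (measurableSet_Ioc.prod measurableSet_Ioc)] with p hp
        exact ⟨⟨hp.1.1.le, hp.1.2⟩, ⟨hp.2.1.le, hp.2.2⟩⟩
      filter_upwards [h1] with p hp
      simp only [Function.uncurry]
      rw [Real.norm_eq_abs, abs_mul, abs_mul]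
      have h2 := ha' _ hp.2.1 hp.2.2
      have h3 := hb' _ hp.1.1 hp.1.2
      have h4 := K_bdd hp.2.1 hp.2.2 hp.1.1 hp.1.2
      have h5 := abs_nonneg (a p.2)
      have h6 := abs_nonneg (b p.1)
      have h7 := abs_nonneg (K p.2 p.1)
      have hB0 : 0 ≤ B := h6.trans h3
      gcongr
  have h := integral_integral_swap hint
  have e1 : ∫ t, b t * ∫ s, K s t * a s ∂μI ∂μI = ∫ t, ∫ s, b t * (K s t * a s) ∂μI ∂μI := by
    refine integral_congr_ae (Filter.Eventually.of_forall fun t => ?_)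
    exact (integral_const_mul _ _).symm
  have e2 : ∫ s, a s * ∫ t, K s t * b t ∂μI ∂μI = ∫ s, ∫ t, b t * (K s t * a s) ∂μI ∂μI := by
    refine integral_congr_ae (Filter.Eventually.of_forall fun s => ?_)
    simp only
    rw [← integral_const_mul]
    refine integral_congr_ae (Filter.Eventually.of_forall fun t => ?_)
    simp only
    ring
  rw [e1, e2, h]

theorem beam01 (v : ℝ → ℝ) (hv : ContDiff ℝ 2 v) (h0 : v 0 = 0) (h0' : deriv v 0 = 0)
    (h1 : v 1 = 0) (h1' : deriv v 1 = 0) :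
    720 * (∫ x in (0 : ℝ)..1, |v x|) ^ 2 ≤ ∫ x in (0 : ℝ)..1, (deriv (deriv v) x) ^ 2 := by
  have hvc : Continuous v := hv.continuous
  have hc : Continuous (deriv (deriv v)) := hv.deriv'.continuous_deriv le_rfl
  classical
  set ρ : ℝ → ℝ := fun s => if 0 ≤ v s then 1 else -1 with hρ
  have hρm : Measurable ρ :=
    Measurable.ite (measurableSet_le measurable_const hvc.measurable) measurable_const
      measurable_const
  have hρ1 : ∀ x, |ρ x| ≤ 1 := by
    intro x
    by_cases h : 0 ≤ v x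
    · simp [hρ, h]
    · simp [hρ, h]
  have hρv : ∀ x, ρ x * v x = |v x| := fun x => by
    by_cases h : 0 ≤ v x
    · simp only [hρ, h, if_true, one_mul]
      exact (abs_of_nonneg h).symm
    · simp only [hρ, h, if_false]
      rw [abs_of_neg (not_le.1 h)]
      ring
  set W : ℝ → ℝ := fun t => ∫ s, K s t * ρ s ∂μI with hW
  have hWm : Measurable W := by
    have h1 : StronglyMeasurable (fun p : ℝ × ℝ => K p.1 p.2 * ρ p.1) :=
      (K_cont.measurable.mul (hρm.comp measurable_fst)).stronglyMeasurable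
    exact h1.integral_prod_left.measurable
  have hμ1 : μI.real univ = 1 := by
    unfold μI
    simp
  have hWb : ∀ t, 0 ≤ t → t ≤ 1 → |W t| ≤ 6 := by
    intro t ht0 ht1
    have h2 : ‖∫ s, K s t * ρ s ∂μI‖ ≤ 6 * μI.real univ := by
      refine norm_integral_le_of_norm_le_const ?_
      filter_upwards [ae_μI] with s hs
      rw [Real.norm_eq_abs, abs_mul]
      have h3 := K_bdd hs.1 hs.2 ht0 ht1
      have h4 := hρ1 s
      nlinarith [abs_nonneg (K s t), abs_nonneg (ρ s)]
    rw [hμ1, mul_one, Real.norm_eq_abs] at h2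
    exact h2
  -- bound of v''
  obtain ⟨B, hB⟩ : ∃ B : ℝ, ∀ x, 0 ≤ x → x ≤ 1 → |deriv (deriv v) x| ≤ B := by
    obtain ⟨B, hB⟩ := isCompact_Icc.exists_bound_of_continuousOn (hc.continuousOn (s := Icc 0 1))
    exact ⟨B, fun x h0 h1 => hB x ⟨h0, h1⟩⟩
  -- (A)
  have hA : ∫ t, deriv (deriv v) t * W t ∂μI = ∫ x, |v x| ∂μI := by
    rw [hW, swap hρm hc.measurable (A := 1) (B := B) (fun x _ _ => hρ1 x) hB]
    refine integral_congr_ae ?_
    filter_upwards [ae_μI] with s hs
    rw [int_μI, repr hv h0 h0' h1 h1' hs.1 hs.2, hρv]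
  -- (B), (C)
  have hC : ∀ s, 0 ≤ s → s ≤ 1 → |∫ t, K s t * W t ∂μI| ≤ s ^ 2 * (1 - s) ^ 2 / 24 := by
    intro s hs0 hs1
    rw [hW, swap hρm (K_cont_left s).measurable (A := 1) (B := 6) (fun x _ _ => hρ1 x)
      (fun x hx0 hx1 => K_bdd hs0 hs1 hx0 hx1)]
    have h2 : ∀ r, ∫ t, K r t * K s t ∂μI = G s r := by
      intro r
      rw [int_μI, G_symm]
      rfl
    simp_rw [h2]
    rw [← int_G hs0 hs1, ← int_μI, ← Real.norm_eq_abs]
    refine norm_integral_le_of_norm_le ?_ ?_
    · have h3 := (G_cont s).intervalIntegrable (μ := volume) 0 1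
      rw [intervalIntegrable_iff_integrableOn_Ioc_of_le zero_le_one] at h3
      exact h3
    · filter_upwards [ae_μI] with r hr
      rw [Real.norm_eq_abs, abs_mul, abs_of_nonneg (G_nonneg hs0 hs1 hr.1 hr.2)]
      have h3 := hρ1 r
      have h4 := G_nonneg hs0 hs1 hr.1 hr.2
      nlinarith
  have hpoly : ∫ s in (0 : ℝ)..1, s ^ 2 * (1 - s) ^ 2 / 24 = 1 / 720 := by
    have h := intervalIntegral.integral_eq_sub_of_hasDerivAt
      (f := fun s : ℝ => s ^ 3 / 72 - s ^ 4 / 48 + s ^ 5 / 120)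
      (f' := fun s => s ^ 2 * (1 - s) ^ 2 / 24) (a := 0) (b := 1) (fun s _ => ?_) ?_
    · rw [h]
      norm_num
    · have e3 := (hasDerivAt_pow 3 s).div_const 72
      have e4 := (hasDerivAt_pow 4 s).div_const 48
      have e5 := (hasDerivAt_pow 5 s).div_const 120
      exact ((e3.sub e4).add e5).congr_deriv (by push_cast; ring)
    · exact (by fun_prop : Continuous fun s : ℝ => s ^ 2 * (1 - s) ^ 2 / 24).intervalIntegrable _ _
  have hZ : ∫ t, W t * W t ∂μI ≤ 1 / 720 := by
    have h2 : ∫ t, W t * W t ∂μI = ∫ s, ρ s * ∫ t, K s t * W t ∂μI ∂μI :=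
      swap hρm hWm (A := 1) (B := 6) (fun x _ _ => hρ1 x) hWb
    rw [h2, ← hpoly, ← int_μI]
    refine le_trans (le_abs_self _) ?_
    rw [← Real.norm_eq_abs]
    refine norm_integral_le_of_norm_le ?_ ?_
    · have h3 := (by fun_prop : Continuous fun s : ℝ =>
        s ^ 2 * (1 - s) ^ 2 / 24).intervalIntegrable (μ := volume) 0 1
      rw [intervalIntegrable_iff_integrableOn_Ioc_of_le zero_le_one] at h3
      exact h3
    · filter_upwards [ae_μI] with s hs
      rw [Real.norm_eq_abs, abs_mul]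
      have h3 := hρ1 s
      have h4 := hC s hs.1 hs.2
      nlinarith [abs_nonneg (ρ s), abs_nonneg (∫ t, K s t * W t ∂μI)]
  -- conclusion
  set X : ℝ := ∫ x, |v x| ∂μI with hX
  have hWint : Integrable (fun t => W t * W t) μI := by
    refine Integrable.of_bound (hWm.mul hWm).aestronglyMeasurable 36 ?_
    filter_upwards [ae_μI] with t ht
    rw [Real.norm_eq_abs, abs_mul]
    have := hWb t ht.1 ht.2
    nlinarith [abs_nonneg (W t)]
  have hYint : Integrable (fun t => (deriv (deriv v) t) ^ 2) μI := by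
    have h3 := (hc.pow 2).intervalIntegrable (μ := volume) 0 1
    rw [intervalIntegrable_iff_integrableOn_Ioc_of_le zero_le_one] at h3
    exact h3
  have hXint : Integrable (fun t => deriv (deriv v) t * W t) μI := by
    refine Integrable.of_bound (hc.measurable.mul hWm).aestronglyMeasurable (B * 6) ?_
    filter_upwards [ae_μI] with t ht
    rw [Real.norm_eq_abs, abs_mul]
    have h2 := hWb t ht.1 ht.2
    have h3 := hB t ht.1 ht.2
    have h4 := abs_nonneg (W t)
    have h5 := abs_nonneg (deriv (deriv v) t)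
    have hB0 : 0 ≤ B := h5.trans h3
    gcongr
  have hsq : 0 ≤ ∫ t, (deriv (deriv v) t - 720 * X * W t) ^ 2 ∂μI :=
    integral_nonneg fun t => sq_nonneg _
  have hexp : ∫ t, (deriv (deriv v) t - 720 * X * W t) ^ 2 ∂μI =
      (∫ t, (deriv (deriv v) t) ^ 2 ∂μI) - 1440 * X * X +
        (720 * X) ^ 2 * ∫ t, W t * W t ∂μI := by
    have e1 : ∀ t, (deriv (deriv v) t - 720 * X * W t) ^ 2 = (deriv (deriv v) t) ^ 2 -
        1440 * X * (deriv (deriv v) t * W t) + (720 * X) ^ 2 * (W t * W t) := fun t => by ring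
    simp_rw [e1]
    have i1 : Integrable (fun t => 1440 * X * (deriv (deriv v) t * W t)) μI := hXint.const_mul _
    have i2 : Integrable (fun t => (deriv (deriv v) t) ^ 2 -
      1440 * X * (deriv (deriv v) t * W t)) μI := hYint.sub i1
    have i3 : Integrable (fun t => (720 * X) ^ 2 * (W t * W t)) μI := hWint.const_mul _
    rw [integral_add i2 i3, integral_sub hYint i1, integral_const_mul, integral_const_mul, hA]
  rw [← int_μI, ← int_μI]
  rw [hexp] at hsq
  have h2 : (720 * X) ^ 2 * ∫ t, W t * W t ∂μI ≤ (720 * X) ^ 2 * (1 / 720) :=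
    mul_le_mul_of_nonneg_left hZ (sq_nonneg _)
  nlinarith

end BeamAux

theorem beam (a b : ℝ) (hab : a < b) (v : ℝ → ℝ) (hv : ContDiff ℝ 2 v)
    (ha : v a = 0) (ha' : deriv v a = 0) (hb : v b = 0) (hb' : deriv v b = 0) :
    720 * (∫ x in a..b, |v x|) ^ 2 ≤ (b - a) ^ 5 * ∫ x in a..b, (deriv (deriv v) x) ^ 2 := by
  set L : ℝ := b - a with hL
  have hLpos : 0 < L := sub_pos.2 hab
  set u : ℝ → ℝ := fun x => v (a + L * x) with hu
  have hd1 : ∀ t, HasDerivAt v (deriv v t) t := fun t =>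
    (hv.differentiable (by norm_num)).differentiableAt.hasDerivAt
  have hv1 : ContDiff ℝ 1 (deriv v) := hv.deriv'
  have hd2 : ∀ t, HasDerivAt (deriv v) (deriv (deriv v) t) t := fun t =>
    (hv1.differentiable (by norm_num)).differentiableAt.hasDerivAt
  have haff : ∀ x, HasDerivAt (fun x : ℝ => a + L * x) L x := fun x => by
    simpa using ((hasDerivAt_id x).const_mul L).const_add a
  have hu1 : deriv u = fun x => L * deriv v (a + L * x) := by
    funext x
    have h := (hd1 (a + L * x)).comp x (haff x)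
    rw [mul_comm] at h
    exact h.deriv
  have hu2 : deriv (deriv u) = fun x => L ^ 2 * deriv (deriv v) (a + L * x) := by
    funext x
    rw [hu1]
    have h := ((hd2 (a + L * x)).comp x (haff x)).const_mul L
    have h2 : HasDerivAt (fun x => L * deriv v (a + L * x))
        (L ^ 2 * deriv (deriv v) (a + L * x)) x := h.congr_deriv (by ring)
    exact h2.deriv
  have hLb : a + L * 1 = b := by rw [hL]; ring
  have hcd : ContDiff ℝ 2 u := hv.comp (contDiff_const.add (contDiff_const.mul contDiff_id))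
  have key := BeamAux.beam01 u hcd (by simp [hu, ha]) (by rw [hu1]; simp [ha'])
    (by simp only [hu]; rw [hLb, hb]) (by rw [hu1]; simp only; rw [hLb, hb', mul_zero])
  have e1 : ∫ x in (0 : ℝ)..1, |u x| = L⁻¹ * ∫ x in a..b, |v x| := by
    have h := intervalIntegral.integral_comp_add_mul (a := 0) (b := 1) (fun x => |v x|)
      hLpos.ne' a
    rw [mul_zero, add_zero, hLb, smul_eq_mul] at h
    exact h
  have e2 : ∫ x in (0 : ℝ)..1, (deriv (deriv u) x) ^ 2 =
      L ^ 4 * (L⁻¹ * ∫ x in a..b, (deriv (deriv v) x) ^ 2) := by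
    have h := intervalIntegral.integral_comp_add_mul (a := 0) (b := 1)
      (fun x => (deriv (deriv v) x) ^ 2) hLpos.ne' a
    rw [mul_zero, add_zero, hLb, smul_eq_mul] at h
    rw [← h, ← intervalIntegral.integral_const_mul, hu2]
    refine intervalIntegral.integral_congr fun x _ => ?_
    ring
  rw [e1, e2] at key
  set X : ℝ := ∫ x in a..b, |v x|
  set Y : ℝ := ∫ x in a..b, (deriv (deriv v) x) ^ 2
  have h3 : L ^ 2 * (720 * (L⁻¹ * X) ^ 2) ≤ L ^ 2 * (L ^ 4 * (L⁻¹ * Y)) :=
    mul_le_mul_of_nonneg_left key (sq_nonneg _)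
  have h4 : L ^ 2 * (720 * (L⁻¹ * X) ^ 2) = 720 * X ^ 2 := by
    field_simp
  have h5 : L ^ 2 * (L ^ 4 * (L⁻¹ * Y)) = L ^ 5 * Y := by
    field_simp
  rw [h4, h5] at h3
  exact h3

end Pool.Agent.Lib.MP_d3943d_an
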