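import Pool.Agent.Lib.MP_d3943d_an.Beam

set_option autoImplicit false

/-!
The beam inequality on a bounded open subset of the line.
-/

namespace Pool.Agent.Lib.MP_d3943d_an

open MeasureTheory Set
open scoped ENNReal ContDiff

namespace BeamOpenAux

theorem inner_cube {a b s : ℝ} (ha : a ≤ s) (hb : s ≤ b) :
    ∫ r in a..b, |s - r| ^ 3 = ((s - a) ^ 4 + (b - s) ^ 4) / 4 := by
  have hc : Continuous fun r : ℝ => |s - r| ^ 3 := by fun_prop
  rw [← intervalIntegral.integral_add_adjacent_intervals (hc.intervalIntegrable a s)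
    (hc.intervalIntegrable s b)]
  have e1 : ∫ r in a..s, |s - r| ^ 3 = (s - a) ^ 4 / 4 := by
    have h1 : ∫ r in a..s, |s - r| ^ 3 = ∫ r in a..s, (s - r) ^ 3 := by
      refine intervalIntegral.integral_congr fun r hr => ?_
      rw [uIcc_of_le ha] at hr
      rw [abs_of_nonneg (by linarith [hr.2])]
    have h2 := intervalIntegral.integral_eq_sub_of_hasDerivAt
      (f := fun r : ℝ => -((s - r) ^ 4 / 4))
      (f' := fun r => (s - r) ^ 3) (a := a) (b := s) (fun r _ => ?_) ?_
    · rw [h1, h2]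
      ring
    · have e : HasDerivAt (fun r : ℝ => s - r) (-1) r := by
        simpa using (hasDerivAt_id r).const_sub s
      exact (((e.pow 4).div_const 4).neg).congr_deriv (by push_cast; ring)
    · exact (by fun_prop : Continuous fun r : ℝ => (s - r) ^ 3).intervalIntegrable _ _
  have e2 : ∫ r in s..b, |s - r| ^ 3 = (b - s) ^ 4 / 4 := by
    have h1 : ∫ r in s..b, |s - r| ^ 3 = ∫ r in s..b, (r - s) ^ 3 := by
      refine intervalIntegral.integral_congr fun r hr => ?_
      rw [uIcc_of_le hb] at hr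
      rw [abs_sub_comm, abs_of_nonneg (by linarith [hr.1])]
    have h2 := intervalIntegral.integral_eq_sub_of_hasDerivAt
      (f := fun r : ℝ => (r - s) ^ 4 / 4)
      (f' := fun r => (r - s) ^ 3) (a := s) (b := b) (fun r _ => ?_) ?_
    · rw [h1, h2]
      ring
    · have e : HasDerivAt (fun r : ℝ => r - s) 1 r := by
        simpa using (hasDerivAt_id r).sub_const s
      exact ((e.pow 4).div_const 4).congr_deriv (by push_cast; ring)
    · exact (by fun_prop : Continuous fun r : ℝ => (r - s) ^ 3).intervalIntegrable _ _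
  rw [e1, e2]
  ring

theorem outer_cube {a b : ℝ} :
    ∫ s in a..b, ((s - a) ^ 4 + (b - s) ^ 4) / 4 = (b - a) ^ 5 / 10 := by
  have h2 := intervalIntegral.integral_eq_sub_of_hasDerivAt
    (f := fun s : ℝ => (s - a) ^ 5 / 20 - (b - s) ^ 5 / 20)
    (f' := fun s => ((s - a) ^ 4 + (b - s) ^ 4) / 4) (a := a) (b := b) (fun s _ => ?_) ?_
  · rw [h2]
    ring
  · have e1 : HasDerivAt (fun s : ℝ => s - a) 1 s := by
      simpa using (hasDerivAt_id s).sub_const a
    have e2 : HasDerivAt (fun s : ℝ => b - s) (-1) s := by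
      simpa using (hasDerivAt_id s).const_sub b
    exact (((e1.pow 5).div_const 20).sub ((e2.pow 5).div_const 20)).congr_deriv
      (by push_cast; ring)
  · exact (by fun_prop : Continuous fun s : ℝ =>
      ((s - a) ^ 4 + (b - s) ^ 4) / 4).intervalIntegrable _ _

end BeamOpenAux

open BeamOpenAux

/-- `L ^ 5 = 10 ∫∫ |s - r|³` on an interval. -/
theorem integral_cube (a b : ℝ) (hab : a ≤ b) :
    ∫ s in Ioo a b, ∫ r in Ioo a b, |s - r| ^ 3 = (b - a) ^ 5 / 10 := by
  have h1 : ∫ s in Ioo a b, ∫ r in Ioo a b, |s - r| ^ 3 =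
      ∫ s in Ioo a b, ((s - a) ^ 4 + (b - s) ^ 4) / 4 := by
    refine setIntegral_congr_fun measurableSet_Ioo fun s hs => ?_
    rw [← integral_Ioc_eq_integral_Ioo, ← intervalIntegral.integral_of_le hab,
      inner_cube hs.1.le hs.2.le]
  rw [h1, ← integral_Ioc_eq_integral_Ioo, ← intervalIntegral.integral_of_le hab, outer_cube]

namespace BeamOpenAux

/-- Connected components of a bounded open set are intervals with end points outside. -/
theorem comp_eq {O : Set ℝ} (hO : IsOpen O) (hb : Bornology.IsBounded O) {x : ℝ} (hx : x ∈ O) :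
    ∃ a b : ℝ, a < b ∧ connectedComponentIn O x = Ioo a b ∧ a ∉ O ∧ b ∉ O := by
  set C := connectedComponentIn O x with hC
  have hCo : IsOpen C := hO.connectedComponentIn
  have hxC : x ∈ C := mem_connectedComponentIn hx
  have hCO : C ⊆ O := connectedComponentIn_subset O x
  have hCb : Bornology.IsBounded C := hb.subset hCO
  have hconn : IsConnected C := ⟨⟨x, hxC⟩, isPreconnected_connectedComponentIn⟩
  have hbb : BddBelow C := hCb.bddBelow
  have hba : BddAbove C := hCb.bddAbove
  have h1 : Ioo (sInf C) (sSup C) ⊆ C := hconn.Ioo_csInf_csSup_subset hbb hba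
  have hlow : ∀ y ∈ C, sInf C < y := by
    intro y hy
    obtain ⟨ε, hε, hball⟩ := Metric.isOpen_iff.1 hCo y hy
    have : y - ε / 2 ∈ C := hball (by
      rw [Metric.mem_ball, Real.dist_eq]
      rw [abs_of_neg (by linarith)]
      linarith)
    have := csInf_le hbb this
    linarith
  have hup : ∀ y ∈ C, y < sSup C := by
    intro y hy
    obtain ⟨ε, hε, hball⟩ := Metric.isOpen_iff.1 hCo y hy
    have : y + ε / 2 ∈ C := hball (by
      rw [Metric.mem_ball, Real.dist_eq]
      rw [abs_of_pos (by linarith)]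
      linarith)
    have := le_csSup hba this
    linarith
  have h2 : C = Ioo (sInf C) (sSup C) :=
    Subset.antisymm (fun y hy => ⟨hlow y hy, hup y hy⟩) h1
  have hlt : sInf C < sSup C := (hlow x hxC).trans (hup x hxC)
  have key : ∀ z : ℝ, z ∉ C → (∀ ε : ℝ, 0 < ε → ∃ y ∈ C, |y - z| < ε) → z ∉ O := by
    intro z hzC hz hzO
    have hDo : IsOpen (connectedComponentIn O z) := hO.connectedComponentIn
    have hzD : z ∈ connectedComponentIn O z := mem_connectedComponentIn hzO
    obtain ⟨ε, hε, hball⟩ := Metric.isOpen_iff.1 hDo _ hzD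
    obtain ⟨y, hyC, hy⟩ := hz ε hε
    have hyD : y ∈ connectedComponentIn O z := hball (by
      rw [Metric.mem_ball, Real.dist_eq]
      exact hy)
    have e1 := connectedComponentIn_eq hyD
    have e2 : C = connectedComponentIn O y := connectedComponentIn_eq hyC
    rw [← e1] at e2
    rw [e2] at hzC
    exact hzC hzD
  refine ⟨sInf C, sSup C, hlt, h2, ?_, ?_⟩
  · refine key _ (fun h => lt_irrefl _ (hlow _ h)) fun ε hε => ?_
    have hmpos : 0 < min (ε / 2) ((sSup C - sInf C) / 2) := lt_min (by linarith) (by linarith)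
    have hm1 := min_le_left (ε / 2) ((sSup C - sInf C) / 2)
    have hm2 := min_le_right (ε / 2) ((sSup C - sInf C) / 2)
    refine ⟨sInf C + min (ε / 2) ((sSup C - sInf C) / 2), h1 ⟨by linarith, by linarith⟩, ?_⟩
    rw [add_sub_cancel_left, abs_of_pos hmpos]
    linarith
  · refine key _ (fun h => lt_irrefl _ (hup _ h)) fun ε hε => ?_
    have hmpos : 0 < min (ε / 2) ((sSup C - sInf C) / 2) := lt_min (by linarith) (by linarith)
    have hm1 := min_le_left (ε / 2) ((sSup C - sInf C) / 2)
    have hm2 := min_le_right (ε / 2) ((sSup C - sInf C) / 2)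
    refine ⟨sSup C - min (ε / 2) ((sSup C - sInf C) / 2), h1 ⟨by linarith, by linarith⟩, ?_⟩
    rw [sub_sub_cancel_left, abs_neg, abs_of_pos hmpos]
    linarith

end BeamOpenAux

theorem beam_open (O : Set ℝ) (hO : IsOpen O) (hb : Bornology.IsBounded O) (v : ℝ → ℝ)
    (hv : ContDiff ℝ 2 v) (hc : HasCompactSupport v) (hs : tsupport v ⊆ O) :
    72 * (∫ x, |v x|) ^ 2
      ≤ (∫ s in O, ∫ r in O, |s - r| ^ 3) * ∫ x, (deriv (deriv v) x) ^ 2 := by
  classical
  have hv1 : ContDiff ℝ 1 (deriv v) := hv.deriv'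
  have hc2 : Continuous (deriv (deriv v)) := hv1.continuous_deriv le_rfl
  have hcs2 : HasCompactSupport (deriv (deriv v)) := hc.deriv.deriv
  -- finite family of components
  have hnh : ∀ x ∈ tsupport v, connectedComponentIn O x ∈ nhds x := by
    intro x hx
    have h1 : IsOpen (connectedComponentIn O x) := hO.connectedComponentIn
    have h2 : x ∈ connectedComponentIn O x := mem_connectedComponentIn (hs hx)
    exact h1.mem_nhds h2
  have hcK : IsCompact (tsupport v) := hc
  obtain ⟨t, ht, htc⟩ := hcK.elim_nhds_subcover (fun x => connectedComponentIn O x) hnh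
  set T : Finset (Set ℝ) := t.image (fun x => connectedComponentIn O x) with hT
  have hTform : ∀ J ∈ T, ∃ a b : ℝ, a < b ∧ J = Ioo a b ∧ a ∉ O ∧ b ∉ O := by
    intro J hJ
    obtain ⟨x, hx, rfl⟩ := Finset.mem_image.1 hJ
    exact comp_eq hO hb (hs (ht x hx))
  have hTsub : ∀ J ∈ T, J ⊆ O := by
    intro J hJ
    obtain ⟨x, hx, rfl⟩ := Finset.mem_image.1 hJ
    exact connectedComponentIn_subset O x
  have hTmeas : ∀ J ∈ T, MeasurableSet J := by
    intro J hJ
    obtain ⟨a, b, -, rfl, -, -⟩ := hTform J hJ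
    exact measurableSet_Ioo
  have hTdisj : (T : Set (Set ℝ)).Pairwise (Function.onFun Disjoint fun J : Set ℝ => J) := by
    intro J hJ J' hJ' hne
    obtain ⟨x, hx, rfl⟩ := Finset.mem_image.1 (Finset.mem_coe.1 hJ)
    obtain ⟨y, hy, rfl⟩ := Finset.mem_image.1 (Finset.mem_coe.1 hJ')
    simp only [Function.onFun]
    rw [Set.disjoint_left]
    intro z hz hz'
    exact hne ((connectedComponentIn_eq hz).trans (connectedComponentIn_eq hz').symm)
  set U : Set ℝ := ⋃ J ∈ T, J with hU
  have hUO : U ⊆ O := iUnion₂_subset hTsub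
  have hUm : MeasurableSet U := T.measurableSet_biUnion hTmeas
  have hvU : ∀ x, x ∉ U → v x = 0 := by
    intro x hx
    by_contra hne
    have hx2 : x ∈ tsupport v := subset_tsupport v hne
    obtain ⟨y, hy, hxy⟩ := mem_iUnion₂.1 (htc hx2)
    exact hx (mem_iUnion₂.2 ⟨_, Finset.mem_image_of_mem _ hy, hxy⟩)
  -- integrability
  have hvint : Integrable (fun x => |v x|) :=
    (hv.continuous.integrable_of_hasCompactSupport hc).abs
  have hv2int : Integrable (fun x => (deriv (deriv v) x) ^ 2) := by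
    have h0 : HasCompactSupport (fun x => deriv (deriv v) x * deriv (deriv v) x) :=
      hcs2.mul_right
    have h1 : Integrable (fun x => deriv (deriv v) x * deriv (deriv v) x) :=
      (hc2.mul hc2).integrable_of_hasCompactSupport h0
    exact h1.congr (Filter.Eventually.of_forall fun x => (sq (deriv (deriv v) x)).symm)
  obtain ⟨R, hR⟩ := hb.subset_closedBall (0 : ℝ)
  have hprod : Integrable (fun p : ℝ × ℝ => |p.1 - p.2| ^ 3)
      ((volume.restrict O).prod (volume.restrict O)) := by
    rw [Measure.prod_restrict]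
    have hcont : Continuous (fun p : ℝ × ℝ => |p.1 - p.2| ^ 3) := by fun_prop
    have hK : IsCompact (Metric.closedBall (0 : ℝ) R ×ˢ Metric.closedBall (0 : ℝ) R) :=
      (isCompact_closedBall _ _).prod (isCompact_closedBall _ _)
    exact (hcont.continuousOn.integrableOn_compact hK).mono_set (prod_mono hR hR)
  have hin : ∀ s : ℝ, IntegrableOn (fun r => |s - r| ^ 3) O := by
    intro s
    have hcont : Continuous (fun r : ℝ => |s - r| ^ 3) := by fun_prop
    exact (hcont.continuousOn.integrableOn_compact (isCompact_closedBall (0 : ℝ) R)).mono_set hR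
  have hF : IntegrableOn (fun s => ∫ r in O, |s - r| ^ 3) O := hprod.integral_prod_left
  have hFnn : ∀ s, 0 ≤ ∫ r in O, |s - r| ^ 3 := fun s =>
    integral_nonneg fun r => by positivity
  -- three sums
  have e1 : ∫ x, |v x| = ∑ J ∈ T, ∫ x in J, |v x| := by
    rw [← integral_biUnion_finset T hTmeas hTdisj (fun J _ => hvint.integrableOn)]
    exact (setIntegral_eq_integral_of_forall_compl_eq_zero fun x hx => by
      rw [hvU x hx, abs_zero]).symm
  have e2 : ∑ J ∈ T, ∫ x in J, (deriv (deriv v) x) ^ 2 ≤ ∫ x, (deriv (deriv v) x) ^ 2 := by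
    rw [← integral_biUnion_finset T hTmeas hTdisj (fun J _ => hv2int.integrableOn)]
    exact setIntegral_le_integral hv2int (Filter.Eventually.of_forall fun x => sq_nonneg _)
  have e3 : ∑ J ∈ T, ∫ s in J, ∫ r in J, |s - r| ^ 3 ≤ ∫ s in O, ∫ r in O, |s - r| ^ 3 := by
    calc ∑ J ∈ T, ∫ s in J, ∫ r in J, |s - r| ^ 3
        ≤ ∑ J ∈ T, ∫ s in J, ∫ r in O, |s - r| ^ 3 := by
          refine Finset.sum_le_sum fun J hJ => ?_
          refine integral_mono_of_nonneg (Filter.Eventually.of_forall fun s =>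
            integral_nonneg fun r => by positivity) (hF.mono_set (hTsub J hJ))
            (Filter.Eventually.of_forall fun s => ?_)
          exact setIntegral_mono_set (hin s)
            (Filter.Eventually.of_forall fun r => by positivity) (hTsub J hJ).eventuallyLE
      _ = ∫ s in U, ∫ r in O, |s - r| ^ 3 :=
          (integral_biUnion_finset T hTmeas hTdisj (fun J hJ => hF.mono_set (hTsub J hJ))).symm
      _ ≤ ∫ s in O, ∫ r in O, |s - r| ^ 3 :=
          setIntegral_mono_set hF (Filter.Eventually.of_forall hFnn) hUO.eventuallyLE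
  -- the inequality on each interval
  have e4 : ∀ J ∈ T, (∫ x in J, |v x|) ^ 2 ≤
      ((∫ s in J, ∫ r in J, |s - r| ^ 3) / 72) * ∫ x in J, (deriv (deriv v) x) ^ 2 := by
    intro J hJ
    obtain ⟨a, b, hab, rfl, ha, hb'⟩ := hTform J hJ
    have hz : ∀ y, y ∉ O → v y = 0 ∧ deriv v y = 0 := by
      intro y hy
      have hy2 : y ∉ tsupport v := fun h => hy (hs h)
      have h1 : v =ᶠ[nhds y] fun _ => (0 : ℝ) := notMem_tsupport_iff_eventuallyEq.1 hy2
      exact ⟨h1.eq_of_nhds, by rw [h1.deriv_eq]; simp⟩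
    have h1 := beam a b hab v hv (hz a ha).1 (hz a ha).2 (hz b hb').1 (hz b hb').2
    rw [intervalIntegral.integral_of_le hab.le, intervalIntegral.integral_of_le hab.le,
      integral_Ioc_eq_integral_Ioo, integral_Ioc_eq_integral_Ioo] at h1
    rw [integral_cube a b hab.le]
    have h2 : (b - a) ^ 5 / 10 / 72 * ∫ x in Ioo a b, (deriv (deriv v) x) ^ 2 =
        ((b - a) ^ 5 * ∫ x in Ioo a b, (deriv (deriv v) x) ^ 2) / 720 := by ring
    rw [h2, le_div_iff₀ (by norm_num)]
    linarith
  have hJ3 : ∀ J ∈ T, 0 ≤ (∫ s in J, ∫ r in J, |s - r| ^ 3) / 72 := fun J _ =>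
    div_nonneg (integral_nonneg fun s => integral_nonneg fun r => by positivity) (by norm_num)
  have hJ2 : ∀ J ∈ T, 0 ≤ ∫ x in J, (deriv (deriv v) x) ^ 2 := fun J _ =>
    integral_nonneg fun x => sq_nonneg _
  have key := Finset.sum_sq_le_sum_mul_sum_of_sq_le_mul T hJ3 hJ2 e4
  rw [← e1, ← Finset.sum_div] at key
  have hS3 : 0 ≤ ∑ J ∈ T, ∫ s in J, ∫ r in J, |s - r| ^ 3 :=
    Finset.sum_nonneg fun J _ => integral_nonneg fun s => integral_nonneg fun r => by positivity
  have hS2 : 0 ≤ ∑ J ∈ T, ∫ x in J, (deriv (deriv v) x) ^ 2 := Finset.sum_nonneg hJ2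
  have h5 : (∑ J ∈ T, ∫ s in J, ∫ r in J, |s - r| ^ 3) *
      (∑ J ∈ T, ∫ x in J, (deriv (deriv v) x) ^ 2) ≤
      (∫ s in O, ∫ r in O, |s - r| ^ 3) * ∫ x, (deriv (deriv v) x) ^ 2 :=
    mul_le_mul e3 e2 hS2 (hS3.trans e3)
  nlinarith

end Pool.Agent.Lib.MP_d3943d_an
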