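import Pool.Agent.Lib.MP_d3943d_an.Defs

set_option autoImplicit false

/-!
Coordinates `E (n+1) = ℝ × E n`, isometries.
-/

namespace Pool.Agent.Lib.MP_d3943d_an

open MeasureTheory Set
open scoped ENNReal

/-- Insert a zeroth coordinate. -/
noncomputable def ins {n : ℕ} (s : ℝ) (y : E n) : E (n + 1) :=
  WithLp.toLp 2 (Fin.cons s (fun i => y i))

/-- Drop the zeroth coordinate. -/
noncomputable def tl {n : ℕ} (x : E (n + 1)) : E n :=
  WithLp.toLp 2 (fun i => x i.succ)

@[simp] theorem ins_zero {n : ℕ} (s : ℝ) (y : E n) : ins s y 0 = s := rfl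

@[simp] theorem ins_succ {n : ℕ} (s : ℝ) (y : E n) (i : Fin n) : ins s y i.succ = y i := rfl

@[simp] theorem tl_apply {n : ℕ} (x : E (n + 1)) (i : Fin n) : tl x i = x i.succ := rfl

@[simp] theorem tl_ins {n : ℕ} (s : ℝ) (y : E n) : tl (ins s y) = y := rfl

@[simp] theorem ins_tl {n : ℕ} (x : E (n + 1)) : ins (x 0) (tl x) = x := by
  ext i
  refine Fin.cases ?_ (fun j => ?_) i <;> rfl

theorem norm_ins_sq {n : ℕ} (s : ℝ) (y : E n) : ‖ins s y‖ ^ 2 = s ^ 2 + ‖y‖ ^ 2 := by
  rw [EuclideanSpace.norm_sq_eq, EuclideanSpace.norm_sq_eq, Fin.sum_univ_succ]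
  simp

theorem ins_add {n : ℕ} (s s' : ℝ) (y y' : E n) : ins (s + s') (y + y') = ins s y + ins s' y' := by
  ext i
  refine Fin.cases ?_ (fun j => ?_) i <;> simp

theorem ins_sub {n : ℕ} (s s' : ℝ) (y y' : E n) : ins (s - s') (y - y') = ins s y - ins s' y' := by
  ext i
  refine Fin.cases ?_ (fun j => ?_) i <;> simp

theorem ins_smul {n : ℕ} (r s : ℝ) (y : E n) : ins (r * s) (r • y) = r • ins s y := by
  ext i
  refine Fin.cases ?_ (fun j => ?_) i <;> simp

theorem inner_ins {n : ℕ} (s s' : ℝ) (y y' : E n) :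
    inner ℝ (ins s y) (ins s' y') = s * s' + inner ℝ y y' := by
  simp [PiLp.inner_apply, Fin.sum_univ_succ, mul_comm]

theorem ins_one_zero {n : ℕ} : (ins 1 (0 : E n)) = e 0 := by
  ext i
  refine Fin.cases ?_ (fun j => ?_) i <;> simp [e]

theorem continuous_ins {n : ℕ} : Continuous (fun p : ℝ × E n => ins p.1 p.2) := by
  refine (PiLp.continuous_toLp 2 _).comp (continuous_pi fun i => ?_)
  refine Fin.cases ?_ (fun j => ?_) i
  · exact continuous_fst
  · exact (continuous_apply j).comp ((PiLp.continuous_ofLp 2 _).comp continuous_snd)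

theorem continuous_tl {n : ℕ} : Continuous (fun x : E (n + 1) => tl x) := by
  refine (PiLp.continuous_toLp 2 _).comp (continuous_pi fun i => ?_)
  exact (continuous_apply i.succ).comp (PiLp.continuous_ofLp 2 _)

/-- The measurable equivalence `ℝ × E n ≃ E (n+1)`. -/
noncomputable def insEquiv (n : ℕ) : (ℝ × E n) ≃ᵐ E (n + 1) where
  toFun p := ins p.1 p.2
  invFun x := (x 0, tl x)
  left_inv p := rfl
  right_inv x := ins_tl x
  measurable_toFun := continuous_ins.measurable
  measurable_invFun :=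
    ((((continuous_apply (0 : Fin (n + 1))).comp (PiLp.continuous_ofLp 2 _))).prodMk
      continuous_tl).measurable

@[simp] theorem insEquiv_apply {n : ℕ} (p : ℝ × E n) : insEquiv n p = ins p.1 p.2 := rfl

theorem mp_ins (n : ℕ) : MeasurePreserving (insEquiv n) volume volume := by
  have h1 : MeasurePreserving (fun p : ℝ × E n => ((p.1, WithLp.ofLp p.2) : ℝ × (Fin n → ℝ)))
      volume volume :=
    (MeasurePreserving.id (volume : Measure ℝ)).prod (PiLp.volume_preserving_ofLp (Fin n))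
  have h2 := (volume_preserving_piFinSuccAbove (fun _ : Fin (n + 1) => ℝ) 0).symm
  have h3 := PiLp.volume_preserving_toLp (Fin (n + 1))
  have h4 := h3.comp (h2.comp h1)
  have : ⇑(insEquiv n) = (WithLp.toLp 2) ∘
      (⇑(MeasurableEquiv.piFinSuccAbove (fun _ : Fin (n + 1) => ℝ) 0).symm) ∘
        (fun p : ℝ × E n => ((p.1, WithLp.ofLp p.2) : ℝ × (Fin n → ℝ))) := by
    funext p
    ext i
    refine Fin.cases ?_ (fun j => ?_) i
    · simp [MeasurableEquiv.piFinSuccAbove, Fin.insertNthEquiv]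
    · simp [MeasurableEquiv.piFinSuccAbove, Fin.insertNthEquiv]
  rw [this]
  exact h4

theorem lintegral_ins {n : ℕ} (f : E (n + 1) → ℝ≥0∞) (hf : Measurable f) :
    ∫⁻ x, f x = ∫⁻ y : E n, ∫⁻ s : ℝ, f (ins s y) := by
  rw [← (mp_ins n).lintegral_comp_emb (insEquiv n).measurableEmbedding f,
    Measure.volume_eq_prod, lintegral_prod_symm]
  · simp
  · exact (hf.comp (insEquiv n).measurable).aemeasurable

theorem integral_ins {n : ℕ} (f : E (n + 1) → ℝ) (hf : Integrable f) :
    ∫ x, f x = ∫ y : E n, ∫ s : ℝ, f (ins s y) := by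
  rw [← (mp_ins n).integral_comp (insEquiv n).measurableEmbedding f,
    Measure.volume_eq_prod, integral_prod_symm]
  · simp
  · have := ((mp_ins n).integrable_comp_emb (insEquiv n).measurableEmbedding (g := f)).2 hf
    exact this

/-- Any unit vector is the image of `e 0` under a linear isometry. -/
theorem exists_isometry {n : ℕ} (X : E (n + 1)) (hX : ‖X‖ = 1) :
    ∃ g : E (n + 1) ≃ₗᵢ[ℝ] E (n + 1), g (e 0) = X := by
  have ho : Orthonormal ℝ (({(0 : Fin (n + 1))} : Set (Fin (n + 1))).domRestrict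
      (fun _ : Fin (n + 1) => X)) := by
    refine ⟨fun i => hX, ?_⟩
    rintro ⟨i, hi⟩ ⟨j, hj⟩ hij
    exact absurd (Subtype.ext (hi.trans hj.symm)) hij
  obtain ⟨b, hb⟩ := ho.exists_orthonormalBasis_extension_of_card_eq (by simp)
  refine ⟨b.repr.symm, ?_⟩
  have := hb 0 rfl
  rw [← this]
  simp [e]

/-- Isometries preserve the volume. -/
theorem lintegral_isom {N : ℕ} (g : E N ≃ₗᵢ[ℝ] E N) (f : E N → ℝ≥0∞) :
    ∫⁻ x, f (g x) = ∫⁻ x, f x :=
  (g.measurePreserving).lintegral_comp_emb g.toMeasurableEquiv.measurableEmbedding f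

theorem integral_isom {N : ℕ} (g : E N ≃ₗᵢ[ℝ] E N) (f : E N → ℝ) :
    ∫ x, f (g x) = ∫ x, f x :=
  (g.measurePreserving).integral_comp g.toMeasurableEquiv.measurableEmbedding f

end Pool.Agent.Lib.MP_d3943d_an
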