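import Mathlib

set_option autoImplicit false

/-!
Clamped plates (MP_d3943d_an, S06265): common definitions.
-/

namespace Pool.Agent.Lib.MP_d3943d_an

open MeasureTheory Set

/-- Euclidean space. -/
abbrev E (N : ℕ) := EuclideanSpace ℝ (Fin N)

/-- The `i`-th standard basis vector. -/
noncomputable def e {N : ℕ} (i : Fin N) : E N := EuclideanSpace.single i (1 : ℝ)

/-- Second derivative of `φ` at `x` in the directions `v` and `w`. -/
noncomputable def D2 {N : ℕ} (φ : E N → ℝ) (x v w : E N) : ℝ :=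
  fderiv ℝ (fderiv ℝ φ) x v w

/-- The Laplacian. -/
noncomputable def Lap {N : ℕ} (φ : E N → ℝ) (x : E N) : ℝ :=
  ∑ i : Fin N, D2 φ x (e i) (e i)

/-- Test functions on `Ω`. -/
structure IsTest {N : ℕ} (φ : E N → ℝ) (Ω : Set (E N)) : Prop where
  smooth : ContDiff ℝ ((⊤ : ℕ∞) : WithTop ℕ∞) φ
  compact : HasCompactSupport φ
  supp : tsupport φ ⊆ Ω

/-- The deflection of the ball of radius `R` under unit load. -/
noncomputable def CB (N : ℕ) (R : ℝ) : ℝ :=
  ∫ x in Metric.ball (0 : E N) R, (R ^ 2 - ‖x‖ ^ 2) ^ 2 / (8 * (N : ℝ) * ((N : ℝ) + 2))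

/-- The key inequality in dimension `N`. -/
def KeyIneq (N : ℕ) : Prop :=
  ∀ (Ω : Set (E N)), IsOpen Ω → Bornology.IsBounded Ω → ∀ R : ℝ, 0 < R →
    volume Ω ≤ volume (Metric.ball (0 : E N) R) →
    ∀ φ : E N → ℝ, IsTest φ Ω → (∫ x, |φ x|) ^ 2 ≤ CB N R * ∫ x, (Lap φ x) ^ 2

end Pool.Agent.Lib.MP_d3943d_an
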