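import Pool.Agent.Lib.MP_d3943d_an.Defs

set_option autoImplicit false

/-!
Fourth moments of the Gaussian.
-/

namespace Pool.Agent.Lib.MP_d3943d_an

open MeasureTheory Set
open scoped ENNReal ContDiff

/-- Total mass of the (unnormalised) Gaussian. -/
noncomputable def ZG (N : ℕ) : ℝ := ∫ X : E N, Real.exp (-‖X‖ ^ 2 / 2)

theorem gauss_exp_integrable (N : ℕ) (b : ℝ) (hb : 0 < b) :
    Integrable (fun X : E N => Real.exp (-b * ‖X‖ ^ 2)) := by
  have h1 := GaussianFourier.integrable_cexp_neg_mul_sq_norm_add (V := E N) (b := (b : ℂ))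
    (by simpa using hb) 0 0
  have h2 := h1.re
  refine h2.congr (Filter.Eventually.of_forall fun X => ?_)
  simp only [zero_mul, add_zero]
  rw [show (-(b : ℂ) * (‖X‖ : ℂ) ^ 2) = ((-b * ‖X‖ ^ 2 : ℝ) : ℂ) by push_cast; ring,
    ← Complex.ofReal_exp]
  exact Complex.ofReal_re _

/-- continuous functions of growth at most four times the Gaussian are integrable -/
theorem gauss_int {N : ℕ} (f : E N → ℝ) (hf : Continuous f) (C : ℝ)
    (hC : ∀ X, |f X| ≤ C * (1 + ‖X‖) ^ 4) :
    Integrable (fun X : E N => f X * Real.exp (-‖X‖ ^ 2 / 2)) := by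
  have hC0 : 0 ≤ C := by
    have := hC 0
    rw [norm_zero] at this
    have h2 := abs_nonneg (f 0)
    linarith
  refine ((gauss_exp_integrable N (1 / 4) (by norm_num)).const_mul (C * Real.exp 16)).mono' ?_ ?_
  · exact (hf.mul (by fun_prop)).aestronglyMeasurable
  · refine Filter.Eventually.of_forall fun X => ?_
    rw [Real.norm_eq_abs, abs_mul, abs_of_pos (Real.exp_pos _)]
    have h1 : (1 + ‖X‖) ^ 4 ≤ Real.exp (4 * ‖X‖) := by
      have h2 : 1 + ‖X‖ ≤ Real.exp ‖X‖ := by
        have := Real.add_one_le_exp ‖X‖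
        linarith
      calc (1 + ‖X‖) ^ 4 ≤ Real.exp ‖X‖ ^ 4 := pow_le_pow_left₀ (by positivity) h2 4
        _ = Real.exp (4 * ‖X‖) := by
          rw [← Real.exp_nat_mul]
          norm_num
    calc |f X| * Real.exp (-‖X‖ ^ 2 / 2)
        ≤ (C * Real.exp (4 * ‖X‖)) * Real.exp (-‖X‖ ^ 2 / 2) := by
          apply mul_le_mul_of_nonneg_right _ (Real.exp_pos _).le
          exact (hC X).trans (mul_le_mul_of_nonneg_left h1 hC0)
      _ = C * Real.exp (4 * ‖X‖ + -‖X‖ ^ 2 / 2) := by rw [mul_assoc, ← Real.exp_add]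
      _ ≤ C * Real.exp (16 + -(1 / 4) * ‖X‖ ^ 2) := by
          apply mul_le_mul_of_nonneg_left _ hC0
          apply Real.exp_le_exp.2
          nlinarith [sq_nonneg (‖X‖ / 2 - 4)]
      _ = C * Real.exp 16 * Real.exp (-(1 / 4) * ‖X‖ ^ 2) := by rw [Real.exp_add, mul_assoc]

theorem gauss_int_one (N : ℕ) : Integrable (fun X : E N => Real.exp (-‖X‖ ^ 2 / 2)) := by
  refine (gauss_exp_integrable N (1 / 2) (by norm_num)).congr
    (Filter.Eventually.of_forall fun X => ?_)
  simp only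
  congr 1
  ring

theorem ZG_pos (N : ℕ) : 0 < ZG N := by
  unfold ZG
  rw [integral_pos_iff_support_of_nonneg (fun X => (Real.exp_pos _).le) (gauss_int_one N)]
  have : Function.support (fun X : E N => Real.exp (-‖X‖ ^ 2 / 2)) = univ := by
    ext X
    simp [Real.exp_ne_zero]
  rw [this]
  exact Measure.measure_univ_pos.2 (NeZero.ne volume)

theorem gauss_coord {N : ℕ} (X : E N) (i : Fin N) : |X i| ≤ 1 + ‖X‖ := by
  have := PiLp.norm_apply_le X i
  rw [Real.norm_eq_abs] at this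
  linarith

theorem gauss_hasFDerivAt {N : ℕ} (X : E N) :
    HasFDerivAt (fun Y : E N => Real.exp (-‖Y‖ ^ 2 / 2))
      (Real.exp (-‖X‖ ^ 2 / 2) • (-(innerSL ℝ X) : E N →L[ℝ] ℝ)) X := by
  have h1 : HasFDerivAt (fun X : E N => ‖X‖ ^ 2) (2 • (innerSL ℝ X)) X :=
    (hasStrictFDerivAt_norm_sq X).hasFDerivAt
  have h2 : HasFDerivAt (fun Y : E N => -‖Y‖ ^ 2 / 2) (-(innerSL ℝ X) : E N →L[ℝ] ℝ) X := by
    refine ((h1.const_mul (-(1 / 2 : ℝ))).congr_fderiv ?_).congr_of_eventuallyEq
      (Filter.Eventually.of_forall fun Y => ?_)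
    · ext Y
      simp
    · simp only
      ring
  exact h2.exp

theorem gauss_fderiv {N : ℕ} (X : E N) (i : Fin N) :
    fderiv ℝ (fun X : E N => Real.exp (-‖X‖ ^ 2 / 2)) X (e i) =
      -(X i * Real.exp (-‖X‖ ^ 2 / 2)) := by
  rw [(gauss_hasFDerivAt X).fderiv]
  simp only [smul_apply, neg_apply, innerSL_apply_apply, smul_eq_mul, e,
    EuclideanSpace.inner_single_right]
  simp
  ring

/-- integration by parts -/
theorem gauss_stein {N : ℕ} (i : Fin N) (F F' : E N → ℝ) (hF : ∀ X, DifferentiableAt ℝ F X)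
    (hF' : ∀ X, fderiv ℝ F X (e i) = F' X) (h1 : Continuous F')
    (C : ℝ) (hC : ∀ X, |F X| ≤ C * (1 + ‖X‖) ^ 3) (C' : ℝ)
    (hC' : ∀ X, |F' X| ≤ C' * (1 + ‖X‖) ^ 4) :
    ∫ X : E N, (X i * F X) * Real.exp (-‖X‖ ^ 2 / 2) =
      ∫ X : E N, F' X * Real.exp (-‖X‖ ^ 2 / 2) := by
  have hFc : Continuous F := continuous_iff_continuousAt.2 fun X => (hF X).continuousAt
  have hC0 : 0 ≤ C := by
    have := hC 0
    rw [norm_zero] at this
    have h2 := abs_nonneg (F 0)
    linarith
  have g1 : ∀ X : E N, |X i * F X| ≤ C * (1 + ‖X‖) ^ 4 := by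
    intro X
    rw [abs_mul]
    calc |X i| * |F X| ≤ (1 + ‖X‖) * (C * (1 + ‖X‖) ^ 3) :=
          mul_le_mul (gauss_coord X i) (hC X) (abs_nonneg _) (by positivity)
      _ = C * (1 + ‖X‖) ^ 4 := by ring
  have g2 : ∀ X : E N, |F X| ≤ C * (1 + ‖X‖) ^ 4 := by
    intro X
    refine (hC X).trans (mul_le_mul_of_nonneg_left ?_ hC0)
    apply pow_le_pow_right₀ _ (by norm_num)
    have := norm_nonneg X
    linarith
  have i1 := gauss_int (fun X : E N => X i * F X) (by fun_prop) C g1
  have i2 := gauss_int F hFc C g2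
  have i3 := gauss_int F' h1 C' hC'
  have key := integral_mul_fderiv_eq_neg_fderiv_mul_of_integrable (μ := (volume : Measure (E N)))
    (f := F) (g := fun X : E N => Real.exp (-‖X‖ ^ 2 / 2)) (v := e i)
    (by simpa only [hF'] using i3)
    (by
      refine i1.neg.congr (Filter.Eventually.of_forall fun X => ?_)
      simp only [gauss_fderiv, Pi.neg_apply]
      ring)
    i2 (fun X _ => hF X) (fun X _ => (gauss_hasFDerivAt X).differentiableAt)
  simp only [gauss_fderiv, hF'] at key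
  have e1 : ∫ X : E N, (X i * F X) * Real.exp (-‖X‖ ^ 2 / 2) =
      -∫ X : E N, F X * -(X i * Real.exp (-‖X‖ ^ 2 / 2)) := by
    rw [← integral_neg]
    refine integral_congr_ae (Filter.Eventually.of_forall fun X => ?_)
    simp only
    ring
  rw [e1, key, neg_neg]

theorem gauss_two {N : ℕ} (i j : Fin N) : ∫ X : E N, (X i * X j) * Real.exp (-‖X‖ ^ 2 / 2) =
    (if i = j then 1 else 0) * ZG N := by
  rw [gauss_stein i (fun X : E N => X j) (fun _ => if i = j then 1 else 0) (fun X => by fun_prop)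
    ?_ continuous_const 1 ?_ 1 ?_]
  · rw [integral_const_mul]
    rfl
  · intro X
    have h1 : (fun X : E N => X j) = (EuclideanSpace.proj j : E N →L[ℝ] ℝ) := rfl
    rw [h1, ContinuousLinearMap.fderiv]
    simp [e, eq_comm]
  · intro X
    refine (gauss_coord X j).trans ?_
    have := norm_nonneg X
    nlinarith [pow_le_pow_right₀ (by linarith : 1 ≤ 1 + ‖X‖) (by norm_num : 1 ≤ 3)]
  · intro X
    have := norm_nonneg X
    have h2 : (1 : ℝ) ≤ (1 + ‖X‖) ^ 4 := one_le_pow₀ (by linarith)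
    split_ifs <;> simp <;> linarith

theorem gauss_add {β : Type*} [MeasurableSpace β] {ν : Measure β} {f g h : β → ℝ}
    (hf : Integrable f ν) (hg : Integrable g ν) (hh : Integrable h ν) :
    ∫ x, ((f x + g x) + h x) ∂ν = ∫ x, f x ∂ν + ∫ x, g x ∂ν + ∫ x, h x ∂ν := by
  have h1 : ∫ x, f x + g x ∂ν = ∫ x, f x ∂ν + ∫ x, g x ∂ν := integral_add hf hg
  have h2 : ∫ x, f x + g x + h x ∂ν = ∫ x, f x + g x ∂ν + ∫ x, h x ∂ν :=
    integral_add (hf.add hg) hh
  rw [h2, h1]

theorem gauss_four {N : ℕ} (i j k l : Fin N) :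
    ∫ X : E N, (X i * (X j * X k * X l)) * Real.exp (-‖X‖ ^ 2 / 2) =
      ((if i = j then 1 else 0) * (if k = l then 1 else 0) +
        (if i = k then 1 else 0) * (if j = l then 1 else 0) +
        (if i = l then 1 else 0) * (if j = k then 1 else 0)) * ZG N := by
  set a : ℝ := if i = j then 1 else 0 with ha
  set b : ℝ := if i = k then 1 else 0 with hb
  set c : ℝ := if i = l then 1 else 0 with hc
  have ha1 : |a| ≤ 1 := by rw [ha]; split_ifs <;> simp
  have hb1 : |b| ≤ 1 := by rw [hb]; split_ifs <;> simp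
  have hc1 : |c| ≤ 1 := by rw [hc]; split_ifs <;> simp
  have b2 : ∀ (X : E N) (p q : Fin N), |X p * X q| ≤ (1 + ‖X‖) ^ 2 := by
    intro X p q
    rw [abs_mul, sq]
    exact mul_le_mul (gauss_coord X p) (gauss_coord X q) (abs_nonneg _)
      (by have := norm_nonneg X; linarith)
  have b24 : ∀ (X : E N), (1 + ‖X‖) ^ 2 ≤ (1 + ‖X‖) ^ 4 := by
    intro X
    apply pow_le_pow_right₀ _ (by norm_num)
    have := norm_nonneg X
    linarith
  rw [gauss_stein i (fun X : E N => X j * X k * X l)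
    (fun X => a * (X k * X l) + b * (X j * X l) + c * (X j * X k)) (fun X => by fun_prop)
    ?_ (by fun_prop) 1 ?_ 3 ?_]
  · have j1 : ∀ (t : ℝ) (p q : Fin N), Integrable (fun X : E N =>
        t * (X p * X q) * Real.exp (-‖X‖ ^ 2 / 2)) := by
      intro t p q
      refine gauss_int (fun X : E N => t * (X p * X q)) (by fun_prop) |t| (fun X => ?_)
      rw [abs_mul]
      exact mul_le_mul_of_nonneg_left ((b2 X p q).trans (b24 X)) (abs_nonneg _)
    have j2 : ∀ (t : ℝ) (p q : Fin N), ∫ X : E N, t * (X p * X q) * Real.exp (-‖X‖ ^ 2 / 2) =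
        t * ((if p = q then 1 else 0) * ZG N) := by
      intro t p q
      rw [← gauss_two p q, ← integral_const_mul]
      refine integral_congr_ae (Filter.Eventually.of_forall fun X => ?_)
      simp only
      ring
    have j3 : ∫ X : E N, (a * (X k * X l) + b * (X j * X l) + c * (X j * X k)) *
        Real.exp (-‖X‖ ^ 2 / 2) = ∫ X : E N, ((a * (X k * X l) * Real.exp (-‖X‖ ^ 2 / 2) +
          b * (X j * X l) * Real.exp (-‖X‖ ^ 2 / 2)) +
          c * (X j * X k) * Real.exp (-‖X‖ ^ 2 / 2)) := by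
      refine integral_congr_ae (Filter.Eventually.of_forall fun X => ?_)
      simp only
      ring
    rw [j3, gauss_add (j1 a k l) (j1 b j l) (j1 c j k), j2, j2, j2]
    ring
  · intro X
    have p1 : ∀ m : Fin N, HasFDerivAt (fun X : E N => X m) (EuclideanSpace.proj m : E N →L[ℝ] ℝ) X :=
      fun m => (EuclideanSpace.proj m : E N →L[ℝ] ℝ).hasFDerivAt
    have p2 : HasFDerivAt (fun X : E N => X j * X k * X l) _ X :=
      ((p1 j).mul (p1 k)).mul (p1 l)
    rw [p2.fderiv]
    have q1 : ∀ m : Fin N, (EuclideanSpace.proj m : E N →L[ℝ] ℝ) (e i) =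
        if i = m then 1 else 0 := by
      intro m
      simp [e, eq_comm]
    simp only [add_apply, smul_apply, q1, smul_eq_mul, Pi.mul_apply, ← ha, ← hb, ← hc]
    ring
  · intro X
    rw [abs_mul, one_mul, pow_succ]
    exact mul_le_mul (b2 X j k) (gauss_coord X l) (abs_nonneg _) (by positivity)
  · intro X
    have h3 : ∀ (t : ℝ), |t| ≤ 1 → ∀ p q : Fin N, |t * (X p * X q)| ≤ (1 + ‖X‖) ^ 4 := by
      intro t ht p q
      rw [abs_mul]
      calc |t| * |X p * X q| ≤ 1 * (1 + ‖X‖) ^ 2 :=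
            mul_le_mul ht (b2 X p q) (abs_nonneg _) (by norm_num)
        _ ≤ (1 + ‖X‖) ^ 4 := by rw [one_mul]; exact b24 X
    calc |a * (X k * X l) + b * (X j * X l) + c * (X j * X k)|
        ≤ |a * (X k * X l)| + |b * (X j * X l)| + |c * (X j * X k)| := abs_add_three _ _ _
      _ ≤ 3 * (1 + ‖X‖) ^ 4 := by linarith [h3 a ha1 k l, h3 b hb1 j l, h3 c hc1 j k]

theorem gauss_expand {N : ℕ} (B : Fin N → Fin N → ℝ) (X : E N) :
    (∑ i, ∑ j, B i j * X i * X j) ^ 2 * Real.exp (-‖X‖ ^ 2 / 2) =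
      ∑ i, ∑ j, ∑ k, ∑ l, (B i j * B k l) * ((X i * (X j * X k * X l)) *
        Real.exp (-‖X‖ ^ 2 / 2)) := by
  rw [sq, Finset.sum_mul, Finset.sum_mul]
  refine Finset.sum_congr rfl fun i _ => ?_
  rw [Finset.sum_mul, Finset.sum_mul]
  refine Finset.sum_congr rfl fun j _ => ?_
  rw [Finset.mul_sum, Finset.sum_mul]
  refine Finset.sum_congr rfl fun k _ => ?_
  rw [Finset.mul_sum, Finset.sum_mul]
  refine Finset.sum_congr rfl fun l _ => ?_
  ring

theorem gauss_four_integrable {N : ℕ} (i j k l : Fin N) :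
    Integrable (fun X : E N => (X i * (X j * X k * X l)) * Real.exp (-‖X‖ ^ 2 / 2)) := by
  refine gauss_int (fun X : E N => X i * (X j * X k * X l)) (by fun_prop) 1 (fun X => ?_)
  have h0 : 0 ≤ 1 + ‖X‖ := by have := norm_nonneg X; linarith
  rw [abs_mul, abs_mul, abs_mul, one_mul]
  have h1 := gauss_coord X i
  have h2 := gauss_coord X j
  have h3 := gauss_coord X k
  have h4 := gauss_coord X l
  calc |X i| * (|X j| * |X k| * |X l|)
      ≤ (1 + ‖X‖) * ((1 + ‖X‖) * (1 + ‖X‖) * (1 + ‖X‖)) := by gcongr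
    _ = (1 + ‖X‖) ^ 4 := by ring

theorem gauss_quartic_integrable {N : ℕ} (B : Fin N → Fin N → ℝ) :
    Integrable (fun X : E N => (∑ i, ∑ j, B i j * X i * X j) ^ 2 * Real.exp (-‖X‖ ^ 2 / 2)) := by
  simp only [gauss_expand]
  refine integrable_finsetSum _ fun i _ => integrable_finsetSum _ fun j _ =>
    integrable_finsetSum _ fun k _ => integrable_finsetSum _ fun l _ =>
    (gauss_four_integrable i j k l).const_mul _

theorem gauss_quartic {N : ℕ} (B : Fin N → Fin N → ℝ) (hB : ∀ i j, B i j = B j i) :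
    ∫ X : E N, (∑ i, ∑ j, B i j * X i * X j) ^ 2 * Real.exp (-‖X‖ ^ 2 / 2)
      = (2 * ∑ i, ∑ j, (B i j) ^ 2 + (∑ i, B i i) ^ 2) * ZG N := by
  simp only [gauss_expand]
  rw [integral_finsetSum _ fun i _ => integrable_finsetSum _ fun j _ =>
    integrable_finsetSum _ fun k _ => integrable_finsetSum _ fun l _ =>
    (gauss_four_integrable i j k l).const_mul _]
  have h1 : ∀ i : Fin N, ∫ X : E N, ∑ j, ∑ k, ∑ l, (B i j * B k l) *
      ((X i * (X j * X k * X l)) * Real.exp (-‖X‖ ^ 2 / 2)) =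
      ∑ j, ∑ k, ∑ l, (B i j * B k l) * (((if i = j then 1 else 0) * (if k = l then 1 else 0) +
        (if i = k then 1 else 0) * (if j = l then 1 else 0) +
        (if i = l then 1 else 0) * (if j = k then 1 else 0)) * ZG N) := by
    intro i
    rw [integral_finsetSum _ fun j _ =>
      integrable_finsetSum _ fun k _ => integrable_finsetSum _ fun l _ =>
      (gauss_four_integrable i j k l).const_mul _]
    refine Finset.sum_congr rfl fun j _ => ?_
    rw [integral_finsetSum _ fun k _ => integrable_finsetSum _ fun l _ =>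
      (gauss_four_integrable i j k l).const_mul _]
    refine Finset.sum_congr rfl fun k _ => ?_
    rw [integral_finsetSum _ fun l _ => (gauss_four_integrable i j k l).const_mul _]
    refine Finset.sum_congr rfl fun l _ => ?_
    rw [integral_const_mul, gauss_four]
  simp only [h1]
  have h2 : ∀ i : Fin N, ∑ j, ∑ k, ∑ l, (B i j * B k l) * (((if i = j then 1 else 0) *
      (if k = l then 1 else 0) + (if i = k then 1 else 0) * (if j = l then 1 else 0) +
        (if i = l then 1 else 0) * (if j = k then 1 else 0)) * ZG N) =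
      (B i i * ∑ k, B k k + ∑ j, B i j * B i j + ∑ j, B i j * B j i) * ZG N := by
    intro i
    have s1 : ∑ j, ∑ k, ∑ l, (B i j * B k l) * (((if i = j then (1 : ℝ) else 0) *
        (if k = l then 1 else 0)) * ZG N) = (B i i * ∑ k, B k k) * ZG N := by
      simp [Finset.mul_sum, Finset.sum_mul, mul_assoc]
    have s2 : ∑ j, ∑ k, ∑ l, (B i j * B k l) * (((if i = k then (1 : ℝ) else 0) *
        (if j = l then 1 else 0)) * ZG N) = (∑ j, B i j * B i j) * ZG N := by
      simp [Finset.sum_mul]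
    have s3 : ∑ j, ∑ k, ∑ l, (B i j * B k l) * (((if i = l then (1 : ℝ) else 0) *
        (if j = k then 1 else 0)) * ZG N) = (∑ j, B i j * B j i) * ZG N := by
      simp [Finset.sum_mul]
    rw [add_mul, add_mul, ← s1, ← s2, ← s3]
    simp only [← Finset.sum_add_distrib]
    refine Finset.sum_congr rfl fun j _ => Finset.sum_congr rfl fun k _ =>
      Finset.sum_congr rfl fun l _ => ?_
    ring
  simp only [h2]
  rw [← Finset.sum_mul]
  congr 1
  rw [Finset.sum_add_distrib, Finset.sum_add_distrib, ← Finset.sum_mul]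
  have h3 : ∀ i j : Fin N, B i j * B i j = B i j ^ 2 := fun i j => (sq _).symm
  have h4 : ∀ i j : Fin N, B i j * B j i = B i j ^ 2 := fun i j => by rw [hB j i, sq]
  simp only [h3, h4]
  ring

theorem gauss_norm_eq {N : ℕ} (X : E N) :
    ∑ i, ∑ j, (if i = j then (1 : ℝ) else 0) * X i * X j = ‖X‖ ^ 2 := by
  rw [EuclideanSpace.norm_sq_eq]
  refine Finset.sum_congr rfl fun i _ => ?_
  simp [sq]

theorem gauss_norm4_integrable (N : ℕ) :
    Integrable (fun X : E N => ‖X‖ ^ 4 * Real.exp (-‖X‖ ^ 2 / 2)) := by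
  refine (gauss_quartic_integrable (N := N) (fun i j => if i = j then 1 else 0)).congr
    (Filter.Eventually.of_forall fun X => ?_)
  simp only
  rw [gauss_norm_eq]
  ring

theorem gauss_norm4 (N : ℕ) :
    ∫ X : E N, ‖X‖ ^ 4 * Real.exp (-‖X‖ ^ 2 / 2) = (N : ℝ) * (N + 2) * ZG N := by
  have h1 := gauss_quartic (N := N) (fun i j => if i = j then 1 else 0)
    (fun i j => by simp only [eq_comm])
  have h2 : ∫ X : E N, ‖X‖ ^ 4 * Real.exp (-‖X‖ ^ 2 / 2) =
      ∫ X : E N, (∑ i, ∑ j, (if i = j then (1 : ℝ) else 0) * X i * X j) ^ 2 *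
        Real.exp (-‖X‖ ^ 2 / 2) := by
    refine integral_congr_ae (Filter.Eventually.of_forall fun X => ?_)
    simp only
    rw [gauss_norm_eq]
    ring
  rw [h2, h1]
  congr 1
  simp
  ring

end Pool.Agent.Lib.MP_d3943d_an
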