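import Pool.Agent.Lib.MP_d3943d_an.Coord

set_option autoImplicit false

/-!
The Gram determinant of a triangle.
-/

namespace Pool.Agent.Lib.MP_d3943d_an

open MeasureTheory Set
open scoped ENNReal ContDiff Pointwise

/-- Four times the squared area of the triangle `x y z`. -/
noncomputable def gram {N : ℕ} (x y z : E N) : ℝ :=
  ‖y - x‖ ^ 2 * ‖z - x‖ ^ 2 - (inner ℝ (y - x) (z - x)) ^ 2

theorem gram_nonneg {N : ℕ} (x y z : E N) : 0 ≤ gram x y z := by
  unfold gram
  have h := abs_real_inner_le_norm (y - x) (z - x)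
  have h2 := mul_self_le_mul_self (abs_nonneg _) h
  rw [abs_mul_abs_self] at h2
  nlinarith

theorem gram_isom {N : ℕ} (g : E N ≃ₗᵢ[ℝ] E N) (x y z : E N) :
    gram (g x) (g y) (g z) = gram x y z := by
  unfold gram
  rw [← map_sub, ← map_sub, g.norm_map, g.norm_map, g.inner_map_map]

theorem gram_ins {n : ℕ} (a b c : ℝ) (x y z : E n) :
    gram (ins a x) (ins b y) (ins c z)
      = gram x y z + ‖(b - a) • (z - x) - (c - a) • (y - x)‖ ^ 2 := by
  unfold gram
  rw [← ins_sub, ← ins_sub, norm_ins_sq, norm_ins_sq, inner_ins,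
    norm_sub_sq_real ((b - a) • (z - x)) ((c - a) • (y - x)), norm_smul, norm_smul, inner_smul_left, inner_smul_right, mul_pow, mul_pow,
    Real.norm_eq_abs, Real.norm_eq_abs, sq_abs, sq_abs, real_inner_comm (y - x) (z - x)]
  simp only [conj_trivial]
  ring

end Pool.Agent.Lib.MP_d3943d_an
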