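import Pool.Agent.Lib.MP_d3943d_an.Gram

set_option autoImplicit false

/-!
The triangle energy with kernel `1 / √gram` in terms of plane sections.
-/

namespace Pool.Agent.Lib.MP_d3943d_an

open MeasureTheory Set
open scoped ENNReal ContDiff Pointwise

/-- The integral of `f` over the plane `x₀ = c + ⟪ν, y⟫`, in graph coordinates. -/
noncomputable def sec (f : E 3 → ℝ≥0∞) (c : ℝ) (ν : E 2) : ℝ≥0∞ :=
  ∫⁻ y : E 2, f (ins (c + inner ℝ ν y) y)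

noncomputable def Tg (f : E 3 → ℝ≥0∞) : ℝ≥0∞ :=
  ∫⁻ ν : E 2, (ENNReal.ofReal (√(1 + ‖ν‖ ^ 2)))⁻¹ * ∫⁻ c : ℝ, (sec f c ν) ^ 3

noncomputable def T3 (f : E 3 → ℝ≥0∞) : ℝ≥0∞ :=
  ∫⁻ x, ∫⁻ y, ∫⁻ z, f x * f y * f z * (ENNReal.ofReal (√(gram x y z)))⁻¹

namespace GraphAux

/-- the determinant of two plane vectors -/
noncomputable def dt (u w : E 2) : ℝ := u 0 * w 1 - u 1 * w 0

theorem gram_graph (c : ℝ) (ν y₁ y₂ y₃ : E 2) :
    gram (ins (c + inner ℝ ν y₁) y₁) (ins (c + inner ℝ ν y₂) y₂) (ins (c + inner ℝ ν y₃) y₃) =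
      (dt (y₂ - y₁) (y₃ - y₁)) ^ 2 * (1 + ‖ν‖ ^ 2) := by
  rw [gram_ins, gram]
  simp only [EuclideanSpace.norm_sq_eq, PiLp.inner_apply, Fin.sum_univ_two, dt, PiLp.sub_apply,
    PiLp.smul_apply, smul_eq_mul, Real.norm_eq_abs, sq_abs, RCLike.inner_apply, conj_trivial]
  ring

theorem lin2 {u w : E 2} (h : dt u w ≠ 0) {K : ℝ → ℝ → ℝ≥0∞}
    (hK : Measurable (Function.uncurry K)) :
    ∫⁻ a, ∫⁻ b, K a b = ENNReal.ofReal |dt u w| * ∫⁻ ν : E 2, K (inner ℝ ν u) (inner ℝ ν w) := by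
  set M : Matrix (Fin 2) (Fin 2) ℝ := !![u 0, u 1; w 0, w 1] with hM
  have hdet : M.det = dt u w := by
    rw [hM, Matrix.det_fin_two_of, dt]
  set K'' : (Fin 2 → ℝ) → ℝ≥0∞ := fun p => K (p 0) (p 1) with hK''
  have hK''m : Measurable K'' := by
    have : K'' = fun p => Function.uncurry K (p 0, p 1) := rfl
    rw [this]
    exact hK.comp ((measurable_pi_apply 0).prodMk (measurable_pi_apply 1))
  have hF : Measurable (fun ν : E 2 => K (inner ℝ ν u) (inner ℝ ν w)) := by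
    have : (fun ν : E 2 => K (inner ℝ ν u) (inner ℝ ν w)) =
      fun ν => Function.uncurry K (inner ℝ ν u, inner ℝ ν w) := rfl
    rw [this]
    apply hK.comp
    apply Measurable.prodMk
    · exact (by fun_prop : Continuous fun ν : E 2 => (inner ℝ ν u : ℝ)).measurable
    · exact (by fun_prop : Continuous fun ν : E 2 => (inner ℝ ν w : ℝ)).measurable
  have e1 : ∫⁻ ν : E 2, K (inner ℝ ν u) (inner ℝ ν w) =
      ∫⁻ x : Fin 2 → ℝ, K'' (Matrix.toLin' M x) := by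
    rw [← (PiLp.volume_preserving_toLp (Fin 2)).lintegral_comp hF]
    apply lintegral_congr
    intro x
    simp only [hK'', hM, Matrix.toLin'_apply, Matrix.mulVec, PiLp.inner_apply,
      Fin.sum_univ_two, dotProduct, RCLike.inner_apply, conj_trivial]
    simp [mul_comm]
  have e2 : ∫⁻ x : Fin 2 → ℝ, K'' (Matrix.toLin' M x) =
      ENNReal.ofReal |(dt u w)⁻¹| * ∫⁻ p, K'' p := by
    have hmeas : Measurable (Matrix.toLin' M) :=
      (LinearMap.continuous_of_finiteDimensional _).measurable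
    rw [← lintegral_map hK''m hmeas, Real.map_matrix_volume_pi_eq_smul_volume_pi
      (by rw [hdet]; exact h), lintegral_smul_measure, hdet, smul_eq_mul]
  have e3 : ∫⁻ p, K'' p = ∫⁻ a, ∫⁻ b, K a b := by
    have h1 := (volume_preserving_finTwoArrow ℝ).lintegral_comp hK
    have h2 : ∫⁻ p, K'' p = ∫⁻ p : Fin 2 → ℝ, Function.uncurry K
        (MeasurableEquiv.finTwoArrow p) := rfl
    rw [h2, h1, Measure.volume_eq_prod, lintegral_prod _ hK.aemeasurable]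
    rfl
  rw [e1, e2, e3, ← mul_assoc, ← ENNReal.ofReal_mul (abs_nonneg _), ← abs_mul,
    mul_inv_cancel₀ h, abs_one, ENNReal.ofReal_one, one_mul]

theorem step2 {y₁ y₂ y₃ : E 2} (h : dt (y₂ - y₁) (y₃ - y₁) ≠ 0) {K : ℝ → ℝ → ℝ → ℝ≥0∞}
    (hK : Measurable (fun p : ℝ × ℝ × ℝ => K p.1 p.2.1 p.2.2)) :
    ∫⁻ t₁, ∫⁻ t₂, ∫⁻ t₃, K t₁ t₂ t₃ = ENNReal.ofReal |dt (y₂ - y₁) (y₃ - y₁)| *
      ∫⁻ ν : E 2, ∫⁻ c : ℝ, K (c + inner ℝ ν y₁) (c + inner ℝ ν y₂) (c + inner ℝ ν y₃) := by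
  have e1 : ∀ t₁ : ℝ, ∫⁻ t₂, ∫⁻ t₃, K t₁ t₂ t₃ =
      ENNReal.ofReal |dt (y₂ - y₁) (y₃ - y₁)| *
      ∫⁻ ν : E 2, K t₁ (t₁ + inner ℝ ν (y₂ - y₁)) (t₁ + inner ℝ ν (y₃ - y₁)) := by
    intro t₁
    have h1 : ∫⁻ t₂, ∫⁻ t₃, K t₁ t₂ t₃ = ∫⁻ a, ∫⁻ b, K t₁ (t₁ + a) (t₁ + b) := by
      rw [← lintegral_add_left_eq_self _ t₁]
      apply lintegral_congr
      intro a
      rw [← lintegral_add_left_eq_self _ t₁]
    rw [h1]
    apply lin2 h (K := fun a b => K t₁ (t₁ + a) (t₁ + b))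
    have : Function.uncurry (fun a b => K t₁ (t₁ + a) (t₁ + b)) =
      (fun p : ℝ × ℝ × ℝ => K p.1 p.2.1 p.2.2) ∘ (fun q : ℝ × ℝ => (t₁, t₁ + q.1, t₁ + q.2)) := by
      funext q; rfl
    rw [this]
    exact hK.comp (by fun_prop)
  have hm : Measurable (fun p : ℝ × E 2 =>
      K p.1 (p.1 + inner ℝ p.2 (y₂ - y₁)) (p.1 + inner ℝ p.2 (y₃ - y₁))) := by
    have : (fun p : ℝ × E 2 =>
      K p.1 (p.1 + inner ℝ p.2 (y₂ - y₁)) (p.1 + inner ℝ p.2 (y₃ - y₁))) =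
      (fun p : ℝ × ℝ × ℝ => K p.1 p.2.1 p.2.2) ∘
      (fun p : ℝ × E 2 => (p.1, p.1 + inner ℝ p.2 (y₂ - y₁), p.1 + inner ℝ p.2 (y₃ - y₁))) := by
      funext q; rfl
    rw [this]
    apply hK.comp
    exact (by fun_prop : Continuous (fun p : ℝ × E 2 =>
      (p.1, p.1 + inner ℝ p.2 (y₂ - y₁), p.1 + inner ℝ p.2 (y₃ - y₁)))).measurable
  simp_rw [e1]
  rw [lintegral_const_mul' _ _ ENNReal.ofReal_ne_top, lintegral_lintegral_swap hm.aemeasurable]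
  congr 1
  apply lintegral_congr
  intro ν
  rw [← lintegral_add_right_eq_self _ (inner ℝ ν y₁ : ℝ)]
  apply lintegral_congr
  intro c
  have e2 : c + inner ℝ ν y₁ + inner ℝ ν (y₂ - y₁) = c + inner ℝ ν y₂ := by
    rw [inner_sub_right]; ring
  have e3 : c + inner ℝ ν y₁ + inner ℝ ν (y₃ - y₁) = c + inner ℝ ν y₃ := by
    rw [inner_sub_right]; ring
  rw [e2, e3]

theorem null3 {y₁ y₂ : E 2} (h : y₂ ≠ y₁) : ∀ᵐ y₃ : E 2, dt (y₂ - y₁) (y₃ - y₁) ≠ 0 := by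
  set u := y₂ - y₁ with hu
  have hu0 : u ≠ 0 := sub_ne_zero.mpr h
  -- the linear functional
  let ℓ : E 2 →ₗ[ℝ] ℝ :=
    { toFun := fun w => dt u w
      map_add' := by intro a b; simp [dt]; ring
      map_smul' := by intro a b; simp [dt]; ring }
  have hℓ : ∀ w, ℓ w = dt u w := fun w => rfl
  have hker : LinearMap.ker ℓ ≠ ⊤ := by
    intro htop
    have hz : ∀ w, dt u w = 0 := by
      intro w
      have : w ∈ LinearMap.ker ℓ := by rw [htop]; trivial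
      rw [LinearMap.mem_ker, hℓ] at this
      exact this
    apply hu0
    have h1 := hz (e 0)
    have h2 := hz (e 1)
    simp [dt, e] at h1 h2
    ext i
    fin_cases i
    · simpa using h2
    · simpa using h1
  have hnull : volume (LinearMap.ker ℓ : Set (E 2)) = 0 := Measure.addHaar_submodule _ _ hker
  have h3 : ∀ᵐ w : E 2, w ∉ (LinearMap.ker ℓ : Set (E 2)) :=
    measure_eq_zero_iff_ae_notMem.mp hnull
  have hmp : MeasurePreserving (fun y : E 2 => y - y₁) := measurePreserving_sub_right volume y₁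
  have h4 := hmp.quasiMeasurePreserving.ae h3
  filter_upwards [h4] with y hy hy0
  apply hy
  rw [SetLike.mem_coe, LinearMap.mem_ker, hℓ]
  exact hy0

theorem continuous_gram : Continuous (fun p : E 3 × E 3 × E 3 => gram p.1 p.2.1 p.2.2) := by
  unfold gram
  fun_prop


section reorder

variable {A B : Type*} [MeasureSpace A] [MeasureSpace B] [SFinite (volume : Measure A)]
  [SFinite (volume : Measure B)]

theorem reorder {F : A → B → A → B → A → B → ℝ≥0∞}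
    (hF : Measurable (fun p : A × B × A × B × A × B =>
      F p.1 p.2.1 p.2.2.1 p.2.2.2.1 p.2.2.2.2.1 p.2.2.2.2.2)) :
    ∫⁻ a₁, ∫⁻ b₁, ∫⁻ a₂, ∫⁻ b₂, ∫⁻ a₃, ∫⁻ b₃, F a₁ b₁ a₂ b₂ a₃ b₃ =
      ∫⁻ a₁, ∫⁻ a₂, ∫⁻ a₃, ∫⁻ b₁, ∫⁻ b₂, ∫⁻ b₃, F a₁ b₁ a₂ b₂ a₃ b₃ := by
  have hc : ∀ {γ : Type _} [MeasurableSpace γ] {g₁ : γ → A} {g₂ : γ → B} {g₃ : γ → A}
      {g₄ : γ → B} {g₅ : γ → A} {g₆ : γ → B}, Measurable g₁ → Measurable g₂ → Measurable g₃ →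
      Measurable g₄ → Measurable g₅ → Measurable g₆ →
      Measurable (fun c => F (g₁ c) (g₂ c) (g₃ c) (g₄ c) (g₅ c) (g₆ c)) := by
    intro γ _ g₁ g₂ g₃ g₄ g₅ g₆ h₁ h₂ h₃ h₄ h₅ h₆
    exact hF.comp (h₁.prodMk (h₂.prodMk (h₃.prodMk (h₄.prodMk (h₅.prodMk h₆)))))
  apply lintegral_congr
  intro a₁
  -- first swap: b₂ and a₃
  have s1 : ∀ b₁ a₂, ∫⁻ b₂, ∫⁻ a₃, ∫⁻ b₃, F a₁ b₁ a₂ b₂ a₃ b₃ =
      ∫⁻ a₃, ∫⁻ b₂, ∫⁻ b₃, F a₁ b₁ a₂ b₂ a₃ b₃ := by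
    intro b₁ a₂
    apply lintegral_lintegral_swap
    apply Measurable.aemeasurable
    apply Measurable.lintegral_prod_right' (f := fun q : (B × A) × B =>
      F a₁ b₁ a₂ q.1.1 q.1.2 q.2)
    apply hc <;> fun_prop
  simp_rw [s1]
  -- second swap: b₁ and a₂
  have s2 : ∫⁻ b₁, ∫⁻ a₂, ∫⁻ a₃, ∫⁻ b₂, ∫⁻ b₃, F a₁ b₁ a₂ b₂ a₃ b₃ =
      ∫⁻ a₂, ∫⁻ b₁, ∫⁻ a₃, ∫⁻ b₂, ∫⁻ b₃, F a₁ b₁ a₂ b₂ a₃ b₃ := by
    apply lintegral_lintegral_swap
    apply Measurable.aemeasurable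
    apply Measurable.lintegral_prod_right' (f := fun q : (B × A) × A =>
      ∫⁻ b₂, ∫⁻ b₃, F a₁ q.1.1 q.1.2 b₂ q.2 b₃)
    apply Measurable.lintegral_prod_right' (f := fun q : ((B × A) × A) × B =>
      ∫⁻ b₃, F a₁ q.1.1.1 q.1.1.2 q.2 q.1.2 b₃)
    apply Measurable.lintegral_prod_right' (f := fun q : (((B × A) × A) × B) × B =>
      F a₁ q.1.1.1.1 q.1.1.1.2 q.1.2 q.1.1.2 q.2)
    apply hc <;> fun_prop
  rw [s2]
  apply lintegral_congr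
  intro a₂
  apply lintegral_lintegral_swap
  apply Measurable.aemeasurable
  apply Measurable.lintegral_prod_right' (f := fun q : (B × A) × B =>
    ∫⁻ b₃, F a₁ q.1.1 a₂ q.2 q.1.2 b₃)
  apply Measurable.lintegral_prod_right' (f := fun q : ((B × A) × B) × B =>
    F a₁ q.1.1.1 a₂ q.1.2 q.1.1.2 q.2)
  apply hc <;> fun_prop

end reorder

/-- the product of three values -/
noncomputable def Qf (f : E 3 → ℝ≥0∞) (ν : E 2) (c : ℝ) (y₁ y₂ y₃ : E 2) : ℝ≥0∞ :=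
  f (ins (c + inner ℝ ν y₁) y₁) * f (ins (c + inner ℝ ν y₂) y₂) *
    f (ins (c + inner ℝ ν y₃) y₃) * (ENNReal.ofReal (√(1 + ‖ν‖ ^ 2)))⁻¹

theorem Qf_def (f : E 3 → ℝ≥0∞) (ν : E 2) (c : ℝ) (y₁ y₂ y₃ : E 2) :
    Qf f ν c y₁ y₂ y₃ = f (ins (c + inner ℝ ν y₁) y₁) * f (ins (c + inner ℝ ν y₂) y₂) *
      f (ins (c + inner ℝ ν y₃) y₃) * (ENNReal.ofReal (√(1 + ‖ν‖ ^ 2)))⁻¹ := rfl

end GraphAux

open GraphAux

theorem T3_eq_Tg (f : E 3 → ℝ≥0∞) (hf : Measurable f) : T3 f = Tg f := by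
  have hgm : Measurable (fun p : E 3 × E 3 × E 3 => gram p.1 p.2.1 p.2.2) :=
    continuous_gram.measurable
  have hG3 : Measurable (fun p : E 3 × E 3 × E 3 =>
      f p.1 * f p.2.1 * f p.2.2 * (ENNReal.ofReal (√(gram p.1 p.2.1 p.2.2)))⁻¹) := by
    apply Measurable.mul
    · exact ((hf.comp measurable_fst).mul (hf.comp (measurable_fst.comp measurable_snd))).mul
        (hf.comp (measurable_snd.comp measurable_snd))
    · exact (hgm.sqrt.ennreal_ofReal).inv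
  have hins : Measurable (fun p : ℝ × E 2 => ins p.1 p.2) := continuous_ins.measurable
  -- step A
  have hA : T3 f = ∫⁻ y₁ : E 2, ∫⁻ y₂ : E 2, ∫⁻ y₃ : E 2, ∫⁻ t₁ : ℝ, ∫⁻ t₂ : ℝ, ∫⁻ t₃ : ℝ,
      f (ins t₁ y₁) * f (ins t₂ y₂) * f (ins t₃ y₃) *
        (ENNReal.ofReal (√(gram (ins t₁ y₁) (ins t₂ y₂) (ins t₃ y₃))))⁻¹ := by
    unfold T3
    have a1 : ∀ x y, ∫⁻ z, f x * f y * f z * (ENNReal.ofReal (√(gram x y z)))⁻¹ =
        ∫⁻ y₃ : E 2, ∫⁻ t₃ : ℝ, f x * f y * f (ins t₃ y₃) *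
          (ENNReal.ofReal (√(gram x y (ins t₃ y₃))))⁻¹ := by
      intro x y
      apply lintegral_ins
      exact hG3.comp (by fun_prop : Measurable (fun z : E 3 => (x, y, z)))
    have a2 : ∀ x, ∫⁻ y, ∫⁻ z, f x * f y * f z * (ENNReal.ofReal (√(gram x y z)))⁻¹ =
        ∫⁻ y₂ : E 2, ∫⁻ t₂ : ℝ, ∫⁻ z, f x * f (ins t₂ y₂) * f z *
          (ENNReal.ofReal (√(gram x (ins t₂ y₂) z)))⁻¹ := by
      intro x
      apply lintegral_ins (f := fun y => ∫⁻ z, f x * f y * f z *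
        (ENNReal.ofReal (√(gram x y z)))⁻¹)
      apply Measurable.lintegral_prod_right' (f := fun q : E 3 × E 3 =>
        f x * f q.1 * f q.2 * (ENNReal.ofReal (√(gram x q.1 q.2)))⁻¹)
      exact hG3.comp (by fun_prop : Measurable (fun q : E 3 × E 3 => (x, q.1, q.2)))
    have a3 : ∫⁻ x, ∫⁻ y, ∫⁻ z, f x * f y * f z * (ENNReal.ofReal (√(gram x y z)))⁻¹ =
        ∫⁻ y₁ : E 2, ∫⁻ t₁ : ℝ, ∫⁻ y, ∫⁻ z, f (ins t₁ y₁) * f y * f z *
          (ENNReal.ofReal (√(gram (ins t₁ y₁) y z)))⁻¹ := by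
      apply lintegral_ins (f := fun x => ∫⁻ y, ∫⁻ z, f x * f y * f z *
        (ENNReal.ofReal (√(gram x y z)))⁻¹)
      apply Measurable.lintegral_prod_right' (f := fun q : E 3 × E 3 =>
        ∫⁻ z, f q.1 * f q.2 * f z * (ENNReal.ofReal (√(gram q.1 q.2 z)))⁻¹)
      apply Measurable.lintegral_prod_right' (f := fun q : (E 3 × E 3) × E 3 =>
        f q.1.1 * f q.1.2 * f q.2 * (ENNReal.ofReal (√(gram q.1.1 q.1.2 q.2)))⁻¹)
      exact hG3.comp (by fun_prop : Measurable (fun q : (E 3 × E 3) × E 3 =>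
        (q.1.1, q.1.2, q.2)))
    rw [a3]
    simp_rw [a2, a1]
    apply reorder (F := fun y₁ t₁ y₂ t₂ y₃ t₃ => f (ins t₁ y₁) * f (ins t₂ y₂) *
      f (ins t₃ y₃) * (ENNReal.ofReal (√(gram (ins t₁ y₁) (ins t₂ y₂) (ins t₃ y₃))))⁻¹)
    have h1 : Measurable (fun p : E 2 × ℝ × E 2 × ℝ × E 2 × ℝ =>
        (ins p.2.1 p.1, ins p.2.2.2.1 p.2.2.1, ins p.2.2.2.2.2 p.2.2.2.2.1)) := by
      apply Measurable.prodMk
      · exact hins.comp (by fun_prop : Measurable (fun p : E 2 × ℝ × E 2 × ℝ × E 2 × ℝ =>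
          (p.2.1, p.1)))
      · apply Measurable.prodMk
        · exact hins.comp (by fun_prop : Measurable (fun p : E 2 × ℝ × E 2 × ℝ × E 2 × ℝ =>
            (p.2.2.2.1, p.2.2.1)))
        · exact hins.comp (by fun_prop : Measurable (fun p : E 2 × ℝ × E 2 × ℝ × E 2 × ℝ =>
            (p.2.2.2.2.2, p.2.2.2.2.1)))
    exact hG3.comp h1
  -- step B: the inner integral
  have hB : ∀ y₁ y₂ y₃ : E 2, dt (y₂ - y₁) (y₃ - y₁) ≠ 0 →
      ∫⁻ t₁ : ℝ, ∫⁻ t₂ : ℝ, ∫⁻ t₃ : ℝ,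
      f (ins t₁ y₁) * f (ins t₂ y₂) * f (ins t₃ y₃) *
        (ENNReal.ofReal (√(gram (ins t₁ y₁) (ins t₂ y₂) (ins t₃ y₃))))⁻¹ =
      ∫⁻ ν : E 2, ∫⁻ c : ℝ, f (ins (c + inner ℝ ν y₁) y₁) * f (ins (c + inner ℝ ν y₂) y₂) *
        f (ins (c + inner ℝ ν y₃) y₃) * (ENNReal.ofReal (√(1 + ‖ν‖ ^ 2)))⁻¹ := by
    intro y₁ y₂ y₃ hD
    have h1 := step2 hD (K := fun t₁ t₂ t₃ => f (ins t₁ y₁) * f (ins t₂ y₂) * f (ins t₃ y₃) *
        (ENNReal.ofReal (√(gram (ins t₁ y₁) (ins t₂ y₂) (ins t₃ y₃))))⁻¹) (by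
      have h1 : Measurable (fun p : ℝ × ℝ × ℝ =>
          (ins p.1 y₁, ins p.2.1 y₂, ins p.2.2 y₃)) := by
        apply Measurable.prodMk
        · exact hins.comp (by fun_prop : Measurable (fun p : ℝ × ℝ × ℝ => (p.1, y₁)))
        · apply Measurable.prodMk
          · exact hins.comp (by fun_prop : Measurable (fun p : ℝ × ℝ × ℝ => (p.2.1, y₂)))
          · exact hins.comp (by fun_prop : Measurable (fun p : ℝ × ℝ × ℝ => (p.2.2, y₃)))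
      exact hG3.comp h1)
    rw [h1, ← lintegral_const_mul' _ _ ENNReal.ofReal_ne_top]
    apply lintegral_congr
    intro ν
    rw [← lintegral_const_mul' _ _ ENNReal.ofReal_ne_top]
    apply lintegral_congr
    intro c
    simp only [gram_graph]
    have hDpos : 0 < |dt (y₂ - y₁) (y₃ - y₁)| := abs_pos.mpr hD
    rw [Real.sqrt_mul (sq_nonneg _), Real.sqrt_sq_eq_abs,
      ENNReal.ofReal_mul (abs_nonneg _), ENNReal.mul_inv
      (Or.inl (ENNReal.ofReal_pos.mpr hDpos).ne') (Or.inl ENNReal.ofReal_ne_top)]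
    set D' := ENNReal.ofReal |dt (y₂ - y₁) (y₃ - y₁)| with hD'
    have hD'0 : D' ≠ 0 := (ENNReal.ofReal_pos.mpr hDpos).ne'
    have hD't : D' ≠ ⊤ := ENNReal.ofReal_ne_top
    set X := f (ins (c + inner ℝ ν y₁) y₁) * f (ins (c + inner ℝ ν y₂) y₂) *
        f (ins (c + inner ℝ ν y₃) y₃)
    set Y := (ENNReal.ofReal (√(1 + ‖ν‖ ^ 2)))⁻¹
    calc D' * (X * (D'⁻¹ * Y)) = (D' * D'⁻¹) * (X * Y) := by ring
      _ = X * Y := by rw [ENNReal.mul_inv_cancel hD'0 hD't, one_mul]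
  -- measurability of the final integrand
  have hf2 : Measurable (fun p : (E 2 × ℝ) × E 2 => f (ins (p.1.2 + inner ℝ p.1.1 p.2) p.2)) := by
    have h1 : Measurable (fun p : (E 2 × ℝ) × E 2 => (p.1.2 + inner ℝ p.1.1 p.2, p.2)) :=
      (by fun_prop : Continuous (fun p : (E 2 × ℝ) × E 2 =>
        (p.1.2 + inner ℝ p.1.1 p.2, p.2))).measurable
    exact hf.comp (hins.comp h1)
  have hS : Measurable (fun ν : E 2 => (ENNReal.ofReal (√(1 + ‖ν‖ ^ 2)))⁻¹) := by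
    have : Measurable (fun ν : E 2 => √(1 + ‖ν‖ ^ 2)) :=
      (by fun_prop : Continuous fun ν : E 2 => √(1 + ‖ν‖ ^ 2)).measurable
    exact this.ennreal_ofReal.inv
  have hQ : Measurable (fun p : (E 2 × ℝ) × (E 2 × E 2 × E 2) =>
      f (ins (p.1.2 + inner ℝ p.1.1 p.2.1) p.2.1) *
      f (ins (p.1.2 + inner ℝ p.1.1 p.2.2.1) p.2.2.1) *
      f (ins (p.1.2 + inner ℝ p.1.1 p.2.2.2) p.2.2.2) *
      (ENNReal.ofReal (√(1 + ‖p.1.1‖ ^ 2)))⁻¹) := by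
    apply Measurable.mul
    · apply Measurable.mul
      · apply Measurable.mul
        · exact hf2.comp (by fun_prop : Measurable (fun p : (E 2 × ℝ) × (E 2 × E 2 × E 2) =>
            (p.1, p.2.1)))
        · exact hf2.comp (by fun_prop : Measurable (fun p : (E 2 × ℝ) × (E 2 × E 2 × E 2) =>
            (p.1, p.2.2.1)))
      · exact hf2.comp (by fun_prop : Measurable (fun p : (E 2 × ℝ) × (E 2 × E 2 × E 2) =>
            (p.1, p.2.2.2)))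
    · exact hS.comp (by fun_prop : Measurable (fun p : (E 2 × ℝ) × (E 2 × E 2 × E 2) => p.1.1))
  set Q : E 2 → ℝ → E 2 → E 2 → E 2 → ℝ≥0∞ := Qf f with hQf
  have hQdef : ∀ ν c y₁ y₂ y₃, Q ν c y₁ y₂ y₃ =
    f (ins (c + inner ℝ ν y₁) y₁) * f (ins (c + inner ℝ ν y₂) y₂) *
        f (ins (c + inner ℝ ν y₃) y₃) * (ENNReal.ofReal (√(1 + ‖ν‖ ^ 2)))⁻¹ := Qf_def f
  clear_value Q
  have hQ' : Measurable (fun p : (E 2 × ℝ) × (E 2 × E 2 × E 2) =>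
      Q p.1.1 p.1.2 p.2.1 p.2.2.1 p.2.2.2) := by
    simp_rw [hQdef]
    exact hQ
  have hC : T3 f = ∫⁻ y₁ : E 2, ∫⁻ y₂ : E 2, ∫⁻ y₃ : E 2, ∫⁻ ν : E 2, ∫⁻ c : ℝ,
      Q ν c y₁ y₂ y₃ := by
    rw [hA]
    apply lintegral_congr
    intro y₁
    apply lintegral_congr_ae
    have hne : ∀ᵐ y₂ : E 2, y₂ ≠ y₁ := by
      have h0 : (volume : Measure (E 2)) {y₁} = 0 := measure_singleton y₁
      simpa using measure_eq_zero_iff_ae_notMem.mp h0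
    filter_upwards [hne] with y₂ hy₂
    apply lintegral_congr_ae
    filter_upwards [null3 hy₂] with y₃ hy₃
    rw [hB y₁ y₂ y₃ hy₃]
    simp_rw [hQdef]
  have hP : T3 f = ∫⁻ q : E 2 × E 2 × E 2, ∫⁻ p : E 2 × ℝ, Q p.1 p.2 q.1 q.2.1 q.2.2 := by
    rw [hC]
    have hm1 : Measurable (fun q : E 2 × E 2 × E 2 => ∫⁻ p : E 2 × ℝ,
        Q p.1 p.2 q.1 q.2.1 q.2.2) := by
      apply Measurable.lintegral_prod_left' (f := fun r : (E 2 × ℝ) × (E 2 × E 2 × E 2) =>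
        Q r.1.1 r.1.2 r.2.1 r.2.2.1 r.2.2.2)
      exact hQ'
    rw [Measure.volume_eq_prod, lintegral_prod _ hm1.aemeasurable]
    apply lintegral_congr
    intro y₁
    have hm2 : Measurable (fun q : E 2 × E 2 => ∫⁻ p : E 2 × ℝ, Q p.1 p.2 y₁ q.1 q.2) :=
      hm1.comp (by fun_prop : Measurable (fun q : E 2 × E 2 => (y₁, q.1, q.2)))
    rw [Measure.volume_eq_prod, lintegral_prod _ hm2.aemeasurable]
    apply lintegral_congr
    intro y₂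
    apply lintegral_congr
    intro y₃
    have hm3 : Measurable (fun p : E 2 × ℝ => Q p.1 p.2 y₁ y₂ y₃) :=
      hQ'.comp (by fun_prop : Measurable (fun p : E 2 × ℝ => (p, y₁, y₂, y₃)))
    rw [Measure.volume_eq_prod, lintegral_prod _ hm3.aemeasurable]
  rw [hP, ← lintegral_lintegral_swap (f := fun (p : E 2 × ℝ) (q : E 2 × E 2 × E 2) =>
    Q p.1 p.2 q.1 q.2.1 q.2.2) hQ'.aemeasurable]
  have hm4 : Measurable (fun p : E 2 × ℝ => ∫⁻ q : E 2 × E 2 × E 2,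
      Q p.1 p.2 q.1 q.2.1 q.2.2) := by
    apply Measurable.lintegral_prod_right' (f := fun r : (E 2 × ℝ) × (E 2 × E 2 × E 2) =>
      Q r.1.1 r.1.2 r.2.1 r.2.2.1 r.2.2.2)
    exact hQ'
  rw [Measure.volume_eq_prod (E 2) ℝ, lintegral_prod _ hm4.aemeasurable]
  unfold Tg
  apply lintegral_congr
  intro ν
  have hS' : (ENNReal.ofReal (√(1 + ‖ν‖ ^ 2)))⁻¹ ≠ ⊤ := by
    rw [Ne, ENNReal.inv_eq_top, ENNReal.ofReal_eq_zero, not_le]
    positivity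
  rw [← lintegral_const_mul' _ _ hS']
  apply lintegral_congr
  intro c
  set g : E 2 → ℝ≥0∞ := fun y => f (ins (c + inner ℝ ν y) y) with hg
  have hgm' : Measurable g :=
    hf2.comp (by fun_prop : Measurable (fun y : E 2 => ((ν, c), y)))
  set s' := (ENNReal.ofReal (√(1 + ‖ν‖ ^ 2)))⁻¹ with hs'
  have hm5 : Measurable (fun q : E 2 × E 2 × E 2 => Q ν c q.1 q.2.1 q.2.2) :=
    hQ'.comp (by fun_prop : Measurable (fun q : E 2 × E 2 × E 2 => ((ν, c), q)))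
  rw [Measure.volume_eq_prod, lintegral_prod _ hm5.aemeasurable]
  have hsec : sec f c ν = ∫⁻ y, g y := rfl
  rw [hsec]
  have e1 : ∀ y₁, ∫⁻ q : E 2 × E 2, Q ν c y₁ q.1 q.2 ∂(volume.prod volume) =
      g y₁ * (s' * (∫⁻ y, g y) ^ 2) := by
    intro y₁
    have hm6 : Measurable (fun q : E 2 × E 2 => Q ν c y₁ q.1 q.2) :=
      hm5.comp (by fun_prop : Measurable (fun q : E 2 × E 2 => (y₁, q.1, q.2)))
    rw [lintegral_prod _ hm6.aemeasurable]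
    have e2 : ∀ y₂, ∫⁻ y₃, Q ν c y₁ y₂ y₃ = g y₂ * (g y₁ * s' * ∫⁻ y, g y) := by
      intro y₂
      have : ∀ y₃, Q ν c y₁ y₂ y₃ = (g y₁ * g y₂ * s') * g y₃ := by
        intro y₃
        rw [hQdef]
        simp only [hg, hs']
        ring
      simp_rw [this]
      rw [lintegral_const_mul _ hgm']
      ring
    simp_rw [e2]
    rw [lintegral_mul_const _ hgm']
    ring
  have e3 : ∫⁻ y₁ : E 2, ∫⁻ q : E 2 × E 2, Q ν c y₁ q.1 q.2 ∂(volume.prod volume) =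
      s' * (∫⁻ y, g y) ^ 3 := by
    simp_rw [e1]
    rw [lintegral_mul_const _ hgm']
    ring
  exact e3

end Pool.Agent.Lib.MP_d3943d_an
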