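import Pool.Agent.Lib.MP_d3943d_an.Coord

set_option autoImplicit false

/-!
Second derivatives: basic facts, integration by parts.
-/

namespace Pool.Agent.Lib.MP_d3943d_an

open MeasureTheory Set
open scoped ENNReal ContDiff

theorem D2_symm {N : ℕ} {φ : E N → ℝ} (hφ : ContDiff ℝ 2 φ) (x v w : E N) :
    D2 φ x v w = D2 φ x w v := by
  have h : IsSymmSndFDerivAt ℝ φ x := hφ.contDiffAt.isSymmSndFDerivAt (by simp)
  exact h.eq v w

theorem continuous_D2 {N : ℕ} {φ : E N → ℝ} (hφ : ContDiff ℝ 2 φ) (v w : E N) :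
    Continuous (fun x => D2 φ x v w) := by
  have h1 : ContDiff ℝ 1 (fderiv ℝ φ) := hφ.fderiv_right (by norm_num)
  have h2 : Continuous (fderiv ℝ (fderiv ℝ φ)) := h1.continuous_fderiv one_ne_zero
  exact (h2.clm_apply continuous_const).clm_apply continuous_const

theorem hasCompactSupport_D2 {N : ℕ} {φ : E N → ℝ} (hc : HasCompactSupport φ) (v w : E N) :
    HasCompactSupport (fun x => D2 φ x v w) :=
  ((hc.fderiv ℝ).fderiv ℝ).comp_left (g := fun L : E N →L[ℝ] E N →L[ℝ] ℝ => L v w) (by simp)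

theorem continuous_Lap {N : ℕ} {φ : E N → ℝ} (hφ : ContDiff ℝ 2 φ) :
    Continuous (fun x => Lap φ x) :=
  continuous_finsetSum _ fun i _ => continuous_D2 hφ (e i) (e i)

theorem hasCompactSupport_Lap {N : ℕ} {φ : E N → ℝ} (hc : HasCompactSupport φ) :
    HasCompactSupport (fun x => Lap φ x) :=
  ((hc.fderiv ℝ).fderiv ℝ).comp_left
    (g := fun L : E N →L[ℝ] E N →L[ℝ] ℝ => ∑ i : Fin N, L (e i) (e i)) (by simp)

theorem contDiff_Lap {N : ℕ} {φ : E N → ℝ} (hφ : ContDiff ℝ ∞ φ) :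
    ContDiff ℝ ∞ (fun x => Lap φ x) := by
  have h1 : ContDiff ℝ ∞ (fderiv ℝ φ) := hφ.fderiv_right (by simp)
  have h2 : ContDiff ℝ ∞ (fderiv ℝ (fderiv ℝ φ)) := h1.fderiv_right (by simp)
  exact ContDiff.sum fun i _ => (h2.clm_apply contDiff_const).clm_apply contDiff_const

theorem hess_sum_coord {N : ℕ} (X : E N) : X = ∑ i, X i • (e i : E N) := by
  have := (EuclideanSpace.basisFun (Fin N) ℝ).sum_repr X
  simp only [EuclideanSpace.basisFun_repr, EuclideanSpace.basisFun_apply] at this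
  exact this.symm

/-- The quadratic form in coordinates. -/
theorem D2_expand {N : ℕ} {φ : E N → ℝ} (x X : E N) :
    D2 φ x X X = ∑ i, ∑ j, D2 φ x (e i) (e j) * X i * X j := by
  unfold D2
  conv_lhs => rw [hess_sum_coord X]
  simp only [map_sum, map_smul, _root_.sum_apply, _root_.smul_apply,
    smul_eq_mul, Finset.mul_sum]
  rw [Finset.sum_comm]
  refine Finset.sum_congr rfl fun i _ => Finset.sum_congr rfl fun j _ => ?_
  ring

theorem hess_norm_e {N : ℕ} (i : Fin N) : ‖(e i : E N)‖ = 1 := by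
  simp [e]

theorem abs_Lap_le {N : ℕ} {φ : E N → ℝ} (x : E N) :
    |Lap φ x| ≤ N * ‖fderiv ℝ (fderiv ℝ φ) x‖ := by
  unfold Lap
  refine (Finset.abs_sum_le_sum_abs _ _).trans ?_
  have h : ∀ i ∈ (Finset.univ : Finset (Fin N)), |D2 φ x (e i) (e i)| ≤
      ‖fderiv ℝ (fderiv ℝ φ) x‖ := by
    intro i _
    have h1 := (fderiv ℝ (fderiv ℝ φ) x).le_opNorm₂ (e i) (e i)
    rw [hess_norm_e, mul_one, mul_one, Real.norm_eq_abs] at h1
    exact h1
  refine (Finset.sum_le_sum h).trans ?_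
  simp

/-- Restriction to a line. -/
theorem deriv_line {N : ℕ} {φ : E N → ℝ} (hφ : ContDiff ℝ 2 φ) (x X : E N) (s : ℝ) :
    deriv (deriv (fun r : ℝ => φ (x + r • X))) s = D2 φ (x + s • X) X X := by
  have hl : ∀ r : ℝ, HasDerivAt (fun r : ℝ => x + r • X) X r := by
    intro r
    have := ((hasDerivAt_id r).smul_const X).const_add x
    simpa using this
  have h1 : deriv (fun r : ℝ => φ (x + r • X)) = fun r => fderiv ℝ φ (x + r • X) X := by
    funext r
    have hd : HasFDerivAt φ (fderiv ℝ φ (x + r • X)) (x + r • X) :=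
      (hφ.differentiable (by norm_num) _).hasFDerivAt
    exact (hd.comp_hasDerivAt r (hl r)).deriv
  rw [h1]
  have h2 : ContDiff ℝ 1 (fderiv ℝ φ) := hφ.fderiv_right (by norm_num)
  have hd : HasFDerivAt (fderiv ℝ φ) (fderiv ℝ (fderiv ℝ φ) (x + s • X)) (x + s • X) :=
    (h2.differentiable one_ne_zero _).hasFDerivAt
  have h3 : HasDerivAt (fun r : ℝ => fderiv ℝ φ (x + r • X))
      (fderiv ℝ (fderiv ℝ φ) (x + s • X) X) s := hd.comp_hasDerivAt s (hl s)
  have h4 := h3.clm_apply (hasDerivAt_const s X)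
  simpa [D2] using h4.deriv

/-- Composition with an isometry. -/
theorem D2_comp {N : ℕ} {φ : E N → ℝ} (hφ : ContDiff ℝ 2 φ) (g : E N ≃ₗᵢ[ℝ] E N) (x v w : E N) :
    D2 (fun y => φ (g y)) x v w = D2 φ (g x) (g v) (g w) := by
  set G : E N →L[ℝ] E N := (g.toContinuousLinearEquiv : E N →L[ℝ] E N) with hG
  have hg : ∀ y, HasFDerivAt (fun y => g y) G y := fun y => G.hasFDerivAt
  have h1 : fderiv ℝ (fun y => φ (g y)) = fun y => (fderiv ℝ φ (g y)).comp G := by
    funext y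
    have hd : HasFDerivAt φ (fderiv ℝ φ (g y)) (g y) :=
      (hφ.differentiable (by norm_num) _).hasFDerivAt
    exact (hd.comp y (hg y)).fderiv
  have h2 : ContDiff ℝ 1 (fderiv ℝ φ) := hφ.fderiv_right (by norm_num)
  have hd : HasFDerivAt (fderiv ℝ φ) (fderiv ℝ (fderiv ℝ φ) (g x)) (g x) :=
    (h2.differentiable one_ne_zero _).hasFDerivAt
  have h3 : HasFDerivAt (fun y => fderiv ℝ φ (g y))
      ((fderiv ℝ (fderiv ℝ φ) (g x)).comp G) x := hd.comp x (hg x)
  have h4 := h3.clm_comp (hasFDerivAt_const G x)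
  unfold D2
  rw [h1, h4.fderiv]
  simp
  rfl

theorem hess_trace_eq {N : ℕ} (L : E N →L[ℝ] E N →L[ℝ] ℝ) (b b' : OrthonormalBasis (Fin N) ℝ (E N)) :
    ∑ i, L (b i) (b i) = ∑ i, L (b' i) (b' i) := by
  have h1 : ∀ i, L (b i) (b i) = ∑ j, ∑ k, L (b' j) (b' k) *
      (inner ℝ (b' j) (b i) * inner ℝ (b i) (b' k)) := by
    intro i
    conv_lhs => rw [← b'.sum_repr' (b i)]
    simp only [map_sum, map_smul, _root_.sum_apply, _root_.smul_apply,
      smul_eq_mul, Finset.mul_sum]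
    rw [Finset.sum_comm]
    refine Finset.sum_congr rfl fun j _ => Finset.sum_congr rfl fun k _ => ?_
    rw [real_inner_comm (b' k) (b i)]
    ring
  simp only [h1]
  rw [Finset.sum_comm]
  refine Finset.sum_congr rfl fun j _ => ?_
  rw [Finset.sum_comm]
  have h2 : ∀ k, ∑ i, L (b' j) (b' k) * (inner ℝ (b' j) (b i) * inner ℝ (b i) (b' k)) =
      L (b' j) (b' k) * (if j = k then 1 else 0) := by
    intro k
    rw [← Finset.mul_sum, b.sum_inner_mul_inner]
    congr 1
    exact orthonormal_iff_ite.1 b'.orthonormal j k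
  simp only [h2]
  simp

/-- The Laplacian is invariant under isometries. -/
theorem Lap_comp {N : ℕ} {φ : E N → ℝ} (hφ : ContDiff ℝ 2 φ) (g : E N ≃ₗᵢ[ℝ] E N) (x : E N) :
    Lap (fun y => φ (g y)) x = Lap φ (g x) := by
  unfold Lap
  simp only [D2_comp hφ g]
  have := hess_trace_eq (fderiv ℝ (fderiv ℝ φ) (g x)) ((EuclideanSpace.basisFun (Fin N) ℝ).map g)
    (EuclideanSpace.basisFun (Fin N) ℝ)
  simp only [OrthonormalBasis.map_apply, EuclideanSpace.basisFun_apply] at this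
  exact this

end Pool.Agent.Lib.MP_d3943d_an
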