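import Pool.Agent.Lib.MP_d3943d_an.Hess

set_option autoImplicit false

/-!
Integration by parts for second derivatives.
-/

namespace Pool.Agent.Lib.MP_d3943d_an

open MeasureTheory Set
open scoped ENNReal ContDiff Pointwise

theorem two_le_inf : (2 : WithTop ℕ∞) ≤ ((⊤ : ℕ∞) : WithTop ℕ∞) := by
  have h : ((2 : ℕ∞) : WithTop ℕ∞) ≤ ((⊤ : ℕ∞) : WithTop ℕ∞) := WithTop.coe_le_coe.2 le_top
  exact h

theorem one_le_inf : (1 : WithTop ℕ∞) ≤ ((⊤ : ℕ∞) : WithTop ℕ∞) := by
  have h : ((1 : ℕ∞) : WithTop ℕ∞) ≤ ((⊤ : ℕ∞) : WithTop ℕ∞) := WithTop.coe_le_coe.2 le_top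
  exact h

/-- Directional derivative. -/
noncomputable def pd {N : ℕ} (v : E N) (f : E N → ℝ) : E N → ℝ := fun x => fderiv ℝ f x v

theorem contDiff_pd {N : ℕ} {f : E N → ℝ} (hf : ContDiff ℝ ∞ f) (v : E N) :
    ContDiff ℝ ∞ (pd v f) :=
  (hf.fderiv_right (m := ∞) (by simp)).clm_apply contDiff_const

theorem contDiff_pd' {N : ℕ} {f : E N → ℝ} (hf : ContDiff ℝ 2 f) (v : E N) :
    ContDiff ℝ 1 (pd v f) :=
  (hf.fderiv_right (m := 1) (by norm_num)).clm_apply contDiff_const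

theorem hasCompactSupport_pd {N : ℕ} {f : E N → ℝ} (hf : HasCompactSupport f) (v : E N) :
    HasCompactSupport (pd v f) := hf.fderiv_apply ℝ v

theorem D2_eq_pd {N : ℕ} {φ : E N → ℝ} (hφ : ContDiff ℝ 2 φ) (x v w : E N) :
    D2 φ x v w = pd v (pd w φ) x := by
  unfold D2 pd
  have hd : DifferentiableAt ℝ (fderiv ℝ φ) x :=
    (hφ.fderiv_right (m := 1) (by norm_num)).differentiable (by simp) x
  rw [fderiv_clm_apply hd (differentiableAt_const w)]
  simp

theorem pd_comm {N : ℕ} {φ : E N → ℝ} (hφ : ContDiff ℝ 2 φ) (v w : E N) :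
    pd v (pd w φ) = pd w (pd v φ) := by
  funext x
  rw [← D2_eq_pd hφ, ← D2_eq_pd hφ, D2_symm hφ]

theorem ibp_one {N : ℕ} {φ ψ : E N → ℝ} (hφ : ContDiff ℝ 1 φ) (hφc : HasCompactSupport φ)
    (hψ : ContDiff ℝ 1 ψ) (v : E N) :
    ∫ x, φ x * pd v ψ x = - ∫ x, pd v φ x * ψ x := by
  have c1 : Continuous (fun x => fderiv ℝ φ x v) :=
    (hφ.continuous_fderiv (by simp)).clm_apply continuous_const
  have c2 : Continuous (fun x => fderiv ℝ ψ x v) :=
    (hψ.continuous_fderiv (by simp)).clm_apply continuous_const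
  have s1 : HasCompactSupport (fun x => fderiv ℝ φ x v) := hφc.fderiv_apply ℝ v
  apply integral_mul_fderiv_eq_neg_fderiv_mul_of_integrable
  · exact (c1.mul hψ.continuous).integrable_of_hasCompactSupport s1.mul_right
  · exact (hφ.continuous.mul c2).integrable_of_hasCompactSupport hφc.mul_right
  · exact (hφ.continuous.mul hψ.continuous).integrable_of_hasCompactSupport hφc.mul_right
  · intro x _; exact hφ.differentiable (by simp) x
  · intro x _; exact hψ.differentiable (by simp) x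

/-- Integration by parts. -/
theorem ibp_two {N : ℕ} {φ ψ : E N → ℝ} (hφ : ContDiff ℝ 2 φ) (hφc : HasCompactSupport φ)
    (hψ : ContDiff ℝ 2 ψ) (v w : E N) :
    ∫ x, φ x * D2 ψ x v w = ∫ x, D2 φ x v w * ψ x := by
  have h1 : ∫ x, φ x * D2 ψ x v w = ∫ x, φ x * pd v (pd w ψ) x := by
    refine integral_congr_ae (Filter.Eventually.of_forall fun x => ?_)
    simp only [D2_eq_pd hψ]
  have h2 : ∫ x, D2 φ x v w * ψ x = ∫ x, pd w (pd v φ) x * ψ x := by
    refine integral_congr_ae (Filter.Eventually.of_forall fun x => ?_)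
    simp only [D2_eq_pd hφ, pd_comm hφ v w]
  rw [h1, h2, ibp_one (hφ.of_le (by norm_num)) hφc (contDiff_pd' hψ w),
    ibp_one (contDiff_pd' hφ v) (hasCompactSupport_pd hφc v) (hψ.of_le (by norm_num)), neg_neg]

theorem ibp_lap {N : ℕ} {φ ψ : E N → ℝ} (hφ : ContDiff ℝ ∞ φ) (hφc : HasCompactSupport φ)
    (hψ : ContDiff ℝ ∞ ψ) :
    ∫ x, φ x * Lap (Lap ψ) x = ∫ x, Lap φ x * Lap ψ x := by
  have hφ2 : ContDiff ℝ 2 φ := hφ.of_le two_le_inf
  have hψ2 : ContDiff ℝ 2 ψ := hψ.of_le two_le_inf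
  have hL : ContDiff ℝ 2 (fun x => Lap ψ x) := (contDiff_Lap hψ).of_le two_le_inf
  have e1 : ∀ x, φ x * Lap (Lap ψ) x = ∑ i, φ x * D2 (fun x => Lap ψ x) x (e i) (e i) := by
    intro x; rw [Lap, Finset.mul_sum]
  have e2 : ∀ x, Lap φ x * Lap ψ x = ∑ i, D2 φ x (e i) (e i) * Lap ψ x := by
    intro x; rw [Lap, Finset.sum_mul]
  simp_rw [e1, e2]
  rw [integral_finsetSum, integral_finsetSum]
  · exact Finset.sum_congr rfl fun i _ => ibp_two hφ2 hφc hL (e i) (e i)
  · intro i _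
    exact ((continuous_D2 hφ2 _ _).mul (continuous_Lap hψ2)).integrable_of_hasCompactSupport
      (hasCompactSupport_D2 hφc _ _).mul_right
  · intro i _
    exact (hφ.continuous.mul (continuous_D2 hL _ _)).integrable_of_hasCompactSupport
      hφc.mul_right

theorem D2_pair {N : ℕ} {φ : E N → ℝ} (hφ : ContDiff ℝ ∞ φ) (hφc : HasCompactSupport φ)
    (v w : E N) :
    ∫ x, (D2 φ x v w) ^ 2 = ∫ x, D2 φ x v v * D2 φ x w w := by
  have le2 : ∀ {f : E N → ℝ}, ContDiff ℝ ∞ f → ContDiff ℝ 2 f := fun hf =>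
    hf.of_le two_le_inf
  have le1 : ∀ {f : E N → ℝ}, ContDiff ℝ ∞ f → ContDiff ℝ 1 f := fun hf =>
    hf.of_le one_le_inf
  have h1 : ∫ x, (D2 φ x v w) ^ 2 = ∫ x, pd v (pd w φ) x * pd v (pd w φ) x := by
    refine integral_congr_ae (Filter.Eventually.of_forall fun x => ?_)
    simp only [D2_eq_pd (le2 hφ)]
    ring
  have h2 : ∫ x, D2 φ x v v * D2 φ x w w = ∫ x, pd w (pd w φ) x * pd v (pd v φ) x := by
    refine integral_congr_ae (Filter.Eventually.of_forall fun x => ?_)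
    simp only [D2_eq_pd (le2 hφ)]
    ring
  have h3 : pd v (pd v (pd w φ)) = pd w (pd v (pd v φ)) := by
    rw [pd_comm (le2 hφ) v w, pd_comm (le2 (contDiff_pd hφ v)) v w]
  have h4 := ibp_one (le1 (contDiff_pd hφ w)) (hasCompactSupport_pd hφc w)
    (le1 (contDiff_pd (contDiff_pd hφ w) v)) v
  have h5 := ibp_one (le1 (contDiff_pd hφ w)) (hasCompactSupport_pd hφc w)
    (le1 (contDiff_pd (contDiff_pd hφ v) v)) w
  rw [h3] at h4
  rw [h1, h2]
  linarith

/-- `∫ |D²φ|² = ∫ (Δφ)²`. -/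
theorem hess_sq {N : ℕ} {φ : E N → ℝ} (hφ : ContDiff ℝ ∞ φ) (hφc : HasCompactSupport φ) :
    ∫ x, ∑ i, ∑ j, (D2 φ x (e i) (e j)) ^ 2 = ∫ x, (Lap φ x) ^ 2 := by
  have hφ2 : ContDiff ℝ 2 φ := hφ.of_le two_le_inf
  have e2 : ∀ x, (Lap φ x) ^ 2 = ∑ i, ∑ j, D2 φ x (e i) (e i) * D2 φ x (e j) (e j) := by
    intro x; rw [sq, Lap, Finset.sum_mul_sum]
  have i1 : ∀ i j : Fin N, Integrable (fun x => (D2 φ x (e i) (e j)) ^ 2) := by
    intro i j
    have : (fun x => (D2 φ x (e i) (e j)) ^ 2) =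
        fun x => D2 φ x (e i) (e j) * D2 φ x (e i) (e j) := by funext x; ring
    rw [this]
    exact ((continuous_D2 hφ2 _ _).mul (continuous_D2 hφ2 _ _)).integrable_of_hasCompactSupport
      (hasCompactSupport_D2 hφc _ _).mul_right
  have i2 : ∀ i j : Fin N, Integrable (fun x => D2 φ x (e i) (e i) * D2 φ x (e j) (e j)) := by
    intro i j
    exact ((continuous_D2 hφ2 _ _).mul (continuous_D2 hφ2 _ _)).integrable_of_hasCompactSupport
      (hasCompactSupport_D2 hφc _ _).mul_right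
  simp_rw [e2]
  rw [integral_finsetSum _ fun i _ => integrable_finsetSum _ fun j _ => i1 i j,
    integral_finsetSum _ fun i _ => integrable_finsetSum _ fun j _ => i2 i j]
  refine Finset.sum_congr rfl fun i _ => ?_
  rw [integral_finsetSum _ fun j _ => i1 i j, integral_finsetSum _ fun j _ => i2 i j]
  exact Finset.sum_congr rfl fun j _ => D2_pair hφ hφc (e i) (e j)

theorem iter_succ {N : ℕ} {f : E N → ℝ} (hf : ContDiff ℝ ∞ f) (n : ℕ) (x : E N)
    (m : Fin (n + 1) → E N) :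
    iteratedFDeriv ℝ (n + 1) f x m =
      pd (m 0) (fun y => iteratedFDeriv ℝ n f y (Fin.tail m)) x := by
  rw [iteratedFDeriv_succ_apply_left]
  unfold pd
  have hd : DifferentiableAt ℝ (iteratedFDeriv ℝ n f) x :=
    hf.differentiable_iteratedFDeriv (by exact_mod_cast WithTop.coe_lt_top _) x
  have := (ContinuousMultilinearMap.apply ℝ (fun _ : Fin n => E N) ℝ (Fin.tail m)).hasFDerivAt.comp
    x hd.hasFDerivAt
  have h2 := this.fderiv
  have h3 : (⇑(ContinuousMultilinearMap.apply ℝ (fun _ : Fin n => E N) ℝ (Fin.tail m)) ∘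
      iteratedFDeriv ℝ n f) = fun y => iteratedFDeriv ℝ n f y (Fin.tail m) := by
    funext y; rfl
  rw [h3] at h2
  rw [h2]
  rfl

theorem iter_four {N : ℕ} {f : E N → ℝ} (hf : ContDiff ℝ ∞ f) (x a b c d : E N) :
    iteratedFDeriv ℝ 4 f x ![a, b, c, d] = pd a (pd b (pd c (pd d f))) x := by
  have h0 : ∀ (y : E N) (m : Fin 0 → E N), iteratedFDeriv ℝ 0 f y m = f y := by
    intro y m; simp
  have h1 : ∀ (y : E N) (m : Fin 1 → E N), iteratedFDeriv ℝ 1 f y m = pd (m 0) f y := by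
    intro y m
    rw [iter_succ hf 0 y m]
    have : (fun z => iteratedFDeriv ℝ 0 f z (Fin.tail m)) = f := by
      funext z; exact h0 z _
    rw [this]
  have h2 : ∀ (y : E N) (m : Fin 2 → E N),
      iteratedFDeriv ℝ 2 f y m = pd (m 0) (pd (m 1) f) y := by
    intro y m
    rw [iter_succ hf 1 y m]
    have : (fun z => iteratedFDeriv ℝ 1 f z (Fin.tail m)) = pd (m 1) f := by
      funext z; rw [h1]; rfl
    rw [this]
  have h3 : ∀ (y : E N) (m : Fin 3 → E N),
      iteratedFDeriv ℝ 3 f y m = pd (m 0) (pd (m 1) (pd (m 2) f)) y := by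
    intro y m
    rw [iter_succ hf 2 y m]
    have : (fun z => iteratedFDeriv ℝ 2 f z (Fin.tail m)) = pd (m 1) (pd (m 2) f) := by
      funext z; rw [h2]; rfl
    rw [this]
  rw [iter_succ hf 3 x]
  have : (fun z => iteratedFDeriv ℝ 3 f z (Fin.tail ![a, b, c, d])) = pd b (pd c (pd d f)) := by
    funext z; rw [h3]; rfl
  rw [this]
  rfl

/-- The fourth order operator of the frozen statement is the square of the Laplacian. -/
theorem bilap_eq {N : ℕ} {ψ : E N → ℝ} (hψ : ContDiff ℝ ∞ ψ) (x : E N) :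
    (∑ i : Fin N, ∑ j : Fin N,
        iteratedFDeriv ℝ 4 ψ x
          ![EuclideanSpace.single i (1 : ℝ), EuclideanSpace.single i (1 : ℝ),
            EuclideanSpace.single j (1 : ℝ), EuclideanSpace.single j (1 : ℝ)]) = Lap (Lap ψ) x := by
  have le2 : ∀ {f : E N → ℝ}, ContDiff ℝ ∞ f → ContDiff ℝ 2 f := fun hf =>
    hf.of_le two_le_inf
  have hL : ContDiff ℝ ∞ (fun y => Lap ψ y) := contDiff_Lap hψ
  have key : ∀ i : Fin N, D2 (fun y => Lap ψ y) x (e i) (e i) =
      ∑ j : Fin N, pd (e i) (pd (e i) (pd (e j) (pd (e j) ψ))) x := by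
    intro i
    rw [D2_eq_pd (le2 hL)]
    have s1 : (fun y => Lap ψ y) = fun y => ∑ j : Fin N, pd (e j) (pd (e j) ψ) y := by
      funext y
      unfold Lap
      exact Finset.sum_congr rfl fun j _ => D2_eq_pd (le2 hψ) _ _ _
    have s2 : pd (e i) (fun y => Lap ψ y) =
        fun y => ∑ j : Fin N, pd (e i) (pd (e j) (pd (e j) ψ)) y := by
      rw [s1]
      funext y
      unfold pd
      rw [fderiv_fun_sum]
      · simp
      · intro j _
        exact (le2 (contDiff_pd (contDiff_pd hψ (e j)) (e j))).differentiable (by norm_num) y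
    rw [s2]
    show fderiv ℝ (fun y => ∑ j : Fin N, pd (e i) (pd (e j) (pd (e j) ψ)) y) x (e i) = _
    rw [fderiv_fun_sum]
    · simp [pd]
    · intro j _
      exact (le2 (contDiff_pd (contDiff_pd (contDiff_pd hψ (e j)) (e j)) (e i))).differentiable
        (by norm_num) x
  show _ = ∑ i : Fin N, D2 (fun y => Lap ψ y) x (e i) (e i)
  refine Finset.sum_congr rfl fun i _ => ?_
  rw [key i]
  refine Finset.sum_congr rfl fun j _ => ?_
  exact iter_four hψ x _ _ _ _

end Pool.Agent.Lib.MP_d3943d_an
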