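import Pool.Agent.Lib.MP_d3943d_an.Approx

set_option autoImplicit false

/-!
Truncated kernels and monotone convergence for the Riesz inequality.
-/

namespace Pool.Agent.Lib.MP_d3943d_an

open MeasureTheory Set
open scoped ENNReal ContDiff Pointwise

/-- Bounded kernels increasing to `r^(-m)`. -/
noncomputable def KerJ (m j : ℕ) (r : ℝ) : ℝ := ((max r 0) ^ m + 1 / ((j : ℝ) + 1))⁻¹

theorem KerJ_pos_aux (m j : ℕ) (r : ℝ) : 0 < (max r 0) ^ m + 1 / ((j : ℝ) + 1) := by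
  have h1 : (0 : ℝ) ≤ (max r 0) ^ m := pow_nonneg (le_max_right _ _) _
  positivity

theorem KerJ_antitone (m j : ℕ) : Antitone (KerJ m j) := by
  intro r s hrs
  unfold KerJ
  apply inv_anti₀ (KerJ_pos_aux m j r)
  have h1 : (max r 0) ^ m ≤ (max s 0) ^ m :=
    pow_le_pow_left₀ (le_max_right _ _) (max_le_max hrs le_rfl) m
  linarith

theorem KerJ_nonneg (m j : ℕ) (r : ℝ) : 0 ≤ KerJ m j r :=
  (inv_pos.2 (KerJ_pos_aux m j r)).le

theorem KerJ_le (m j : ℕ) (r : ℝ) : KerJ m j r ≤ (j : ℝ) + 1 := by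
  have h1 : (0 : ℝ) ≤ (max r 0) ^ m := pow_nonneg (le_max_right _ _) _
  have h2 : (0 : ℝ) < 1 / ((j : ℝ) + 1) := by positivity
  have h3 : KerJ m j r ≤ (1 / ((j : ℝ) + 1))⁻¹ := by
    unfold KerJ
    exact inv_anti₀ h2 (by linarith)
  simpa using h3

theorem KerJ_mono (m : ℕ) (r : ℝ) : Monotone (fun j : ℕ => KerJ m j r) := by
  intro i j hij
  have hij' : (i : ℝ) ≤ (j : ℝ) := by exact_mod_cast hij
  show KerJ m i r ≤ KerJ m j r
  unfold KerJ
  apply inv_anti₀ (KerJ_pos_aux m j r)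
  have : 1 / ((j : ℝ) + 1) ≤ 1 / ((i : ℝ) + 1) :=
    one_div_le_one_div_of_le (by positivity) (by linarith)
  linarith

theorem KerJ_iSup (m : ℕ) {r : ℝ} (hr : 0 ≤ r) :
    ⨆ j : ℕ, ENNReal.ofReal (KerJ m j r) = (ENNReal.ofReal (r ^ m))⁻¹ := by
  have h1 : ∀ j : ℕ, ENNReal.ofReal (KerJ m j r)
      = (ENNReal.ofReal (r ^ m) + ENNReal.ofReal (1 / ((j : ℝ) + 1)))⁻¹ := by
    intro j
    unfold KerJ
    rw [ENNReal.ofReal_inv_of_pos (KerJ_pos_aux m j r), max_eq_left hr,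
      ENNReal.ofReal_add (pow_nonneg hr m) (by positivity)]
  simp_rw [h1]
  rw [← ENNReal.inv_iInf]
  congr 1
  apply le_antisymm
  · have hlim : Filter.Tendsto (fun j : ℕ => ENNReal.ofReal (r ^ m)
        + ENNReal.ofReal (1 / ((j : ℝ) + 1))) Filter.atTop (nhds (ENNReal.ofReal (r ^ m) + 0)) := by
      apply Filter.Tendsto.add tendsto_const_nhds
      rw [← ENNReal.ofReal_zero]
      exact (ENNReal.continuous_ofReal.tendsto 0).comp tendsto_one_div_add_atTop_nhds_zero_nat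
    rw [add_zero] at hlim
    exact ge_of_tendsto' hlim (fun j => iInf_le _ j)
  · exact le_iInf fun j => le_self_add

theorem measurable_KerJ (m j : ℕ) : Measurable (KerJ m j) := (KerJ_antitone m j).measurable

theorem lintegral2_iSup {α β : Type*} [MeasurableSpace α] [MeasurableSpace β] (μ : Measure α)
    (ν : Measure β) [SFinite ν] (F : ℕ → α → β → ℝ≥0∞)
    (hF : ∀ k, Measurable (Function.uncurry (F k))) (hmono : ∀ x y, Monotone fun k => F k x y) :
    ∫⁻ x, ∫⁻ y, ⨆ k, F k x y ∂ν ∂μ = ⨆ k, ∫⁻ x, ∫⁻ y, F k x y ∂ν ∂μ := by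
  have h1 : ∀ x, ∫⁻ y, ⨆ k, F k x y ∂ν = ⨆ k, ∫⁻ y, F k x y ∂ν := by
    intro x
    exact lintegral_iSup (fun k => (hF k).comp measurable_prodMk_left)
      (fun i j hij y => hmono x y hij)
  simp_rw [h1]
  exact lintegral_iSup (fun k => (hF k).lintegral_prod_right')
    (fun i j hij x => lintegral_mono fun y => hmono x y hij)

theorem ofReal_mul_iSup {a b : ℕ → ℝ≥0∞} (ha : Monotone a) (hb : Monotone b) :
    ⨆ k, a k * b k = (⨆ k, a k) * ⨆ k, b k := by
  apply le_antisymm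
  · exact iSup_le fun k => mul_le_mul' (le_iSup a k) (le_iSup b k)
  · rw [ENNReal.iSup_mul]
    refine iSup_le fun i => ?_
    rw [ENNReal.mul_iSup]
    refine iSup_le fun j => ?_
    exact le_trans (mul_le_mul' (ha (le_max_left i j)) (hb (le_max_right i j)))
      (le_iSup (fun k => a k * b k) (max i j))

theorem lintegral_approxSet_le {N : ℕ} (hN : 1 ≤ N) {Ω : Set (E N)} (hΩ : IsOpen Ω)
    (hb : Bornology.IsBounded Ω) {L ρ : ℝ} (k : ℕ) (hadm : Adm L ρ (approxSet Ω k)) :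
    ENNReal.ofReal (∫ x, approxSet Ω k x) ≤ volume Ω := by
  have hint : Integrable (approxSet Ω k) := hadm.continuous.integrable_of_hasCompactSupport
    hadm.hasCompactSupport
  rw [ofReal_integral_eq_lintegral_ofReal hint (Filter.Eventually.of_forall hadm.nonneg)]
  have h1 : ∫⁻ x, Ω.indicator (fun _ => (1 : ℝ≥0∞)) x = volume Ω := by
    rw [lintegral_indicator hΩ.measurableSet]
    simp
  rw [← h1]
  apply lintegral_mono
  intro x
  show ENNReal.ofReal (approxSet Ω k x) ≤ Ω.indicator (fun _ => (1 : ℝ≥0∞)) x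
  rw [← approxSet_iSup hN hΩ hb x]
  exact le_iSup (fun k : ℕ => ENNReal.ofReal (approxSet Ω k x)) k

end Pool.Agent.Lib.MP_d3943d_an
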