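import Pool.Agent.Lib.MP_d3943d_an.LinesMX

set_option autoImplicit false

/-!
The Gaussian average of the line functional is a Riesz energy.
-/

namespace Pool.Agent.Lib.MP_d3943d_an

open MeasureTheory Set
open scoped ENNReal ContDiff

noncomputable def Phi {N : ℕ} (Ω : Set (E N)) : ℝ≥0∞ :=
  ∫⁻ X : E N, ENNReal.ofReal (‖X‖ ^ 8 * Real.exp (-‖X‖ ^ 2 / 2)) * MX Ω X

/-- The energy with kernel `‖x‖^(4-N)`. -/
noncomputable def riesz4 {N : ℕ} (Ω : Set (E N)) : ℝ≥0∞ :=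
  ∫⁻ x in Ω, ∫⁻ z in Ω, (ENNReal.ofReal (‖x - z‖ ^ (N - 4)))⁻¹

theorem phi_lint_smul {F : Type*} [NormedAddCommGroup F] [NormedSpace ℝ F]
    [FiniteDimensional ℝ F] [MeasurableSpace F] [BorelSpace F] (μ : Measure F)
    [μ.IsAddHaarMeasure] (f : F → ℝ≥0∞) {r : ℝ} (hr : r ≠ 0) :
    ∫⁻ X, f (r • X) ∂μ = ENNReal.ofReal ((|r| ^ Module.finrank ℝ F)⁻¹) * ∫⁻ X, f X ∂μ := by
  have h1 : MeasurableEmbedding (fun X : F => r • X) :=
    (Homeomorph.smulOfNeZero r hr).measurableEmbedding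
  rw [← h1.lintegral_map f, Measure.map_addHaar_smul μ hr, lintegral_smul_measure, smul_eq_mul,
    abs_inv, abs_pow]

/-- The kernel. -/
noncomputable def phiK {N : ℕ} (τ : ℝ) (w : E N) : ℝ≥0∞ :=
  ENNReal.ofReal ((|τ| ^ N)⁻¹ * (|τ| ^ 3 * ((|τ|⁻¹ * ‖w‖) ^ 8 *
    Real.exp (-(|τ|⁻¹ * ‖w‖) ^ 2 / 2))))

theorem measurable_phiK {N : ℕ} : Measurable (fun p : ℝ × E N => phiK p.1 p.2) := by
  unfold phiK
  fun_prop

/-- The constant. -/
noncomputable def phiC (N : ℕ) : ℝ≥0∞ :=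
  ∫⁻ σ : ℝ, ENNReal.ofReal ((|σ| ^ N)⁻¹ * (|σ| ^ 3 * ((|σ|⁻¹) ^ 8 *
    Real.exp (-(|σ|⁻¹) ^ 2 / 2))))

theorem lint_phiK {N : ℕ} (hN : 4 ≤ N) {w : E N} (hw : w ≠ 0) :
    ∫⁻ τ : ℝ, phiK τ w = phiC N * (ENNReal.ofReal (‖w‖ ^ (N - 4)))⁻¹ := by
  have hw0 : 0 < ‖w‖ := norm_pos_iff.2 hw
  have h := phi_lint_smul (volume : Measure ℝ) (fun τ => phiK τ w) hw0.ne'
  simp only [Module.finrank_self, pow_one, abs_norm] at h
  have h1 : ∀ σ : ℝ, phiK (‖w‖ • σ) w = ENNReal.ofReal ((‖w‖ ^ N)⁻¹ * ‖w‖ ^ 3) *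
      ENNReal.ofReal ((|σ| ^ N)⁻¹ * (|σ| ^ 3 * ((|σ|⁻¹) ^ 8 *
        Real.exp (-(|σ|⁻¹) ^ 2 / 2)))) := by
    intro σ
    unfold phiK
    rw [← ENNReal.ofReal_mul (by positivity)]
    congr 1
    have e1 : |‖w‖ • σ|⁻¹ * ‖w‖ = |σ|⁻¹ := by
      rw [smul_eq_mul, abs_mul, abs_norm, mul_inv]
      field_simp
    rw [e1, smul_eq_mul, abs_mul, abs_norm, mul_pow, mul_pow, mul_inv]
    ring
  simp only [h1] at h
  rw [lintegral_const_mul' _ _ ENNReal.ofReal_ne_top] at h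
  change _ * phiC N = _ at h
  have h2 : ∫⁻ τ : ℝ, phiK τ w = ENNReal.ofReal ‖w‖ *
      (ENNReal.ofReal (‖w‖⁻¹) * ∫⁻ τ : ℝ, phiK τ w) := by
    rw [← mul_assoc, ← ENNReal.ofReal_mul hw0.le, mul_inv_cancel₀ hw0.ne', ENNReal.ofReal_one,
      one_mul]
  rw [h2, ← h, ← mul_assoc, ← ENNReal.ofReal_mul hw0.le, mul_comm (phiC N)]
  congr 1
  rw [← ENNReal.ofReal_inv_of_pos (by positivity)]
  congr 1
  obtain ⟨k, rfl⟩ : ∃ k, N = k + 4 := ⟨N - 4, by omega⟩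
  rw [Nat.add_sub_cancel, pow_add]
  field_simp

theorem Phi_eq {N : ℕ} (hN : 4 ≤ N) :
    ∃ c : ℝ≥0∞, ∀ Ω : Set (E N), MeasurableSet Ω → Phi Ω = c * riesz4 Ω := by
  refine ⟨phiC N, fun Ω hΩ => ?_⟩
  have hind : Measurable (Ω.indicator (fun _ : E N => (1 : ℝ≥0∞))) :=
    measurable_const.indicator hΩ
  set G : E N → ℝ≥0∞ := fun X => ENNReal.ofReal (‖X‖ ^ 8 * Real.exp (-‖X‖ ^ 2 / 2)) with hG
  have hGm : Measurable G := by
    rw [hG]; fun_prop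
  -- step 1
  have s1 : Phi Ω = ∫⁻ X : E N, ∫⁻ x in Ω, ∫⁻ τ : ℝ,
      G X * (ENNReal.ofReal (|τ| ^ 3) * Ω.indicator (fun _ => 1) (x + τ • X)) := by
    unfold Phi MX
    refine lintegral_congr fun X => ?_
    rw [← lintegral_const_mul' _ _ ENNReal.ofReal_ne_top]
    refine lintegral_congr fun x => ?_
    rw [← lintegral_const_mul' _ _ ENNReal.ofReal_ne_top]
  -- step 2
  have hm3 : Measurable (fun p : (E N × E N) × ℝ =>
      G p.1.1 * (ENNReal.ofReal (|p.2| ^ 3) *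
        Ω.indicator (fun _ => (1 : ℝ≥0∞)) (p.1.2 + p.2 • p.1.1))) := by
    have h1 : Measurable (fun p : (E N × E N) × ℝ => p.1.2 + p.2 • p.1.1) := by fun_prop
    have h2 := hind.comp h1
    have h3 : Measurable (fun p : (E N × E N) × ℝ => G p.1.1) := hGm.comp (by fun_prop)
    have h4 : Measurable (fun p : (E N × E N) × ℝ => ENNReal.ofReal (|p.2| ^ 3)) := by fun_prop
    exact h3.mul (h4.mul h2)
  have s2 : Phi Ω = ∫⁻ x in Ω, ∫⁻ X : E N, ∫⁻ τ : ℝ,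
      G X * (ENNReal.ofReal (|τ| ^ 3) * Ω.indicator (fun _ => 1) (x + τ • X)) := by
    rw [s1]
    refine lintegral_lintegral_swap ?_
    exact (hm3.lintegral_prod_right').aemeasurable
  -- step 3
  have s3 : ∀ x : E N, (∫⁻ X : E N, ∫⁻ τ : ℝ,
      G X * (ENNReal.ofReal (|τ| ^ 3) * Ω.indicator (fun _ => 1) (x + τ • X))) =
      ∫⁻ τ : ℝ, ∫⁻ X : E N,
        G X * (ENNReal.ofReal (|τ| ^ 3) * Ω.indicator (fun _ => 1) (x + τ • X)) := by
    intro x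
    refine lintegral_lintegral_swap ?_
    have h1 : Measurable (fun p : E N × ℝ => (((p.1, x), p.2) : (E N × E N) × ℝ)) := by fun_prop
    exact (hm3.comp h1).aemeasurable
  -- step 4
  have s4 : ∀ (x : E N) (τ : ℝ), τ ≠ 0 → (∫⁻ X : E N,
        G X * (ENNReal.ofReal (|τ| ^ 3) * Ω.indicator (fun _ => 1) (x + τ • X))) =
      ∫⁻ z in Ω, phiK τ (z - x) := by
    intro x τ hτ
    set g : E N → ℝ≥0∞ := fun Z => G (τ⁻¹ • Z) *
      (ENNReal.ofReal (|τ| ^ 3) * Ω.indicator (fun _ => 1) (x + Z)) with hg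
    have h1 : ∀ X : E N, G X * (ENNReal.ofReal (|τ| ^ 3) *
        Ω.indicator (fun _ => 1) (x + τ • X)) = g (τ • X) := by
      intro X
      rw [hg]
      simp only [smul_smul, inv_mul_cancel₀ hτ, one_smul]
    simp only [h1]
    rw [phi_lint_smul volume g hτ, finrank_euclideanSpace_fin,
      ← lintegral_sub_right_eq_self g x, ← lintegral_indicator hΩ,
      ← lintegral_const_mul' _ _ ENNReal.ofReal_ne_top]
    refine lintegral_congr fun z => ?_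
    rw [hg]
    simp only [add_sub_cancel]
    by_cases hz : z ∈ Ω
    · rw [indicator_of_mem hz, indicator_of_mem hz, mul_one]
      simp only [hG]
      unfold phiK
      rw [← ENNReal.ofReal_mul (by positivity), ← ENNReal.ofReal_mul (by positivity)]
      congr 1
      rw [norm_smul, norm_inv, Real.norm_eq_abs]
      ring
    · rw [indicator_of_notMem hz, indicator_of_notMem hz]
      simp
  -- step 5
  have s5 : ∀ x : E N, (∫⁻ τ : ℝ, ∫⁻ X : E N,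
        G X * (ENNReal.ofReal (|τ| ^ 3) * Ω.indicator (fun _ => 1) (x + τ • X))) =
      ∫⁻ z in Ω, ∫⁻ τ : ℝ, phiK τ (z - x) := by
    intro x
    have h1 : (∫⁻ τ : ℝ, ∫⁻ X : E N,
        G X * (ENNReal.ofReal (|τ| ^ 3) * Ω.indicator (fun _ => 1) (x + τ • X))) =
        ∫⁻ τ : ℝ, ∫⁻ z in Ω, phiK τ (z - x) := by
      refine lintegral_congr_ae ?_
      filter_upwards [Measure.ae_ne volume (0 : ℝ)] with τ hτ
      exact s4 x τ hτ
    rw [h1]
    refine lintegral_lintegral_swap ?_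
    have h2 : Measurable (fun p : ℝ × E N => ((p.1, p.2 - x) : ℝ × E N)) := by fun_prop
    exact (measurable_phiK.comp h2).aemeasurable
  -- step 6
  have hN0 : Nontrivial (E N) := by
    have : Nonempty (Fin N) := ⟨⟨0, by omega⟩⟩
    infer_instance
  rw [s2]
  unfold riesz4
  have hm : Measurable (fun p : E N × E N => (ENNReal.ofReal (‖p.1 - p.2‖ ^ (N - 4)))⁻¹) := by
    fun_prop
  rw [← lintegral_const_mul _ (hm.lintegral_prod_right')]
  refine lintegral_congr fun x => ?_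
  rw [s3 x, s5 x]
  have hm2 : Measurable (fun z : E N => (ENNReal.ofReal (‖x - z‖ ^ (N - 4)))⁻¹) := by
    fun_prop
  rw [← lintegral_const_mul _ hm2]
  refine lintegral_congr_ae ?_
  have hne : ∀ᵐ z : E N ∂(volume.restrict Ω), z ≠ x :=
    ae_restrict_of_ae (Measure.ae_ne volume x)
  filter_upwards [hne] with z hz
  rw [lint_phiK hN (sub_ne_zero.2 hz), norm_sub_rev]

end Pool.Agent.Lib.MP_d3943d_an
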