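import Pool.Agent.Lib.MP_d3943d_an.Lines
import Pool.Agent.Lib.MP_d3943d_an.HessIBP
import Pool.Agent.Lib.MP_d3943d_an.Phi
import Pool.Agent.Lib.MP_d3943d_an.Ball
import Pool.Agent.Lib.MP_d3943d_an.Gauss

set_option autoImplicit false

/-!
The key inequality for `N ≥ 4`, given the Riesz inequality.
-/

namespace Pool.Agent.Lib.MP_d3943d_an

open MeasureTheory Set
open scoped ENNReal ContDiff

/-- The Gaussian weight is continuous. -/
theorem continuous_gw {N : ℕ} (k : ℕ) :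
    Continuous (fun X : E N => ‖X‖ ^ k * Real.exp (-‖X‖ ^ 2 / 2)) := by
  fun_prop

theorem continuous_D2_uncurry {N : ℕ} {φ : E N → ℝ} (hφ : ContDiff ℝ 2 φ) :
    Continuous (fun p : E N × E N => D2 φ p.2 p.1 p.1) := by
  have h : (fun p : E N × E N => D2 φ p.2 p.1 p.1)
      = fun p : E N × E N => ∑ i, ∑ j, D2 φ p.2 (e i) (e j) * p.1 i * p.1 j := by
    funext p
    exact D2_expand p.2 p.1
  rw [h]
  refine continuous_finsetSum _ (fun i _ => continuous_finsetSum _ (fun j _ => ?_))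
  have h1 : Continuous (fun p : E N × E N => D2 φ p.2 (e i) (e j)) :=
    (continuous_D2 hφ (e i) (e j)).comp continuous_snd
  fun_prop

theorem lintegral_D2_sq {N : ℕ} {φ : E N → ℝ} (hφ : ContDiff ℝ ∞ φ) (hc : HasCompactSupport φ)
    (X : E N) :
    ENNReal.ofReal (∫ x, (D2 φ x X X) ^ 2) = ∫⁻ x, ENNReal.ofReal ((D2 φ x X X) ^ 2) := by
  have h2 : ContDiff ℝ 2 φ := by exact_mod_cast contDiff_infty.1 hφ 2
  refine ofReal_integral_eq_lintegral_ofReal ?_ (Filter.Eventually.of_forall fun x => sq_nonneg _)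
  refine Continuous.integrable_of_hasCompactSupport ((continuous_D2 h2 X X).pow 2) ?_
  have := hasCompactSupport_D2 hc X X
  exact this.comp_left (g := fun t : ℝ => t ^ 2) (by norm_num)

/-- The Gaussian average of the squared second derivatives. -/
theorem gauss_D2 {N : ℕ} {φ : E N → ℝ} (hφ : ContDiff ℝ ∞ φ) (hc : HasCompactSupport φ) :
    ∫⁻ X : E N, ENNReal.ofReal (Real.exp (-‖X‖ ^ 2 / 2))
        * ENNReal.ofReal (∫ x, (D2 φ x X X) ^ 2)
      = ENNReal.ofReal (3 * ZG N * ∫ x, (Lap φ x) ^ 2) := by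
  have h2 : ContDiff ℝ 2 φ := by exact_mod_cast contDiff_infty.1 hφ 2
  have hcont := continuous_D2_uncurry h2
  have step1 : ∀ X : E N, ENNReal.ofReal (Real.exp (-‖X‖ ^ 2 / 2))
        * ENNReal.ofReal (∫ x, (D2 φ x X X) ^ 2)
      = ∫⁻ x, ENNReal.ofReal ((D2 φ x X X) ^ 2 * Real.exp (-‖X‖ ^ 2 / 2)) := by
    intro X
    rw [lintegral_D2_sq hφ hc X, ← lintegral_const_mul']
    · refine lintegral_congr (fun x => ?_)
      rw [← ENNReal.ofReal_mul (Real.exp_pos _).le, mul_comm]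
    · exact ENNReal.ofReal_ne_top
  simp_rw [step1]
  rw [lintegral_lintegral_swap]
  swap
  · refine Measurable.aemeasurable ?_
    refine ENNReal.measurable_ofReal.comp ?_
    refine Continuous.measurable ?_
    exact (hcont.pow 2).mul (by fun_prop)
  have step2 : ∀ x : E N, ∫⁻ X : E N, ENNReal.ofReal ((D2 φ x X X) ^ 2 * Real.exp (-‖X‖ ^ 2 / 2))
      = ENNReal.ofReal ((2 * ∑ i, ∑ j, (D2 φ x (e i) (e j)) ^ 2 + (Lap φ x) ^ 2) * ZG N) := by
    intro x
    have h := gauss_quartic (N := N) (fun i j => D2 φ x (e i) (e j))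
      (fun i j => D2_symm h2 x (e i) (e j))
    have hi := gauss_quartic_integrable (N := N) (fun i j => D2 φ x (e i) (e j))
    have he : ∀ X : E N, D2 φ x X X = ∑ i, ∑ j, D2 φ x (e i) (e j) * X i * X j :=
      fun X => D2_expand x X
    simp_rw [he]
    rw [← ofReal_integral_eq_lintegral_ofReal hi
      (Filter.Eventually.of_forall fun X => by positivity), h]
    rfl
  simp_rw [step2]
  have hint1 : Integrable (fun x => ∑ i, ∑ j, (D2 φ x (e i) (e j)) ^ 2) := by
    refine integrable_finsetSum _ (fun i _ => integrable_finsetSum _ (fun j _ => ?_))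
    refine Continuous.integrable_of_hasCompactSupport ((continuous_D2 h2 _ _).pow 2) ?_
    exact (hasCompactSupport_D2 hc (e i) (e j)).comp_left (g := fun t : ℝ => t ^ 2) (by norm_num)
  have hint2 : Integrable (fun x => (Lap φ x) ^ 2) := by
    refine Continuous.integrable_of_hasCompactSupport ((continuous_Lap h2).pow 2) ?_
    exact (hasCompactSupport_Lap hc).comp_left (g := fun t : ℝ => t ^ 2) (by norm_num)
  have hint3 : Integrable (fun x => (2 * ∑ i, ∑ j, (D2 φ x (e i) (e j)) ^ 2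
      + (Lap φ x) ^ 2) * ZG N) := ((hint1.const_mul 2).add hint2).mul_const _
  rw [← ofReal_integral_eq_lintegral_ofReal hint3
    (Filter.Eventually.of_forall fun X => by
      have := ZG_pos N
      positivity)]
  congr 1
  rw [integral_mul_const]
  have : ∫ x, (2 * ∑ i, ∑ j, (D2 φ x (e i) (e j)) ^ 2 + (Lap φ x) ^ 2)
      = 3 * ∫ x, (Lap φ x) ^ 2 := by
    rw [integral_add (hint1.const_mul 2) hint2, integral_const_mul, hess_sq hφ hc]
    ring
  rw [this]
  ring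

theorem Phi_ball {n : ℕ} (R : ℝ) (hR : 0 < R) :
    Phi (Metric.ball (0 : E (n + 1)) R)
      = ENNReal.ofReal (3 * (∫ x in Metric.ball (0 : E (n + 1)) R, (R ^ 2 - ‖x‖ ^ 2) ^ 2)
          * ((n + 1 : ℕ) * (((n + 1 : ℕ) : ℝ) + 2) * ZG (n + 1))) := by
  set IB := ∫ x in Metric.ball (0 : E (n + 1)) R, (R ^ 2 - ‖x‖ ^ 2) ^ 2 with hIB
  have hIB0 : 0 ≤ IB := integral_nonneg (fun x => sq_nonneg _)
  have h0 : ∀ᵐ X : E (n + 1), X ≠ 0 := by
    rw [ae_iff]
    simp
  unfold Phi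
  have h1 : ∫⁻ X : E (n + 1), ENNReal.ofReal (‖X‖ ^ 8 * Real.exp (-‖X‖ ^ 2 / 2))
        * MX (Metric.ball (0 : E (n + 1)) R) X
      = ∫⁻ X : E (n + 1), ENNReal.ofReal (3 * IB * (‖X‖ ^ 4 * Real.exp (-‖X‖ ^ 2 / 2))) := by
    refine lintegral_congr_ae ?_
    filter_upwards [h0] with X hX
    rw [MX_ball R hR X hX, ← ENNReal.ofReal_mul (by positivity)]
    congr 1
    have hX' : ‖X‖ ≠ 0 := norm_ne_zero_iff.mpr hX
    field_simp
    ring
  rw [h1, ← ofReal_integral_eq_lintegral_ofReal ((gauss_norm4_integrable (n + 1)).const_mul _)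
    (Filter.Eventually.of_forall fun X => by positivity), integral_const_mul, gauss_norm4]

theorem measurable_MX {N : ℕ} {Ω : Set (E N)} (hΩ : MeasurableSet Ω) :
    Measurable (fun X : E N => MX Ω X) := by
  unfold MX
  have hm : Measurable (fun q : (E N × E N) × ℝ =>
      ENNReal.ofReal (|q.2| ^ 3) * Ω.indicator (fun _ => (1 : ℝ≥0∞)) (q.1.2 + q.2 • q.1.1)) := by
    refine Measurable.mul (by fun_prop) ?_
    exact (measurable_const.indicator hΩ).comp (by fun_prop)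
  have h1 : Measurable (fun p : E N × E N => ∫⁻ τ : ℝ, ENNReal.ofReal (|τ| ^ 3)
      * Ω.indicator (fun _ => (1 : ℝ≥0∞)) (p.2 + τ • p.1)) := hm.lintegral_prod_right'
  exact h1.lintegral_prod_right'

theorem key_lines {N : ℕ} (hN : 4 ≤ N)
    (hriesz : ∀ (Ω : Set (E N)), IsOpen Ω → Bornology.IsBounded Ω → ∀ R : ℝ, 0 < R →
      volume Ω ≤ volume (Metric.ball (0 : E N) R) → riesz4 Ω ≤ riesz4 (Metric.ball (0 : E N) R)) :
    KeyIneq N := by
  intro Ω hΩ hb R hR hv φ hφ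
  obtain ⟨n, rfl⟩ : ∃ n, N = n + 1 := ⟨N - 1, by omega⟩
  have hsm := hφ.smooth
  have hc := hφ.compact
  have h2 : ContDiff ℝ 2 φ := by exact_mod_cast contDiff_infty.1 hsm 2
  set a : ℝ := ∫ x, |φ x| with ha
  have ha0 : 0 ≤ a := integral_nonneg (fun x => abs_nonneg _)
  set L2 : ℝ := ∫ x, (Lap φ x) ^ 2 with hL2
  have hL20 : 0 ≤ L2 := integral_nonneg (fun x => sq_nonneg _)
  have hZ := ZG_pos (n + 1)
  set Z := ZG (n + 1) with hZdef
  set IB := ∫ x in Metric.ball (0 : E (n + 1)) R, (R ^ 2 - ‖x‖ ^ 2) ^ 2 with hIB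
  have hIB0 : 0 ≤ IB := integral_nonneg (fun x => sq_nonneg _)
  set c : ℝ := ((n + 1 : ℕ) : ℝ) * (((n + 1 : ℕ) : ℝ) + 2) with hcdef
  have hc0 : 0 < c := by positivity
  -- the functions
  set F : E (n + 1) → ℝ≥0∞ := fun X =>
    (ENNReal.ofReal (‖X‖ ^ 8 * Real.exp (-‖X‖ ^ 2 / 2)) * MX Ω X) ^ (1 / 2 : ℝ) with hF
  set G : E (n + 1) → ℝ≥0∞ := fun X =>
    (ENNReal.ofReal (Real.exp (-‖X‖ ^ 2 / 2)) * ENNReal.ofReal (∫ x, (D2 φ x X X) ^ 2)) ^ (1 / 2 : ℝ)
    with hG
  have hFm : Measurable F := by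
    refine Measurable.pow_const ?_ _
    refine Measurable.mul ?_ (measurable_MX hΩ.measurableSet)
    exact ENNReal.measurable_ofReal.comp (continuous_gw 8).measurable
  have hGm : Measurable G := by
    refine Measurable.pow_const ?_ _
    have hm1 : Measurable (fun X : E (n + 1) => ENNReal.ofReal (Real.exp (-‖X‖ ^ 2 / 2))) :=
      ENNReal.measurable_ofReal.comp (Continuous.measurable (by fun_prop))
    have hm2 : Measurable (fun X : E (n + 1) =>
        ENNReal.ofReal (∫ x, (D2 φ x X X) ^ 2)) := by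
      simp_rw [lintegral_D2_sq hsm hc]
      have hm : Measurable (fun p : E (n + 1) × E (n + 1) =>
          ENNReal.ofReal ((D2 φ p.2 p.1 p.1) ^ 2)) :=
        ENNReal.measurable_ofReal.comp ((continuous_D2_uncurry h2).pow 2).measurable
      exact hm.lintegral_prod_right'
    exact hm1.mul hm2
  have hpt : ∀ X : E (n + 1), ENNReal.ofReal (√72 * a * (‖X‖ ^ 4 * Real.exp (-‖X‖ ^ 2 / 2)))
      ≤ (F * G) X := by
    intro X
    by_cases hX : X = 0
    · subst hX
      simp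
    have hl := lines Ω hΩ hb φ hφ X hX
    have : ENNReal.ofReal (√72 * a * (‖X‖ ^ 4 * Real.exp (-‖X‖ ^ 2 / 2)))
        = (ENNReal.ofReal (72 * a ^ 2) * ENNReal.ofReal (‖X‖ ^ 8 * Real.exp (-‖X‖ ^ 2 / 2))
            * ENNReal.ofReal (Real.exp (-‖X‖ ^ 2 / 2))) ^ (1 / 2 : ℝ) := by
      rw [← ENNReal.ofReal_mul (by positivity), ← ENNReal.ofReal_mul (by positivity),
        ENNReal.ofReal_rpow_of_nonneg (by positivity) (by norm_num)]
      congr 1
      rw [← Real.sqrt_eq_rpow]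
      symm
      rw [Real.sqrt_eq_iff_mul_self_eq (by positivity) (by positivity)]
      have h72 : √72 * √72 = (72 : ℝ) := Real.mul_self_sqrt (by norm_num)
      symm
      calc √72 * a * (‖X‖ ^ 4 * Real.exp (-‖X‖ ^ 2 / 2))
            * (√72 * a * (‖X‖ ^ 4 * Real.exp (-‖X‖ ^ 2 / 2)))
          = (√72 * √72) * a ^ 2 * (‖X‖ ^ 8 * Real.exp (-‖X‖ ^ 2 / 2))
              * Real.exp (-‖X‖ ^ 2 / 2) := by ring
        _ = _ := by rw [h72]
    rw [this]
    simp only [Pi.mul_apply, hF, hG]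
    rw [← ENNReal.mul_rpow_of_nonneg _ _ (by norm_num : (0:ℝ) ≤ 1 / 2)]
    refine ENNReal.rpow_le_rpow ?_ (by norm_num)
    calc ENNReal.ofReal (72 * a ^ 2) * ENNReal.ofReal (‖X‖ ^ 8 * Real.exp (-‖X‖ ^ 2 / 2))
            * ENNReal.ofReal (Real.exp (-‖X‖ ^ 2 / 2))
        ≤ (MX Ω X * ENNReal.ofReal (∫ x, (D2 φ x X X) ^ 2))
            * ENNReal.ofReal (‖X‖ ^ 8 * Real.exp (-‖X‖ ^ 2 / 2))
            * ENNReal.ofReal (Real.exp (-‖X‖ ^ 2 / 2)) := by gcongr
      _ = _ := by ring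
  have hhold := ENNReal.lintegral_mul_le_Lp_mul_Lq (volume : Measure (E (n + 1)))
    Real.HolderConjugate.two_two hFm.aemeasurable hGm.aemeasurable
  have hF2 : ∫⁻ X, F X ^ (2 : ℝ) = Phi Ω := by
    unfold Phi
    refine lintegral_congr (fun X => ?_)
    simp only [hF]
    rw [← ENNReal.rpow_mul]
    norm_num
  have hG2 : ∫⁻ X, G X ^ (2 : ℝ) = ENNReal.ofReal (3 * Z * L2) := by
    rw [← gauss_D2 hsm hc]
    refine lintegral_congr (fun X => ?_)
    simp only [hG]
    rw [← ENNReal.rpow_mul]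
    norm_num
  rw [hF2, hG2] at hhold
  have hlow : ENNReal.ofReal (√72 * a * (c * Z)) ≤ ∫⁻ X, (F * G) X := by
    refine le_trans (le_of_eq ?_) (lintegral_mono hpt)
    rw [← ofReal_integral_eq_lintegral_ofReal ((gauss_norm4_integrable (n + 1)).const_mul _)
      (Filter.Eventually.of_forall fun X => by positivity), integral_const_mul, gauss_norm4]
  have hmain := hlow.trans hhold
  -- Phi
  obtain ⟨c', hc'⟩ := Phi_eq (N := n + 1) hN
  have hPhi : Phi Ω ≤ ENNReal.ofReal (3 * IB * (c * Z)) := by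
    rw [← Phi_ball R hR, hc' Ω hΩ.measurableSet, hc' _ Metric.isOpen_ball.measurableSet]
    gcongr
    exact hriesz Ω hΩ hb R hR hv
  have hfin : ENNReal.ofReal (√72 * a * (c * Z))
      ≤ (ENNReal.ofReal (3 * IB * (c * Z))) ^ (1 / 2 : ℝ)
        * (ENNReal.ofReal (3 * Z * L2)) ^ (1 / 2 : ℝ) := by
    refine hmain.trans ?_
    gcongr
  rw [← ENNReal.mul_rpow_of_nonneg _ _ (by norm_num : (0:ℝ) ≤ 1 / 2),
    ← ENNReal.ofReal_mul (by positivity),
    ENNReal.ofReal_rpow_of_nonneg (by positivity) (by norm_num),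
    ENNReal.ofReal_le_ofReal_iff (by positivity), ← Real.sqrt_eq_rpow] at hfin
  have hsq : (√72 * a * (c * Z)) ^ 2 ≤ 3 * IB * (c * Z) * (3 * Z * L2) := by
    have := Real.le_sqrt' (x := √72 * a * (c * Z)) (y := 3 * IB * (c * Z) * (3 * Z * L2))
    have h3 := pow_le_pow_left₀ (by positivity) hfin 2
    rwa [Real.sq_sqrt (by positivity)] at h3
  have h72 : √72 ^ 2 = (72 : ℝ) := Real.sq_sqrt (by norm_num)
  have hCB : CB (n + 1) R = IB / (8 * c) := by
    unfold CB
    rw [integral_div, ← hIB, hcdef, mul_assoc]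
  rw [hCB]
  have hcZ : 0 < c * Z ^ 2 := by positivity
  have h5 : 72 * a ^ 2 * c ≤ 9 * IB * L2 := by
    have : c * Z ^ 2 * (72 * a ^ 2 * c) ≤ c * Z ^ 2 * (9 * IB * L2) := by
      calc c * Z ^ 2 * (72 * a ^ 2 * c) = (√72 * a * (c * Z)) ^ 2 := by
            rw [mul_pow, mul_pow, h72]; ring
        _ ≤ _ := hsq
        _ = _ := by ring
    exact le_of_mul_le_mul_left this hcZ
  rw [div_mul_eq_mul_div, le_div_iff₀ (by positivity)]
  nlinarith

end Pool.Agent.Lib.MP_d3943d_an
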