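import Pool.Agent.Lib.MP_d3943d_an.Graph

set_option autoImplicit false

/-!
Plane sections in two parametrisations.
-/

namespace Pool.Agent.Lib.MP_d3943d_an

open MeasureTheory Set
open scoped ENNReal ContDiff Pointwise

private theorem lint_scale {s : ℝ} (hs : 0 < s) {H : ℝ → ℝ≥0∞} (hH : Measurable H) :
    ENNReal.ofReal s * ∫⁻ t : ℝ, H (s * t) = ∫⁻ t, H t := by
  have h1 : ∫⁻ t : ℝ, H (s * t) = ∫⁻ t, H t ∂(Measure.map (s * ·) volume) :=
    (lintegral_map hH (measurable_const_mul s)).symm
  rw [h1, Real.map_volume_mul_left hs.ne', lintegral_smul_measure, smul_eq_mul, ← mul_assoc,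
    ← ENNReal.ofReal_mul hs.le, abs_of_pos (inv_pos.mpr hs), mul_inv_cancel₀ hs.ne',
    ENNReal.ofReal_one, one_mul]

/-- The sections by the planes `⟪n, x⟫ = t` in isometric coordinates. -/
theorem sections_eq (g : E 3 ≃ₗᵢ[ℝ] E 3) (ν : E 2)
    (hg : g (e 0) = (√(1 + ‖ν‖ ^ 2))⁻¹ • ins 1 (-ν)) (Ω : Set (E 3)) (hΩ : MeasurableSet Ω) :
    ∫⁻ t : ℝ, (volume {y : E 2 | g (ins t y) ∈ Ω}) ^ 3
      = ENNReal.ofReal (1 + ‖ν‖ ^ 2) * ∫⁻ c : ℝ, (sec (Ω.indicator fun _ => 1) c ν) ^ 3 := by
  have hpos : 0 < 1 + ‖ν‖ ^ 2 := by positivity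
  set s : ℝ := √(1 + ‖ν‖ ^ 2) with hs
  have hs0 : 0 < s := Real.sqrt_pos.mpr hpos
  have hs2 : s ^ 2 = 1 + ‖ν‖ ^ 2 := Real.sq_sqrt hpos.le
  set f : E 3 → ℝ≥0∞ := Ω.indicator fun _ => 1 with hf
  have hfm : Measurable f := measurable_const.indicator hΩ
  have hgm : Measurable g := g.continuous.measurable
  have hinsm : Measurable fun p : ℝ × E 2 => ins p.1 p.2 := continuous_ins.measurable
  -- the two section functions
  have hV : ∀ t, volume {y : E 2 | g (ins t y) ∈ Ω} = ∫⁻ y : E 2, f (g (ins t y)) := by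
    intro t
    have hm : MeasurableSet {y : E 2 | g (ins t y) ∈ Ω} :=
      (hgm.comp (hinsm.comp measurable_prodMk_left)) hΩ
    rw [← lintegral_indicator_one hm]
    rfl
  have hVm : Measurable fun t : ℝ => ∫⁻ y : E 2, f (g (ins t y)) :=
    Measurable.lintegral_prod_right' (f := fun p : ℝ × E 2 => f (g (ins p.1 p.2)))
      (hfm.comp (hgm.comp hinsm))
  have hcm : Measurable fun p : ℝ × E 2 => ins (p.1 + inner ℝ ν p.2) p.2 := by
    have : Continuous fun p : ℝ × E 2 => ins (p.1 + inner ℝ ν p.2) p.2 :=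
      continuous_ins.comp (by fun_prop : Continuous fun p : ℝ × E 2 => (p.1 + inner ℝ ν p.2, p.2))
    exact this.measurable
  have hSm : Measurable fun c : ℝ => sec f c ν :=
    Measurable.lintegral_prod_right' (f := fun p : ℝ × E 2 => f (ins (p.1 + inner ℝ ν p.2) p.2))
      (hfm.comp hcm)
  have hae : (fun t : ℝ => ∫⁻ y : E 2, f (g (ins t y))) =ᵐ[volume]
      fun t => ENNReal.ofReal s * sec f (s * t) ν := by
    refine ae_eq_of_forall_setLIntegral_eq_of_sigmaFinite hVm
      ((hSm.comp (measurable_const_mul s)).const_mul _) fun A hA _ => ?_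
    set k : ℝ → ℝ≥0∞ := A.indicator fun _ => 1 with hk
    have hkm : Measurable k := measurable_const.indicator hA
    have hkA : ∀ F : ℝ → ℝ≥0∞, ∫⁻ t in A, F t = ∫⁻ t, k t * F t := by
      intro F
      rw [← lintegral_indicator hA]
      refine lintegral_congr fun t => ?_
      by_cases ht : t ∈ A
      · simp [hk, ht]
      · simp [hk, ht]
    rw [hkA, hkA]
    set F : E 3 → ℝ≥0∞ := fun x => k ((g.symm x) 0) * f x with hF
    have hFm : Measurable F := by
      refine Measurable.mul (hkm.comp ?_) hfm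
      exact (measurable_pi_apply (0 : Fin 3)).comp
        ((WithLp.measurable_ofLp 2 _).comp g.symm.continuous.measurable)
    have h1 : ∫⁻ t, k t * ∫⁻ y : E 2, f (g (ins t y)) = ∫⁻ x, F x := by
      have e1 : ∀ t : ℝ, k t * ∫⁻ y : E 2, f (g (ins t y)) =
          ∫⁻ y : E 2, F (g (ins t y)) := by
        intro t
        have hm : Measurable fun y : E 2 => f (g (ins t y)) :=
          (hfm.comp (hgm.comp hinsm)).comp measurable_prodMk_left
        rw [← lintegral_const_mul _ hm]
        refine lintegral_congr fun y => ?_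
        simp only [hF, LinearIsometryEquiv.symm_apply_apply, ins_zero]
      simp only [e1]
      have hm2 : AEMeasurable (Function.uncurry fun (t : ℝ) (y : E 2) => F (g (ins t y)))
          ((volume : Measure ℝ).prod (volume : Measure (E 2))) :=
        (hFm.comp (hgm.comp hinsm)).aemeasurable
      rw [lintegral_lintegral_swap hm2, ← lintegral_ins (fun x => F (g x)) (hFm.comp hgm),
        lintegral_isom]
    have hinner : ∀ x : E 3, (g.symm x) 0 = inner ℝ (g (e 0)) x := by
      intro x
      have h3 : inner ℝ (g (e 0)) x = inner ℝ (e 0) (g.symm x) := by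
        conv_lhs => rw [← g.apply_symm_apply x]
        exact g.inner_map_map _ _
      rw [h3]
      unfold e
      rw [EuclideanSpace.inner_single_left]
      simp
    have h2 : ∫⁻ x, F x = ∫⁻ c : ℝ, k (s⁻¹ * c) * sec f c ν := by
      rw [lintegral_ins F hFm]
      have e1 : ∀ y : E 2, ∫⁻ a : ℝ, F (ins a y) = ∫⁻ c : ℝ, F (ins (c + inner ℝ ν y) y) :=
        fun y => (lintegral_add_right_eq_self (fun a : ℝ => F (ins a y)) (inner ℝ ν y)).symm
      simp only [e1]
      have hm2 : AEMeasurable
          (Function.uncurry fun (c : ℝ) (y : E 2) => F (ins (c + inner ℝ ν y) y))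
          ((volume : Measure ℝ).prod (volume : Measure (E 2))) := (hFm.comp hcm).aemeasurable
      rw [← lintegral_lintegral_swap hm2]
      refine lintegral_congr fun c => ?_
      unfold sec
      have hm : Measurable fun y : E 2 => f (ins (c + inner ℝ ν y) y) :=
        (hfm.comp hcm).comp measurable_prodMk_left
      rw [← lintegral_const_mul _ hm]
      refine lintegral_congr fun y => ?_
      simp only [hF]
      rw [hinner, hg, real_inner_smul_left, inner_ins]
      congr 2
      rw [inner_neg_left]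
      ring
    have h3 : ∫⁻ t, k t * (ENNReal.ofReal s * sec f (s * t) ν) =
        ∫⁻ c : ℝ, k (s⁻¹ * c) * sec f c ν := by
      have h4 := lint_scale hs0 (H := fun c => k (s⁻¹ * c) * sec f c ν)
        ((hkm.comp (measurable_const_mul _)).mul hSm)
      rw [← h4, ← lintegral_const_mul]
      · refine lintegral_congr fun t => ?_
        rw [inv_mul_cancel_left₀ hs0.ne']
        ring
      · exact ((hkm.comp (measurable_const_mul _)).mul hSm).comp (measurable_const_mul s)
    rw [h1, h2, h3]
  simp only [hV]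
  have h5 : ∫⁻ t : ℝ, (∫⁻ y : E 2, f (g (ins t y))) ^ 3 =
      ∫⁻ t : ℝ, (ENNReal.ofReal s * sec f (s * t) ν) ^ 3 :=
    lintegral_congr_ae (hae.mono fun t ht => congrArg (· ^ 3) ht)
  have h6 := lint_scale hs0 (H := fun c => sec f c ν ^ 3) (hSm.pow_const 3)
  rw [h5, ← h6, ← hs2]
  simp only [mul_pow]
  have h7 : Measurable fun t : ℝ => sec f (s * t) ν ^ 3 :=
    (hSm.comp (measurable_const_mul s)).pow_const 3
  rw [lintegral_const_mul _ h7, ← mul_assoc, ENNReal.ofReal_pow hs0.le]
  congr 1

end Pool.Agent.Lib.MP_d3943d_an
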