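import Pool.Agent.Lib.MP_d3943d_an.PlateTwo
import Pool.Agent.Lib.MP_d3943d_an.SectionsEq

set_option autoImplicit false

/-!
Slicing by parallel planes in `E 3`.
-/

namespace Pool.Agent.Lib.MP_d3943d_an

open MeasureTheory Set
open scoped ENNReal ContDiff Pointwise

/-- The linear inclusion `y ↦ ins 0 y`. -/
noncomputable def ST_L (n : ℕ) : E n →L[ℝ] E (n + 1) :=
  LinearMap.toContinuousLinearMap
    { toFun := fun y => ins 0 y
      map_add' := fun y y' => by rw [← ins_add, add_zero]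
      map_smul' := fun r y => by rw [← ins_smul, mul_zero]; rfl }

theorem ST_L_apply {n : ℕ} (y : E n) : ST_L n y = ins 0 y := rfl

theorem ST_ins {n : ℕ} (t : ℝ) (y : E n) : ins t y = ins t 0 + ST_L n y := by
  rw [ST_L_apply, ← ins_add, add_zero, zero_add]

theorem ST_ins_e {n : ℕ} (i : Fin n) : ins 0 (e i) = e i.succ := by
  ext j
  refine Fin.cases ?_ (fun k => ?_) j
  · simp [e]
  · simp [e, Fin.succ_inj]

theorem ST_D2 {n : ℕ} {φ : E (n + 1) → ℝ} (hφ : ContDiff ℝ 2 φ) (t : ℝ) (y v w : E n) :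
    D2 (fun y => φ (ins t y)) y v w = D2 φ (ins t y) (ins 0 v) (ins 0 w) := by
  have hg : ∀ y : E n, HasFDerivAt (fun y => ins t y) (ST_L n) y := by
    intro y
    have h := ((ST_L n).hasFDerivAt (x := y)).const_add (ins t 0)
    have e1 : (fun y : E n => ins t y) = fun y => ins t 0 + ST_L n y := by
      funext y; exact ST_ins t y
    rw [e1]
    exact h
  have h1 : fderiv ℝ (fun y : E n => φ (ins t y)) =
      fun y => (fderiv ℝ φ (ins t y)).comp (ST_L n) := by
    funext y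
    have hd : HasFDerivAt φ (fderiv ℝ φ (ins t y)) (ins t y) :=
      (hφ.differentiable (by norm_num) _).hasFDerivAt
    exact (hd.comp y (hg y)).fderiv
  have h2 : ContDiff ℝ 1 (fderiv ℝ φ) := hφ.fderiv_right (by norm_num)
  have hd : HasFDerivAt (fderiv ℝ φ) (fderiv ℝ (fderiv ℝ φ) (ins t y)) (ins t y) :=
    (h2.differentiable one_ne_zero _).hasFDerivAt
  have h3 : HasFDerivAt (fun y => fderiv ℝ φ (ins t y))
      ((fderiv ℝ (fderiv ℝ φ) (ins t y)).comp (ST_L n)) y := hd.comp y (hg y)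
  have h4 := h3.clm_comp (hasFDerivAt_const (ST_L n) y)
  unfold D2
  rw [h1, h4.fderiv]
  simp
  rfl

theorem ST_Lap {n : ℕ} {φ : E (n + 1) → ℝ} (hφ : ContDiff ℝ 2 φ) (t : ℝ) (y : E n) :
    Lap (fun y => φ (ins t y)) y = Lap φ (ins t y) - D2 φ (ins t y) (e 0) (e 0) := by
  unfold Lap
  rw [Fin.sum_univ_succ]
  simp only [ST_D2 hφ, ST_ins_e]
  ring

theorem ST_isTest {n : ℕ} {φ : E (n + 1) → ℝ} {Ω : Set (E (n + 1))} (hφ : IsTest φ Ω) (t : ℝ) :
    IsTest (fun y : E n => φ (ins t y)) {y | ins t y ∈ Ω} := by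
  have hc : Continuous (fun y : E n => ins t y) :=
    continuous_ins.comp (continuous_const.prodMk continuous_id)
  have hcd : ContDiff ℝ ∞ (fun y : E n => ins t y) := by
    have e1 : (fun y : E n => ins t y) = fun y => ins t 0 + ST_L n y := by
      funext y; exact ST_ins t y
    rw [e1]
    exact contDiff_const.add (ST_L n).contDiff
  have hK : IsCompact (tl '' tsupport φ) := hφ.compact.isCompact.image continuous_tl
  have hsub : Function.support (fun y : E n => φ (ins t y)) ⊆ tl '' tsupport φ := by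
    intro y hy
    exact ⟨ins t y, subset_tsupport _ hy, tl_ins t y⟩
  refine ⟨hφ.smooth.comp hcd, HasCompactSupport.of_support_subset_isCompact hK hsub, ?_⟩
  have h1 : tsupport (fun y : E n => φ (ins t y)) ⊆ (fun y : E n => ins t y) ⁻¹' tsupport φ := by
    refine closure_minimal (fun y hy => subset_tsupport _ hy) ((isClosed_tsupport φ).preimage hc)
  exact h1.trans fun y hy => hφ.supp hy

/-- Tonelli in the order `t, y`. -/
theorem ST_lintegral {n : ℕ} (f : E (n + 1) → ℝ≥0∞) (hf : Measurable f) :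
    ∫⁻ x, f x = ∫⁻ t : ℝ, ∫⁻ y : E n, f (ins t y) := by
  rw [← (mp_ins n).lintegral_comp_emb (insEquiv n).measurableEmbedding f,
    Measure.volume_eq_prod, lintegral_prod]
  · simp
  · exact (hf.comp (insEquiv n).measurable).aemeasurable

theorem ST_core (Ω : Set (E 3)) (hΩ : IsOpen Ω) (hb : Bornology.IsBounded Ω)
    (φ : E 3 → ℝ) (hφ : IsTest φ Ω) :
    ENNReal.ofReal (192 * Real.pi ^ 2 * (∫ x, |φ x|) ^ 2)
      ≤ (∫⁻ t : ℝ, (volume {y : E 2 | ins t y ∈ Ω}) ^ 3)
        * ENNReal.ofReal (∫ x, (Lap φ x - D2 φ x (e 0) (e 0)) ^ 2) := by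
  have hφ2 : ContDiff ℝ 2 φ := hφ.smooth.of_le two_le_inf
  set F : E 3 → ℝ := fun x => Lap φ x - D2 φ x (e 0) (e 0) with hF
  have hFc : Continuous F := (continuous_Lap hφ2).sub (continuous_D2 hφ2 _ _)
  have hFs : HasCompactSupport F :=
    (hasCompactSupport_Lap hφ.compact).sub (hasCompactSupport_D2 hφ.compact _ _)
  set V : ℝ → ℝ≥0∞ := fun t => volume {y : E 2 | ins t y ∈ Ω} with hV
  set a : ℝ → ℝ≥0∞ := fun t => ∫⁻ y : E 2, ENNReal.ofReal |φ (ins t y)| with ha
  set b : ℝ → ℝ≥0∞ := fun t => ∫⁻ y : E 2, ENNReal.ofReal (F (ins t y) ^ 2) with hb'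
  have hVm : Measurable V := by
    have hm : MeasurableSet {p : ℝ × E 2 | ins p.1 p.2 ∈ Ω} :=
      continuous_ins.measurable hΩ.measurableSet
    exact measurable_measure_prodMk_left hm
  have ham : Measurable a := by
    refine Measurable.lintegral_prod_right' (f := fun p : ℝ × E 2 =>
      ENNReal.ofReal |φ (ins p.1 p.2)|) ?_
    exact ((hφ.smooth.continuous.comp continuous_ins).abs).measurable.ennreal_ofReal
  have hbm : Measurable b := by
    refine Measurable.lintegral_prod_right' (f := fun p : ℝ × E 2 =>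
      ENNReal.ofReal (F (ins p.1 p.2) ^ 2)) ?_
    exact ((hFc.comp continuous_ins).pow 2).measurable.ennreal_ofReal
  have hVfin : ∀ t, V t ≠ ⊤ := by
    intro t
    have h1 : {y : E 2 | ins t y ∈ Ω} ⊆ tl '' Ω := fun y hy => ⟨ins t y, hy, tl_ins t y⟩
    have h2 : Bornology.IsBounded (tl '' Ω) := by
      have h3 : IsCompact (tl '' (closure Ω)) := (hb.isCompact_closure).image continuous_tl
      exact h3.isBounded.subset (Set.image_mono subset_closure)
    exact ((h2.subset h1).measure_lt_top).ne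
  have hpt : ∀ t, ENNReal.ofReal (192 * Real.pi ^ 2) * (a t) ^ 2 ≤ (V t) ^ 3 * b t := by
    intro t
    have hT := ST_isTest hφ t
    have hopen : IsOpen {y : E 2 | ins t y ∈ Ω} :=
      hΩ.preimage (continuous_ins.comp (continuous_const.prodMk continuous_id))
    have hbdd : Bornology.IsBounded {y : E 2 | ins t y ∈ Ω} := by
      have h3 : IsCompact (tl '' (closure Ω)) := (hb.isCompact_closure).image continuous_tl
      exact h3.isBounded.subset fun y hy => ⟨ins t y, subset_closure hy, tl_ins t y⟩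
    have h := plate_two _ hopen hbdd _ hT
    simp only [ST_Lap hφ2] at h
    have hint1 : Integrable (fun y : E 2 => |φ (ins t y)|) :=
      (hT.smooth.continuous.integrable_of_hasCompactSupport hT.compact).abs
    have ea : a t = ENNReal.ofReal (∫ y : E 2, |φ (ins t y)|) := by
      rw [ofReal_integral_eq_lintegral_ofReal hint1 (Filter.Eventually.of_forall fun _ =>
        abs_nonneg _)]
    have hint2 : Integrable (fun y : E 2 => F (ins t y) ^ 2) := by
      have hc : Continuous (fun y : E 2 => F (ins t y) ^ 2) :=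
        (hFc.comp (continuous_ins.comp (continuous_const.prodMk continuous_id))).pow 2
      refine hc.integrable_of_hasCompactSupport ?_
      refine HasCompactSupport.intro (K := tl '' tsupport F)
        (hFs.isCompact.image continuous_tl) fun y hy => ?_
      have : F (ins t y) = 0 := by
        by_contra hne
        exact hy ⟨ins t y, subset_tsupport _ hne, tl_ins t y⟩
      rw [this]; norm_num
    have eb : b t = ENNReal.ofReal (∫ y : E 2, F (ins t y) ^ 2) := by
      rw [ofReal_integral_eq_lintegral_ofReal hint2 (Filter.Eventually.of_forall fun _ =>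
        sq_nonneg _)]
    have eV : V t ^ 3 = ENNReal.ofReal ((V t).toReal ^ 3) := by
      rw [ENNReal.ofReal_pow ENNReal.toReal_nonneg, ENNReal.ofReal_toReal (hVfin t)]
    rw [ea, eb, eV, ← ENNReal.ofReal_pow (integral_nonneg fun _ => abs_nonneg _),
      ← ENNReal.ofReal_mul (by positivity), ← ENNReal.ofReal_mul (by positivity)]
    exact ENNReal.ofReal_le_ofReal h
  -- square roots
  obtain ⟨c0, hc0⟩ : ∃ c0 : ℝ, c0 = √(192 * Real.pi ^ 2) := ⟨_, rfl⟩
  have hc0p : 0 ≤ c0 := by rw [hc0]; positivity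
  have hpt' : ∀ t, ENNReal.ofReal c0 * a t ≤
      (V t) ^ (3 / 2 : ℝ) * (b t) ^ (1 / 2 : ℝ) := by
    intro t
    have h := ENNReal.rpow_le_rpow (hpt t) (by norm_num : (0 : ℝ) ≤ 1 / 2)
    rw [ENNReal.mul_rpow_of_nonneg _ _ (by norm_num), ENNReal.mul_rpow_of_nonneg _ _ (by norm_num),
      ← ENNReal.rpow_natCast, ← ENNReal.rpow_natCast, ← ENNReal.rpow_mul, ← ENNReal.rpow_mul,
      ENNReal.ofReal_rpow_of_nonneg (by positivity) (by norm_num), ← Real.sqrt_eq_rpow,
      ← hc0] at h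
    norm_num at h
    norm_num
    exact h
  have hCS := ENNReal.lintegral_mul_le_Lp_mul_Lq (volume : Measure ℝ)
    (Real.HolderConjugate.two_two) (f := fun t => (V t) ^ (3 / 2 : ℝ))
    (g := fun t => (b t) ^ (1 / 2 : ℝ)) (hVm.pow_const _).aemeasurable
    (hbm.pow_const _).aemeasurable
  have hI1 : ∀ t, ((V t) ^ (3 / 2 : ℝ)) ^ (2 : ℝ) = (V t) ^ 3 := by
    intro t
    rw [← ENNReal.rpow_mul, ← ENNReal.rpow_natCast]; norm_num
  have hI2 : ∀ t, ((b t) ^ (1 / 2 : ℝ)) ^ (2 : ℝ) = b t := by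
    intro t
    rw [← ENNReal.rpow_mul]; norm_num
  simp only [hI1, hI2] at hCS
  have htot : ENNReal.ofReal c0 * ∫⁻ t, a t ≤
      (∫⁻ t, (V t) ^ 3) ^ (1 / 2 : ℝ) * (∫⁻ t, b t) ^ (1 / 2 : ℝ) := by
    rw [← lintegral_const_mul _ ham]
    exact (lintegral_mono hpt').trans hCS
  have hsq := ENNReal.rpow_le_rpow htot (by norm_num : (0 : ℝ) ≤ 2)
  rw [ENNReal.mul_rpow_of_nonneg _ _ (by norm_num), ENNReal.mul_rpow_of_nonneg _ _ (by norm_num),
    ← ENNReal.rpow_mul, ← ENNReal.rpow_mul] at hsq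
  norm_num at hsq
  have hA : ∫⁻ t, a t = ENNReal.ofReal (∫ x, |φ x|) := by
    rw [ofReal_integral_eq_lintegral_ofReal
      ((hφ.smooth.continuous.integrable_of_hasCompactSupport hφ.compact).abs)
      (Filter.Eventually.of_forall fun _ => abs_nonneg _),
      ST_lintegral (fun x => ENNReal.ofReal |φ x|) (hφ.smooth.continuous.abs.measurable.ennreal_ofReal)]
  have hB : ∫⁻ t, b t = ENNReal.ofReal (∫ x, F x ^ 2) := by
    have hi : Integrable (fun x => F x ^ 2) := by
      refine (hFc.pow 2).integrable_of_hasCompactSupport ?_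
      refine HasCompactSupport.intro hFs.isCompact fun y hy => ?_
      rw [Pi.pow_apply, image_eq_zero_of_notMem_tsupport hy]; norm_num
    rw [ofReal_integral_eq_lintegral_ofReal hi (Filter.Eventually.of_forall fun _ => sq_nonneg _),
      ST_lintegral (fun x => ENNReal.ofReal (F x ^ 2)) ((hFc.pow 2).measurable.ennreal_ofReal)]
  rw [hA, hB] at hsq
  refine le_trans (le_of_eq ?_) hsq
  rw [← ENNReal.ofReal_pow hc0p, ← ENNReal.ofReal_pow
    (integral_nonneg fun _ => abs_nonneg _), ← ENNReal.ofReal_mul (by positivity)]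
  congr 1
  rw [hc0, Real.sq_sqrt (by positivity)]

theorem slice_three (Ω : Set (E 3)) (hΩ : IsOpen Ω) (hb : Bornology.IsBounded Ω)
    (φ : E 3 → ℝ) (hφ : IsTest φ Ω) (ν : E 2) :
    ENNReal.ofReal (192 * Real.pi ^ 2 * (∫ x, |φ x|) ^ 2)
      ≤ (∫⁻ c : ℝ, (sec (Ω.indicator fun _ => 1) c ν) ^ 3)
        * ENNReal.ofReal ((1 + ‖ν‖ ^ 2)⁻¹
          * ∫ x, ((1 + ‖ν‖ ^ 2) * Lap φ x - D2 φ x (ins 1 (-ν)) (ins 1 (-ν))) ^ 2) := by
  have hφ2 : ContDiff ℝ 2 φ := hφ.smooth.of_le two_le_inf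
  set q : ℝ := 1 + ‖ν‖ ^ 2 with hq
  have hq0 : 0 < q := by positivity
  set s : ℝ := √q with hs
  have hs0 : 0 < s := Real.sqrt_pos.2 hq0
  have hs2 : s ^ 2 = q := Real.sq_sqrt hq0.le
  obtain ⟨g, hg⟩ := exists_isometry (s⁻¹ • ins 1 (-ν) : E 3) (by
    rw [norm_smul, Real.norm_eq_abs, abs_of_pos (inv_pos.2 hs0)]
    have h1 : ‖(ins 1 (-ν) : E 3)‖ ^ 2 = q := by rw [norm_ins_sq, norm_neg]; ring
    have h2 : ‖(ins 1 (-ν) : E 3)‖ = s := by
      rw [hs, ← h1, Real.sqrt_sq (norm_nonneg _)]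
    rw [h2, inv_mul_cancel₀ hs0.ne'])
  have hgc : Continuous g := g.continuous
  have hT : IsTest (fun x => φ (g x)) (g ⁻¹' Ω) := by
    refine ⟨hφ.smooth.comp g.contDiff, ?_, ?_⟩
    · exact hφ.compact.comp_homeomorph g.toHomeomorph
    · have h1 : tsupport (fun x => φ (g x)) ⊆ g ⁻¹' tsupport φ :=
        closure_minimal (fun y hy => subset_tsupport _ hy) ((isClosed_tsupport φ).preimage hgc)
      exact h1.trans fun y hy => hφ.supp hy
  have hbd : Bornology.IsBounded (g ⁻¹' Ω) := by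
    have : g ⁻¹' Ω = g.symm '' Ω := by
      ext x
      simp only [Set.mem_preimage, Set.mem_image]
      constructor
      · intro hx; exact ⟨g x, hx, g.symm_apply_apply x⟩
      · rintro ⟨y, hy, rfl⟩; rwa [g.apply_symm_apply]
    rw [this]
    exact g.symm.lipschitz.isBounded_image hb
  have hcore := ST_core (g ⁻¹' Ω) (hΩ.preimage hgc) hbd (fun x => φ (g x)) hT
  have e1 : ∫ x, |φ (g x)| = ∫ x, |φ x| := integral_isom g fun x => |φ x|
  have e2 : ∫ x, (Lap (fun x => φ (g x)) x - D2 (fun x => φ (g x)) x (e 0) (e 0)) ^ 2 =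
      ∫ x, (Lap φ x - D2 φ x (s⁻¹ • ins 1 (-ν)) (s⁻¹ • ins 1 (-ν))) ^ 2 := by
    rw [← integral_isom g fun x =>
      (Lap φ x - D2 φ x (s⁻¹ • ins 1 (-ν)) (s⁻¹ • ins 1 (-ν))) ^ 2]
    refine integral_congr_ae (Filter.Eventually.of_forall fun x => ?_)
    simp only [Lap_comp hφ2 g, D2_comp hφ2 g, hg]
  rw [e1, e2] at hcore
  have e3 := sections_eq g ν hg Ω hΩ.measurableSet
  have e4 : (∫⁻ t : ℝ, (volume {y : E 2 | ins t y ∈ g ⁻¹' Ω}) ^ 3) =
      ENNReal.ofReal q * ∫⁻ c : ℝ, (sec (Ω.indicator fun _ => 1) c ν) ^ 3 := e3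
  rw [e4] at hcore
  refine hcore.trans (le_of_eq ?_)
  have e5 : ∀ x, D2 φ x (s⁻¹ • ins 1 (-ν)) (s⁻¹ • ins 1 (-ν)) =
      q⁻¹ * D2 φ x (ins 1 (-ν)) (ins 1 (-ν)) := by
    intro x
    unfold D2
    simp only [map_smul, _root_.smul_apply, smul_eq_mul]
    rw [← mul_assoc, ← mul_inv, ← sq, hs2]
  have e6 : ∀ x, (Lap φ x - D2 φ x (s⁻¹ • ins 1 (-ν)) (s⁻¹ • ins 1 (-ν))) ^ 2 =
      (q⁻¹) ^ 2 * (q * Lap φ x - D2 φ x (ins 1 (-ν)) (ins 1 (-ν))) ^ 2 := by
    intro x
    rw [e5 x, ← mul_pow]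
    congr 1
    field_simp
  simp only [e6]
  rw [integral_const_mul, mul_comm (ENNReal.ofReal q), mul_assoc,
    ← ENNReal.ofReal_mul hq0.le]
  congr 2
  field_simp

end Pool.Agent.Lib.MP_d3943d_an
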