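import Pool.Agent.Lib.MP_d3943d_an.Steiner

set_option autoImplicit false

/-!
Functions fixed by all Steiner symmetrisations.
-/

namespace Pool.Agent.Lib.MP_d3943d_an

open MeasureTheory Set
open scoped ENNReal ContDiff Pointwise

theorem radial_of_fixed {n : ℕ} {L ρ : ℝ} {f : E (n + 1) → ℝ} (hf : Adm L ρ f)
    (h : ∀ g : E (n + 1) ≃ₗᵢ[ℝ] E (n + 1), SG g f = f) :
    ∀ x y, ‖x‖ ≤ ‖y‖ → f y ≤ f x := by
  intro x y hxy
  rcases eq_or_ne x y with rfl | hne
  · exact le_rfl
  have hpos : 0 < ‖x - y‖ := norm_pos_iff.2 (sub_ne_zero.2 hne)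
  obtain ⟨g, hg⟩ := exists_isometry (‖x - y‖⁻¹ • (x - y)) (by
    rw [norm_smul, norm_inv, norm_norm, inv_mul_cancel₀ hpos.ne'])
  have hF : Adm L ρ (fun z => f (g z)) := hf.comp g
  have hfix : ∀ z, St (fun z => f (g z)) z = f (g z) := by
    intro z
    have h1 := congrFun (h g) (g z)
    unfold SG at h1
    rw [g.symm_apply_apply] at h1
    exact h1
  have hmono : ∀ (s s' : ℝ) (u : E n), |s| ≤ |s'| → f (g (ins s' u)) ≤ f (g (ins s u)) := by
    intro s s' u hss
    by_contra hcon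
    rw [not_le] at hcon
    have h1 := (lt_St_iff hF (hf.nonneg (g (ins s u))) s' u).1 (by rw [hfix]; exact hcon)
    have h2 : ENNReal.ofReal (2 * |s|) < volume {t | f (g (ins s u)) < f (g (ins t u))} :=
      lt_of_le_of_lt (ENNReal.ofReal_le_ofReal (by linarith)) h1
    have h3 := (lt_St_iff hF (hf.nonneg (g (ins s u))) s u).2 h2
    rw [hfix] at h3
    exact lt_irrefl _ h3
  have hdiff : g.symm x - g.symm y = ‖x - y‖ • e 0 := by
    rw [← map_sub, LinearIsometryEquiv.symm_apply_eq, map_smul, hg, smul_smul,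
      mul_inv_cancel₀ hpos.ne', one_smul]
  have htl : tl (g.symm x) = tl (g.symm y) := by
    ext i
    have h1 := congrArg (fun v : E (n + 1) => v i.succ) hdiff
    simp only [PiLp.sub_apply, PiLp.smul_apply, e, PiLp.single_apply,
      smul_eq_mul] at h1
    rw [if_neg (Fin.succ_ne_zero i), mul_zero, sub_eq_zero] at h1
    simpa using h1
  have hn : |(g.symm x) 0| ≤ |(g.symm y) 0| := by
    have h1 : ‖g.symm x‖ ^ 2 ≤ ‖g.symm y‖ ^ 2 := by
      rw [LinearIsometryEquiv.norm_map, LinearIsometryEquiv.norm_map]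
      exact pow_le_pow_left₀ (norm_nonneg _) hxy 2
    rw [← ins_tl (g.symm x), ← ins_tl (g.symm y), norm_ins_sq, norm_ins_sq, htl] at h1
    exact sq_le_sq.1 (by linarith)
  have h1 := hmono ((g.symm x) 0) ((g.symm y) 0) (tl (g.symm y)) hn
  rw [ins_tl, ← htl, ins_tl, g.apply_symm_apply, g.apply_symm_apply] at h1
  exact h1

end Pool.Agent.Lib.MP_d3943d_an
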