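import Pool.Agent.Lib.MP_d3943d_an.Steiner

set_option autoImplicit false

/-!
Steiner symmetrisation: contraction and mass.
-/

namespace Pool.Agent.Lib.MP_d3943d_an

open MeasureTheory Set
open scoped ENNReal ContDiff Pointwise

private theorem St_le_add {n : ℕ} {L ρ : ℝ} {f h : E (n + 1) → ℝ} (hf : Adm L ρ f)
    (hh : Adm L ρ h) {ε : ℝ} (hε0 : 0 ≤ ε) (hε : ∀ x, f x ≤ h x + ε) (x : E (n + 1)) :
    St f x ≤ St h x + ε := by
  rw [← ins_tl x]
  set s := x 0
  set y := tl x
  by_contra hlt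
  rw [not_le] at hlt
  have h0 : 0 ≤ St h (ins s y) := hh.st.nonneg _
  have h1 := (lt_St_iff hf (add_nonneg h0 hε0) s y).mp hlt
  have h2 : volume {t | St h (ins s y) + ε < f (ins t y)} ≤
      volume {t | St h (ins s y) < h (ins t y)} := by
    refine measure_mono fun t ht => ?_
    have h3 := hε (ins t y)
    have h4 : St h (ins s y) + ε < f (ins t y) := ht
    show St h (ins s y) < h (ins t y)
    linarith
  have h5 := (lt_St_iff hh h0 s y).mpr (h1.trans_le h2)
  exact lt_irrefl _ h5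

theorem SG_sub_le {n : ℕ} {L ρ : ℝ} {f h : E (n + 1) → ℝ} (hf : Adm L ρ f) (hh : Adm L ρ h)
    (g : E (n + 1) ≃ₗᵢ[ℝ] E (n + 1)) (ε : ℝ) (hε : ∀ x, |f x - h x| ≤ ε) (x : E (n + 1)) :
    |SG g f x - SG g h x| ≤ ε := by
  have hε0 : 0 ≤ ε := (abs_nonneg _).trans (hε 0)
  have h1 := St_le_add (hf.comp g) (hh.comp g) hε0
    (fun x => by linarith [(abs_le.mp (hε (g x))).2]) (g.symm x)
  have h2 := St_le_add (hh.comp g) (hf.comp g) hε0
    (fun x => by linarith [(abs_le.mp (hε (g x))).1]) (g.symm x)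
  unfold SG
  rw [abs_le]
  constructor <;> linarith

private theorem mass_lemma {φ ψ : ℝ → ℝ} (hφ : Continuous φ) (hφc : HasCompactSupport φ)
    (hφ0 : ∀ s, 0 ≤ φ s) (hψ : Continuous ψ) (hψ0 : ∀ s, 0 ≤ ψ s)
    (h : ∀ c, 0 ≤ c → ∀ s, c < ψ s ↔ ENNReal.ofReal (2 * |s|) < volume {t | c < φ t}) :
    ∫ s, ψ s = ∫ s, φ s := by
  have hVfin : ∀ c, 0 ≤ c → volume {t | c < φ t} ≠ ⊤ := by
    intro c hc
    refine ((measure_mono fun t ht => ?_).trans_lt hφc.measure_lt_top).ne
    exact subset_tsupport φ (ne_of_gt (hc.trans_lt ht))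
  have hvψ : ∀ c, 0 ≤ c → volume {s | c < ψ s} = volume {t | c < φ t} := by
    intro c hc
    have hset : {s | c < ψ s} = Ioo (-((volume {t | c < φ t}).toReal / 2))
        ((volume {t | c < φ t}).toReal / 2) := by
      ext s
      rw [mem_setOf_eq, h c hc s, ENNReal.ofReal_lt_iff_lt_toReal (by positivity) (hVfin c hc),
        mem_Ioo, ← abs_lt]
      constructor <;> intro h1 <;> linarith
    rw [hset, Real.volume_Ioo, sub_neg_eq_add, add_halves, ENNReal.ofReal_toReal (hVfin c hc)]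
  rw [integral_eq_lintegral_of_nonneg_ae (Filter.Eventually.of_forall hψ0)
    hψ.aestronglyMeasurable, integral_eq_lintegral_of_nonneg_ae (Filter.Eventually.of_forall hφ0)
    hφ.aestronglyMeasurable, lintegral_eq_lintegral_meas_lt _ (Filter.Eventually.of_forall hψ0)
    hψ.measurable.aemeasurable, lintegral_eq_lintegral_meas_lt _
    (Filter.Eventually.of_forall hφ0) hφ.measurable.aemeasurable]
  congr 1
  exact setLIntegral_congr_fun measurableSet_Ioi fun c hc => hvψ c (le_of_lt hc)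

theorem integral_SG {n : ℕ} {L ρ : ℝ} {f : E (n + 1) → ℝ} (hf : Adm L ρ f)
    (g : E (n + 1) ≃ₗᵢ[ℝ] E (n + 1)) : ∫ x, SG g f x = ∫ x, f x := by
  have hfg := hf.comp g
  have hst := hfg.st
  unfold SG
  rw [integral_isom g.symm (St fun y => f (g y)), ← integral_isom g f,
    integral_ins _ (hst.continuous.integrable_of_hasCompactSupport hst.hasCompactSupport),
    integral_ins _ (hfg.continuous.integrable_of_hasCompactSupport hfg.hasCompactSupport)]
  refine integral_congr_ae (Filter.Eventually.of_forall fun y => ?_)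
  obtain ⟨h1, h2⟩ := hfg.sec y
  obtain ⟨h3, h4⟩ := hst.sec y
  exact mass_lemma h1 h2 (fun s => hfg.nonneg _) h3 (fun s => hst.nonneg _)
    (fun c hc s => lt_St_iff hfg hc s y)

end Pool.Agent.Lib.MP_d3943d_an
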