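import Pool.Agent.Lib.MP_d3943d_an.Strict
import Pool.Agent.Lib.MP_d3943d_an.SteinerB
import Pool.Agent.Lib.MP_d3943d_an.RadialFixed

set_option autoImplicit false

/-!
Existence of a radial competitor.
-/

namespace Pool.Agent.Lib.MP_d3943d_an

open MeasureTheory Set
open scoped ENNReal ContDiff Pointwise BoundedContinuousFunction

/-- the ball carrying the supports -/
abbrev radial_D (N : ℕ) (ρ : ℝ) := Metric.closedBall (0 : E N) ρ

open Classical in
/-- extension by zero -/
noncomputable def radial_ext {N : ℕ} {ρ : ℝ} (F : radial_D N ρ →ᵇ ℝ) (x : E N) : ℝ :=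
  if h : x ∈ radial_D N ρ then F ⟨x, h⟩ else 0

theorem radial_ext_dist {N : ℕ} {ρ : ℝ} (F G : radial_D N ρ →ᵇ ℝ) (x : E N) :
    |radial_ext F x - radial_ext G x| ≤ dist F G := by
  unfold radial_ext
  by_cases h : x ∈ radial_D N ρ
  · rw [dif_pos h, dif_pos h, ← Real.dist_eq]
    exact BoundedContinuousFunction.dist_coe_le_dist (f := F) (g := G) ⟨x, h⟩
  · rw [dif_neg h, dif_neg h]
    simp

/-- restriction to the ball -/
noncomputable def radial_res {N : ℕ} {L ρ : ℝ} {f : E N → ℝ} (hf : Adm L ρ f) :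
    radial_D N ρ →ᵇ ℝ :=
  BoundedContinuousFunction.mkOfCompact ⟨fun x => f x, hf.continuous.comp continuous_subtype_val⟩

theorem radial_ext_res {N : ℕ} {L ρ : ℝ} {f : E N → ℝ} (hf : Adm L ρ f) :
    radial_ext (radial_res hf) = f := by
  funext x
  unfold radial_ext
  by_cases h : x ∈ radial_D N ρ
  · rw [dif_pos h]
    rfl
  · rw [dif_neg h]
    rw [mem_closedBall_zero_iff, not_le] at h
    exact (hf.supp x h.le).symm

theorem radial_adm_closed {N : ℕ} {L ρ : ℝ} (F : radial_D N ρ →ᵇ ℝ)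
    (h : ∀ ε > 0, ∃ G : radial_D N ρ →ᵇ ℝ, Adm L ρ (radial_ext G) ∧ dist F G < ε) :
    Adm L ρ (radial_ext F) where
  lip x y := by
    refine le_of_forall_pos_le_add fun ε hε => ?_
    obtain ⟨G, hG, hd⟩ := h (ε / 2) (by positivity)
    have h1 := abs_le.1 ((radial_ext_dist F G x).trans hd.le)
    have h2 := abs_le.1 ((radial_ext_dist F G y).trans hd.le)
    have h3 := abs_le.1 (hG.lip x y)
    rw [abs_le]
    constructor <;> linarith [h1.1, h1.2, h2.1, h2.2, h3.1, h3.2]
  nonneg x := by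
    refine le_of_forall_pos_le_add fun ε hε => ?_
    obtain ⟨G, hG, hd⟩ := h ε hε
    have h1 := abs_le.1 ((radial_ext_dist F G x).trans hd.le)
    linarith [h1.1, h1.2, hG.nonneg x]
  le_one x := by
    refine le_of_forall_pos_le_add fun ε hε => ?_
    obtain ⟨G, hG, hd⟩ := h ε hε
    have h1 := abs_le.1 ((radial_ext_dist F G x).trans hd.le)
    linarith [h1.1, h1.2, hG.le_one x]
  supp x hx := by
    apply le_antisymm
    · refine le_of_forall_pos_le_add fun ε hε => ?_
      obtain ⟨G, hG, hd⟩ := h ε hε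
      have h1 := abs_le.1 ((radial_ext_dist F G x).trans hd.le)
      linarith [h1.1, h1.2, hG.supp x hx]
    · refine le_of_forall_pos_le_add fun ε hε => ?_
      obtain ⟨G, hG, hd⟩ := h ε hε
      have h1 := abs_le.1 ((radial_ext_dist F G x).trans hd.le)
      linarith [h1.1, h1.2, hG.supp x hx]

theorem radial_int_lip {N : ℕ} {L ρ : ℝ} {f h : E N → ℝ} (hf : Adm L ρ f) (hh : Adm L ρ h)
    {ε : ℝ} (hε : ∀ x, |f x - h x| ≤ ε) :
    |(∫ x, f x) - ∫ x, h x| ≤ (volume (Metric.closedBall (0 : E N) ρ)).toReal * ε := by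
  have hfi := hf.continuous.integrable_of_hasCompactSupport hf.hasCompactSupport (μ := volume)
  have hhi := hh.continuous.integrable_of_hasCompactSupport hh.hasCompactSupport (μ := volume)
  rw [← integral_sub hfi hhi]
  have h1 : ∫ x, (f x - h x) = ∫ x in Metric.closedBall (0 : E N) ρ, (f x - h x) := by
    rw [setIntegral_eq_integral_of_forall_compl_eq_zero]
    intro x hx
    rw [mem_closedBall_zero_iff, not_le] at hx
    rw [hf.supp x hx.le, hh.supp x hx.le, sub_zero]
  rw [h1, ← Real.norm_eq_abs, mul_comm]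
  exact norm_setIntegral_le_of_norm_le_const measure_closedBall_lt_top fun x _ => hε x

theorem radial_cont {N : ℕ} {ρ : ℝ} (A : Set (radial_D N ρ →ᵇ ℝ)) (Φ : (radial_D N ρ →ᵇ ℝ) → ℝ)
    (C : ℝ) (h : ∀ F ∈ A, ∀ G ∈ A, |Φ F - Φ G| ≤ C * dist F G) : ContinuousOn Φ A := by
  rw [Metric.continuousOn_iff]
  intro b hb ε hε
  refine ⟨ε / (|C| + 1), by positivity, fun a ha hab => ?_⟩
  rw [Real.dist_eq]
  have h1 := h a ha b hb
  have h2 : C * dist a b ≤ |C| * dist a b :=
    mul_le_mul_of_nonneg_right (le_abs_self C) dist_nonneg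
  have h3 : (|C| + 1) * dist a b < ε := by
    rw [lt_div_iff₀ (by positivity)] at hab
    linarith
  have h4 : (0 : ℝ) ≤ dist a b := dist_nonneg
  linarith

theorem exists_radial {n : ℕ} {L ρ : ℝ} (T : (E (n + 1) → ℝ) → ℝ)
    (hT1 : ∃ C : ℝ, ∀ f h : E (n + 1) → ℝ, Adm L ρ f → Adm L ρ h →
      ∀ ε : ℝ, (∀ x, |f x - h x| ≤ ε) → |T f - T h| ≤ C * ε)
    (hT2 : ∀ (g : E (n + 1) ≃ₗᵢ[ℝ] E (n + 1)) (f : E (n + 1) → ℝ), Adm L ρ f → T f ≤ T (SG g f))
    (f : E (n + 1) → ℝ) (hf : Adm L ρ f) :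
    ∃ h : E (n + 1) → ℝ, Adm L ρ h ∧ T f ≤ T h ∧ ∫ x, h x = ∫ x, f x ∧
      ∀ x y, ‖x‖ ≤ ‖y‖ → h y ≤ h x := by
  obtain ⟨C, hC⟩ := hT1
  obtain ⟨C2, hC2⟩ := G2_lip (N := n + 1) L ρ
  have : CompactSpace (radial_D (n + 1) ρ) :=
    isCompact_iff_compactSpace.1 (isCompact_closedBall (0 : E (n + 1)) ρ)
  set A : Set (radial_D (n + 1) ρ →ᵇ ℝ) := {F | Adm L ρ (radial_ext F) ∧
    T f ≤ T (radial_ext F) ∧ ∫ x, radial_ext F x = ∫ x, f x} with hA
  have hclosed : IsClosed A := by
    refine isClosed_of_closure_subset fun F hF => ?_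
    rw [Metric.mem_closure_iff] at hF
    have hadm : Adm L ρ (radial_ext F) := by
      refine radial_adm_closed F fun ε hε => ?_
      obtain ⟨G, hG, hd⟩ := hF ε hε
      exact ⟨G, hG.1, hd⟩
    refine ⟨hadm, ?_, ?_⟩
    · refine le_of_forall_pos_le_add fun ε hε => ?_
      obtain ⟨G, hG, hd⟩ := hF (ε / (|C| + 1)) (by positivity)
      have h1 := hC _ _ hadm hG.1 (dist F G) (radial_ext_dist F G)
      have h2 : C * dist F G ≤ |C| * dist F G :=
        mul_le_mul_of_nonneg_right (le_abs_self C) dist_nonneg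
      have h3 : (|C| + 1) * dist F G < ε := by
        rw [lt_div_iff₀ (by positivity)] at hd
        linarith
      have h4 : (0 : ℝ) ≤ dist F G := dist_nonneg
      have h5 := (abs_le.1 h1).1
      have h6 := hG.2.1
      linarith
    · set V := (volume (Metric.closedBall (0 : E (n + 1)) ρ)).toReal with hV
      have hV0 : 0 ≤ V := ENNReal.toReal_nonneg
      have h0 : |(∫ x, radial_ext F x) - ∫ x, f x| ≤ 0 := by
        refine le_of_forall_pos_le_add fun ε hε => ?_
        obtain ⟨G, hG, hd⟩ := hF (ε / (V + 1)) (by positivity)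
        have h1 := radial_int_lip hadm hG.1 (radial_ext_dist F G)
        rw [hG.2.2] at h1
        have h3 : (V + 1) * dist F G < ε := by
          rw [lt_div_iff₀ (by positivity)] at hd
          linarith
        have h4 : (0 : ℝ) ≤ dist F G := dist_nonneg
        linarith
      have h1 := abs_nonneg ((∫ x, radial_ext F x) - ∫ x, f x)
      have h2 := abs_eq_zero.1 (le_antisymm h0 h1)
      linarith
  have hcomp : IsCompact A := by
    have h1 : IsCompact (closure A) := by
      refine BoundedContinuousFunction.arzela_ascoli (Icc (0 : ℝ) 1) isCompact_Icc A ?_ ?_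
      · intro F x hF
        have h2 : radial_ext F x = F x := by
          unfold radial_ext
          rw [dif_pos x.2]
        rw [← h2]
        exact ⟨hF.1.nonneg _, hF.1.le_one _⟩
      · have hequi : UniformEquicontinuous ((↑) : A → radial_D (n + 1) ρ → ℝ) := by
          rw [Metric.uniformEquicontinuous_iff]
          intro ε hε
          refine ⟨ε / (|L| + 1), by positivity, fun x y hxy F => ?_⟩
          have h2 : ∀ x : radial_D (n + 1) ρ, (F : radial_D (n + 1) ρ →ᵇ ℝ) x =
              radial_ext (F : radial_D (n + 1) ρ →ᵇ ℝ) x := by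
            intro x
            unfold radial_ext
            rw [dif_pos x.2]
          rw [h2, h2, Real.dist_eq]
          have h3 := F.2.1.lip x y
          have h4 : L * ‖(x : E (n + 1)) - y‖ ≤ |L| * ‖(x : E (n + 1)) - y‖ :=
            mul_le_mul_of_nonneg_right (le_abs_self L) (norm_nonneg _)
          have h5 : dist x y = ‖(x : E (n + 1)) - y‖ := by
            rw [Subtype.dist_eq, dist_eq_norm]
          rw [h5, lt_div_iff₀ (by positivity)] at hxy
          have h6 := norm_nonneg ((x : E (n + 1)) - y)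
          linarith
        exact hequi.equicontinuous
    rwa [hclosed.closure_eq] at h1
  have hne : A.Nonempty := by
    refine ⟨radial_res hf, ?_⟩
    rw [hA]
    show Adm L ρ (radial_ext (radial_res hf)) ∧ _
    rw [radial_ext_res hf]
    exact ⟨hf, le_rfl, rfl⟩
  have hcont : ContinuousOn (fun F : radial_D (n + 1) ρ →ᵇ ℝ => G2 (radial_ext F)) A :=
    radial_cont A _ C2 fun F hF G hG => hC2 _ _ hF.1 hG.1 _ (radial_ext_dist F G)
  obtain ⟨F, hF, hmin⟩ := hcomp.exists_isMinOn hne hcont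
  set h := radial_ext F with hh
  have hfix : ∀ g : E (n + 1) ≃ₗᵢ[ℝ] E (n + 1), SG g h = h := by
    intro g
    refine SG_eq_of_G2 hF.1 g ?_
    have h1 : Adm L ρ (SG g h) := hF.1.sg g
    have h2 : radial_res h1 ∈ A := by
      show Adm L ρ (radial_ext (radial_res h1)) ∧ _
      rw [radial_ext_res h1]
      refine ⟨h1, hF.2.1.trans (hT2 g h hF.1), ?_⟩
      rw [integral_SG hF.1 g]
      exact hF.2.2
    have h3 := hmin h2
    simp only [mem_ofPred_eq] at h3
    rw [radial_ext_res h1] at h3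
    exact h3
  exact ⟨h, hF.1, hF.2.1, hF.2.2, radial_of_fixed hF.1 hfix⟩

end Pool.Agent.Lib.MP_d3943d_an
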