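import Pool.Agent.Lib.MP_d3943d_an.Coord
import Pool.Agent.Lib.MP_d3943d_an.BLLFun

set_option autoImplicit false

/-!
Steiner symmetrisation of Lipschitz functions.
-/

namespace Pool.Agent.Lib.MP_d3943d_an

open MeasureTheory Set
open scoped ENNReal ContDiff Pointwise

/-- Steiner symmetrisation in the zeroth coordinate. -/
noncomputable def St {n : ℕ} (f : E (n + 1) → ℝ) (x : E (n + 1)) : ℝ :=
  star (fun t => f (ins t (tl x))) (x 0)

/-- Steiner symmetrisation in the direction `g (e 0)`. -/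
noncomputable def SG {n : ℕ} (g : E (n + 1) ≃ₗᵢ[ℝ] E (n + 1)) (f : E (n + 1) → ℝ)
    (x : E (n + 1)) : ℝ :=
  St (fun y => f (g y)) (g.symm x)

/-- Lipschitz functions with values in `[0,1]` and support in a ball. -/
structure Adm {N : ℕ} (L ρ : ℝ) (f : E N → ℝ) : Prop where
  lip : ∀ x y, |f x - f y| ≤ L * ‖x - y‖
  nonneg : ∀ x, 0 ≤ f x
  le_one : ∀ x, f x ≤ 1
  supp : ∀ x, ρ ≤ ‖x‖ → f x = 0

theorem Adm.continuous {N : ℕ} {L ρ : ℝ} {f : E N → ℝ} (hf : Adm L ρ f) : Continuous f := by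
  have h : LipschitzWith ⟨|L|, abs_nonneg L⟩ f := by
    refine LipschitzWith.of_dist_le_mul fun x y => ?_
    rw [Real.dist_eq, dist_eq_norm]
    refine (hf.lip x y).trans ?_
    exact mul_le_mul_of_nonneg_right (le_abs_self L) (norm_nonneg _)
  exact h.continuous

theorem Adm.hasCompactSupport {N : ℕ} {L ρ : ℝ} {f : E N → ℝ} (hf : Adm L ρ f) :
    HasCompactSupport f := by
  refine HasCompactSupport.intro (isCompact_closedBall (0 : E N) ρ) fun x hx => ?_
  apply hf.supp
  rw [mem_closedBall_zero_iff, not_le] at hx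
  exact hx.le

theorem Adm.comp {N : ℕ} {L ρ : ℝ} {f : E N → ℝ} (hf : Adm L ρ f) (g : E N ≃ₗᵢ[ℝ] E N) :
    Adm L ρ (fun x => f (g x)) where
  lip x y := by
    have h := hf.lip (g x) (g y)
    rwa [← map_sub, g.norm_map] at h
  nonneg x := hf.nonneg _
  le_one x := hf.le_one _
  supp x hx := hf.supp _ (by rw [g.norm_map]; exact hx)

theorem steiner_abs_le_norm {n : ℕ} (t : ℝ) (y : E n) : |t| ≤ ‖ins t y‖ := by
  rw [← abs_of_nonneg (norm_nonneg (ins t y))]
  apply sq_le_sq.1
  rw [norm_ins_sq]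
  have := sq_nonneg ‖y‖
  linarith

/-- the one-dimensional sections -/
theorem Adm.sec {n : ℕ} {L ρ : ℝ} {f : E (n + 1) → ℝ} (hf : Adm L ρ f) (y : E n) :
    Continuous (fun t => f (ins t y)) ∧ HasCompactSupport (fun t => f (ins t y)) := by
  constructor
  · have h1 : Continuous fun t : ℝ => ((t, y) : ℝ × E n) := by fun_prop
    exact hf.continuous.comp (continuous_ins.comp h1)
  · refine HasCompactSupport.intro (isCompact_closedBall (0 : ℝ) ρ) fun t ht => ?_
    apply hf.supp
    rw [mem_closedBall_zero_iff, not_le, Real.norm_eq_abs] at ht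
    exact ht.le.trans (steiner_abs_le_norm t y)

theorem lt_St_iff {n : ℕ} {L ρ : ℝ} {f : E (n + 1) → ℝ} (hf : Adm L ρ f) {c : ℝ} (hc : 0 ≤ c)
    (s : ℝ) (y : E n) :
    c < St f (ins s y) ↔ ENNReal.ofReal (2 * |s|) < volume {t | c < f (ins t y)} := by
  have h := hf.sec y
  exact lt_star_iff h.1 h.2 (fun t => hf.nonneg _) hc s

/-- enlarging a set of the line by an interval -/
theorem steiner_enlarge {A B : Set ℝ} (hA : MeasurableSet A) {h : ℝ} (h0 : 0 ≤ h)
    (hne : A.Nonempty) (hAB : ∀ t ∈ A, ∀ u, |u| ≤ h → t + u ∈ B) :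
    volume A + ENNReal.ofReal (2 * h) ≤ volume B := by
  obtain ⟨m, hm⟩ := hne
  set S1 : Set ℝ := (fun x : ℝ => x + h) ⁻¹' (A ∩ Iio m) with hS1
  set S2 : Set ℝ := (fun x : ℝ => x + (-h)) ⁻¹' (A ∩ Ioi m) with hS2
  set S3 : Set ℝ := Icc (m - h) (m + h) with hS3
  have m1 : MeasurableSet S1 := (hA.inter measurableSet_Iio).preimage (measurable_add_const h)
  have m2 : MeasurableSet S2 := (hA.inter measurableSet_Ioi).preimage (measurable_add_const (-h))
  have m3 : MeasurableSet S3 := measurableSet_Icc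
  have v1 : volume S1 = volume (A ∩ Iio m) := measure_preimage_add_right _ _ _
  have v2 : volume S2 = volume (A ∩ Ioi m) := measure_preimage_add_right _ _ _
  have v3 : volume S3 = ENNReal.ofReal (2 * h) := by
    rw [hS3, Real.volume_Icc]
    congr 1
    ring
  have d12 : Disjoint S1 S2 := by
    rw [Set.disjoint_left]
    intro x hx1 hx2
    have e1 : x + h < m := hx1.2
    have e2 : m < x + (-h) := hx2.2
    linarith
  have d3 : Disjoint (S1 ∪ S2) S3 := by
    rw [Set.disjoint_left]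
    rintro x (hx | hx) hx3
    · have e1 : x + h < m := hx.2
      have e3 : m - h ≤ x := hx3.1
      linarith
    · have e2 : m < x + (-h) := hx.2
      have e3 : x ≤ m + h := hx3.2
      linarith
  have hsub : (S1 ∪ S2) ∪ S3 ⊆ B := by
    rintro x ((hx | hx) | hx)
    · have := hAB (x + h) hx.1 (-h) (by rw [abs_neg, abs_of_nonneg h0])
      rwa [add_neg_cancel_right] at this
    · have := hAB (x + (-h)) hx.1 h (by rw [abs_of_nonneg h0])
      rwa [neg_add_cancel_right] at this
    · have := hAB m hm (x - m) (by rw [abs_le]; constructor <;> linarith [hx.1, hx.2])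
      rwa [add_sub_cancel] at this
  have vA : volume A ≤ volume (A ∩ Iio m) + volume (A ∩ Ioi m) := by
    have h1 : A ⊆ (A ∩ Iio m) ∪ (A ∩ Ioi m) ∪ {m} := by
      intro x hx
      rcases lt_trichotomy x m with h | h | h
      · exact Or.inl (Or.inl ⟨hx, h⟩)
      · exact Or.inr h
      · exact Or.inl (Or.inr ⟨hx, h⟩)
    calc volume A ≤ volume ((A ∩ Iio m) ∪ (A ∩ Ioi m) ∪ {m}) := measure_mono h1
      _ ≤ volume ((A ∩ Iio m) ∪ (A ∩ Ioi m)) + volume {m} := measure_union_le _ _
      _ ≤ (volume (A ∩ Iio m) + volume (A ∩ Ioi m)) + 0 := by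
          gcongr
          · exact measure_union_le _ _
          · simp
      _ = _ := add_zero _
  calc volume A + ENNReal.ofReal (2 * h)
      ≤ (volume (A ∩ Iio m) + volume (A ∩ Ioi m)) + ENNReal.ofReal (2 * h) := by gcongr
    _ = (volume S1 + volume S2) + volume S3 := by rw [v1, v2, v3]
    _ = volume ((S1 ∪ S2) ∪ S3) := by
        rw [measure_union d3 m3, measure_union d12 m2]
    _ ≤ volume B := measure_mono hsub

theorem Adm.L_nonneg {n : ℕ} {L ρ : ℝ} {f : E (n + 1) → ℝ} (hf : Adm L ρ f) : 0 ≤ L := by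
  have h := hf.lip (ins 1 (0 : E n)) 0
  have h1 : ‖ins 1 (0 : E n) - 0‖ = 1 := by
    rw [sub_zero, ins_one_zero, e]
    simp
  rw [h1, mul_one] at h
  exact (abs_nonneg _).trans h

theorem St_nonneg {n : ℕ} (f : E (n + 1) → ℝ) (x : E (n + 1)) : 0 ≤ St f x :=
  Real.sInf_nonneg fun _ hc => hc.1

theorem steiner_lip_aux {n : ℕ} {L ρ : ℝ} {f : E (n + 1) → ℝ} (hf : Adm L ρ f) (s s' : ℝ)
    (y y' : E n) : St f (ins s y) - St f (ins s' y') ≤ L * ‖ins s y - ins s' y'‖ := by
  by_contra hcon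
  rw [not_le] at hcon
  have hL := hf.L_nonneg
  set c := St f (ins s' y') with hc
  set d := ‖ins s y - ins s' y'‖ with hd
  have hc0 : 0 ≤ c := St_nonneg f _
  have hd0 : 0 ≤ d := norm_nonneg _
  have h1 : c + L * d < St f (ins s y) := by linarith
  rw [lt_St_iff hf (by positivity)] at h1
  have hdsq : d ^ 2 = (s - s') ^ 2 + ‖y - y'‖ ^ 2 := by
    rw [hd, ← ins_sub, norm_ins_sq]
  have hAm : MeasurableSet {t | c + L * d < f (ins t y)} :=
    measurableSet_lt measurable_const (hf.sec y).1.measurable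
  have hne : {t | c + L * d < f (ins t y)}.Nonempty := by
    rw [Set.nonempty_iff_ne_empty]
    intro h
    rw [h, measure_empty] at h1
    exact absurd h1 (not_lt.2 zero_le)
  have h2 := steiner_enlarge (B := {t | c < f (ins t y')}) hAm (abs_nonneg (s - s')) hne (by
    intro t ht u hu
    have ht' : c + L * d < f (ins t y) := ht
    have h3 := hf.lip (ins t y) (ins (t + u) y')
    have h4 : ‖ins t y - ins (t + u) y'‖ ≤ d := by
      rw [← abs_of_nonneg (norm_nonneg _), ← abs_of_nonneg hd0]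
      apply sq_le_sq.1
      rw [hdsq, ← ins_sub, norm_ins_sq]
      have h5 : (t - (t + u)) ^ 2 ≤ (s - s') ^ 2 := by
        apply sq_le_sq.2
        have : t - (t + u) = -u := by ring
        rw [this, abs_neg]
        exact hu
      linarith
    have h5 : L * ‖ins t y - ins (t + u) y'‖ ≤ L * d := mul_le_mul_of_nonneg_left h4 hL
    have h6 := (abs_le.1 (h3.trans h5)).2
    show c < f (ins (t + u) y')
    linarith)
  have h3 : ENNReal.ofReal (2 * |s'|) < volume {t | c < f (ins t y')} := by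
    calc ENNReal.ofReal (2 * |s'|) ≤ ENNReal.ofReal (2 * |s| + 2 * |s - s'|) := by
          apply ENNReal.ofReal_le_ofReal
          have := abs_sub_abs_le_abs_sub s' s
          rw [abs_sub_comm] at this
          linarith
      _ = ENNReal.ofReal (2 * |s|) + ENNReal.ofReal (2 * |s - s'|) :=
          ENNReal.ofReal_add (by positivity) (by positivity)
      _ < volume {t | c + L * d < f (ins t y)} + ENNReal.ofReal (2 * |s - s'|) :=
          ENNReal.add_lt_add_right ENNReal.ofReal_ne_top h1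
      _ ≤ _ := h2
  rw [← lt_St_iff hf hc0] at h3
  exact absurd h3 (lt_irrefl _)

theorem Adm.st {n : ℕ} {L ρ : ℝ} {f : E (n + 1) → ℝ} (hf : Adm L ρ f) : Adm L ρ (St f) where
  lip x x' := by
    rw [abs_le]
    have h1 := steiner_lip_aux hf (x 0) (x' 0) (tl x) (tl x')
    have h2 := steiner_lip_aux hf (x' 0) (x 0) (tl x') (tl x)
    rw [ins_tl, ins_tl] at h1 h2
    rw [norm_sub_rev] at h2
    constructor <;> linarith
  nonneg x := St_nonneg f x
  le_one x := by
    by_contra hcon
    rw [not_le, ← ins_tl x, lt_St_iff hf zero_le_one] at hcon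
    have h1 : {t | 1 < f (ins t (tl x))} = ∅ := by
      ext t
      simp only [mem_ofPred_eq, mem_empty_iff_false, iff_false, not_lt]
      exact hf.le_one _
    rw [h1, measure_empty] at hcon
    exact absurd hcon (not_lt.2 zero_le)
  supp x hx := by
    refine le_antisymm ?_ (St_nonneg f x)
    by_contra hcon
    rw [not_le, ← ins_tl x, lt_St_iff hf le_rfl] at hcon
    have h1 : {t | 0 < f (ins t (tl x))} ⊆ Ioo (-|x 0|) |x 0| := by
      intro t ht
      have h2 : ‖ins t (tl x)‖ < ρ := by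
        by_contra h
        rw [not_lt] at h
        have h3 : 0 < f (ins t (tl x)) := ht
        rw [hf.supp _ h] at h3
        exact lt_irrefl _ h3
      have h3 : ‖ins t (tl x)‖ < ‖ins (x 0) (tl x)‖ := by
        rw [ins_tl]
        exact h2.trans_le hx
      have h4 : ‖ins t (tl x)‖ ^ 2 < ‖ins (x 0) (tl x)‖ ^ 2 :=
        pow_lt_pow_left₀ h3 (norm_nonneg _) two_ne_zero
      rw [norm_ins_sq, norm_ins_sq] at h4
      have h5 : |t| < |x 0| := sq_lt_sq.1 (by linarith)
      exact abs_lt.1 h5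
    have h2 := measure_mono (μ := (volume : Measure ℝ)) h1
    rw [Real.volume_Ioo] at h2
    have h3 : |x 0| - -|x 0| = 2 * |x 0| := by ring
    rw [h3] at h2
    exact absurd hcon (not_lt.2 h2)

theorem Adm.sg {n : ℕ} {L ρ : ℝ} {f : E (n + 1) → ℝ} (hf : Adm L ρ f)
    (g : E (n + 1) ≃ₗᵢ[ℝ] E (n + 1)) : Adm L ρ (SG g f) :=
  ((hf.comp g).st).comp g.symm

end Pool.Agent.Lib.MP_d3943d_an
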