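import Pool.Agent.Lib.MP_d3943d_an.Gram
import Pool.Agent.Lib.MP_d3943d_an.Steiner

set_option autoImplicit false

/-!
The triangle functional increases under Steiner symmetrisation.
-/

namespace Pool.Agent.Lib.MP_d3943d_an

open MeasureTheory Set
open scoped ENNReal ContDiff Pointwise

/-- The triangle energy. -/
noncomputable def TKl {N : ℕ} (K : ℝ → ℝ) (f : E N → ℝ) : ℝ≥0∞ :=
  ∫⁻ x, ∫⁻ y, ∫⁻ z, ENNReal.ofReal (f x) * ENNReal.ofReal (f y) * ENNReal.ofReal (f z)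
    * ENNReal.ofReal (K (√(gram x y z)))

theorem TS_ind {N : ℕ} {L ρ : ℝ} {f : E N → ℝ} (hf : Adm L ρ f) (x : E N) :
    ENNReal.ofReal (f x) ≤ (Metric.ball (0 : E N) ρ).indicator (fun _ => 1) x := by
  by_cases hx : x ∈ Metric.ball (0 : E N) ρ
  · rw [indicator_of_mem hx]
    calc ENNReal.ofReal (f x) ≤ ENNReal.ofReal 1 := ENNReal.ofReal_le_ofReal (hf.le_one x)
      _ = 1 := ENNReal.ofReal_one
  · rw [indicator_of_notMem hx]
    have h1 : ρ ≤ ‖x‖ := by simpa using hx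
    simp [hf.supp x h1]

theorem TS_mass {N : ℕ} {L ρ : ℝ} {f : E N → ℝ} (hf : Adm L ρ f) :
    ∫⁻ x, ENNReal.ofReal (f x) ≤ volume (Metric.ball (0 : E N) ρ) := by
  calc ∫⁻ x, ENNReal.ofReal (f x)
      ≤ ∫⁻ x, (Metric.ball (0 : E N) ρ).indicator (fun _ => 1) x :=
        lintegral_mono fun x => TS_ind hf x
    _ = volume (Metric.ball (0 : E N) ρ) := by
        rw [lintegral_indicator Metric.isOpen_ball.measurableSet]
        simp

theorem TKl_ne_top {N : ℕ} {K : ℝ → ℝ} {M : ℝ} (hKM : ∀ r, K r ≤ M) {L ρ : ℝ}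
    {f : E N → ℝ} (hf : Adm L ρ f) : TKl K f ≠ ⊤ := by
  have hm : ∫⁻ x, ENNReal.ofReal (f x) ≠ ⊤ :=
    ne_top_of_le_ne_top (Metric.isBounded_ball.measure_lt_top).ne (TS_mass hf)
  have hle : TKl K f ≤ ∫⁻ x, ∫⁻ y, ∫⁻ z, ENNReal.ofReal (f x) * ENNReal.ofReal (f y)
      * ENNReal.ofReal (f z) * ENNReal.ofReal M := by
    unfold TKl
    gcongr with x y z
    exact hKM _
  refine ne_top_of_le_ne_top ?_ hle
  have h1 : ∀ x y : E N, ∫⁻ z, ENNReal.ofReal (f x) * ENNReal.ofReal (f y)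
      * ENNReal.ofReal (f z) * ENNReal.ofReal M
      = ENNReal.ofReal (f x) * (ENNReal.ofReal (f y)
        * ((∫⁻ z, ENNReal.ofReal (f z)) * ENNReal.ofReal M)) := by
    intro x y
    rw [lintegral_mul_const' _ _ ENNReal.ofReal_ne_top,
      lintegral_const_mul' _ _ (ENNReal.mul_ne_top ENNReal.ofReal_ne_top ENNReal.ofReal_ne_top)]
    ring
  simp_rw [h1]
  have hc : (∫⁻ z, ENNReal.ofReal (f z)) * ENNReal.ofReal M ≠ ⊤ :=
    ENNReal.mul_ne_top hm ENNReal.ofReal_ne_top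
  have h2 : ∀ x : E N, ∫⁻ y, ENNReal.ofReal (f x) * (ENNReal.ofReal (f y)
        * ((∫⁻ z, ENNReal.ofReal (f z)) * ENNReal.ofReal M))
      = ENNReal.ofReal (f x) * ((∫⁻ y, ENNReal.ofReal (f y))
        * ((∫⁻ z, ENNReal.ofReal (f z)) * ENNReal.ofReal M)) := by
    intro x
    rw [lintegral_const_mul' _ _ ENNReal.ofReal_ne_top, lintegral_mul_const' _ _ hc]
  simp_rw [h2]
  rw [lintegral_mul_const' _ _ (ENNReal.mul_ne_top hm hc)]
  exact ENNReal.mul_ne_top hm (ENNReal.mul_ne_top hm hc)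

/-! ### Steiner symmetrisation -/

theorem TKl_isom {N : ℕ} (K : ℝ → ℝ) (f : E N → ℝ) (g : E N ≃ₗᵢ[ℝ] E N) :
    TKl K (fun x => f (g x)) = TKl K f := by
  have h1 : ∀ x y : E N, ∫⁻ z, ENNReal.ofReal (f (g x)) * ENNReal.ofReal (f (g y))
      * ENNReal.ofReal (f (g z)) * ENNReal.ofReal (K (√(gram x y z)))
      = ∫⁻ z, ENNReal.ofReal (f (g x)) * ENNReal.ofReal (f (g y))
      * ENNReal.ofReal (f z) * ENNReal.ofReal (K (√(gram (g x) (g y) z))) := by
    intro x y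
    rw [← lintegral_isom g (fun z => ENNReal.ofReal (f (g x)) * ENNReal.ofReal (f (g y))
      * ENNReal.ofReal (f z) * ENNReal.ofReal (K (√(gram (g x) (g y) z))))]
    simp_rw [gram_isom]
  unfold TKl
  simp_rw [h1]
  have h2 : ∀ x : E N, ∫⁻ y, ∫⁻ z, ENNReal.ofReal (f (g x)) * ENNReal.ofReal (f (g y))
      * ENNReal.ofReal (f z) * ENNReal.ofReal (K (√(gram (g x) (g y) z)))
      = ∫⁻ y, ∫⁻ z, ENNReal.ofReal (f (g x)) * ENNReal.ofReal (f y)
      * ENNReal.ofReal (f z) * ENNReal.ofReal (K (√(gram (g x) y z))) := by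
    intro x
    rw [← lintegral_isom g (fun y => ∫⁻ z, ENNReal.ofReal (f (g x)) * ENNReal.ofReal (f y)
      * ENNReal.ofReal (f z) * ENNReal.ofReal (K (√(gram (g x) y z))))]
  simp_rw [h2]
  rw [← lintegral_isom g (fun x => ∫⁻ y, ∫⁻ z, ENNReal.ofReal (f x) * ENNReal.ofReal (f y)
      * ENNReal.ofReal (f z) * ENNReal.ofReal (K (√(gram x y z))))]

theorem TS_cont_gram {N : ℕ} :
    Continuous (fun p : E N × E N × E N => gram p.1 p.2.1 p.2.2) := by
  unfold gram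
  fun_prop

theorem TS_meas {N : ℕ} {K : ℝ → ℝ} (hK : Antitone K) {f : E N → ℝ} (hf : Continuous f) :
    Measurable (fun p : E N × E N × E N => ENNReal.ofReal (f p.1) * ENNReal.ofReal (f p.2.1)
      * ENNReal.ofReal (f p.2.2) * ENNReal.ofReal (K (√(gram p.1 p.2.1 p.2.2)))) := by
  have h1 : Measurable (fun p : E N × E N × E N => K (√(gram p.1 p.2.1 p.2.2))) :=
    hK.measurable.comp ((Real.continuous_sqrt.comp TS_cont_gram).measurable)
  have h2 : Measurable f := hf.measurable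
  exact ((((h2.comp measurable_fst).ennreal_ofReal).mul
    ((h2.comp (measurable_fst.comp measurable_snd)).ennreal_ofReal)).mul
    ((h2.comp (measurable_snd.comp measurable_snd)).ennreal_ofReal)).mul h1.ennreal_ofReal

theorem TS_fin2 (k : (Fin 2 → ℝ) → ℝ≥0∞) (hk : Measurable k) :
    ∫⁻ t, k t = ∫⁻ b : ℝ, ∫⁻ c : ℝ, k ![b, c] := by
  have h := (volume_preserving_piFinTwo (fun _ : Fin 2 => ℝ)).symm
  rw [← h.lintegral_comp hk, Measure.volume_eq_prod, lintegral_prod]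
  · rfl
  · exact (hk.comp (MeasurableEquiv.measurable _)).aemeasurable

theorem TS_fin3 (k : (Fin 3 → ℝ) → ℝ≥0∞) (hk : Measurable k) :
    ∫⁻ t, k t = ∫⁻ a : ℝ, ∫⁻ b : ℝ, ∫⁻ c : ℝ, k ![a, b, c] := by
  have h := (volume_preserving_piFinSuccAbove (fun _ : Fin 3 => ℝ) 0).symm
  rw [← h.lintegral_comp hk, Measure.volume_eq_prod, lintegral_prod]
  · refine lintegral_congr fun a => ?_
    have := TS_fin2 (fun q => k ((MeasurableEquiv.piFinSuccAbove (fun _ : Fin 3 => ℝ) 0).symm (a, q)))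
      (hk.comp ((MeasurableEquiv.measurable _).comp (by fun_prop)))
    rw [this]
    refine lintegral_congr fun b => lintegral_congr fun c => ?_
    congr 1
    funext i
    fin_cases i <;> rfl
  · exact (hk.comp (MeasurableEquiv.measurable _)).aemeasurable

@[fun_prop]
theorem TS_ins_meas {α : Type*} [MeasurableSpace α] {n : ℕ} {a : α → ℝ} {b : α → E n}
    (ha : Measurable a) (hb : Measurable b) : Measurable (fun q => ins (a q) (b q)) :=
  continuous_ins.measurable.comp (ha.prodMk hb)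

theorem TS_swap {n : ℕ} (Ψ : E n × E n × E n × ℝ × ℝ × ℝ → ℝ≥0∞) (hΨ : Measurable Ψ) :
    ∫⁻ w1 : E n, ∫⁻ s1 : ℝ, ∫⁻ w2 : E n, ∫⁻ s2 : ℝ, ∫⁻ w3 : E n, ∫⁻ s3 : ℝ,
        Ψ (w1, w2, w3, s1, s2, s3)
      = ∫⁻ w1 : E n, ∫⁻ w2 : E n, ∫⁻ w3 : E n, ∫⁻ s1 : ℝ, ∫⁻ s2 : ℝ, ∫⁻ s3 : ℝ,
        Ψ (w1, w2, w3, s1, s2, s3) := by
  refine lintegral_congr fun w1 => ?_
  rw [lintegral_lintegral_swap (by
    refine Measurable.aemeasurable ?_
    unfold Function.uncurry
    fun_prop)]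
  refine lintegral_congr fun w2 => ?_
  have h1 : ∀ s1 : ℝ, ∫⁻ s2 : ℝ, ∫⁻ w3 : E n, ∫⁻ s3 : ℝ, Ψ (w1, w2, w3, s1, s2, s3)
      = ∫⁻ w3 : E n, ∫⁻ s2 : ℝ, ∫⁻ s3 : ℝ, Ψ (w1, w2, w3, s1, s2, s3) := by
    intro s1
    exact lintegral_lintegral_swap (by
      refine Measurable.aemeasurable ?_
      unfold Function.uncurry
      fun_prop)
  simp_rw [h1]
  exact lintegral_lintegral_swap (by
      refine Measurable.aemeasurable ?_
      unfold Function.uncurry
      fun_prop)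

/-- The triple integral over `E (n+1)` in coordinates. -/
theorem TS_fubini {n : ℕ} (F : E (n + 1) × E (n + 1) × E (n + 1) → ℝ≥0∞) (hF : Measurable F) :
    ∫⁻ x, ∫⁻ y, ∫⁻ z, F (x, y, z)
      = ∫⁻ w1 : E n, ∫⁻ w2 : E n, ∫⁻ w3 : E n, ∫⁻ s1 : ℝ, ∫⁻ s2 : ℝ, ∫⁻ s3 : ℝ,
          F (ins s1 w1, ins s2 w2, ins s3 w3) := by
  have hz : ∀ x y, ∫⁻ z, F (x, y, z) = ∫⁻ w3 : E n, ∫⁻ s3 : ℝ, F (x, y, ins s3 w3) := by
    intro x y
    exact lintegral_ins (fun z => F (x, y, z)) (by fun_prop)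
  simp_rw [hz]
  have hy : ∀ x, ∫⁻ y : E (n + 1), ∫⁻ w3 : E n, ∫⁻ s3 : ℝ, F (x, y, ins s3 w3)
      = ∫⁻ w2 : E n, ∫⁻ s2 : ℝ, ∫⁻ w3 : E n, ∫⁻ s3 : ℝ, F (x, ins s2 w2, ins s3 w3) := by
    intro x
    exact lintegral_ins (fun y : E (n + 1) => ∫⁻ w3 : E n, ∫⁻ s3 : ℝ, F (x, y, ins s3 w3))
      (by fun_prop)
  simp_rw [hy]
  rw [lintegral_ins (fun x : E (n + 1) => ∫⁻ w2 : E n, ∫⁻ s2 : ℝ, ∫⁻ w3 : E n, ∫⁻ s3 : ℝ,
    F (x, ins s2 w2, ins s3 w3)) (by fun_prop)]
  exact TS_swap (fun q => F (ins q.2.2.2.1 q.1, ins q.2.2.2.2.1 q.2.1, ins q.2.2.2.2.2 q.2.2.1))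
    (by fun_prop)

/-- The linear form in the fibre variables. -/
noncomputable def TS_lin {n : ℕ} (w1 w2 w3 : E n) (t : Fin 3 → ℝ) : E n :=
  (t 1 - t 0) • (w3 - w1) - (t 2 - t 0) • (w2 - w1)

theorem TS_lin_neg {n : ℕ} (w1 w2 w3 : E n) (t : Fin 3 → ℝ) :
    TS_lin w1 w2 w3 (-t) = - TS_lin w1 w2 w3 t := by
  unfold TS_lin
  simp only [Pi.neg_apply]
  module

theorem TS_lin_comb {n : ℕ} (w1 w2 w3 : E n) (u v : Fin 3 → ℝ) (a b : ℝ) :
    TS_lin w1 w2 w3 (a • u + b • v) = a • TS_lin w1 w2 w3 u + b • TS_lin w1 w2 w3 v := by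
  unfold TS_lin
  simp only [Pi.add_apply, Pi.smul_apply, smul_eq_mul]
  module

theorem TS_gram {n : ℕ} (w1 w2 w3 : E n) (t : Fin 3 → ℝ) :
    gram (ins (t 0) w1) (ins (t 1) w2) (ins (t 2) w3)
      = gram w1 w2 w3 + ‖TS_lin w1 w2 w3 t‖ ^ 2 := gram_ins _ _ _ _ _ _

theorem TS_fibre {n : ℕ} {K : ℝ → ℝ} (hK : Antitone K) {L ρ : ℝ}
    {f : E (n + 1) → ℝ} (hf : Adm L ρ f) (w1 w2 w3 : E n) :
    ∫⁻ s1 : ℝ, ∫⁻ s2 : ℝ, ∫⁻ s3 : ℝ, ENNReal.ofReal (f (ins s1 w1)) * ENNReal.ofReal (f (ins s2 w2))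
      * ENNReal.ofReal (f (ins s3 w3))
      * ENNReal.ofReal (K (√(gram (ins s1 w1) (ins s2 w2) (ins s3 w3))))
    ≤ ∫⁻ s1 : ℝ, ∫⁻ s2 : ℝ, ∫⁻ s3 : ℝ, ENNReal.ofReal (St f (ins s1 w1))
      * ENNReal.ofReal (St f (ins s2 w2)) * ENNReal.ofReal (St f (ins s3 w3))
      * ENNReal.ofReal (K (√(gram (ins s1 w1) (ins s2 w2) (ins s3 w3)))) := by
  have hmeas : ∀ h : E (n + 1) → ℝ, Continuous h → Measurable (fun t : Fin 3 → ℝ =>
      ENNReal.ofReal (h (ins (t 0) w1)) * ENNReal.ofReal (h (ins (t 1) w2))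
      * ENNReal.ofReal (h (ins (t 2) w3))
      * ENNReal.ofReal (K (√(gram (ins (t 0) w1) (ins (t 1) w2) (ins (t 2) w3))))) := by
    intro h hh
    exact (TS_meas hK hh).comp (g := fun p : E (n + 1) × E (n + 1) × E (n + 1) =>
      ENNReal.ofReal (h p.1) * ENNReal.ofReal (h p.2.1)
      * ENNReal.ofReal (h p.2.2) * ENNReal.ofReal (K (√(gram p.1 p.2.1 p.2.2))))
      (f := fun t : Fin 3 → ℝ => (ins (t 0) w1, ins (t 1) w2, ins (t 2) w3)) (by fun_prop)
  have hk : Measurable (fun t : Fin 3 → ℝ =>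
      ENNReal.ofReal (K (√(gram (ins (t 0) w1) (ins (t 1) w2) (ins (t 2) w3))))) := by
    have h1 : Measurable (fun p : E (n + 1) × E (n + 1) × E (n + 1) =>
        K (√(gram p.1 p.2.1 p.2.2))) :=
      hK.measurable.comp ((Real.continuous_sqrt.comp TS_cont_gram).measurable)
    exact (h1.comp (f := fun t : Fin 3 → ℝ => (ins (t 0) w1, ins (t 1) w2, ins (t 2) w3))
      (by fun_prop)).ennreal_ofReal
  have hmono : ∀ u v : Fin 3 → ℝ, ‖TS_lin w1 w2 w3 u‖ ≤ ‖TS_lin w1 w2 w3 v‖ →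
      ENNReal.ofReal (K (√(gram (ins (v 0) w1) (ins (v 1) w2) (ins (v 2) w3))))
      ≤ ENNReal.ofReal (K (√(gram (ins (u 0) w1) (ins (u 1) w2) (ins (u 2) w3)))) := by
    intro u v huv
    rw [TS_gram, TS_gram]
    refine ENNReal.ofReal_le_ofReal (hK (Real.sqrt_le_sqrt ?_))
    have := norm_nonneg (TS_lin w1 w2 w3 u)
    nlinarith
  have hconv : ∀ c, Convex ℝ {t : Fin 3 → ℝ | c <
      ENNReal.ofReal (K (√(gram (ins (t 0) w1) (ins (t 1) w2) (ins (t 2) w3))))} := by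
    intro c u hu v hv a b ha hb hab
    simp only [mem_ofPred_eq] at hu hv ⊢
    have hn : ‖TS_lin w1 w2 w3 (a • u + b • v)‖
        ≤ a * ‖TS_lin w1 w2 w3 u‖ + b * ‖TS_lin w1 w2 w3 v‖ := by
      rw [TS_lin_comb]
      refine (norm_add_le _ _).trans ?_
      rw [norm_smul, norm_smul, Real.norm_of_nonneg ha, Real.norm_of_nonneg hb]
    rcases le_total ‖TS_lin w1 w2 w3 u‖ ‖TS_lin w1 w2 w3 v‖ with h | h
    · refine lt_of_lt_of_le hv (hmono (a • u + b • v) v ?_)
      have e1 := mul_le_mul_of_nonneg_left h ha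
      have e2 : a * ‖TS_lin w1 w2 w3 v‖ + b * ‖TS_lin w1 w2 w3 v‖ = ‖TS_lin w1 w2 w3 v‖ := by
        rw [← add_mul, hab, one_mul]
      linarith
    · refine lt_of_lt_of_le hu (hmono (a • u + b • v) u ?_)
      have e1 := mul_le_mul_of_nonneg_left h hb
      have e2 : a * ‖TS_lin w1 w2 w3 u‖ + b * ‖TS_lin w1 w2 w3 u‖ = ‖TS_lin w1 w2 w3 u‖ := by
        rw [← add_mul, hab, one_mul]
      linarith
  have hsym : ∀ t : Fin 3 → ℝ,
      ENNReal.ofReal (K (√(gram (ins ((-t) 0) w1) (ins ((-t) 1) w2) (ins ((-t) 2) w3))))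
      = ENNReal.ofReal (K (√(gram (ins (t 0) w1) (ins (t 1) w2) (ins (t 2) w3)))) := by
    intro t
    rw [TS_gram, TS_gram, TS_lin_neg, norm_neg]
  have key := bll_fun bm_3 _ hk hconv hsym (fun i t => f (ins t ((![w1, w2, w3] : Fin 3 → E n) i)))
    (fun i => (hf.sec _).1) (fun i => (hf.sec _).2) (fun i t => hf.nonneg _)
  have e1 : ∀ t : Fin 3 → ℝ,
      ENNReal.ofReal (K (√(gram (ins (t 0) w1) (ins (t 1) w2) (ins (t 2) w3)))) *
        ∏ i, ENNReal.ofReal (f (ins (t i) ((![w1, w2, w3] : Fin 3 → E n) i)))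
      = ENNReal.ofReal (f (ins (t 0) w1)) * ENNReal.ofReal (f (ins (t 1) w2))
      * ENNReal.ofReal (f (ins (t 2) w3))
      * ENNReal.ofReal (K (√(gram (ins (t 0) w1) (ins (t 1) w2) (ins (t 2) w3)))) := by
    intro t
    rw [Fin.prod_univ_three]
    simp only [Matrix.cons_val_zero, Matrix.cons_val_one, Matrix.cons_val]
    ring
  have e2 : ∀ t : Fin 3 → ℝ,
      ENNReal.ofReal (K (√(gram (ins (t 0) w1) (ins (t 1) w2) (ins (t 2) w3)))) *
        ∏ i, ENNReal.ofReal (star (fun s => f (ins s ((![w1, w2, w3] : Fin 3 → E n) i))) (t i))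
      = ENNReal.ofReal (St f (ins (t 0) w1)) * ENNReal.ofReal (St f (ins (t 1) w2))
      * ENNReal.ofReal (St f (ins (t 2) w3))
      * ENNReal.ofReal (K (√(gram (ins (t 0) w1) (ins (t 1) w2) (ins (t 2) w3)))) := by
    intro t
    rw [Fin.prod_univ_three]
    simp only [Matrix.cons_val_zero, Matrix.cons_val_one, Matrix.cons_val, St, tl_ins, ins_zero]
    ring
  simp_rw [e1, e2] at key
  rw [TS_fin3 _ (hmeas f hf.continuous), TS_fin3 _ (hmeas (St f) hf.st.continuous)] at key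
  simpa using key

theorem TKl_St {n : ℕ} {K : ℝ → ℝ} (hK : Antitone K) {L ρ : ℝ}
    {f : E (n + 1) → ℝ} (hf : Adm L ρ f) : TKl K f ≤ TKl K (St f) := by
  unfold TKl
  rw [TS_fubini (fun p : E (n + 1) × E (n + 1) × E (n + 1) =>
      ENNReal.ofReal (f p.1) * ENNReal.ofReal (f p.2.1)
      * ENNReal.ofReal (f p.2.2) * ENNReal.ofReal (K (√(gram p.1 p.2.1 p.2.2))))
      (TS_meas hK hf.continuous),
    TS_fubini (fun p : E (n + 1) × E (n + 1) × E (n + 1) =>
      ENNReal.ofReal (St f p.1) * ENNReal.ofReal (St f p.2.1)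
      * ENNReal.ofReal (St f p.2.2) * ENNReal.ofReal (K (√(gram p.1 p.2.1 p.2.2))))
      (TS_meas hK hf.st.continuous)]
  exact lintegral_mono fun w1 => lintegral_mono fun w2 => lintegral_mono fun w3 =>
    TS_fibre hK hf w1 w2 w3

theorem TKl_SG {n : ℕ} {K : ℝ → ℝ} (hK : Antitone K) (hK0 : ∀ r, 0 ≤ K r) {L ρ : ℝ}
    {f : E (n + 1) → ℝ} (hf : Adm L ρ f) (g : E (n + 1) ≃ₗᵢ[ℝ] E (n + 1)) :
    TKl K f ≤ TKl K (SG g f) := by
  rw [← TKl_isom K f g, ← TKl_isom K (SG g f) g]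
  have h : (fun x => SG g f (g x)) = St (fun y => f (g y)) := by
    funext x
    simp [SG]
  rw [h]
  exact TKl_St hK (hf.comp g)

/-! ### Lipschitz dependence -/

theorem TS_half {N : ℕ} {K : ℝ → ℝ} {M : ℝ} (hKM : ∀ r, K r ≤ M) {L ρ : ℝ} {f h : E N → ℝ}
    (hf : Adm L ρ f) (hh : Adm L ρ h) {ε : ℝ} (hε : ∀ x, |f x - h x| ≤ ε) :
    TKl K f ≤ TKl K h + ENNReal.ofReal (3 * ε) * volume (Metric.ball (0 : E N) ρ) ^ 3
      * ENNReal.ofReal M := by
  classical
  set B : Set (E N) := Metric.ball (0 : E N) ρ with hB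
  have hBm : MeasurableSet B := Metric.isOpen_ball.measurableSet
  set u : E N → ℝ≥0∞ := B.indicator (fun _ => 1) with hu
  have hum : Measurable u := measurable_const.indicator hBm
  have hub : ∫⁻ x, u x = volume B := by
    rw [hu, lintegral_indicator hBm]
    simp
  have hεn : 0 ≤ ε := (abs_nonneg _).trans (hε 0)
  have hpt : ∀ x y z : E N, ENNReal.ofReal (f x) * ENNReal.ofReal (f y) * ENNReal.ofReal (f z)
      ≤ ENNReal.ofReal (h x) * ENNReal.ofReal (h y) * ENNReal.ofReal (h z)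
        + ENNReal.ofReal (3 * ε) * u x * u y * u z := by
    intro x y z
    by_cases hx : x ∈ B
    · by_cases hy : y ∈ B
      · by_cases hz : z ∈ B
        · rw [hu, indicator_of_mem hx, indicator_of_mem hy, indicator_of_mem hz, mul_one,
            mul_one, mul_one, ← ENNReal.ofReal_mul (hf.nonneg x),
            ← ENNReal.ofReal_mul (mul_nonneg (hf.nonneg x) (hf.nonneg y)),
            ← ENNReal.ofReal_mul (hh.nonneg x),
            ← ENNReal.ofReal_mul (mul_nonneg (hh.nonneg x) (hh.nonneg y)),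
            ← ENNReal.ofReal_add (mul_nonneg (mul_nonneg (hh.nonneg x) (hh.nonneg y))
              (hh.nonneg z)) (by positivity)]
          refine ENNReal.ofReal_le_ofReal ?_
          have a1 := (abs_le.1 (hε x)).2
          have a2 := (abs_le.1 (hε y)).2
          have a3 := (abs_le.1 (hε z)).2
          have f1 := hf.nonneg x
          have f2 := hf.nonneg y
          have f3 := hf.nonneg z
          have g1 := hh.nonneg x
          have g2 := hh.nonneg y
          have g3 := hh.nonneg z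
          have l2 := hf.le_one y
          have l3 := hf.le_one z
          have k1 := hh.le_one x
          have k2 := hh.le_one y
          have b1 : (f x - h x) * (f y * f z) ≤ ε := by
            have p1 : 0 ≤ f y * f z := mul_nonneg f2 f3
            have p2 : f y * f z ≤ 1 := mul_le_one₀ l2 f3 l3
            nlinarith
          have b2 : (f y - h y) * (h x * f z) ≤ ε := by
            have p1 : 0 ≤ h x * f z := mul_nonneg g1 f3
            have p2 : h x * f z ≤ 1 := mul_le_one₀ k1 f3 l3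
            nlinarith
          have b3 : (f z - h z) * (h x * h y) ≤ ε := by
            have p1 : 0 ≤ h x * h y := mul_nonneg g1 g2
            have p2 : h x * h y ≤ 1 := mul_le_one₀ k1 g2 k2
            nlinarith
          nlinarith
        · have : f z = 0 := hf.supp z (by simpa [hB] using hz)
          simp [this]
      · have : f y = 0 := hf.supp y (by simpa [hB] using hy)
        simp [this]
    · have : f x = 0 := hf.supp x (by simpa [hB] using hx)
      simp [this]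
  have hpt2 : ∀ x y z : E N, ENNReal.ofReal (f x) * ENNReal.ofReal (f y) * ENNReal.ofReal (f z)
      * ENNReal.ofReal (K (√(gram x y z)))
      ≤ ENNReal.ofReal (h x) * ENNReal.ofReal (h y) * ENNReal.ofReal (h z)
          * ENNReal.ofReal (K (√(gram x y z)))
        + ENNReal.ofReal (3 * ε) * ENNReal.ofReal M * u x * u y * u z := by
    intro x y z
    calc ENNReal.ofReal (f x) * ENNReal.ofReal (f y) * ENNReal.ofReal (f z)
      * ENNReal.ofReal (K (√(gram x y z)))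
        ≤ (ENNReal.ofReal (h x) * ENNReal.ofReal (h y) * ENNReal.ofReal (h z)
          + ENNReal.ofReal (3 * ε) * u x * u y * u z) * ENNReal.ofReal (K (√(gram x y z))) := by
          gcongr
          exact hpt x y z
      _ = ENNReal.ofReal (h x) * ENNReal.ofReal (h y) * ENNReal.ofReal (h z)
            * ENNReal.ofReal (K (√(gram x y z)))
          + ENNReal.ofReal (3 * ε) * u x * u y * u z * ENNReal.ofReal (K (√(gram x y z))) := by
          rw [add_mul]
      _ ≤ ENNReal.ofReal (h x) * ENNReal.ofReal (h y) * ENNReal.ofReal (h z)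
            * ENNReal.ofReal (K (√(gram x y z)))
          + ENNReal.ofReal (3 * ε) * u x * u y * u z * ENNReal.ofReal M := by
          gcongr
          exact hKM _
      _ = _ := by ring
  calc TKl K f
      ≤ ∫⁻ x, ∫⁻ y, ∫⁻ z, (ENNReal.ofReal (h x) * ENNReal.ofReal (h y) * ENNReal.ofReal (h z)
          * ENNReal.ofReal (K (√(gram x y z)))
        + ENNReal.ofReal (3 * ε) * ENNReal.ofReal M * u x * u y * u z) :=
        lintegral_mono fun x => lintegral_mono fun y => lintegral_mono fun z => hpt2 x y z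
    _ = ∫⁻ x, ∫⁻ y, ((∫⁻ z, ENNReal.ofReal (h x) * ENNReal.ofReal (h y) * ENNReal.ofReal (h z)
          * ENNReal.ofReal (K (√(gram x y z))))
        + ENNReal.ofReal (3 * ε) * ENNReal.ofReal M * u x * u y * volume B) := by
        refine lintegral_congr fun x => lintegral_congr fun y => ?_
        rw [lintegral_add_right _ (by fun_prop), lintegral_const_mul _ hum, hub]
    _ = ∫⁻ x, ((∫⁻ y, ∫⁻ z, ENNReal.ofReal (h x) * ENNReal.ofReal (h y) * ENNReal.ofReal (h z)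
          * ENNReal.ofReal (K (√(gram x y z))))
        + ENNReal.ofReal (3 * ε) * ENNReal.ofReal M * u x * volume B * volume B) := by
        refine lintegral_congr fun x => ?_
        rw [lintegral_add_right _ (by fun_prop)]
        congr 1
        rw [lintegral_mul_const _ (by fun_prop), lintegral_const_mul _ hum, hub]
    _ = TKl K h + ENNReal.ofReal (3 * ε) * volume B ^ 3 * ENNReal.ofReal M := by
        rw [lintegral_add_right _ (by fun_prop)]
        unfold TKl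
        congr 1
        rw [lintegral_mul_const _ (by fun_prop), lintegral_mul_const _ (by fun_prop),
          lintegral_const_mul _ hum, hub]
        ring

theorem TKl_lip {N : ℕ} {K : ℝ → ℝ} (hK : Antitone K) (hK0 : ∀ r, 0 ≤ K r) {M : ℝ}
    (hKM : ∀ r, K r ≤ M) (L ρ : ℝ) :
    ∃ C : ℝ, ∀ f h : E N → ℝ, Adm L ρ f → Adm L ρ h →
      ∀ ε : ℝ, (∀ x, |f x - h x| ≤ ε) → |(TKl K f).toReal - (TKl K h).toReal| ≤ C * ε := by
  have hM : 0 ≤ M := (hK0 0).trans (hKM 0)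
  have hBt : volume (Metric.ball (0 : E N) ρ) ≠ ⊤ := (Metric.isBounded_ball.measure_lt_top).ne
  set v : ℝ := (volume (Metric.ball (0 : E N) ρ)).toReal with hv
  have hv0 : 0 ≤ v := ENNReal.toReal_nonneg
  refine ⟨3 * v ^ 3 * M, fun f h hf hh ε hε => ?_⟩
  have hεn : 0 ≤ ε := (abs_nonneg _).trans (hε 0)
  have hε' : ∀ x, |h x - f x| ≤ ε := fun x => by rw [abs_sub_comm]; exact hε x
  have tf := TKl_ne_top hKM hf
  have th := TKl_ne_top hKM hh
  have hC : (ENNReal.ofReal (3 * ε) * volume (Metric.ball (0 : E N) ρ) ^ 3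
      * ENNReal.ofReal M).toReal = 3 * v ^ 3 * M * ε := by
    rw [ENNReal.toReal_mul, ENNReal.toReal_mul, ENNReal.toReal_pow,
      ENNReal.toReal_ofReal (by positivity), ENNReal.toReal_ofReal hM]
    ring
  have hCt : ENNReal.ofReal (3 * ε) * volume (Metric.ball (0 : E N) ρ) ^ 3
      * ENNReal.ofReal M ≠ ⊤ :=
    ENNReal.mul_ne_top (ENNReal.mul_ne_top ENNReal.ofReal_ne_top (ENNReal.pow_ne_top hBt))
      ENNReal.ofReal_ne_top
  have key : ∀ p q : E N → ℝ, Adm L ρ p → Adm L ρ q → (∀ x, |p x - q x| ≤ ε) →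
      (TKl K p).toReal ≤ (TKl K q).toReal + 3 * v ^ 3 * M * ε := by
    intro p q hp hq hpq
    have h1 := TS_half hKM hp hq hpq
    have tq := TKl_ne_top hKM hq
    have h2 := ENNReal.toReal_mono (ENNReal.add_ne_top.2 ⟨tq, hCt⟩) h1
    rwa [ENNReal.toReal_add tq hCt, hC] at h2
  have k1 := key f h hf hh hε
  have k2 := key h f hh hf hε'
  rw [abs_le]
  constructor <;> linarith

end Pool.Agent.Lib.MP_d3943d_an
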