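import Pool.Agent.Lib.MP_d3943d_an.TRadial
import Pool.Agent.Lib.MP_d3943d_an.Approx
import Pool.Agent.Lib.MP_d3943d_an.Radial
import Pool.Agent.Lib.MP_d3943d_an.TStep
import Pool.Agent.Lib.MP_d3943d_an.Ker

set_option autoImplicit false

/-!
The ball maximises the section functional among open sets of given volume.
-/

namespace Pool.Agent.Lib.MP_d3943d_an

open MeasureTheory Set
open scoped ENNReal ContDiff Pointwise

theorem lintegral3_iSup {α β γ : Type*} [MeasurableSpace α] [MeasurableSpace β]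
    [MeasurableSpace γ] (μ : Measure α) (ν : Measure β) (κ : Measure γ) [SFinite ν] [SFinite κ]
    (F : ℕ → α → β → γ → ℝ≥0∞)
    (hF : ∀ k, Measurable (fun p : (α × β) × γ => F k p.1.1 p.1.2 p.2))
    (hmono : ∀ x y z, Monotone fun k => F k x y z) :
    ∫⁻ x, ∫⁻ y, ∫⁻ z, ⨆ k, F k x y z ∂κ ∂ν ∂μ = ⨆ k, ∫⁻ x, ∫⁻ y, ∫⁻ z, F k x y z ∂κ ∂ν ∂μ := by
  have h1 : ∀ x y, ∫⁻ z, ⨆ k, F k x y z ∂κ = ⨆ k, ∫⁻ z, F k x y z ∂κ := by
    intro x y
    exact lintegral_iSup (fun k => (hF k).comp (measurable_prodMk_left (x := (x, y))))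
      (fun i j hij z => hmono x y z hij)
  simp_rw [h1]
  apply lintegral2_iSup
  · intro k
    exact (hF k).lintegral_prod_right'
  · intro x y i j hij
    exact lintegral_mono fun z => hmono x y z hij

theorem continuous_gram3 : Continuous (fun p : (E 3 × E 3) × E 3 => gram p.1.1 p.1.2 p.2) := by
  unfold gram
  fun_prop

theorem Tg_sets_le (Ω : Set (E 3)) (hΩ : IsOpen Ω) (hb : Bornology.IsBounded Ω)
    (R : ℝ) (hR : 0 < R) (hv : volume Ω ≤ volume (Metric.ball (0 : E 3) R)) :
    Tg (Ω.indicator fun _ => 1) ≤ Tg ((Metric.ball (0 : E 3) R).indicator fun _ => 1) := by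
  have hN : 1 ≤ 3 := by omega
  obtain ⟨ρ, hρ⟩ := approxSet_adm hN hΩ hb
  rw [← T3_eq_Tg _ (measurable_const.indicator hΩ.measurableSet)]
  have key : ∀ k : ℕ, TKl (KerJ 1 k) (approxSet Ω k)
      ≤ Tg ((Metric.ball (0 : E 3) R).indicator fun _ => 1) := by
    intro k
    obtain ⟨h, hh, hT, hint, hrad⟩ := exists_radial (n := 2) (L := (k : ℝ)) (ρ := ρ)
      (fun f => (TKl (KerJ 1 k) f).toReal)
      (TKl_lip (KerJ_antitone 1 k) (KerJ_nonneg 1 k) (KerJ_le 1 k) (k : ℝ) ρ)
      (fun g f hf => ENNReal.toReal_mono (TKl_ne_top (KerJ_le 1 k) (hf.sg g))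
        (TKl_SG (KerJ_antitone 1 k) (KerJ_nonneg 1 k) hf g))
      (approxSet Ω k) (hρ k)
    have h1 : TKl (KerJ 1 k) (approxSet Ω k) ≤ TKl (KerJ 1 k) h :=
      (ENNReal.toReal_le_toReal (TKl_ne_top (KerJ_le 1 k) (hρ k))
        (TKl_ne_top (KerJ_le 1 k) hh)).1 hT
    have h2 : TKl (KerJ 1 k) h ≤ T3 (fun x => ENNReal.ofReal (h x)) := by
      apply lintegral_mono
      intro x
      apply lintegral_mono
      intro y
      apply lintegral_mono
      intro z
      have := KerJ_iSup 1 (Real.sqrt_nonneg (gram x y z))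
      rw [pow_one] at this
      show _ ≤ ENNReal.ofReal (h x) * ENNReal.ofReal (h y) * ENNReal.ofReal (h z)
        * (ENNReal.ofReal (√(gram x y z)))⁻¹
      rw [← this]
      exact mul_le_mul' le_rfl
        (le_iSup (fun j : ℕ => ENNReal.ofReal (KerJ 1 j (√(gram x y z)))) k)
    refine h1.trans (h2.trans ?_)
    rw [T3_eq_Tg _ hh.continuous.measurable.ennreal_ofReal]
    apply Tg_radial_le hh hrad R hR
    rw [hint]
    exact (lintegral_approxSet_le hN hΩ hb k (hρ k)).trans hv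
  have h2 : T3 (Ω.indicator fun _ => 1)
      = ∫⁻ x, ∫⁻ y, ∫⁻ z, ⨆ k : ℕ, ENNReal.ofReal (approxSet Ω k x)
        * ENNReal.ofReal (approxSet Ω k y) * ENNReal.ofReal (approxSet Ω k z)
        * ENNReal.ofReal (KerJ 1 k (√(gram x y z))) := by
    unfold T3
    apply lintegral_congr
    intro x
    apply lintegral_congr
    intro y
    apply lintegral_congr
    intro z
    have mx : ∀ x : E 3, Monotone fun k : ℕ => ENNReal.ofReal (approxSet Ω k x) :=
      fun x i j hij => ENNReal.ofReal_le_ofReal (approxSet_mono Ω x hij)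
    have mK : Monotone fun k : ℕ => ENNReal.ofReal (KerJ 1 k (√(gram x y z))) :=
      fun i j hij => ENNReal.ofReal_le_ofReal (KerJ_mono 1 _ hij)
    have mxy : Monotone fun k : ℕ => ENNReal.ofReal (approxSet Ω k x)
        * ENNReal.ofReal (approxSet Ω k y) := fun i j hij => mul_le_mul' (mx x hij) (mx y hij)
    have mxyz : Monotone fun k : ℕ => ENNReal.ofReal (approxSet Ω k x)
        * ENNReal.ofReal (approxSet Ω k y) * ENNReal.ofReal (approxSet Ω k z) :=
      fun i j hij => mul_le_mul' (mxy hij) (mx z hij)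
    rw [ofReal_mul_iSup mxyz mK, ofReal_mul_iSup mxy (mx z), ofReal_mul_iSup (mx x) (mx y),
      approxSet_iSup hN hΩ hb, approxSet_iSup hN hΩ hb, approxSet_iSup hN hΩ hb,
      KerJ_iSup 1 (Real.sqrt_nonneg _), pow_one]
  rw [h2, lintegral3_iSup]
  · exact iSup_le key
  · intro k
    have hc := (hρ k).continuous.measurable
    have e1 : Measurable fun p : (E 3 × E 3) × E 3 => ENNReal.ofReal (approxSet Ω k p.1.1) :=
      (hc.comp (measurable_fst.comp measurable_fst)).ennreal_ofReal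
    have e2 : Measurable fun p : (E 3 × E 3) × E 3 => ENNReal.ofReal (approxSet Ω k p.1.2) :=
      (hc.comp (measurable_snd.comp measurable_fst)).ennreal_ofReal
    have e3 : Measurable fun p : (E 3 × E 3) × E 3 => ENNReal.ofReal (approxSet Ω k p.2) :=
      (hc.comp measurable_snd).ennreal_ofReal
    have e4 : Measurable fun p : (E 3 × E 3) × E 3 =>
        ENNReal.ofReal (KerJ 1 k (√(gram p.1.1 p.1.2 p.2))) :=
      ((measurable_KerJ 1 k).comp
        (Real.continuous_sqrt.comp continuous_gram3).measurable).ennreal_ofReal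
    exact ((e1.mul e2).mul e3).mul e4
  · intro x y z i j hij
    exact mul_le_mul' (mul_le_mul' (mul_le_mul' (ENNReal.ofReal_le_ofReal (approxSet_mono Ω x hij))
      (ENNReal.ofReal_le_ofReal (approxSet_mono Ω y hij)))
      (ENNReal.ofReal_le_ofReal (approxSet_mono Ω z hij)))
      (ENNReal.ofReal_le_ofReal (KerJ_mono 1 _ hij))

end Pool.Agent.Lib.MP_d3943d_an
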