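import Pool.Agent.Lib.MP_d3943d_an.MomentThree
import Pool.Agent.Lib.MP_d3943d_an.SliceThree
import Pool.Agent.Lib.MP_d3943d_an.TSets
import Pool.Agent.Lib.MP_d3943d_an.HessIBP

set_option autoImplicit false

/-!
The key inequality in dimension three.
-/

namespace Pool.Agent.Lib.MP_d3943d_an

open MeasureTheory Set
open scoped ENNReal ContDiff Pointwise

theorem measurable_sec_cube {f : E 3 → ℝ≥0∞} (hf : Measurable f) :
    Measurable (fun ν : E 2 => ∫⁻ c : ℝ, (sec f c ν) ^ 3) := by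
  unfold sec
  have h1 : Measurable (fun q : (E 2 × ℝ) × E 2 => f (ins (q.1.2 + inner ℝ q.1.1 q.2) q.2)) := by
    have hcc : Continuous (fun q : (E 2 × ℝ) × E 2 => ins (q.1.2 + inner ℝ q.1.1 q.2) q.2) :=
      continuous_ins.comp
        (by fun_prop : Continuous (fun q : (E 2 × ℝ) × E 2 => (q.1.2 + inner ℝ q.1.1 q.2, q.2)))
    exact hf.comp hcc.measurable
  have h2 : Measurable (fun p : E 2 × ℝ => (∫⁻ y : E 2, f (ins (p.2 + inner ℝ p.1 y) y)) ^ 3) :=
    (h1.lintegral_prod_right').pow_const 3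
  exact h2.lintegral_prod_right'

/-- The matrix of the in-plane Laplacian. -/
noncomputable def Bmat (φ : E 3 → ℝ) (x : E 3) (i j : Fin 3) : ℝ :=
  (if i = j then Lap φ x else 0) - D2 φ x (e i) (e j)

theorem Bmat_form (φ : E 3 → ℝ) (x : E 3) (ν : E 2) :
    ∑ i, ∑ j, Bmat φ x i j * (ins 1 (-ν) : E 3) i * (ins 1 (-ν) : E 3) j
      = (1 + ‖ν‖ ^ 2) * Lap φ x - D2 φ x (ins 1 (-ν)) (ins 1 (-ν)) := by
  rw [D2_expand x (ins 1 (-ν))]
  have hn : (1 + ‖ν‖ ^ 2) = ∑ i : Fin 3, ((ins 1 (-ν) : E 3) i) ^ 2 := by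
    have h := norm_ins_sq 1 (-ν)
    rw [EuclideanSpace.norm_sq_eq] at h
    rw [norm_neg] at h
    simp only [Real.norm_eq_abs, sq_abs] at h
    rw [h]
    ring
  rw [hn]
  unfold Bmat
  simp only [Fin.sum_univ_three]
  simp
  ring

theorem Bmat_sq (φ : E 3 → ℝ) (x : E 3) :
    2 * ∑ i, ∑ j, (Bmat φ x i j) ^ 2 + (∑ i, Bmat φ x i i) ^ 2
      = 6 * (Lap φ x) ^ 2 + 2 * ∑ i, ∑ j, (D2 φ x (e i) (e j)) ^ 2 := by
  unfold Bmat
  have hL : Lap φ x = D2 φ x (e 0) (e 0) + D2 φ x (e 1) (e 1) + D2 φ x (e 2) (e 2) := by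
    unfold Lap
    rw [Fin.sum_univ_three]
  simp only [Fin.sum_univ_three]
  simp
  rw [hL]
  ring

theorem planes_average {φ : E 3 → ℝ} (hφ : ContDiff ℝ ∞ φ) (hc : HasCompactSupport φ) :
    ∫⁻ ν : E 2, ENNReal.ofReal
        ((∫ x, ((1 + ‖ν‖ ^ 2) * Lap φ x - D2 φ x (ins 1 (-ν)) (ins 1 (-ν))) ^ 2)
          / (√(1 + ‖ν‖ ^ 2)) ^ 7)
      = m0 * ENNReal.ofReal (8 / 15 * ∫ x, (Lap φ x) ^ 2) := by
  have h2 : ContDiff ℝ 2 φ := by exact_mod_cast contDiff_infty.1 hφ 2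
  have hBc : ∀ i j, Continuous (fun x => Bmat φ x i j) := by
    intro i j
    unfold Bmat
    refine Continuous.sub ?_ (continuous_D2 h2 _ _)
    split_ifs
    · exact continuous_Lap h2
    · exact continuous_const
  have hcont : Continuous (fun p : E 2 × E 3 =>
      ∑ i, ∑ j, Bmat φ p.2 i j * (ins 1 (-p.1) : E 3) i * (ins 1 (-p.1) : E 3) j) := by
    refine continuous_finsetSum _ (fun i _ => continuous_finsetSum _ (fun j _ => ?_))
    have h1 : Continuous (fun p : E 2 × E 3 => Bmat φ p.2 i j) := (hBc i j).comp continuous_snd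
    have h3 : ∀ i : Fin 3, Continuous (fun p : E 2 × E 3 => (ins 1 (-p.1) : E 3) i) := by
      intro i
      have h4 : Continuous (fun p : E 2 × E 3 => ins (1 : ℝ) (-p.1)) :=
        continuous_ins.comp (by fun_prop : Continuous (fun p : E 2 × E 3 => ((1 : ℝ), -p.1)))
      fun_prop
    exact (h1.mul (h3 i)).mul (h3 j)
  have hs : ∀ ν : E 2, 0 < √(1 + ‖ν‖ ^ 2) := fun ν => Real.sqrt_pos.mpr (by positivity)
  -- integrability in x for fixed ν
  have hint : ∀ ν : E 2, Integrable (fun x => (∑ i, ∑ j, Bmat φ x i j * (ins 1 (-ν) : E 3) i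
      * (ins 1 (-ν) : E 3) j) ^ 2) := by
    intro ν
    have hco : Continuous (fun x => ∑ i, ∑ j, Bmat φ x i j * (ins 1 (-ν) : E 3) i
      * (ins 1 (-ν) : E 3) j) := by
      refine continuous_finsetSum _ (fun i _ => continuous_finsetSum _ (fun j _ => ?_))
      exact ((hBc i j).mul continuous_const).mul continuous_const
    refine Continuous.integrable_of_hasCompactSupport (hco.pow 2) ?_
    have hcs : HasCompactSupport (fun x => ∑ i, ∑ j, Bmat φ x i j * (ins 1 (-ν) : E 3) i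
      * (ins 1 (-ν) : E 3) j) := by
      have e1 : HasCompactSupport (fun x => (1 + ‖ν‖ ^ 2) * Lap φ x) :=
        (hasCompactSupport_Lap hc).mul_left
      have e2 : HasCompactSupport (fun x => D2 φ x (ins 1 (-ν)) (ins 1 (-ν))) :=
        hasCompactSupport_D2 hc _ _
      have e3 : (fun x => ∑ i, ∑ j, Bmat φ x i j * (ins 1 (-ν) : E 3) i
          * (ins 1 (-ν) : E 3) j) = fun x => (1 + ‖ν‖ ^ 2) * Lap φ x
            - D2 φ x (ins 1 (-ν)) (ins 1 (-ν)) := by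
        funext x
        exact Bmat_form φ x ν
      rw [e3]
      exact e1.sub e2
    exact hcs.comp_left (g := fun t : ℝ => t ^ 2) (by norm_num)
  have step1 : ∀ ν : E 2, ENNReal.ofReal
        ((∫ x, ((1 + ‖ν‖ ^ 2) * Lap φ x - D2 φ x (ins 1 (-ν)) (ins 1 (-ν))) ^ 2)
          / (√(1 + ‖ν‖ ^ 2)) ^ 7)
      = ∫⁻ x, ENNReal.ofReal ((∑ i, ∑ j, Bmat φ x i j * (ins 1 (-ν) : E 3) i
      * (ins 1 (-ν) : E 3) j) ^ 2 / (√(1 + ‖ν‖ ^ 2)) ^ 7) := by
    intro ν
    have hp : 0 < (√(1 + ‖ν‖ ^ 2)) ^ 7 := pow_pos (hs ν) 7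
    simp_rw [← Bmat_form]
    rw [← integral_div, ofReal_integral_eq_lintegral_ofReal ((hint ν).div_const _)
      (Filter.Eventually.of_forall fun x => by positivity)]
  simp_rw [step1]
  rw [lintegral_lintegral_swap]
  swap
  · refine Measurable.aemeasurable ?_
    refine ENNReal.measurable_ofReal.comp ?_
    refine (Continuous.measurable ?_)
    refine (hcont.pow 2).div ?_ (fun p => (pow_pos (hs p.1) 7).ne')
    fun_prop
  have step2 : ∀ x : E 3, ∫⁻ ν : E 2, ENNReal.ofReal ((∑ i, ∑ j, Bmat φ x i j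
      * (ins 1 (-ν) : E 3) i * (ins 1 (-ν) : E 3) j) ^ 2 / (√(1 + ‖ν‖ ^ 2)) ^ 7)
      = m0 * ENNReal.ofReal ((6 * (Lap φ x) ^ 2
        + 2 * ∑ i, ∑ j, (D2 φ x (e i) (e j)) ^ 2) / 15) := by
    intro x
    rw [moment_three (Bmat φ x) ?_, Bmat_sq]
    intro i j
    unfold Bmat
    rw [D2_symm h2 x (e i) (e j)]
    simp only [eq_comm]
  simp_rw [step2]
  have hint1 : Integrable (fun x => ∑ i, ∑ j, (D2 φ x (e i) (e j)) ^ 2) := by
    refine integrable_finsetSum _ (fun i _ => integrable_finsetSum _ (fun j _ => ?_))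
    refine Continuous.integrable_of_hasCompactSupport ((continuous_D2 h2 _ _).pow 2) ?_
    exact (hasCompactSupport_D2 hc (e i) (e j)).comp_left (g := fun t : ℝ => t ^ 2) (by norm_num)
  have hint2 : Integrable (fun x => (Lap φ x) ^ 2) := by
    refine Continuous.integrable_of_hasCompactSupport ((continuous_Lap h2).pow 2) ?_
    exact (hasCompactSupport_Lap hc).comp_left (g := fun t : ℝ => t ^ 2) (by norm_num)
  have hint3 : Integrable (fun x => (6 * (Lap φ x) ^ 2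
        + 2 * ∑ i, ∑ j, (D2 φ x (e i) (e j)) ^ 2) / 15) :=
    ((hint2.const_mul 6).add (hint1.const_mul 2)).div_const _
  rw [lintegral_const_mul', ← ofReal_integral_eq_lintegral_ofReal hint3
    (Filter.Eventually.of_forall fun x => by positivity)]
  · congr 2
    rw [integral_div, integral_add (hint2.const_mul 6) (hint1.const_mul 2),
      integral_const_mul, integral_const_mul, hess_sq hφ hc]
    ring
  · exact m0_ne_top

theorem key_three : KeyIneq 3 := by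
  intro Ω hΩ hb R hR hv φ hφ
  have hsm := hφ.smooth
  have hc := hφ.compact
  set a : ℝ := ∫ x, |φ x| with ha
  have ha0 : 0 ≤ a := integral_nonneg (fun x => abs_nonneg _)
  set L2 : ℝ := ∫ x, (Lap φ x) ^ 2 with hL2
  have hL20 : 0 ≤ L2 := integral_nonneg (fun x => sq_nonneg _)
  have hCB0 : 0 ≤ CB 3 R := by
    rw [CB_three R hR]
    positivity
  have hs : ∀ ν : E 2, 0 < √(1 + ‖ν‖ ^ 2) := fun ν => Real.sqrt_pos.mpr (by positivity)
  have hs2 : ∀ ν : E 2, √(1 + ‖ν‖ ^ 2) ^ 2 = 1 + ‖ν‖ ^ 2 :=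
    fun ν => Real.sq_sqrt (by positivity)
  set Q : E 2 → ℝ := fun ν =>
    ∫ x, ((1 + ‖ν‖ ^ 2) * Lap φ x - D2 φ x (ins 1 (-ν)) (ins 1 (-ν))) ^ 2 with hQ
  have hQ0 : ∀ ν, 0 ≤ Q ν := fun ν => integral_nonneg (fun x => sq_nonneg _)
  set ind : E 3 → ℝ≥0∞ := Ω.indicator (fun _ => 1) with hind
  have hindm : Measurable ind := measurable_const.indicator hΩ.measurableSet
  set F : E 2 → ℝ≥0∞ := fun ν =>
    ((ENNReal.ofReal (√(1 + ‖ν‖ ^ 2)))⁻¹ * ∫⁻ c : ℝ, (sec ind c ν) ^ 3) ^ (1 / 2 : ℝ) with hF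
  set G : E 2 → ℝ≥0∞ := fun ν =>
    (ENNReal.ofReal (Q ν / (√(1 + ‖ν‖ ^ 2)) ^ 7)) ^ (1 / 2 : ℝ) with hG
  have hFm : Measurable F := by
    refine Measurable.pow_const ?_ _
    have h1 : Measurable (fun ν : E 2 => (ENNReal.ofReal (√(1 + ‖ν‖ ^ 2)))⁻¹) := by
      fun_prop
    exact h1.mul (measurable_sec_cube hindm)
  have hpt : ∀ ν : E 2, ENNReal.ofReal (√192 * Real.pi * a)
        * (ENNReal.ofReal ((√(1 + ‖ν‖ ^ 2)) ^ 3))⁻¹ ≤ (F * G) ν := by
    intro ν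
    have hsν := hs ν
    set s := √(1 + ‖ν‖ ^ 2) with hsdef
    have hl := slice_three Ω hΩ hb φ hφ ν
    have hl' : ENNReal.ofReal (192 * Real.pi ^ 2 * a ^ 2)
        ≤ (∫⁻ c : ℝ, (sec ind c ν) ^ 3) * ENNReal.ofReal ((1 + ‖ν‖ ^ 2)⁻¹ * Q ν) := hl
    have h1 : ENNReal.ofReal (√192 * Real.pi * a) * (ENNReal.ofReal (s ^ 3))⁻¹
        = (ENNReal.ofReal (192 * Real.pi ^ 2 * a ^ 2) * ENNReal.ofReal ((s ^ 6)⁻¹)) ^ (1 / 2 : ℝ) := by
      rw [← ENNReal.ofReal_inv_of_pos (pow_pos hsν 3), ← ENNReal.ofReal_mul (by positivity),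
        ← ENNReal.ofReal_mul (by positivity),
        ENNReal.ofReal_rpow_of_nonneg (by positivity) (by norm_num)]
      congr 1
      rw [← Real.sqrt_eq_rpow]
      symm
      rw [Real.sqrt_eq_iff_mul_self_eq (by positivity) (by positivity)]
      have h192 : √192 * √192 = (192 : ℝ) := Real.mul_self_sqrt (by norm_num)
      symm
      calc √192 * Real.pi * a * (s ^ 3)⁻¹ * (√192 * Real.pi * a * (s ^ 3)⁻¹)
          = (√192 * √192) * Real.pi ^ 2 * a ^ 2 * ((s ^ 3)⁻¹ * (s ^ 3)⁻¹) := by ring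
        _ = 192 * Real.pi ^ 2 * a ^ 2 * (s ^ 6)⁻¹ := by
            rw [h192, ← mul_inv]
            ring
    rw [h1]
    simp only [Pi.mul_apply, hF, hG]
    rw [← ENNReal.mul_rpow_of_nonneg _ _ (by norm_num : (0:ℝ) ≤ 1 / 2)]
    refine ENNReal.rpow_le_rpow ?_ (by norm_num)
    calc ENNReal.ofReal (192 * Real.pi ^ 2 * a ^ 2) * ENNReal.ofReal ((s ^ 6)⁻¹)
        ≤ (∫⁻ c : ℝ, (sec ind c ν) ^ 3) * ENNReal.ofReal ((1 + ‖ν‖ ^ 2)⁻¹ * Q ν)
            * ENNReal.ofReal ((s ^ 6)⁻¹) := by gcongr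
      _ = (∫⁻ c : ℝ, (sec ind c ν) ^ 3) * (ENNReal.ofReal ((1 + ‖ν‖ ^ 2)⁻¹ * Q ν)
            * ENNReal.ofReal ((s ^ 6)⁻¹)) := by ring
      _ = (∫⁻ c : ℝ, (sec ind c ν) ^ 3) * (ENNReal.ofReal (s⁻¹) * ENNReal.ofReal (Q ν / s ^ 7)) := by
          congr 1
          rw [← ENNReal.ofReal_mul (by have := hQ0 ν; positivity),
            ← ENNReal.ofReal_mul (by positivity)]
          congr 1
          have h6 : (1 + ‖ν‖ ^ 2) = s ^ 2 := (hs2 ν).symm
          rw [h6]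
          field_simp
      _ = (ENNReal.ofReal s)⁻¹ * (∫⁻ c : ℝ, (sec ind c ν) ^ 3) * ENNReal.ofReal (Q ν / s ^ 7) := by
          rw [ENNReal.ofReal_inv_of_pos hsν]
          ring
  have hGm : AEMeasurable G volume := by
    refine AEMeasurable.pow_const ?_ _
    refine AEMeasurable.ennreal_ofReal ?_
    refine Measurable.aemeasurable ?_
    refine Measurable.div ?_ (by fun_prop)
    have h2 : ContDiff ℝ 2 φ := by exact_mod_cast contDiff_infty.1 hsm 2
    have hco : Continuous (fun p : E 2 × E 3 => ((1 + ‖p.1‖ ^ 2) * Lap φ p.2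
        - D2 φ p.2 (ins 1 (-p.1)) (ins 1 (-p.1))) ^ 2) := by
      have hexp : (fun p : E 2 × E 3 => D2 φ p.2 (ins 1 (-p.1)) (ins 1 (-p.1)))
          = fun p : E 2 × E 3 => ∑ i, ∑ j, D2 φ p.2 (e i) (e j)
            * (ins 1 (-p.1) : E 3) i * (ins 1 (-p.1) : E 3) j := by
        funext p
        exact D2_expand p.2 _
      have h5 : Continuous (fun p : E 2 × E 3 => D2 φ p.2 (ins 1 (-p.1)) (ins 1 (-p.1))) := by
        rw [hexp]
        refine continuous_finsetSum _ (fun i _ => continuous_finsetSum _ (fun j _ => ?_))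
        have h1 : Continuous (fun p : E 2 × E 3 => D2 φ p.2 (e i) (e j)) :=
          (continuous_D2 h2 (e i) (e j)).comp continuous_snd
        have h3 : ∀ i : Fin 3, Continuous (fun p : E 2 × E 3 => (ins 1 (-p.1) : E 3) i) := by
          intro i
          have h4 : Continuous (fun p : E 2 × E 3 => ins (1 : ℝ) (-p.1)) :=
            continuous_ins.comp (by fun_prop : Continuous (fun p : E 2 × E 3 => ((1 : ℝ), -p.1)))
          fun_prop
        exact (h1.mul (h3 i)).mul (h3 j)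
      have h6 : Continuous (fun p : E 2 × E 3 => Lap φ p.2) := (continuous_Lap h2).comp continuous_snd
      exact (((by fun_prop : Continuous (fun p : E 2 × E 3 => 1 + ‖p.1‖ ^ 2)).mul h6).sub h5).pow 2
    exact hco.stronglyMeasurable.integral_prod_right'.measurable
  have hhold := ENNReal.lintegral_mul_le_Lp_mul_Lq (volume : Measure (E 2))
    Real.HolderConjugate.two_two hFm.aemeasurable hGm
  have hF2 : ∫⁻ ν, F ν ^ (2 : ℝ) = Tg ind := by
    unfold Tg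
    refine lintegral_congr (fun ν => ?_)
    simp only [hF]
    rw [← ENNReal.rpow_mul]
    norm_num
  have hG2 : ∫⁻ ν, G ν ^ (2 : ℝ) = m0 * ENNReal.ofReal (8 / 15 * L2) := by
    rw [← planes_average hsm hc]
    refine lintegral_congr (fun ν => ?_)
    simp only [hG]
    rw [← ENNReal.rpow_mul]
    norm_num
    rfl
  rw [hF2, hG2] at hhold
  have hlow : ENNReal.ofReal (√192 * Real.pi * a) * m0 ≤ ∫⁻ ν, (F * G) ν := by
    refine le_trans (le_of_eq ?_) (lintegral_mono hpt)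
    rw [lintegral_const_mul' _ _ ENNReal.ofReal_ne_top]
    rfl
  have hT : Tg ind ≤ m0 * ENNReal.ofReal (360 * Real.pi ^ 2 * CB 3 R) := by
    rw [← Tg_ball R hR]
    exact Tg_sets_le Ω hΩ hb R hR hv
  have hmain : ENNReal.ofReal (√192 * Real.pi * a) * m0
      ≤ (m0 * ENNReal.ofReal (360 * Real.pi ^ 2 * CB 3 R)) ^ (1 / 2 : ℝ)
        * (m0 * ENNReal.ofReal (8 / 15 * L2)) ^ (1 / 2 : ℝ) := by
    refine (hlow.trans hhold).trans ?_
    gcongr
  have hm0r : m0 ^ (1 / 2 : ℝ) * m0 ^ (1 / 2 : ℝ) = m0 := by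
    rw [← ENNReal.rpow_add _ _ m0_ne_zero m0_ne_top]
    norm_num
  rw [ENNReal.mul_rpow_of_nonneg _ _ (by norm_num : (0:ℝ) ≤ 1 / 2),
    ENNReal.mul_rpow_of_nonneg _ _ (by norm_num : (0:ℝ) ≤ 1 / 2),
    show m0 ^ (1 / 2 : ℝ) * ENNReal.ofReal (360 * Real.pi ^ 2 * CB 3 R) ^ (1 / 2 : ℝ)
      * (m0 ^ (1 / 2 : ℝ) * ENNReal.ofReal (8 / 15 * L2) ^ (1 / 2 : ℝ))
      = (ENNReal.ofReal (360 * Real.pi ^ 2 * CB 3 R) ^ (1 / 2 : ℝ)
        * ENNReal.ofReal (8 / 15 * L2) ^ (1 / 2 : ℝ)) * (m0 ^ (1 / 2 : ℝ) * m0 ^ (1 / 2 : ℝ)) by ring,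
    hm0r, ENNReal.mul_le_mul_iff_left m0_ne_zero m0_ne_top,
    ← ENNReal.mul_rpow_of_nonneg _ _ (by norm_num : (0:ℝ) ≤ 1 / 2),
    ← ENNReal.ofReal_mul (by positivity),
    ENNReal.ofReal_rpow_of_nonneg (by positivity) (by norm_num),
    ENNReal.ofReal_le_ofReal_iff (by positivity), ← Real.sqrt_eq_rpow] at hmain
  have h3 := pow_le_pow_left₀ (by positivity) hmain 2
  rw [Real.sq_sqrt (by positivity)] at h3
  have h192 : √192 ^ 2 = (192 : ℝ) := Real.sq_sqrt (by norm_num)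
  have h4 : 192 * Real.pi ^ 2 * a ^ 2 ≤ 192 * Real.pi ^ 2 * (CB 3 R * L2) := by
    calc 192 * Real.pi ^ 2 * a ^ 2 = (√192 * Real.pi * a) ^ 2 := by
          rw [mul_pow, mul_pow, h192]
      _ ≤ _ := h3
      _ = _ := by ring
  exact le_of_mul_le_mul_left h4 (by positivity)

end Pool.Agent.Lib.MP_d3943d_an
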