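import Pool.Agent.Lib.MP_d3943d_an.PlateTwo

set_option autoImplicit false

/-!
The key inequality in the plane.
-/

namespace Pool.Agent.Lib.MP_d3943d_an

open MeasureTheory Set
open scoped ENNReal ContDiff Pointwise

theorem CB_two (R : ℝ) (hR : 0 < R) : CB 2 R = Real.pi * R ^ 6 / 192 := by
  unfold CB
  have h1 : ∫ x in Metric.ball (0 : E 2) R,
        (R ^ 2 - ‖x‖ ^ 2) ^ 2 / (8 * ((2 : ℕ) : ℝ) * (((2 : ℕ) : ℝ) + 2)) =
      ∫ x : E 2, (fun r : ℝ => if r < R then (R ^ 2 - r ^ 2) ^ 2 / 64 else 0) ‖x‖ := by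
    rw [← integral_indicator Metric.isOpen_ball.measurableSet]
    congr 1
    funext x
    simp only [indicator, Metric.mem_ball, dist_zero_right]
    split_ifs
    · norm_num
    · rfl
  rw [h1, integral_fun_norm_addHaar volume
    (fun r : ℝ => if r < R then (R ^ 2 - r ^ 2) ^ 2 / 64 else 0)]
  have h2 : (volume : Measure (E 2)).real (Metric.ball 0 1) = Real.pi := by
    rw [measureReal_def, EuclideanSpace.volume_ball_fin_two]
    simp [Real.pi_nonneg]
  rw [h2]
  have h3 : ∫ y in Ioi (0 : ℝ), y ^ (Module.finrank ℝ (E 2) - 1) •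
        (if y < R then (R ^ 2 - y ^ 2) ^ 2 / 64 else 0) =
      ∫ y in (0 : ℝ)..R, y * ((R ^ 2 - y ^ 2) ^ 2 / 64) := by
    rw [intervalIntegral.integral_of_le hR.le, integral_Ioc_eq_integral_Ioo,
      ← integral_indicator measurableSet_Ioi, ← integral_indicator measurableSet_Ioo]
    congr 1
    funext y
    simp only [indicator, mem_Ioi, mem_Ioo, finrank_euclideanSpace, Fintype.card_fin, smul_eq_mul]
    by_cases a : 0 < y
    · by_cases b : y < R
      · simp [a, b]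
      · simp [a, b]
    · simp [a]
  rw [h3]
  have h4 : ∫ y in (0 : ℝ)..R, y * ((R ^ 2 - y ^ 2) ^ 2 / 64) = R ^ 6 / 384 := by
    have hd : ∀ y ∈ uIcc (0 : ℝ) R, HasDerivAt (fun y : ℝ => -(R ^ 2 - y ^ 2) ^ 3 / 384)
        (y * ((R ^ 2 - y ^ 2) ^ 2 / 64)) y := by
      intro y _
      have a1 : HasDerivAt (fun y : ℝ => R ^ 2 - y ^ 2) (-(2 * y)) y := by
        have := ((hasDerivAt_id y).pow 2).const_sub (R ^ 2)
        simpa using this
      have a2 := ((a1.pow 3).neg).div_const 384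
      have a3 : y * ((R ^ 2 - y ^ 2) ^ 2 / 64) =
          -(((3 : ℕ) : ℝ) * (R ^ 2 - y ^ 2) ^ (3 - 1) * -(2 * y)) / 384 := by
        push_cast
        ring
      rw [a3]
      exact a2
    rw [intervalIntegral.integral_eq_sub_of_hasDerivAt hd]
    · ring
    · exact (by fun_prop : Continuous (fun y : ℝ => y * ((R ^ 2 - y ^ 2) ^ 2 / 64))).intervalIntegrable _ _
  rw [h4]
  simp only [finrank_euclideanSpace, Fintype.card_fin, smul_eq_mul, nsmul_eq_mul]
  push_cast
  ring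

theorem key_two : KeyIneq 2 := by
  intro Ω hΩ hb R hR hv φ hφ
  have h := plate_two Ω hΩ hb φ hφ
  rw [CB_two R hR]
  have h3 : 0 ≤ ∫ x, (Lap φ x) ^ 2 := integral_nonneg (fun y => sq_nonneg _)
  have hvol : (volume Ω).toReal ≤ Real.pi * R ^ 2 := by
    have h5 : (volume (Metric.ball (0 : E 2) R)).toReal = Real.pi * R ^ 2 := by
      rw [EuclideanSpace.volume_ball_fin_two, ENNReal.toReal_mul, ENNReal.toReal_pow,
        ENNReal.toReal_ofReal hR.le]
      rw [ENNReal.toReal_ofReal Real.pi_nonneg]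
      ring
    rw [← h5]
    exact ENNReal.toReal_mono (measure_ball_lt_top.ne) hv
  have h0 : 0 ≤ (volume Ω).toReal := ENNReal.toReal_nonneg
  have h6 : (volume Ω).toReal ^ 3 ≤ (Real.pi * R ^ 2) ^ 3 := pow_le_pow_left₀ h0 hvol 3
  have h7 : 192 * Real.pi ^ 2 * (∫ x, |φ x|) ^ 2 ≤
      (Real.pi * R ^ 2) ^ 3 * ∫ x, (Lap φ x) ^ 2 :=
    h.trans (mul_le_mul_of_nonneg_right h6 h3)
  have hpi := Real.pi_pos
  have h8 : 192 * Real.pi ^ 2 * (∫ x, |φ x|) ^ 2 ≤
      192 * Real.pi ^ 2 * (Real.pi * R ^ 6 / 192 * ∫ x, (Lap φ x) ^ 2) := by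
    refine h7.trans (le_of_eq ?_)
    ring
  exact le_of_mul_le_mul_left h8 (by positivity)

end Pool.Agent.Lib.MP_d3943d_an
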