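import Pool.Agent.Lib.MP_d3943d_an.LinesMX
import Pool.Agent.Lib.MP_d3943d_an.BeamOpen

set_option autoImplicit false

/-!
Slicing by parallel lines.
-/

namespace Pool.Agent.Lib.MP_d3943d_an

open MeasureTheory Set
open scoped ENNReal ContDiff Pointwise

theorem ofReal_integral_le {α : Type*} [MeasurableSpace α] {μ : Measure α} {f : α → ℝ}
    (hf0 : ∀ x, 0 ≤ f x) (hfm : AEStronglyMeasurable f μ) :
    ENNReal.ofReal (∫ x, f x ∂μ) ≤ ∫⁻ x, ENNReal.ofReal (f x) ∂μ := by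
  rw [integral_eq_lintegral_of_nonneg_ae (Filter.Eventually.of_forall hf0) hfm]
  exact ENNReal.ofReal_toReal_le

theorem ins_line {n : ℕ} (s : ℝ) (y : E n) : ins s y = ins 0 y + s • (e 0 : E (n + 1)) := by
  rw [← ins_one_zero, ← ins_smul, ← ins_add]
  simp

theorem isTest_line {n : ℕ} {Ω : Set (E (n + 1))} {φ : E (n + 1) → ℝ} (hφ : IsTest φ Ω) (y : E n) :
    ContDiff ℝ 2 (fun s : ℝ => φ (ins s y)) ∧ HasCompactSupport (fun s : ℝ => φ (ins s y)) ∧
      tsupport (fun s : ℝ => φ (ins s y)) ⊆ {s : ℝ | ins s y ∈ Ω} := by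
  have hsm := hφ.smooth
  have h2 : ContDiff ℝ 2 φ := by exact_mod_cast contDiff_infty.1 hsm 2
  have hfe : (fun s : ℝ => ins s y) = fun s : ℝ => ins 0 y + s • (e 0 : E (n + 1)) :=
    funext fun s => ins_line s y
  have hcont : Continuous (fun s : ℝ => ins s y) := by
    rw [hfe]
    fun_prop
  have hcd : ContDiff ℝ 2 (fun s : ℝ => ins s y) := by
    rw [hfe]
    fun_prop
  refine ⟨h2.comp hcd, ?_, ?_⟩
  · -- compact support
    have hK := hφ.compact
    obtain ⟨ρ, hρ⟩ := hK.isCompact.isBounded.subset_closedBall (0 : E (n + 1))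
    refine HasCompactSupport.intro (K := Icc (-ρ) ρ) isCompact_Icc (fun s hs => ?_)
    by_contra hne
    have hmem : ins s y ∈ tsupport φ := subset_tsupport _ hne
    have h1 := hρ hmem
    rw [mem_closedBall_zero_iff] at h1
    have h3 : |s| ≤ ‖ins s y‖ := by
      have h4 := norm_ins_sq s y
      have h5 : s ^ 2 ≤ ‖ins s y‖ ^ 2 := by rw [h4]; nlinarith [sq_nonneg ‖y‖]
      exact abs_le_of_sq_le_sq h5 (norm_nonneg _)
    apply hs
    rw [mem_Icc, ← abs_le]
    exact h3.trans h1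
  · have h1 : tsupport (fun s : ℝ => φ (ins s y)) ⊆ (fun s : ℝ => ins s y) ⁻¹' (tsupport φ) := by
      refine closure_minimal ?_ ((isClosed_tsupport φ).preimage hcont)
      intro s hs
      exact subset_tsupport _ hs
    exact h1.trans (preimage_mono hφ.supp)

theorem lines_e0 {n : ℕ} (Ω : Set (E (n + 1))) (hΩ : IsOpen Ω) (hb : Bornology.IsBounded Ω)
    (φ : E (n + 1) → ℝ) (hφ : IsTest φ Ω) :
    ENNReal.ofReal (72 * (∫ x, |φ x|) ^ 2)
      ≤ MX Ω (e 0) * ENNReal.ofReal (∫ x, (D2 φ x (e 0) (e 0)) ^ 2) := by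
  have hsm := hφ.smooth
  have hc := hφ.compact
  have h2 : ContDiff ℝ 2 φ := by exact_mod_cast contDiff_infty.1 hsm 2
  have hφi : Integrable φ := h2.continuous.integrable_of_hasCompactSupport hc
  set m : E n → ℝ≥0∞ := fun y => ∫⁻ s in {s : ℝ | ins s y ∈ Ω}, ∫⁻ r in {s : ℝ | ins s y ∈ Ω},
      ENNReal.ofReal (|s - r| ^ 3) with hm
  set A : E n → ℝ≥0∞ := fun y => ∫⁻ s : ℝ, ENNReal.ofReal |φ (ins s y)| with hA
  set D : E n → ℝ≥0∞ := fun y => ∫⁻ s : ℝ, ENNReal.ofReal ((D2 φ (ins s y) (e 0) (e 0)) ^ 2) with hD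
  have hinsm : Measurable (fun q : E n × ℝ => ins q.2 q.1) :=
    (continuous_ins.comp (by fun_prop : Continuous (fun q : E n × ℝ => (q.2, q.1)))).measurable
  have hD2c := continuous_D2 h2 (e 0 : E (n + 1)) (e 0)
  have hAm : Measurable A := by
    have h1 : Measurable (fun q : E n × ℝ => ENNReal.ofReal |φ (ins q.2 q.1)|) := by
      refine ENNReal.measurable_ofReal.comp ?_
      exact (h2.continuous.abs.measurable).comp hinsm
    exact h1.lintegral_prod_right'
  have hDm : Measurable D := by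
    have h1 : Measurable (fun q : E n × ℝ =>
        ENNReal.ofReal ((D2 φ (ins q.2 q.1) (e 0) (e 0)) ^ 2)) := by
      refine ENNReal.measurable_ofReal.comp ?_
      exact ((hD2c.pow 2).measurable).comp hinsm
    exact h1.lintegral_prod_right'
  have hmm : Measurable m := by
    have h0 : MeasurableSet {q : E n × ℝ | ins q.2 q.1 ∈ Ω} := hinsm hΩ.measurableSet
    have h1 : Measurable (fun q : (E n × ℝ) × ℝ =>
        {q : E n × ℝ | ins q.2 q.1 ∈ Ω}.indicator (fun _ => (1 : ℝ≥0∞)) q.1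
        * ({q : E n × ℝ | ins q.2 q.1 ∈ Ω}.indicator (fun _ => (1 : ℝ≥0∞)) (q.1.1, q.2)
        * ENNReal.ofReal (|q.1.2 - q.2| ^ 3))) := by
      refine Measurable.mul ?_ (Measurable.mul ?_ (by fun_prop))
      · exact (measurable_const.indicator h0).comp measurable_fst
      · exact (measurable_const.indicator h0).comp (by fun_prop)
    have h3a : Measurable (fun p : E n × ℝ => ∫⁻ r : ℝ,
        {q : E n × ℝ | ins q.2 q.1 ∈ Ω}.indicator (fun _ => (1 : ℝ≥0∞)) p
        * ({q : E n × ℝ | ins q.2 q.1 ∈ Ω}.indicator (fun _ => (1 : ℝ≥0∞)) (p.1, r)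
        * ENNReal.ofReal (|p.2 - r| ^ 3))) := h1.lintegral_prod_right'
    have h3 : Measurable (fun y : E n => ∫⁻ s : ℝ, ∫⁻ r : ℝ,
        {q : E n × ℝ | ins q.2 q.1 ∈ Ω}.indicator (fun _ => (1 : ℝ≥0∞)) (y, s)
        * ({q : E n × ℝ | ins q.2 q.1 ∈ Ω}.indicator (fun _ => (1 : ℝ≥0∞)) (y, r)
        * ENNReal.ofReal (|s - r| ^ 3))) := h3a.lintegral_prod_right'
    convert h3 using 1
    funext y
    simp only [hm]
    have hOy : MeasurableSet {s : ℝ | ins s y ∈ Ω} := by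
      have : Measurable (fun s : ℝ => ins s y) := hinsm.comp (by fun_prop : Measurable fun s : ℝ => (y, s))
      exact this hΩ.measurableSet
    rw [← lintegral_indicator hOy]
    refine lintegral_congr (fun s => ?_)
    by_cases hs : ins s y ∈ Ω
    · rw [indicator_of_mem (by exact hs : s ∈ {s : ℝ | ins s y ∈ Ω}), ← lintegral_indicator hOy]
      refine lintegral_congr (fun r => ?_)
      rw [indicator_of_mem (by exact hs : (y, s) ∈ {q : E n × ℝ | ins q.2 q.1 ∈ Ω}), one_mul]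
      by_cases hr : ins r y ∈ Ω
      · rw [indicator_of_mem (by exact hr : r ∈ {s : ℝ | ins s y ∈ Ω}),
          indicator_of_mem (by exact hr : (y, r) ∈ {q : E n × ℝ | ins q.2 q.1 ∈ Ω}), one_mul]
      · rw [indicator_of_notMem (by exact hr : r ∉ {s : ℝ | ins s y ∈ Ω}),
          indicator_of_notMem (by exact hr : (y, r) ∉ {q : E n × ℝ | ins q.2 q.1 ∈ Ω}), zero_mul]
    · rw [indicator_of_notMem (by exact hs : s ∉ {s : ℝ | ins s y ∈ Ω})]
      simp_rw [indicator_of_notMem (by exact hs : (y, s) ∉ {q : E n × ℝ | ins q.2 q.1 ∈ Ω})]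
      simp
  -- pointwise inequality
  have hpt : ∀ y, ENNReal.ofReal 72 * A y ^ 2 ≤ m y * D y := by
    intro y
    obtain ⟨hv, hvc, hvs⟩ := isTest_line hφ y
    have hfe : (fun s : ℝ => ins s y) = fun s : ℝ => ins 0 y + s • (e 0 : E (n + 1)) :=
      funext fun s => ins_line s y
    have hcont : Continuous (fun s : ℝ => ins s y) := by
      rw [hfe]
      fun_prop
    have hOo : IsOpen {s : ℝ | ins s y ∈ Ω} := hΩ.preimage hcont
    have hOb : Bornology.IsBounded {s : ℝ | ins s y ∈ Ω} := by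
      obtain ⟨ρ, hρ⟩ := hb.subset_closedBall (0 : E (n + 1))
      refine (Metric.isBounded_closedBall (x := (0 : ℝ)) (r := ρ)).subset (fun s hs => ?_)
      have h1 := hρ hs
      rw [mem_closedBall_zero_iff] at h1 ⊢
      have h4 := norm_ins_sq s y
      have h5 : s ^ 2 ≤ ‖ins s y‖ ^ 2 := by rw [h4]; nlinarith [sq_nonneg ‖y‖]
      exact (abs_le_of_sq_le_sq h5 (norm_nonneg _)).trans h1
    have hbeam := beam_open _ hOo hOb _ hv hvc hvs
    have hdd : ∀ s, deriv (deriv (fun s : ℝ => φ (ins s y))) s = D2 φ (ins s y) (e 0) (e 0) := by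
      intro s
      have h6 := deriv_line h2 (ins 0 y) (e 0) s
      have h6' : (fun r : ℝ => φ (ins 0 y + r • (e 0 : E (n + 1)))) = fun r : ℝ => φ (ins r y) := by
        funext r
        rw [← ins_line]
      rw [h6', ← ins_line] at h6
      exact h6
    simp_rw [hdd] at hbeam
    have hAy : A y = ENNReal.ofReal (∫ s, |φ (ins s y)|) := by
      rw [ofReal_integral_eq_lintegral_ofReal]
      · exact (hv.continuous.abs).integrable_of_hasCompactSupport (hvc.abs)
      · exact Filter.Eventually.of_forall fun s => abs_nonneg _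
    have hDy : ENNReal.ofReal (∫ s, (D2 φ (ins s y) (e 0) (e 0)) ^ 2) ≤ D y := by
      refine ofReal_integral_le (fun s => sq_nonneg _) ?_
      exact ((hD2c.comp hcont).pow 2).aestronglyMeasurable
    have hmy : ENNReal.ofReal (∫ s in {s : ℝ | ins s y ∈ Ω}, ∫ r in {s : ℝ | ins s y ∈ Ω},
        |s - r| ^ 3) ≤ m y := by
      have hcm : Continuous (fun p : ℝ × ℝ => |p.1 - p.2| ^ 3) := by fun_prop
      refine (ofReal_integral_le (fun s => integral_nonneg fun r => by positivity) ?_).trans ?_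
      · exact (hcm.stronglyMeasurable.integral_prod_right').aestronglyMeasurable
      · refine lintegral_mono (fun s => ?_)
        refine ofReal_integral_le (fun r => by positivity) ?_
        exact (by fun_prop : Continuous (fun r : ℝ => |s - r| ^ 3)).aestronglyMeasurable
    have h7 : (0 : ℝ) ≤ ∫ s, |φ (ins s y)| := integral_nonneg fun s => abs_nonneg _
    have h8 : (0 : ℝ) ≤ ∫ s in {s : ℝ | ins s y ∈ Ω}, ∫ r in {s : ℝ | ins s y ∈ Ω},
        |s - r| ^ 3 := integral_nonneg fun s => integral_nonneg fun r => by positivity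
    calc ENNReal.ofReal 72 * A y ^ 2
        = ENNReal.ofReal (72 * (∫ s, |φ (ins s y)|) ^ 2) := by
          rw [hAy, ← ENNReal.ofReal_pow h7, ← ENNReal.ofReal_mul (by norm_num)]
      _ ≤ ENNReal.ofReal ((∫ s in {s : ℝ | ins s y ∈ Ω}, ∫ r in {s : ℝ | ins s y ∈ Ω},
            |s - r| ^ 3) * ∫ s, (D2 φ (ins s y) (e 0) (e 0)) ^ 2) := ENNReal.ofReal_le_ofReal hbeam
      _ = ENNReal.ofReal (∫ s in {s : ℝ | ins s y ∈ Ω}, ∫ r in {s : ℝ | ins s y ∈ Ω},
            |s - r| ^ 3) * ENNReal.ofReal (∫ s, (D2 φ (ins s y) (e 0) (e 0)) ^ 2) :=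
          ENNReal.ofReal_mul h8
      _ ≤ m y * D y := by gcongr
  -- square roots
  have hpt2 : ∀ y, ENNReal.ofReal 72 ^ (1 / 2 : ℝ) * A y
      ≤ ((fun y => m y ^ (1 / 2 : ℝ)) * (fun y => D y ^ (1 / 2 : ℝ))) y := by
    intro y
    have h := ENNReal.rpow_le_rpow (hpt y) (by norm_num : (0 : ℝ) ≤ 1 / 2)
    rw [ENNReal.mul_rpow_of_nonneg _ _ (by norm_num : (0:ℝ) ≤ 1 / 2),
      ENNReal.mul_rpow_of_nonneg _ _ (by norm_num : (0:ℝ) ≤ 1 / 2)] at h
    have h9 : (A y ^ 2) ^ (1 / 2 : ℝ) = A y := by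
      rw [← ENNReal.rpow_natCast, ← ENNReal.rpow_mul]
      norm_num
    rw [h9] at h
    exact h
  have hhold := ENNReal.lintegral_mul_le_Lp_mul_Lq (volume : Measure (E n))
    Real.HolderConjugate.two_two (hmm.pow_const (1 / 2 : ℝ)).aemeasurable
    (hDm.pow_const (1 / 2 : ℝ)).aemeasurable
  have hm2 : ∫⁻ y, (m y ^ (1 / 2 : ℝ)) ^ (2 : ℝ) = MX Ω (e 0) := by
    rw [MX_e0 Ω hΩ.measurableSet]
    refine lintegral_congr (fun y => ?_)
    rw [← ENNReal.rpow_mul, show (1 / 2 : ℝ) * 2 = 1 by norm_num, ENNReal.rpow_one]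
  have hD2 : ∫⁻ y, (D y ^ (1 / 2 : ℝ)) ^ (2 : ℝ)
      = ENNReal.ofReal (∫ x, (D2 φ x (e 0) (e 0)) ^ 2) := by
    rw [ofReal_integral_eq_lintegral_ofReal]
    · have h12 : Measurable (fun x : E (n + 1) => ENNReal.ofReal ((D2 φ x (e 0) (e 0)) ^ 2)) :=
        ENNReal.measurable_ofReal.comp (hD2c.pow 2).measurable
      rw [lintegral_ins _ h12]
      refine lintegral_congr (fun y => ?_)
      rw [← ENNReal.rpow_mul, show (1 / 2 : ℝ) * 2 = 1 by norm_num, ENNReal.rpow_one]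
    · refine Continuous.integrable_of_hasCompactSupport (hD2c.pow 2) ?_
      exact (hasCompactSupport_D2 hc _ _).comp_left (g := fun t : ℝ => t ^ 2) (by norm_num)
    · exact Filter.Eventually.of_forall fun s => sq_nonneg _
  have hA1 : ∫⁻ y, A y = ENNReal.ofReal (∫ x, |φ x|) := by
    have h12 : Measurable (fun x : E (n + 1) => ENNReal.ofReal |φ x|) :=
      ENNReal.measurable_ofReal.comp h2.continuous.abs.measurable
    rw [ofReal_integral_eq_lintegral_ofReal hφi.abs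
      (Filter.Eventually.of_forall fun s => abs_nonneg _), lintegral_ins _ h12]
  rw [hm2, hD2] at hhold
  have hfin : ENNReal.ofReal 72 ^ (1 / 2 : ℝ) * ENNReal.ofReal (∫ x, |φ x|)
      ≤ MX Ω (e 0) ^ (1 / 2 : ℝ)
        * ENNReal.ofReal (∫ x, (D2 φ x (e 0) (e 0)) ^ 2) ^ (1 / 2 : ℝ) := by
    rw [← hA1, ← lintegral_const_mul _ hAm]
    exact (lintegral_mono hpt2).trans hhold
  have h10 := ENNReal.rpow_le_rpow hfin (by norm_num : (0 : ℝ) ≤ 2)
  rw [ENNReal.mul_rpow_of_nonneg _ _ (by norm_num : (0:ℝ) ≤ 2),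
      ENNReal.mul_rpow_of_nonneg _ _ (by norm_num : (0:ℝ) ≤ 2), ← ENNReal.rpow_mul,
      ← ENNReal.rpow_mul, ← ENNReal.rpow_mul] at h10
  norm_num at h10
  rw [ENNReal.ofReal_mul (by norm_num), ENNReal.ofReal_pow (integral_nonneg fun s => abs_nonneg _)]
  have h11 : ENNReal.ofReal 72 = 72 := by norm_num
  rw [h11]
  exact h10

theorem lines {n : ℕ} (Ω : Set (E (n + 1))) (hΩ : IsOpen Ω) (hb : Bornology.IsBounded Ω)
    (φ : E (n + 1) → ℝ) (hφ : IsTest φ Ω) (X : E (n + 1)) (hX : X ≠ 0) :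
    ENNReal.ofReal (72 * (∫ x, |φ x|) ^ 2)
      ≤ MX Ω X * ENNReal.ofReal (∫ x, (D2 φ x X X) ^ 2) := by
  have hsm := hφ.smooth
  have h2 : ContDiff ℝ 2 φ := by exact_mod_cast contDiff_infty.1 hsm 2
  have hr : 0 < ‖X‖ := norm_pos_iff.mpr hX
  set r := ‖X‖ with hrdef
  obtain ⟨g, hg⟩ := exists_isometry (r⁻¹ • X) (by
    rw [norm_smul, norm_inv, Real.norm_of_nonneg hr.le]
    exact inv_mul_cancel₀ hr.ne')
  have hXg : X = r • g (e 0) := by
    rw [hg, smul_smul, mul_inv_cancel₀ hr.ne', one_smul]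
  have hgc : Continuous g := g.continuous
  have htest : IsTest (fun x => φ (g x)) (g ⁻¹' Ω) := by
    refine ⟨hsm.comp g.contDiff, ?_, ?_⟩
    · exact hφ.compact.comp_homeomorph g.toHomeomorph
    · have h1 : tsupport (fun x => φ (g x)) ⊆ g ⁻¹' (tsupport φ) := by
        refine closure_minimal ?_ ((isClosed_tsupport φ).preimage hgc)
        intro s hs
        exact subset_tsupport _ hs
      exact h1.trans (preimage_mono hφ.supp)
  have hgb : Bornology.IsBounded (g ⁻¹' Ω) := by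
    have : g ⁻¹' Ω = g.symm '' Ω := by
      ext x
      simp only [mem_preimage, mem_image]
      constructor
      · intro hx
        exact ⟨g x, hx, g.symm_apply_apply x⟩
      · rintro ⟨z, hz, rfl⟩
        rwa [g.apply_symm_apply]
    rw [this]
    exact g.symm.lipschitz.isBounded_image hb
  have hl := lines_e0 (g ⁻¹' Ω) (hΩ.preimage hgc) hgb _ htest
  have h3 : ∫ x, |φ (g x)| = ∫ x, |φ x| := integral_isom g (fun x => |φ x|)
  have h4 : ∫ x, (D2 (fun x => φ (g x)) x (e 0) (e 0)) ^ 2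
      = ∫ x, (D2 φ x (g (e 0)) (g (e 0))) ^ 2 := by
    simp_rw [D2_comp h2 g]
    exact integral_isom g (fun x => (D2 φ x (g (e 0)) (g (e 0))) ^ 2)
  rw [h3, h4, MX_isom g Ω hΩ.measurableSet] at hl
  refine hl.trans (le_of_eq ?_)
  rw [hXg, MX_smul Ω _ r hr]
  have h5 : ∀ x, (D2 φ x (r • g (e 0)) (r • g (e 0))) ^ 2
      = r ^ 4 * (D2 φ x (g (e 0)) (g (e 0))) ^ 2 := by
    intro x
    unfold D2
    simp only [map_smul, ContinuousLinearMap.smul_apply, smul_eq_mul]
    ring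
  simp_rw [h5]
  rw [integral_const_mul, ENNReal.ofReal_mul (by positivity)]
  have h6 : ENNReal.ofReal ((r ^ 4)⁻¹) * ENNReal.ofReal (r ^ 4) = 1 := by
    rw [← ENNReal.ofReal_mul (by positivity), inv_mul_cancel₀ (by positivity), ENNReal.ofReal_one]
  calc MX Ω (g (e 0)) * ENNReal.ofReal (∫ x, (D2 φ x (g (e 0)) (g (e 0))) ^ 2)
      = (ENNReal.ofReal ((r ^ 4)⁻¹) * ENNReal.ofReal (r ^ 4))
        * (MX Ω (g (e 0)) * ENNReal.ofReal (∫ x, (D2 φ x (g (e 0)) (g (e 0))) ^ 2)) := by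
        rw [h6, one_mul]
    _ = _ := by ring

end Pool.Agent.Lib.MP_d3943d_an
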