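import Pool.Agent.Lib.MP_d3943d_an.Hess

set_option autoImplicit false

/-!
The line functional.
-/

namespace Pool.Agent.Lib.MP_d3943d_an

open MeasureTheory Set
open scoped ENNReal ContDiff

/-- The line functional. -/
noncomputable def MX {N : ℕ} (Ω : Set (E N)) (X : E N) : ℝ≥0∞ :=
  ∫⁻ x in Ω, ∫⁻ τ : ℝ, ENNReal.ofReal (|τ| ^ 3) * Ω.indicator (fun _ => 1) (x + τ • X)

theorem MX_isom {N : ℕ} (g : E N ≃ₗᵢ[ℝ] E N) (Ω : Set (E N)) (hΩ : MeasurableSet Ω) (X : E N) :
    MX (g ⁻¹' Ω) X = MX Ω (g X) := by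
  have hg : MeasurableSet (g ⁻¹' Ω) := g.continuous.measurable hΩ
  unfold MX
  rw [← lintegral_indicator hg, ← lintegral_indicator hΩ,
    ← lintegral_isom g (Ω.indicator _)]
  refine lintegral_congr fun x => ?_
  by_cases hx : g x ∈ Ω
  · rw [indicator_of_mem (show x ∈ g ⁻¹' Ω from hx), indicator_of_mem hx]
    refine lintegral_congr fun τ => ?_
    congr 1
    by_cases hx2 : g (x + τ • X) ∈ Ω
    · rw [indicator_of_mem (show x + τ • X ∈ g ⁻¹' Ω from hx2), indicator_of_mem]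
      rwa [map_add, map_smul] at hx2
    · rw [indicator_of_notMem (show x + τ • X ∉ g ⁻¹' Ω from hx2), indicator_of_notMem]
      rwa [map_add, map_smul] at hx2
  · rw [indicator_of_notMem (show x ∉ g ⁻¹' Ω from hx), indicator_of_notMem hx]

theorem MX_smul {N : ℕ} (Ω : Set (E N)) (X : E N) (r : ℝ) (hr : 0 < r) :
    MX Ω (r • X) = ENNReal.ofReal ((r ^ 4)⁻¹) * MX Ω X := by
  unfold MX
  rw [← lintegral_const_mul' _ _ ENNReal.ofReal_ne_top]
  refine lintegral_congr fun x => ?_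
  have hemb : MeasurableEmbedding (fun τ : ℝ => r * τ) :=
    (Homeomorph.mulLeft₀ r hr.ne').measurableEmbedding
  have h1 : ∀ τ : ℝ, ENNReal.ofReal (|τ| ^ 3) * Ω.indicator (fun _ => 1) (x + τ • r • X)
      = (fun t : ℝ => ENNReal.ofReal ((r ^ 3)⁻¹ * |t| ^ 3) *
          Ω.indicator (fun _ => 1) (x + t • X)) (r * τ) := by
    intro τ
    simp only
    rw [abs_mul, abs_of_pos hr, mul_pow, inv_mul_cancel_left₀ (pow_pos hr 3).ne', smul_smul,
      mul_comm τ r]
  have key : ∀ G : ℝ → ℝ≥0∞, ∫⁻ τ : ℝ, G (r * τ) = ENNReal.ofReal r⁻¹ * ∫⁻ t : ℝ, G t := by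
    intro G
    have h3 := hemb.lintegral_map (μ := volume) G
    rw [Real.map_volume_mul_left hr.ne', lintegral_smul_measure, smul_eq_mul,
      abs_of_pos (inv_pos.2 hr)] at h3
    exact h3.symm
  rw [lintegral_congr h1]
  refine (key (fun t : ℝ => ENNReal.ofReal ((r ^ 3)⁻¹ * |t| ^ 3) *
          Ω.indicator (fun _ => 1) (x + t • X))).trans ?_
  have h2 : ∀ t : ℝ, ENNReal.ofReal ((r ^ 3)⁻¹ * |t| ^ 3) * Ω.indicator (fun _ => 1) (x + t • X)
      = ENNReal.ofReal ((r ^ 3)⁻¹) *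
        (ENNReal.ofReal (|t| ^ 3) * Ω.indicator (fun _ => 1) (x + t • X)) := by
    intro t
    rw [ENNReal.ofReal_mul (inv_nonneg.2 (pow_pos hr 3).le), mul_assoc]
  simp_rw [h2]
  rw [lintegral_const_mul' _ _ ENNReal.ofReal_ne_top, ← mul_assoc,
    ← ENNReal.ofReal_mul (inv_nonneg.2 hr.le), ← mul_inv]
  congr 3
  ring

theorem MX_e0 {n : ℕ} (Ω : Set (E (n + 1))) (hΩ : MeasurableSet Ω) :
    MX Ω (e 0) = ∫⁻ y : E n, ∫⁻ s in {s : ℝ | ins s y ∈ Ω}, ∫⁻ r in {s : ℝ | ins s y ∈ Ω},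
      ENNReal.ofReal (|s - r| ^ 3) := by
  have hm1 : Measurable (fun p : E (n + 1) × ℝ => ENNReal.ofReal (|p.2| ^ 3) *
      Ω.indicator (fun _ => (1 : ℝ≥0∞)) (p.1 + p.2 • e 0)) := by
    refine Measurable.mul ?_ ?_
    · exact ENNReal.measurable_ofReal.comp ((continuous_snd.abs.pow 3).measurable)
    · refine (measurable_const.indicator hΩ).comp ?_
      exact (continuous_fst.add (continuous_snd.smul continuous_const)).measurable
  have hm2 : Measurable (fun x : E (n + 1) => ∫⁻ τ : ℝ, ENNReal.ofReal (|τ| ^ 3) *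
      Ω.indicator (fun _ => (1 : ℝ≥0∞)) (x + τ • e 0)) := hm1.lintegral_prod_right'
  unfold MX
  rw [← lintegral_indicator hΩ, lintegral_ins _ (hm2.indicator hΩ)]
  refine lintegral_congr fun y => ?_
  have hmy : MeasurableSet {s : ℝ | ins s y ∈ Ω} :=
    (continuous_ins.comp (Continuous.prodMk continuous_id continuous_const)).measurable hΩ
  rw [← lintegral_indicator hmy]
  refine lintegral_congr fun s => ?_
  by_cases hs : ins s y ∈ Ω
  · rw [indicator_of_mem hs, indicator_of_mem (show s ∈ {s : ℝ | ins s y ∈ Ω} from hs),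
      ← lintegral_indicator hmy]
    have h1 : ∀ τ : ℝ, ENNReal.ofReal (|τ| ^ 3) * Ω.indicator (fun _ => 1) (ins s y + τ • e 0)
        = (fun r : ℝ => {s : ℝ | ins s y ∈ Ω}.indicator
            (fun r => ENNReal.ofReal (|s - r| ^ 3)) r) (s + τ) := by
      intro τ
      have h2 : ins s y + τ • e 0 = ins (s + τ) y := by
        rw [← ins_one_zero, ← ins_smul, smul_zero, mul_one, ← ins_add, add_zero]
      rw [h2]
      show _ = {s : ℝ | ins s y ∈ Ω}.indicator (fun r => ENNReal.ofReal (|s - r| ^ 3)) (s + τ)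
      by_cases h3 : ins (s + τ) y ∈ Ω
      · rw [indicator_of_mem h3, indicator_of_mem (show s + τ ∈ {s : ℝ | ins s y ∈ Ω} from h3),
          mul_one, sub_add_cancel_left, abs_neg]
      · rw [indicator_of_notMem h3,
          indicator_of_notMem (show s + τ ∉ {s : ℝ | ins s y ∈ Ω} from h3), mul_zero]
    simp_rw [h1]
    exact lintegral_add_left_eq_self _ s
  · rw [indicator_of_notMem hs, indicator_of_notMem (show s ∉ {s : ℝ | ins s y ∈ Ω} from hs)]

end Pool.Agent.Lib.MP_d3943d_an
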