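import Pool.Agent.Lib.MP_d3943d_an.Approx
import Pool.Agent.Lib.MP_d3943d_an.Bathtub
import Pool.Agent.Lib.MP_d3943d_an.Radial
import Pool.Agent.Lib.MP_d3943d_an.Phi
import Pool.Agent.Lib.MP_d3943d_an.Ker

set_option autoImplicit false

/-!
The Riesz inequality for open sets.
-/

namespace Pool.Agent.Lib.MP_d3943d_an

open MeasureTheory Set
open scoped ENNReal ContDiff Pointwise

theorem riesz_sets {n : ℕ} {K : ℝ → ℝ} (hK : Antitone K) (hK0 : ∀ r, 0 ≤ K r) {M : ℝ}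
    (hKM : ∀ r, K r ≤ M) (Ω : Set (E (n + 1))) (hΩ : IsOpen Ω) (hb : Bornology.IsBounded Ω)
    (R : ℝ) (hR : 0 < R) (hv : volume Ω ≤ volume (Metric.ball (0 : E (n + 1)) R)) :
    ∫⁻ x in Ω, ∫⁻ z in Ω, ENNReal.ofReal (K ‖x - z‖)
      ≤ ∫⁻ x in Metric.ball (0 : E (n + 1)) R, ∫⁻ z in Metric.ball (0 : E (n + 1)) R,
        ENNReal.ofReal (K ‖x - z‖) := by
  have hN : 1 ≤ n + 1 := by omega
  obtain ⟨ρ, hρ⟩ := approxSet_adm hN hΩ hb
  have hKm : Measurable K := hK.measurable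
  -- each approximation is bounded
  have key : ∀ k : ℕ, FKl K (approxSet Ω k) (approxSet Ω k)
      ≤ ∫⁻ x in Metric.ball (0 : E (n + 1)) R, ∫⁻ z in Metric.ball (0 : E (n + 1)) R,
        ENNReal.ofReal (K ‖x - z‖) := by
    intro k
    obtain ⟨h, hh, hT, hint, hrad⟩ := exists_radial (L := (k : ℝ)) (ρ := ρ)
      (fun f => (FKl K f f).toReal) (FKl_lip hK hK0 hKM (k : ℝ) ρ)
      (fun g f hf => ENNReal.toReal_mono (FKl_ne_top hKM (hf.sg g)) (FKl_SG hK hK0 hf g))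
      (approxSet Ω k) (hρ k)
    have h1 : FKl K (approxSet Ω k) (approxSet Ω k) ≤ FKl K h h :=
      (ENNReal.toReal_le_toReal (FKl_ne_top hKM (hρ k)) (FKl_ne_top hKM hh)).1 hT
    refine h1.trans (FKl_le_ball hK hK0 hKM hh hrad R hR ?_)
    rw [hint]
    exact (lintegral_approxSet_le hN hΩ hb k (hρ k)).trans hv
  -- monotone convergence
  have h2 : ∫⁻ x in Ω, ∫⁻ z in Ω, ENNReal.ofReal (K ‖x - z‖)
      = ∫⁻ x, ∫⁻ z, ⨆ k : ℕ, ENNReal.ofReal (approxSet Ω k x) * ENNReal.ofReal (approxSet Ω k z)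
        * ENNReal.ofReal (K ‖x - z‖) := by
    rw [← lintegral_indicator hΩ.measurableSet]
    apply lintegral_congr
    intro x
    have hz : ∀ z, ⨆ k : ℕ, ENNReal.ofReal (approxSet Ω k x) * ENNReal.ofReal (approxSet Ω k z)
        * ENNReal.ofReal (K ‖x - z‖) = Ω.indicator (fun _ => (1 : ℝ≥0∞)) x
          * Ω.indicator (fun _ => (1 : ℝ≥0∞)) z * ENNReal.ofReal (K ‖x - z‖) := by
      intro z
      rw [← ENNReal.iSup_mul, ofReal_mul_iSup
        (a := fun k : ℕ => ENNReal.ofReal (approxSet Ω k x))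
        (b := fun k : ℕ => ENNReal.ofReal (approxSet Ω k z))
        (fun i j hij => ENNReal.ofReal_le_ofReal (approxSet_mono Ω x hij))
        (fun i j hij => ENNReal.ofReal_le_ofReal (approxSet_mono Ω z hij)),
        approxSet_iSup hN hΩ hb, approxSet_iSup hN hΩ hb]
    simp_rw [hz]
    by_cases hx : x ∈ Ω
    · rw [indicator_of_mem hx, ← lintegral_indicator hΩ.measurableSet]
      apply lintegral_congr
      intro z
      rw [indicator_of_mem hx, one_mul]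
      by_cases hzm : z ∈ Ω
      · rw [indicator_of_mem hzm, indicator_of_mem hzm, one_mul]
      · rw [indicator_of_notMem hzm, indicator_of_notMem hzm, zero_mul]
    · rw [indicator_of_notMem hx, indicator_of_notMem hx]
      simp
  rw [h2, lintegral2_iSup]
  · exact iSup_le key
  · intro k
    have hc := (hρ k).continuous.measurable
    have e1 : Measurable fun p : E (n + 1) × E (n + 1) => ENNReal.ofReal (approxSet Ω k p.1) :=
      (hc.comp measurable_fst).ennreal_ofReal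
    have e2 : Measurable fun p : E (n + 1) × E (n + 1) => ENNReal.ofReal (approxSet Ω k p.2) :=
      (hc.comp measurable_snd).ennreal_ofReal
    have e3 : Measurable fun p : E (n + 1) × E (n + 1) => ENNReal.ofReal (K ‖p.1 - p.2‖) :=
      (hKm.comp (measurable_fst.sub measurable_snd).norm).ennreal_ofReal
    exact (e1.mul e2).mul e3
  · intro x z i j hij
    exact mul_le_mul' (mul_le_mul' (ENNReal.ofReal_le_ofReal (approxSet_mono Ω x hij))
      (ENNReal.ofReal_le_ofReal (approxSet_mono Ω z hij))) le_rfl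

theorem riesz4_le {N : ℕ} (hN : 4 ≤ N) (Ω : Set (E N)) (hΩ : IsOpen Ω)
    (hb : Bornology.IsBounded Ω) (R : ℝ) (hR : 0 < R)
    (hv : volume Ω ≤ volume (Metric.ball (0 : E N) R)) :
    riesz4 Ω ≤ riesz4 (Metric.ball (0 : E N) R) := by
  obtain ⟨n, rfl⟩ : ∃ n, N = n + 1 := ⟨N - 1, by omega⟩
  unfold riesz4
  have h1 : ∀ x z : E (n + 1), (ENNReal.ofReal (‖x - z‖ ^ (n + 1 - 4)))⁻¹
      = ⨆ j : ℕ, ENNReal.ofReal (KerJ (n + 1 - 4) j ‖x - z‖) :=
    fun x z => (KerJ_iSup _ (norm_nonneg _)).symm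
  have h2 : ∫⁻ x in Ω, ∫⁻ z in Ω, (ENNReal.ofReal (‖x - z‖ ^ (n + 1 - 4)))⁻¹
      = ⨆ j : ℕ, ∫⁻ x in Ω, ∫⁻ z in Ω, ENNReal.ofReal (KerJ (n + 1 - 4) j ‖x - z‖) := by
    simp_rw [h1]
    apply lintegral2_iSup
    · intro k
      exact ((measurable_KerJ _ k).comp (measurable_fst.sub measurable_snd).norm).ennreal_ofReal
    · intro x z i j hij
      exact ENNReal.ofReal_le_ofReal (KerJ_mono _ _ hij)
  rw [h2]
  refine iSup_le fun j => ?_
  refine (riesz_sets (KerJ_antitone _ j) (KerJ_nonneg _ j) (KerJ_le _ j) Ω hΩ hb R hR hv).trans ?_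
  apply lintegral_mono
  intro x
  apply lintegral_mono
  intro z
  show ENNReal.ofReal (KerJ (n + 1 - 4) j ‖x - z‖) ≤ (ENNReal.ofReal (‖x - z‖ ^ (n + 1 - 4)))⁻¹
  rw [h1]
  exact le_iSup (fun j : ℕ => ENNReal.ofReal (KerJ (n + 1 - 4) j ‖x - z‖)) j

end Pool.Agent.Lib.MP_d3943d_an
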