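import Pool.Agent.Lib.MP_d3943d_an.HessIBP

set_option autoImplicit false

/-!
The key inequality implies the frozen statement.
-/

namespace Pool.Agent.Lib.MP_d3943d_an

open MeasureTheory Set
open scoped ENNReal ContDiff

/-- Cauchy-Schwarz. -/
theorem test_cs {α : Type*} [MeasurableSpace α] {μ : Measure α} {f g : α → ℝ}
    (hf : MemLp f 2 μ) (hg : MemLp g 2 μ) :
    |∫ x, f x * g x ∂μ| ≤ Real.sqrt (∫ x, f x ^ 2 ∂μ) * Real.sqrt (∫ x, g x ^ 2 ∂μ) := by
  have hpq : (2 : ℝ).HolderConjugate 2 := Real.HolderConjugate.two_two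
  have hf' : MemLp f (ENNReal.ofReal 2) μ := by simpa using hf
  have hg' : MemLp g (ENNReal.ofReal 2) μ := by simpa using hg
  have h := integral_mul_norm_le_Lp_mul_Lq hpq hf' hg'
  have h1 : |∫ x, f x * g x ∂μ| ≤ ∫ x, ‖f x‖ * ‖g x‖ ∂μ := by
    refine (abs_integral_le_integral_abs).trans (le_of_eq ?_)
    simp only [abs_mul, Real.norm_eq_abs]
  refine h1.trans (h.trans (le_of_eq ?_))
  rw [Real.sqrt_eq_rpow, Real.sqrt_eq_rpow]
  simp only [Real.norm_eq_abs, Real.rpow_ofNat, sq_abs]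

/-- Linearity of the Laplacian. -/
theorem test_Lap_sub {N : ℕ} {φ ψ : E N → ℝ} (hφ : ContDiff ℝ ∞ φ) (hψ : ContDiff ℝ ∞ ψ)
    (x : E N) : Lap (φ - ψ) x = Lap φ x - Lap ψ x := by
  have h1 : Differentiable ℝ (fderiv ℝ φ) :=
    (hφ.fderiv_right (m := ∞) (by simp)).differentiable (by simp)
  have h2 : Differentiable ℝ (fderiv ℝ ψ) :=
    (hψ.fderiv_right (m := ∞) (by simp)).differentiable (by simp)
  have e1 : fderiv ℝ (φ - ψ) = fderiv ℝ φ - fderiv ℝ ψ := by
    funext y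
    exact fderiv_sub (hφ.differentiable (by simp) y) (hψ.differentiable (by simp) y)
  have e2 : fderiv ℝ (fderiv ℝ φ - fderiv ℝ ψ) x =
      fderiv ℝ (fderiv ℝ φ) x - fderiv ℝ (fderiv ℝ ψ) x := fderiv_sub (h1 x) (h2 x)
  unfold Lap D2
  rw [← Finset.sum_sub_distrib]
  refine Finset.sum_congr rfl fun i _ => ?_
  rw [e1, e2]
  rfl

theorem test_sq {N : ℕ} {F : Type*} [NormedAddCommGroup F] {f : E N → F} (hf : Continuous f)
    (hc : HasCompactSupport f) : Integrable (fun x => ‖f x‖ ^ 2) := by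
  have h1 : Continuous (fun x => ‖f x‖ ^ 2) := (continuous_norm.comp hf).pow 2
  have h2 : HasCompactSupport (fun x => ‖f x‖ ^ 2) := by
    have : HasCompactSupport (fun x => ‖f x‖) := hc.norm
    refine this.comp_left (g := fun r : ℝ => r ^ 2) ?_
    norm_num
  exact h1.integrable_of_hasCompactSupport h2

theorem test_int {N : ℕ} {ψ : E N → ℝ} (hψ : ContDiff ℝ ∞ ψ) (hc : HasCompactSupport ψ) :
    Integrable (fun x => ‖fderiv ℝ (fderiv ℝ ψ) x‖ ^ 2) ∧
      Integrable (fun x => ‖fderiv ℝ ψ x‖ ^ 2) := by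
  have h1 : ContDiff ℝ ∞ (fderiv ℝ ψ) := hψ.fderiv_right (by simp)
  have h2 : ContDiff ℝ ∞ (fderiv ℝ (fderiv ℝ ψ)) := h1.fderiv_right (by simp)
  exact ⟨test_sq h2.continuous ((hc.fderiv ℝ).fderiv ℝ), test_sq h1.continuous (hc.fderiv ℝ)⟩

theorem main_of_key (hkey : ∀ N : ℕ, 2 ≤ N → KeyIneq N) :
  ∀ (N : ℕ), 2 ≤ N →
  ∀ (Ω : Set (EuclideanSpace ℝ (Fin N))), IsOpen Ω → MeasureTheory.volume Ω < ⊤ →
  ∀ (R : ℝ), 0 < R →
    MeasureTheory.volume Ω = MeasureTheory.volume (Metric.ball (0 : EuclideanSpace ℝ (Fin N)) R) →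
  ∀ (ρ : EuclideanSpace ℝ (Fin N) → ℝ), Measurable ρ → (∀ x ∈ Ω, |ρ x| ≤ 1) →
  ∀ (u : EuclideanSpace ℝ (Fin N) → ℝ), MeasureTheory.MemLp u 2 MeasureTheory.volume →
  (∃ φ : ℕ → EuclideanSpace ℝ (Fin N) → ℝ,
     (∀ n, ContDiff ℝ ((⊤ : ℕ∞) : WithTop ℕ∞) (φ n) ∧ HasCompactSupport (φ n) ∧ tsupport (φ n) ⊆ Ω) ∧
     (∀ ε : ℝ, 0 < ε → ∃ K : ℕ, ∀ n, K ≤ n → ∀ k, K ≤ k →
        ∫ x, ((φ n x - φ k x) ^ 2 + ‖fderiv ℝ (φ n - φ k) x‖ ^ 2
              + ‖fderiv ℝ (fderiv ℝ (φ n - φ k)) x‖ ^ 2) < ε) ∧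
     Filter.Tendsto (fun n => ∫ x, (φ n x - u x) ^ 2) Filter.atTop (nhds 0)) →
  (∀ ψ : EuclideanSpace ℝ (Fin N) → ℝ, ContDiff ℝ ((⊤ : ℕ∞) : WithTop ℕ∞) ψ →
     HasCompactSupport ψ → tsupport ψ ⊆ Ω →
     ∫ x, u x * ∑ i : Fin N, ∑ j : Fin N,
        iteratedFDeriv ℝ 4 ψ x
          ![EuclideanSpace.single i (1 : ℝ), EuclideanSpace.single i (1 : ℝ),
            EuclideanSpace.single j (1 : ℝ), EuclideanSpace.single j (1 : ℝ)]
      = ∫ x, ρ x * ψ x) →
  ∫ x in Ω, |u x| ≤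
    ∫ x in Metric.ball (0 : EuclideanSpace ℝ (Fin N)) R,
      (R ^ 2 - ‖x‖ ^ 2) ^ 2 / (8 * (N : ℝ) * ((N : ℝ) + 2)) := by
  rintro N hN Ω hΩ hvol R hR hvR ρ hρ hρ1 u hu ⟨φ, hφ, hcau, hlim⟩ hweak
  change ∫ x in Ω, |u x| ≤ CB N R
  set C : ℝ := CB N R with hC
  have hC0 : 0 ≤ C := by
    rw [hC]
    unfold CB
    exact setIntegral_nonneg measurableSet_ball fun x _ => by positivity
  set a : ℝ := ∫ x in Ω, |u x| with ha
  have ha0 : 0 ≤ a := integral_nonneg fun x => abs_nonneg _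
  set A : ℕ → ℝ := fun m => ∫ x, |φ m x| with hA
  set d : ℕ → ℝ := fun m => ∫ x, (Lap (φ m) x) ^ 2 with hd
  have hA0 : ∀ m, 0 ≤ A m := fun m => integral_nonneg fun x => abs_nonneg _
  have hd0 : ∀ m, 0 ≤ d m := fun m => integral_nonneg fun x => sq_nonneg _
  have hsm : ∀ m, ContDiff ℝ ∞ (φ m) := fun m => (hφ m).1
  have hcs : ∀ m, HasCompactSupport (φ m) := fun m => (hφ m).2.1
  have hLsm : ∀ m, ContDiff ℝ ∞ (fun x => Lap (φ m) x) := fun m => contDiff_Lap (hsm m)
  have hLcs : ∀ m, HasCompactSupport (fun x => Lap (φ m) x) := fun m => hasCompactSupport_Lap (hcs m)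
  have hφL2 : ∀ m, MemLp (φ m) 2 volume := fun m =>
    (hsm m).continuous.memLp_of_hasCompactSupport (hcs m)
  have hLL2 : ∀ m, MemLp (fun x => Lap (φ m) x) 2 volume := fun m =>
    (hLsm m).continuous.memLp_of_hasCompactSupport (hLcs m)
  -- the convergence of the integrals
  have hrest : volume.restrict Ω univ < ⊤ := by simpa using hvol
  have hfin : IsFiniteMeasure (volume.restrict Ω) := ⟨hrest⟩
  have hAset : ∀ m, A m = ∫ x in Ω, |φ m x| := by
    intro m
    rw [hA]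
    simp only
    rw [setIntegral_eq_integral_of_forall_compl_eq_zero]
    intro x hx
    rw [image_eq_zero_of_notMem_tsupport (fun h => hx ((hφ m).2.2 h)), abs_zero]
  have hAlim : Filter.Tendsto A Filter.atTop (nhds a) := by
    rw [tendsto_iff_norm_sub_tendsto_zero]
    have hb : ∀ m, ‖A m - a‖ ≤ Real.sqrt (∫ x, (φ m x - u x) ^ 2) *
        Real.sqrt (∫ x in Ω, (1 : ℝ) ^ 2) := by
      intro m
      have hdiff : MemLp (fun x => φ m x - u x) 2 volume := (hφL2 m).sub hu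
      have hdiff' : MemLp (fun x => |φ m x - u x|) 2 (volume.restrict Ω) :=
        (hdiff.restrict Ω).abs
      have h1 : ‖A m - a‖ ≤ ∫ x in Ω, |φ m x - u x| * 1 := by
        rw [hAset m, ha, ← integral_sub]
        · refine norm_integral_le_of_norm_le ?_ (Filter.Eventually.of_forall fun x => ?_)
          · simpa using hdiff'.integrable one_le_two
          · rw [mul_one, Real.norm_eq_abs]
            exact abs_abs_sub_abs_le_abs_sub _ _
        · exact ((hφL2 m).restrict Ω).abs.integrable one_le_two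
        · exact (hu.restrict Ω).abs.integrable one_le_two
      have h2 := test_cs hdiff' (memLp_const (μ := volume.restrict Ω) (p := 2) (1 : ℝ))
      refine h1.trans ((le_abs_self _).trans (h2.trans ?_))
      refine mul_le_mul_of_nonneg_right (Real.sqrt_le_sqrt ?_) (Real.sqrt_nonneg _)
      simp only [sq_abs]
      exact setIntegral_le_integral hdiff.integrable_sq (Filter.Eventually.of_forall fun x =>
        sq_nonneg _)
    have h3 : Filter.Tendsto (fun m => Real.sqrt (∫ x, (φ m x - u x) ^ 2) *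
        Real.sqrt (∫ x in Ω, (1 : ℝ) ^ 2)) Filter.atTop (nhds 0) := by
      have := (hlim.sqrt).mul_const (Real.sqrt (∫ x in Ω, (1 : ℝ) ^ 2))
      simpa using this
    exact squeeze_zero (fun m => norm_nonneg _) hb h3
  -- the key inequality
  have hkm : ∀ m, A m ^ 2 ≤ C * d m := by
    intro m
    obtain ⟨r, hr⟩ := (hcs m).isBounded.subset_ball (0 : E N)
    refine hkey N hN (Ω ∩ Metric.ball 0 r) (hΩ.inter Metric.isOpen_ball)
      (Metric.isBounded_ball.subset inter_subset_right) R hR ?_ (φ m) ⟨(hφ m).1, (hφ m).2.1,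
        subset_inter (hφ m).2.2 hr⟩
    exact (measure_mono inter_subset_left).trans hvR.le
  -- the weak equation
  have hw : ∀ m, ∫ x, u x * Lap (Lap (φ m)) x ≤ A m := by
    intro m
    have h1 := hweak (φ m) (hφ m).1 (hφ m).2.1 (hφ m).2.2
    have h2 : ∫ x, u x * Lap (Lap (φ m)) x = ∫ x, ρ x * φ m x := by
      rw [← h1]
      refine integral_congr_ae (Filter.Eventually.of_forall fun x => ?_)
      simp only
      rw [bilap_eq (hsm m) x]
    rw [h2]
    refine (le_abs_self _).trans ?_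
    rw [← Real.norm_eq_abs]
    refine norm_integral_le_of_norm_le ?_ (Filter.Eventually.of_forall fun x => ?_)
    · exact ((hsm m).continuous.integrable_of_hasCompactSupport (hcs m)).abs
    · by_cases hx : x ∈ Ω
      · rw [Real.norm_eq_abs, abs_mul]
        exact mul_le_of_le_one_left (abs_nonneg _) (hρ1 x hx)
      · rw [image_eq_zero_of_notMem_tsupport (fun h => hx ((hφ m).2.2 h))]
        simp
  -- the energy
  have hen : ∀ t : ℝ, 0 < t → ∃ K : ℕ, ∀ m ≥ K, d m ≤ A m + t / 2 * ((N : ℝ) ^ 2 + d m) := by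
    intro t ht
    obtain ⟨K, hK⟩ := hcau (t ^ 2) (by positivity)
    refine ⟨K, fun m hm => ?_⟩
    -- for every large n
    have h1 : ∀ n ≥ K, d m ≤ (∫ x, φ n x * Lap (Lap (φ m)) x) + t / 2 * ((N : ℝ) ^ 2 + d m) := by
      intro n hn
      rw [ibp_lap (hsm n) (hcs n) (hsm m)]
      have hi1 : Integrable (fun x => Lap (φ n) x * Lap (φ m) x) :=
        ((hLsm n).continuous.mul (hLsm m).continuous).integrable_of_hasCompactSupport
          (hLcs n).mul_right
      have hi2 : Integrable (fun x => (Lap (φ m) x) ^ 2) := (hLL2 m).integrable_sq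
      have hsub : ContDiff ℝ ∞ (φ n - φ m) := (hsm n).sub (hsm m)
      have hsubc : HasCompactSupport (φ n - φ m) := (hcs n).sub (hcs m)
      obtain ⟨hi3, hi4⟩ := test_int hsub hsubc
      have hi5 : Integrable (fun x => (φ n x - φ m x) ^ 2) :=
        ((hφL2 n).sub (hφL2 m)).integrable_sq
      have hsm' : ∫ x, ‖fderiv ℝ (fderiv ℝ (φ n - φ m)) x‖ ^ 2 ≤ t ^ 2 := by
        refine le_trans (integral_mono hi3 ((hi5.add hi4).add hi3) fun x => ?_) (hK n hn m hm).le
        simp only [Pi.add_apply]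
        have := sq_nonneg (φ n x - φ m x)
        have := sq_nonneg (‖fderiv ℝ (φ n - φ m) x‖)
        linarith
      have hmain : d m - ∫ x, Lap (φ n) x * Lap (φ m) x ≤
          ∫ x, (1 / 2 * (t⁻¹ * ((N : ℝ) ^ 2 * ‖fderiv ℝ (fderiv ℝ (φ n - φ m)) x‖ ^ 2)) +
            t / 2 * (Lap (φ m) x) ^ 2) := by
        rw [hd]
        simp only
        rw [← integral_sub hi2 hi1]
        refine integral_mono (hi2.sub hi1)
          ((((hi3.const_mul _).const_mul _).const_mul _).add (hi2.const_mul _)) fun x => ?_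
        simp only
        have h2 := abs_Lap_le (φ := φ n - φ m) x
        rw [test_Lap_sub (hsm n) (hsm m) x] at h2
        set D := ‖fderiv ℝ (fderiv ℝ (φ n - φ m)) x‖ with hD
        set p := Lap (φ n) x
        set q := Lap (φ m) x
        have h3 : (p - q) ^ 2 ≤ (N : ℝ) ^ 2 * D ^ 2 := by
          rw [← mul_pow, ← sq_abs]
          exact pow_le_pow_left₀ (abs_nonneg _) h2 2
        have h4 : q ^ 2 - p * q ≤ 1 / 2 * (t⁻¹ * (p - q) ^ 2) + t / 2 * q ^ 2 := by
          have h5 : 0 ≤ 1 / 2 * (t⁻¹ * (p - q + t * q) ^ 2) := by positivity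
          have h6 : 1 / 2 * (t⁻¹ * (p - q + t * q) ^ 2) =
              1 / 2 * (t⁻¹ * (p - q) ^ 2) + (p - q) * q + t / 2 * q ^ 2 := by
            field_simp
            ring
          nlinarith
        refine h4.trans ?_
        have h7 : t⁻¹ * (p - q) ^ 2 ≤ t⁻¹ * ((N : ℝ) ^ 2 * D ^ 2) :=
          mul_le_mul_of_nonneg_left h3 (by positivity)
        linarith
      rw [integral_add (((hi3.const_mul _).const_mul _).const_mul _) (hi2.const_mul _),
        integral_const_mul, integral_const_mul, integral_const_mul, integral_const_mul] at hmain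
      have h8 : 1 / 2 * (t⁻¹ * ((N : ℝ) ^ 2 * ∫ x, ‖fderiv ℝ (fderiv ℝ (φ n - φ m)) x‖ ^ 2)) ≤
          1 / 2 * (t⁻¹ * ((N : ℝ) ^ 2 * t ^ 2)) := by gcongr
      have h9 : 1 / 2 * (t⁻¹ * ((N : ℝ) ^ 2 * t ^ 2)) = t / 2 * (N : ℝ) ^ 2 := by
        field_simp
      have h10 : ∫ x, (Lap (φ m) x) ^ 2 = d m := rfl
      rw [h10] at hmain
      linarith
    -- limit n → ∞
    have hg : MemLp (fun x => Lap (Lap (φ m)) x) 2 volume :=
      (contDiff_Lap (hLsm m)).continuous.memLp_of_hasCompactSupport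
        (hasCompactSupport_Lap (hLcs m))
    have h2 : Filter.Tendsto (fun n => ∫ x, φ n x * Lap (Lap (φ m)) x) Filter.atTop
        (nhds (∫ x, u x * Lap (Lap (φ m)) x)) := by
      rw [tendsto_iff_norm_sub_tendsto_zero]
      have hb : ∀ n, ‖(∫ x, φ n x * Lap (Lap (φ m)) x) - ∫ x, u x * Lap (Lap (φ m)) x‖ ≤
          Real.sqrt (∫ x, (φ n x - u x) ^ 2) * Real.sqrt (∫ x, (Lap (Lap (φ m)) x) ^ 2) := by
        intro n
        have e1 : (∫ x, φ n x * Lap (Lap (φ m)) x) - ∫ x, u x * Lap (Lap (φ m)) x =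
            ∫ x, (φ n x - u x) * Lap (Lap (φ m)) x := by
          rw [← integral_sub]
          · simp only [sub_mul]
          · exact (hφL2 n).integrable_mul hg
          · exact hu.integrable_mul hg
        rw [e1]
        exact test_cs ((hφL2 n).sub hu) hg
      have h3 := (hlim.sqrt).mul_const (Real.sqrt (∫ x, (Lap (Lap (φ m)) x) ^ 2))
      rw [Real.sqrt_zero, zero_mul] at h3
      exact squeeze_zero (fun n => norm_nonneg _) hb h3
    have h3 : d m ≤ (∫ x, u x * Lap (Lap (φ m)) x) + t / 2 * ((N : ℝ) ^ 2 + d m) := by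
      refine ge_of_tendsto (h2.add_const _) ?_
      filter_upwards [Filter.eventually_ge_atTop K] with n hn
      exact h1 n hn
    have := hw m
    linarith
  -- the limit m → ∞
  have hfinal : ∀ t : ℝ, 0 < t → t < 1 → a ^ 2 * (1 - t / 2) ≤ C * (a + t / 2 * (N : ℝ) ^ 2) := by
    intro t ht ht1
    obtain ⟨K, hK⟩ := hen t ht
    have h1 : Filter.Tendsto (fun m => A m ^ 2 * (1 - t / 2)) Filter.atTop
        (nhds (a ^ 2 * (1 - t / 2))) := (hAlim.pow 2).mul_const _
    have h2 : Filter.Tendsto (fun m => C * (A m + t / 2 * (N : ℝ) ^ 2)) Filter.atTop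
        (nhds (C * (a + t / 2 * (N : ℝ) ^ 2))) := (hAlim.add_const _).const_mul _
    refine le_of_tendsto_of_tendsto h1 h2 ?_
    filter_upwards [Filter.eventually_ge_atTop K] with m hm
    have h3 := hK m hm
    have h4 : d m * (1 - t / 2) ≤ A m + t / 2 * (N : ℝ) ^ 2 := by linarith
    calc A m ^ 2 * (1 - t / 2) ≤ C * d m * (1 - t / 2) :=
          mul_le_mul_of_nonneg_right (hkm m) (by linarith)
      _ = C * (d m * (1 - t / 2)) := by ring
      _ ≤ C * (A m + t / 2 * (N : ℝ) ^ 2) := mul_le_mul_of_nonneg_left h4 hC0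
  have hsq : a ^ 2 ≤ C * a := by
    have h1 : Filter.Tendsto (fun t : ℝ => a ^ 2 * (1 - t / 2)) (nhdsWithin 0 (Ioi 0))
        (nhds (a ^ 2 * (1 - 0 / 2))) :=
      Filter.Tendsto.mono_left (Continuous.tendsto (by fun_prop) 0) nhdsWithin_le_nhds
    have h2 : Filter.Tendsto (fun t : ℝ => C * (a + t / 2 * (N : ℝ) ^ 2)) (nhdsWithin 0 (Ioi 0))
        (nhds (C * (a + 0 / 2 * (N : ℝ) ^ 2))) :=
      Filter.Tendsto.mono_left (Continuous.tendsto (by fun_prop) 0) nhdsWithin_le_nhds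
    have h3 := le_of_tendsto_of_tendsto h1 h2 (by
      filter_upwards [Ioo_mem_nhdsGT (zero_lt_one' ℝ)] with t ht
      exact hfinal t ht.1 ht.2)
    simpa using h3
  rcases ha0.eq_or_lt with h | h
  · rw [← h]
    exact hC0
  · rw [sq] at hsq
    exact le_of_mul_le_mul_right hsq h

end Pool.Agent.Lib.MP_d3943d_an
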