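import Pool.Agent.Lib.MP_d3943d_an.KeyThree
import Pool.Agent.Lib.MP_d3943d_an.KeyLines
import Pool.Agent.Lib.MP_d3943d_an.KeyTwo
import Pool.Agent.Lib.MP_d3943d_an.Riesz
import Pool.Agent.Lib.MP_d3943d_an.Test

set_option autoImplicit false

/-!
Assembly.
-/

namespace Pool.Agent.Lib.MP_d3943d_an

theorem key_all (N : ℕ) (hN : 2 ≤ N) : KeyIneq N := by
  rcases Nat.lt_or_ge N 4 with h | h
  · have : N = 2 ∨ N = 3 := by omega
    rcases this with rfl | rfl
    · exact key_two
    · exact key_three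
  · exact key_lines h (fun Ω hΩ hb R hR hv => riesz4_le h Ω hΩ hb R hR hv)

end Pool.Agent.Lib.MP_d3943d_an
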