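import Pool.Agent.Lib.MP_d3943d_an.TBall
import Pool.Agent.Lib.MP_d3943d_an.Gauss

set_option autoImplicit false

/-!
Fourth moments of the direction measure in graph coordinates.
-/

namespace Pool.Agent.Lib.MP_d3943d_an

open MeasureTheory Set
open scoped ENNReal ContDiff Pointwise

theorem mt_smul {V : Type*} [NormedAddCommGroup V] [NormedSpace ℝ V] [MeasurableSpace V]
    [BorelSpace V] [FiniteDimensional ℝ V] (μ : Measure V) [μ.IsAddHaarMeasure]
    (f : V → ℝ≥0∞) (hf : Measurable f) {r : ℝ} (hr : r ≠ 0) :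
    ∫⁻ x, f (r • x) ∂μ = ENNReal.ofReal (|(r ^ Module.finrank ℝ V)⁻¹|) * ∫⁻ x, f x ∂μ := by
  rw [← lintegral_map hf (measurable_const_smul r), Measure.map_addHaar_smul μ hr,
    lintegral_smul_measure]
  rfl

/-- the radial constant -/
noncomputable def mtC : ℝ≥0∞ := ∫⁻ s : ℝ, ENNReal.ofReal (s ^ 6 * Real.exp (-s ^ 2 / 2))

theorem mt_radial (a : ℝ) (ha : 0 < a) :
    ∫⁻ s : ℝ, ENNReal.ofReal (s ^ 6 * Real.exp (-(a * s) ^ 2 / 2)) =
      ENNReal.ofReal ((a ^ 7)⁻¹) * mtC := by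
  have h1 : ∫⁻ s : ℝ, ENNReal.ofReal (s ^ 6 * Real.exp (-(a * s) ^ 2 / 2)) =
      ∫⁻ s : ℝ, ENNReal.ofReal ((a ^ 6)⁻¹) *
        ENNReal.ofReal ((a * s) ^ 6 * Real.exp (-(a * s) ^ 2 / 2)) := by
    refine lintegral_congr fun s => ?_
    rw [← ENNReal.ofReal_mul (by positivity)]
    congr 1
    field_simp
  rw [h1, lintegral_const_mul _ (by fun_prop)]
  have h2 := mt_smul (volume : Measure ℝ)
    (fun s : ℝ => ENNReal.ofReal (s ^ 6 * Real.exp (-s ^ 2 / 2))) (by fun_prop) ha.ne'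
  simp only [smul_eq_mul] at h2
  rw [h2, ← mul_assoc, ← ENNReal.ofReal_mul (by positivity)]
  unfold mtC
  congr 2
  rw [Module.finrank_self, pow_one, abs_of_pos (by positivity)]
  field_simp

theorem mt_main (P : E 3 → ℝ) (hPc : Continuous P) (hP0 : ∀ X, 0 ≤ P X)
    (hPh : ∀ (r : ℝ) (X : E 3), P (r • X) = r ^ 4 * P X) :
    ∫⁻ X : E 3, ENNReal.ofReal (P X * Real.exp (-‖X‖ ^ 2 / 2)) =
      mtC * ∫⁻ ν : E 2, ENNReal.ofReal (P (ins 1 (-ν)) / (√(1 + ‖ν‖ ^ 2)) ^ 7) := by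
  set F : E 3 → ℝ≥0∞ := fun X => ENNReal.ofReal (P X * Real.exp (-‖X‖ ^ 2 / 2)) with hF
  have hFm : Measurable F := by
    apply Measurable.ennreal_ofReal
    exact (hPc.mul (by fun_prop)).measurable
  have hWc : Continuous (fun ν : E 2 => P (ins 1 (-ν))) :=
    hPc.comp (continuous_ins.comp (by fun_prop : Continuous fun ν : E 2 => ((1 : ℝ), -ν)))
  have hnorm : ∀ ν : E 2, ‖(ins 1 (-ν) : E 3)‖ ^ 2 = 1 + ‖ν‖ ^ 2 := by
    intro ν
    rw [norm_ins_sq, norm_neg]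
    norm_num
  have s1 : ∫⁻ X : E 3, F X = ∫⁻ s : ℝ, ∫⁻ y : E 2, F (ins s y) := by
    rw [lintegral_ins F hFm, lintegral_lintegral_swap]
    have : Measurable (Function.uncurry fun (y : E 2) (s : ℝ) => F (ins s y)) := by
      unfold Function.uncurry
      exact hFm.comp (continuous_ins.measurable.comp measurable_swap)
    exact this.aemeasurable
  have s2 : ∀ s : ℝ, s ≠ 0 → ∫⁻ y : E 2, F (ins s y) =
      ∫⁻ ν : E 2, ENNReal.ofReal (s ^ 6 * (P (ins 1 (-ν)) *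
        Real.exp (-(√(1 + ‖ν‖ ^ 2) * s) ^ 2 / 2))) := by
    intro s hs
    have hG : Measurable (fun y : E 2 => F (ins s y)) :=
      hFm.comp (continuous_ins.measurable.comp (measurable_const.prodMk measurable_id))
    have h1 := mt_smul (volume : Measure (E 2)) (fun y : E 2 => F (ins s y)) hG
      (neg_ne_zero.2 hs)
    have h2 : Module.finrank ℝ (E 2) = 2 := by simp
    rw [h2] at h1
    have h3 : ∫⁻ y : E 2, F (ins s y) = ENNReal.ofReal (s ^ 2) *
        ∫⁻ ν : E 2, F (ins s ((-s) • ν)) := by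
      rw [h1, ← mul_assoc, ← ENNReal.ofReal_mul (by positivity)]
      have : s ^ 2 * |((-s) ^ 2)⁻¹| = 1 := by
        rw [neg_sq, abs_of_pos (by positivity)]
        field_simp
      rw [this, ENNReal.ofReal_one, one_mul]
    have hG2 : Measurable (fun ν : E 2 => F (ins s ((-s) • ν))) :=
      hG.comp (measurable_const_smul (-s))
    rw [h3, ← lintegral_const_mul _ hG2]
    refine lintegral_congr fun ν => ?_
    have h4 : (ins s ((-s) • ν) : E 3) = s • ins 1 (-ν) := by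
      rw [← ins_smul, mul_one, smul_neg, neg_smul]
    simp only [hF]
    rw [h4, hPh, norm_smul, mul_pow, hnorm, ← ENNReal.ofReal_mul (by positivity), Real.norm_eq_abs,
      sq_abs, mul_pow, Real.sq_sqrt (by positivity)]
    congr 1
    have : -(s ^ 2 * (1 + ‖ν‖ ^ 2)) / 2 = -((1 + ‖ν‖ ^ 2) * s ^ 2) / 2 := by ring
    rw [this]
    ring
  have s3 : ∫⁻ s : ℝ, ∫⁻ y : E 2, F (ins s y) = ∫⁻ s : ℝ, ∫⁻ ν : E 2,
      ENNReal.ofReal (s ^ 6 * (P (ins 1 (-ν)) *
        Real.exp (-(√(1 + ‖ν‖ ^ 2) * s) ^ 2 / 2))) := by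
    refine lintegral_congr_ae ?_
    have h0 : ∀ᵐ s : ℝ, s ≠ 0 := Measure.ae_ne volume 0
    filter_upwards [h0] with s hs
    exact s2 s hs
  rw [s1, s3, lintegral_lintegral_swap]
  · have s4 : ∀ ν : E 2, ∫⁻ s : ℝ, ENNReal.ofReal (s ^ 6 * (P (ins 1 (-ν)) *
        Real.exp (-(√(1 + ‖ν‖ ^ 2) * s) ^ 2 / 2))) =
        mtC * ENNReal.ofReal (P (ins 1 (-ν)) / (√(1 + ‖ν‖ ^ 2)) ^ 7) := by
      intro ν
      have ha : 0 < √(1 + ‖ν‖ ^ 2) := by positivity
      have h5 : ∫⁻ s : ℝ, ENNReal.ofReal (s ^ 6 * (P (ins 1 (-ν)) *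
          Real.exp (-(√(1 + ‖ν‖ ^ 2) * s) ^ 2 / 2))) =
          ∫⁻ s : ℝ, ENNReal.ofReal (P (ins 1 (-ν))) * ENNReal.ofReal (s ^ 6 *
            Real.exp (-(√(1 + ‖ν‖ ^ 2) * s) ^ 2 / 2)) := by
        refine lintegral_congr fun s => ?_
        rw [← ENNReal.ofReal_mul (hP0 _)]
        congr 1
        ring
      rw [h5, lintegral_const_mul _ (by fun_prop), mt_radial _ ha, ← mul_assoc,
        ← ENNReal.ofReal_mul (hP0 _), mul_comm, div_eq_mul_inv]
    simp only [s4]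
    rw [lintegral_const_mul]
    apply Measurable.ennreal_ofReal
    refine (hWc.div (by fun_prop) fun ν => ?_).measurable
    positivity
  · apply Measurable.aemeasurable
    unfold Function.uncurry
    apply Measurable.ennreal_ofReal
    have h6 : Continuous (fun p : ℝ × E 2 => P (ins 1 (-p.2))) := hWc.comp continuous_snd
    exact (Continuous.mul (by fun_prop) (h6.mul (by fun_prop))).measurable

theorem moment_three (B : Fin 3 → Fin 3 → ℝ) (hB : ∀ i j, B i j = B j i) :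
    ∫⁻ ν : E 2, ENNReal.ofReal
        ((∑ i, ∑ j, B i j * (ins 1 (-ν) : E 3) i * (ins 1 (-ν) : E 3) j) ^ 2
          / (√(1 + ‖ν‖ ^ 2)) ^ 7)
      = m0 * ENNReal.ofReal ((2 * ∑ i, ∑ j, (B i j) ^ 2 + (∑ i, B i i) ^ 2) / 15) := by
  set q : ℝ := 2 * ∑ i, ∑ j, (B i j) ^ 2 + (∑ i, B i i) ^ 2 with hq
  have hq0 : 0 ≤ q := by
    have : 0 ≤ ∑ i, ∑ j, (B i j) ^ 2 :=
      Finset.sum_nonneg fun i _ => Finset.sum_nonneg fun j _ => sq_nonneg _
    positivity
  have hZ := ZG_pos 3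
  -- the form
  have h1 := mt_main (fun X : E 3 => (∑ i, ∑ j, B i j * X i * X j) ^ 2) (by fun_prop)
    (fun X => sq_nonneg _) (fun r X => by
      have : ∑ i, ∑ j, B i j * (r • X) i * (r • X) j = r ^ 2 * ∑ i, ∑ j, B i j * X i * X j := by
        rw [Finset.mul_sum]
        refine Finset.sum_congr rfl fun i _ => ?_
        rw [Finset.mul_sum]
        refine Finset.sum_congr rfl fun j _ => ?_
        simp only [PiLp.smul_apply, smul_eq_mul]
        ring
      simp only [this]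
      ring)
  have h2 : ∫⁻ X : E 3, ENNReal.ofReal ((∑ i, ∑ j, B i j * X i * X j) ^ 2 *
      Real.exp (-‖X‖ ^ 2 / 2)) = ENNReal.ofReal (q * ZG 3) := by
    rw [hq, ← gauss_quartic B hB, ofReal_integral_eq_lintegral_ofReal (gauss_quartic_integrable B)]
    exact Filter.Eventually.of_forall fun X => by positivity
  -- the norm
  have h3 := mt_main (fun X : E 3 => ‖X‖ ^ 4) (by fun_prop) (fun X => by positivity)
    (fun r X => by
      simp only [norm_smul, Real.norm_eq_abs, mul_pow]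
      rw [show |r| ^ 4 = (|r| ^ 2) ^ 2 by ring, sq_abs]
      ring)
  have h4 : ∫⁻ X : E 3, ENNReal.ofReal (‖X‖ ^ 4 * Real.exp (-‖X‖ ^ 2 / 2)) =
      ENNReal.ofReal (15 * ZG 3) := by
    have h5 := gauss_norm4 3
    have h6 : ((3 : ℕ) : ℝ) * ((3 : ℕ) + 2) * ZG 3 = 15 * ZG 3 := by push_cast; ring
    rw [← h6, ← h5, ofReal_integral_eq_lintegral_ofReal (gauss_norm4_integrable 3)]
    exact Filter.Eventually.of_forall fun X => by positivity
  have h5 : ∫⁻ ν : E 2, ENNReal.ofReal (‖(ins 1 (-ν) : E 3)‖ ^ 4 / (√(1 + ‖ν‖ ^ 2)) ^ 7) = m0 := by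
    unfold m0
    refine lintegral_congr fun ν => ?_
    have hn : ‖(ins 1 (-ν) : E 3)‖ ^ 2 = 1 + ‖ν‖ ^ 2 := by
      rw [norm_ins_sq, norm_neg]
      norm_num
    have ha : 0 < √(1 + ‖ν‖ ^ 2) := by positivity
    have hs : (√(1 + ‖ν‖ ^ 2)) ^ 2 = 1 + ‖ν‖ ^ 2 := Real.sq_sqrt (by positivity)
    rw [show ‖(ins 1 (-ν) : E 3)‖ ^ 4 = (‖(ins 1 (-ν) : E 3)‖ ^ 2) ^ 2 by ring, hn, ← hs,
      ← ENNReal.ofReal_inv_of_pos (by positivity)]
    congr 1
    rw [Real.sqrt_sq ha.le]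
    field_simp
  rw [h2] at h1
  rw [h4] at h3
  simp only at h1 h3
  rw [h5] at h3
  have hC0 : mtC ≠ 0 := by
    intro h0
    rw [h0, zero_mul, ENNReal.ofReal_eq_zero] at h3
    linarith
  have hCt : mtC ≠ ⊤ := by
    intro ht
    rw [ht] at h3
    rcases eq_or_ne m0 0 with h0 | h0
    · rw [h0, mul_zero, ENNReal.ofReal_eq_zero] at h3
      linarith
    · rw [ENNReal.top_mul h0] at h3
      exact ENNReal.ofReal_ne_top h3
  refine (ENNReal.mul_right_inj hC0 hCt).1 ?_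
  rw [← h1, ← mul_assoc, ← h3, ← ENNReal.ofReal_mul (by positivity)]
  congr 1
  ring

end Pool.Agent.Lib.MP_d3943d_an
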