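import Mathlib

set_option autoImplicit false

/-!
The triangular mollifier.
-/

namespace Pool.Agent.Lib.MP_d3943d_an

open MeasureTheory Set
open scoped ENNReal ContDiff

/-- The triangular mollifier of width `t`. -/
noncomputable def tri (t r : ℝ) : ℝ := max (t - |r|) 0 / t ^ 2

/-- Its odd primitive. -/
noncomputable def kap (t s : ℝ) : ℝ := ∫ r in (0 : ℝ)..s, tri t r

theorem continuous_tri (t : ℝ) : Continuous (tri t) := by
  unfold tri
  fun_prop

theorem hasDerivAt_kap (t s : ℝ) : HasDerivAt (kap t) (tri t s) s := by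
  have hc := continuous_tri t
  exact intervalIntegral.integral_hasDerivAt_right (hc.intervalIntegrable _ _)
    (hc.stronglyMeasurableAtFilter _ _) hc.continuousAt

theorem tri_neg (t r : ℝ) : tri t (-r) = tri t r := by
  unfold tri
  rw [abs_neg]

theorem kap_neg (t s : ℝ) : kap t (-s) = -kap t s := by
  unfold kap
  have h := intervalIntegral.integral_comp_neg (a := s) (b := 0) (tri t)
  rw [neg_zero] at h
  rw [← h, intervalIntegral.integral_symm]
  simp_rw [tri_neg]

theorem monotone_kap (t : ℝ) : Monotone (kap t) := by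
  refine monotone_of_deriv_nonneg (fun s => (hasDerivAt_kap t s).differentiableAt) (fun s => ?_)
  rw [(hasDerivAt_kap t s).deriv]
  unfold tri
  positivity

theorem kap_self {t : ℝ} (ht : 0 < t) : kap t t = 1 / 2 := by
  unfold kap
  have h1 : ∫ r in (0 : ℝ)..t, tri t r = ∫ r in (0 : ℝ)..t, (t - r) / t ^ 2 := by
    refine intervalIntegral.integral_congr (fun r hr => ?_)
    rw [uIcc_of_le ht.le] at hr
    simp only [tri]
    rw [abs_of_nonneg hr.1, max_eq_left (by linarith [hr.2])]
  rw [h1, intervalIntegral.integral_div, intervalIntegral.integral_sub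
    (by simp) (by simp)]
  simp
  field_simp
  ring

theorem abs_kap_le {t : ℝ} (ht : 0 < t) (s : ℝ) : |kap t s| ≤ 1 / 2 := by
  have key : ∀ s, kap t s ≤ 1 / 2 := by
    intro s
    have h1 : kap t s ≤ kap t (max s t) := monotone_kap t (le_max_left _ _)
    refine h1.trans ?_
    have hc := continuous_tri t
    have h2 : kap t (max s t) = kap t t + ∫ r in t..(max s t), tri t r := by
      unfold kap
      rw [intervalIntegral.integral_add_adjacent_intervals (hc.intervalIntegrable _ _)
        (hc.intervalIntegrable _ _)]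
    have h3 : ∫ r in t..(max s t), tri t r = ∫ r in t..(max s t), (0 : ℝ) := by
      refine intervalIntegral.integral_congr (fun r hr => ?_)
      rw [uIcc_of_le (le_max_right _ _)] at hr
      simp only [tri]
      rw [abs_of_nonneg (by linarith [hr.1]), max_eq_right (by linarith [hr.1]), zero_div]
    rw [h2, h3, kap_self ht]
    simp
  rw [abs_le]
  refine ⟨?_, key s⟩
  have := key (-s)
  rw [kap_neg] at this
  linarith

/-- The triangular kernel as an overlap integral. -/
theorem tri_eq {t : ℝ} (ht : 0 < t) (a b : ℝ) :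
    tri t (a - b) = 1 / t ^ 2 * ∫ s : ℝ, (Ioo s (s + t)).indicator (fun _ => (1 : ℝ)) a
      * (Ioo s (s + t)).indicator (fun _ => (1 : ℝ)) b := by
  have h1 : (fun s : ℝ => (Ioo s (s + t)).indicator (fun _ => (1 : ℝ)) a
      * (Ioo s (s + t)).indicator (fun _ => (1 : ℝ)) b)
      = (Ioo (max a b - t) (min a b)).indicator (fun _ => (1 : ℝ)) := by
    funext s
    by_cases h : s ∈ Ioo (max a b - t) (min a b)
    · rw [indicator_of_mem h]
      have ha : a ∈ Ioo s (s + t) :=
        ⟨lt_of_lt_of_le h.2 (min_le_left _ _), by linarith [h.1, le_max_left a b]⟩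
      have hb : b ∈ Ioo s (s + t) :=
        ⟨lt_of_lt_of_le h.2 (min_le_right _ _), by linarith [h.1, le_max_right a b]⟩
      rw [indicator_of_mem ha, indicator_of_mem hb, mul_one]
    · rw [indicator_of_notMem h]
      by_cases ha : a ∈ Ioo s (s + t)
      · by_cases hb : b ∈ Ioo s (s + t)
        · exact absurd ⟨by
            have : max a b < s + t := max_lt ha.2 hb.2
            linarith, lt_min ha.1 hb.1⟩ h
        · rw [indicator_of_notMem hb, mul_zero]
      · rw [indicator_of_notMem ha, zero_mul]
  rw [h1, integral_indicator measurableSet_Ioo, setIntegral_const, smul_eq_mul, mul_one,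
    Measure.real, Real.volume_Ioo]
  unfold tri
  have h2 : min a b - (max a b - t) = t - |a - b| := by
    have := max_sub_min_eq_abs a b
    rw [abs_sub_comm] at this
    linarith
  rw [h2, ENNReal.toReal_ofReal']
  ring

end Pool.Agent.Lib.MP_d3943d_an
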