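import Pool.Agent.Lib.MP_d3943d_an.HessIBP
import Pool.Agent.Lib.MP_d3943d_an.RankA

set_option autoImplicit false

/-!
The smoothed rank function.
-/

namespace Pool.Agent.Lib.MP_d3943d_an

open MeasureTheory Set
open scoped ENNReal ContDiff Pointwise

namespace RankAux

theorem tri_nonneg {t : ℝ} (ht : 0 < t) (r : ℝ) : 0 ≤ tri t r := by
  unfold tri
  positivity

theorem tri_le {t : ℝ} (ht : 0 < t) (r : ℝ) : tri t r ≤ 1 / t := by
  unfold tri
  rw [div_le_div_iff₀ (by positivity) ht]
  have h1 : max (t - |r|) 0 ≤ t := max_le (by linarith [abs_nonneg r]) ht.le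
  nlinarith

theorem continuous_kap (t : ℝ) : Continuous (kap t) :=
  continuous_iff_continuousAt.2 fun s => (hasDerivAt_kap t s).continuousAt

/-- The norm of a functional in coordinates. -/
theorem norm_sq_dual {N : ℕ} (f : E N →L[ℝ] ℝ) : ‖f‖ ^ 2 = ∑ i, (f (e i)) ^ 2 := by
  have h1 : ‖f‖ = ‖(InnerProductSpace.toDual ℝ (E N)).symm f‖ := by
    rw [LinearIsometryEquiv.norm_map]
  rw [h1, EuclideanSpace.norm_sq_eq]
  refine Finset.sum_congr rfl fun i _ => ?_
  rw [Real.norm_eq_abs, sq_abs]
  congr 1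
  have h2 : inner ℝ ((InnerProductSpace.toDual ℝ (E N)).symm f) (e i) = f (e i) := by
    rw [InnerProductSpace.toDual_symm_apply]
  rw [← h2, e, EuclideanSpace.inner_single_right]
  simp

variable {N : ℕ}

/-- The indicator of the slab. -/
noncomputable def ind (u : E N → ℝ) (t : ℝ) (p : ℝ × E N) : ℝ :=
  ({q : ℝ × E N | q.1 < u q.2 ∧ u q.2 < q.1 + t}).indicator (fun _ => (1 : ℝ)) p

theorem ind_eq (u : E N → ℝ) (t s : ℝ) (y : E N) :
    ind u t (s, y) = (Ioo s (s + t)).indicator (fun _ => (1 : ℝ)) (u y) := by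
  unfold ind
  simp [Set.indicator_apply]

theorem ind_nonneg (u : E N → ℝ) (t : ℝ) (p : ℝ × E N) : 0 ≤ ind u t p :=
  Set.indicator_nonneg (fun _ _ => zero_le_one) p

theorem ind_le (u : E N → ℝ) (t : ℝ) (p : ℝ × E N) : ind u t p ≤ 1 :=
  Set.indicator_le_self' (fun _ _ => zero_le_one) p

theorem measurable_ind {u : E N → ℝ} (hu : Continuous u) (t : ℝ) : Measurable (ind u t) := by
  refine measurable_const.indicator ?_
  refine IsOpen.measurableSet (IsOpen.inter ?_ ?_)
  · exact isOpen_lt continuous_fst (hu.comp continuous_snd)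
  · exact isOpen_lt (hu.comp continuous_snd) (continuous_fst.add continuous_const)

theorem ind_le_int (u : E N → ℝ) (t s : ℝ) (y : E N) :
    ind u t (s, y) ≤ (Ioo (u y - t) (u y)).indicator (fun _ => (1 : ℝ)) s := by
  rw [ind_eq]
  by_cases h : u y ∈ Ioo s (s + t)
  · rw [Set.indicator_of_mem h, Set.indicator_of_mem]
    exact ⟨by linarith [h.2], h.1⟩
  · rw [Set.indicator_of_notMem h]
    exact Set.indicator_nonneg (fun _ _ => zero_le_one) s

/-- The volume of the slices. -/
noncomputable def av (u : E N → ℝ) (Ω : Set (E N)) (t s : ℝ) : ℝ := ∫ x in Ω, ind u t (s, x)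

theorem av_eq {u : E N → ℝ} (hu : Continuous u) {Ω : Set (E N)} (hΩ : MeasurableSet Ω) (t s : ℝ) :
    av u Ω t s = (volume ({x | s < u x ∧ u x < s + t} ∩ Ω)).toReal := by
  have hS : MeasurableSet {x | s < u x ∧ u x < s + t} :=
    IsOpen.measurableSet (IsOpen.inter (isOpen_lt continuous_const hu)
      (isOpen_lt hu continuous_const))
  have h1 : ∀ x, ind u t (s, x) = ({x | s < u x ∧ u x < s + t}).indicator (fun _ => (1 : ℝ)) x := by
    intro x
    unfold ind
    simp [Set.indicator_apply]
  unfold av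
  simp_rw [h1]
  rw [integral_indicator hS, setIntegral_const, smul_eq_mul, mul_one, measureReal_def,
    Measure.restrict_apply hS]

theorem av_meas {u : E N → ℝ} (hu : Continuous u) (Ω : Set (E N)) (t : ℝ) :
    Measurable (av u Ω t) := by
  have := (measurable_ind hu t).stronglyMeasurable.integral_prod_right' (ν := volume.restrict Ω)
  exact this.measurable

theorem av_nonneg (u : E N → ℝ) (Ω : Set (E N)) (t s : ℝ) : 0 ≤ av u Ω t s :=
  integral_nonneg fun x => ind_nonneg u t (s, x)

theorem av_le {u : E N → ℝ} (hu : Continuous u) {Ω : Set (E N)} (hΩ : MeasurableSet Ω)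
    (hfin : volume Ω ≠ ⊤) (t s : ℝ) : av u Ω t s ≤ (volume Ω).toReal := by
  rw [av_eq hu hΩ]
  exact ENNReal.toReal_mono hfin (measure_mono inter_subset_right)

/-- For fixed `y` : integrate in `s`. -/
theorem int_s {u : E N → ℝ} (hu : Continuous u) {Ω : Set (E N)} (hΩ : MeasurableSet Ω)
    (hfin : volume Ω ≠ ⊤) {t : ℝ} (ht : 0 < t) (y : E N) :
    ∫ s : ℝ, av u Ω t s * ind u t (s, y) = t ^ 2 * ∫ x in Ω, tri t (u y - u x) := by
  have hfm : IsFiniteMeasure (volume.restrict Ω) := ⟨by
    rw [Measure.restrict_apply_univ]; exact lt_top_iff_ne_top.2 hfin⟩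
  have h1 : ∀ s, av u Ω t s * ind u t (s, y) = ∫ x in Ω, ind u t (s, y) * ind u t (s, x) := by
    intro s
    rw [integral_const_mul, mul_comm]
    rfl
  simp_rw [h1]
  have hint : Integrable (Function.uncurry fun (s : ℝ) (x : E N) =>
      ind u t (s, y) * ind u t (s, x)) (volume.prod (volume.restrict Ω)) := by
    have hI : Integrable ((Ioo (u y - t) (u y)).indicator (fun _ => (1 : ℝ))) :=
      (integrable_indicator_iff measurableSet_Ioo).2
        (integrableOn_const (by rw [Real.volume_Ioo]; exact ENNReal.ofReal_ne_top))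
    have hb : Integrable (fun p : ℝ × E N => (Ioo (u y - t) (u y)).indicator (fun _ => (1 : ℝ)) p.1
        * (1 : ℝ)) (volume.prod (volume.restrict Ω)) :=
      hI.mul_prod (integrable_const (1 : ℝ))
    refine hb.mono' ?_ (Filter.Eventually.of_forall fun p => ?_)
    · refine Measurable.aestronglyMeasurable ?_
      exact ((measurable_ind hu t).comp (measurable_fst.prodMk measurable_const)).mul
        ((measurable_ind hu t).comp (measurable_fst.prodMk measurable_snd))
    · have e1 := ind_le_int u t p.1 y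
      have e2 := ind_le u t (p.1, p.2)
      have e3 := ind_nonneg u t (p.1, p.2)
      have e4 := ind_nonneg u t (p.1, y)
      simp only [Function.uncurry]
      rw [Real.norm_eq_abs, abs_of_nonneg (mul_nonneg e4 e3)]
      exact mul_le_mul e1 e2 e3 (e4.trans e1)
  rw [integral_integral_swap hint, ← integral_const_mul]
  refine integral_congr_ae (Filter.Eventually.of_forall fun x => ?_)
  simp only
  rw [tri_eq ht, ← mul_assoc, mul_one_div_cancel (by positivity), one_mul]
  simp_rw [ind_eq]

theorem prod_int {u : E N → ℝ} (hu : Continuous u) {M : ℝ} (hM : ∀ y, |u y| ≤ M)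
    {Ω : Set (E N)} (hΩ : MeasurableSet Ω)
    (hfin : volume Ω ≠ ⊤) (t : ℝ) {G : E N → ℝ} (hG : Integrable G)
    (hGm : Measurable G) (hG0 : ∀ y, 0 ≤ G y) :
    Integrable (Function.uncurry fun (s : ℝ) (y : E N) => av u Ω t s * (G y * ind u t (s, y)))
      (volume.prod volume) := by
  have hI : Integrable ((Ioo (-M - t) M).indicator (fun _ => (1 : ℝ))) :=
    (integrable_indicator_iff measurableSet_Ioo).2
      (integrableOn_const (by rw [Real.volume_Ioo]; exact ENNReal.ofReal_ne_top))
  have hb := (hI.mul_prod hG (μ := volume) (ν := volume)).const_mul (volume Ω).toReal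
  refine hb.mono' ?_ (Filter.Eventually.of_forall fun p => ?_)
  · refine Measurable.aestronglyMeasurable ?_
    exact ((av_meas hu Ω t).comp measurable_fst).mul ((hGm.comp measurable_snd).mul
      ((measurable_ind hu t).comp (measurable_fst.prodMk measurable_snd)))
  · have e1 := av_le hu hΩ hfin t p.1
    have e2 := av_nonneg u Ω t p.1
    have e3 := ind_nonneg u t (p.1, p.2)
    have e4 : ind u t (p.1, p.2) ≤ (Ioo (-M - t) M).indicator (fun _ => (1 : ℝ)) p.1 := by
      refine (ind_le_int u t p.1 p.2).trans ?_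
      refine Set.indicator_le_indicator_of_subset ?_ (fun _ => zero_le_one) p.1
      have := abs_le.1 (hM p.2)
      exact Ioo_subset_Ioo (by linarith) (by linarith)
    simp only [Function.uncurry]
    rw [Real.norm_eq_abs, abs_of_nonneg (mul_nonneg e2 (mul_nonneg (hG0 _) e3))]
    refine mul_le_mul e1 ?_ (mul_nonneg (hG0 _) e3) (e2.trans e1)
    rw [mul_comm]
    exact mul_le_mul_of_nonneg_right e4 (hG0 _)

theorem slice_eq {u : E N → ℝ} (hu : Continuous u) (t : ℝ) (G : E N → ℝ) (s : ℝ) :
    ∫ y in {y | s < u y ∧ u y < s + t}, G y = ∫ y, G y * ind u t (s, y) := by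
  have hS : MeasurableSet {x | s < u x ∧ u x < s + t} :=
    IsOpen.measurableSet (IsOpen.inter (isOpen_lt continuous_const hu)
      (isOpen_lt hu continuous_const))
  rw [← integral_indicator hS]
  refine integral_congr_ae (Filter.Eventually.of_forall fun y => ?_)
  simp only [ind, Set.indicator_apply, Set.mem_ofPred_eq]
  split_ifs <;> simp

end RankAux

open RankAux

/-- Integration by parts against the smoothed rank function. -/
theorem ibp_rank {N : ℕ} (u : E N → ℝ) (hu : ContDiff ℝ 2 u) (hc : HasCompactSupport u)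
    (Ω : Set (E N)) (hΩ : MeasurableSet Ω) (hfin : volume Ω ≠ ⊤) (t : ℝ) (ht : 0 < t) :
    ∫ y, (-Lap u y) * (∫ x in Ω, kap t (u y - u x))
      = ∫ y, ‖fderiv ℝ u y‖ ^ 2 * (∫ x in Ω, tri t (u y - u x)) := by
  have hfm : IsFiniteMeasure (volume.restrict Ω) := ⟨by
    rw [Measure.restrict_apply_univ]; exact lt_top_iff_ne_top.2 hfin⟩
  have huc : Continuous u := hu.continuous
  set Ψ : ℝ → ℝ := fun v => ∫ x in Ω, kap t (v - u x) with hΨ
  set Ψ' : ℝ → ℝ := fun v => ∫ x in Ω, tri t (v - u x) with hΨ'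
  have hder : ∀ v, HasDerivAt Ψ (Ψ' v) v := by
    intro v
    have := hasDerivAt_integral_of_dominated_loc_of_deriv_le (μ := volume.restrict Ω)
      (F := fun v x => kap t (v - u x)) (F' := fun v x => tri t (v - u x)) (x₀ := v)
      (s := univ) (bound := fun _ => 1 / t) Filter.univ_mem
      (Filter.Eventually.of_forall fun w =>
        ((continuous_kap t).comp (continuous_const.sub huc)).aestronglyMeasurable)
      (by
        refine Integrable.mono' (integrable_const (1 / 2 : ℝ))
          ((continuous_kap t).comp (continuous_const.sub huc)).aestronglyMeasurable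
          (Filter.Eventually.of_forall fun x => ?_)
        rw [Real.norm_eq_abs]
        exact abs_kap_le ht _)
      ((continuous_tri t).comp (continuous_const.sub huc)).aestronglyMeasurable
      (Filter.Eventually.of_forall fun x w _ => by
        rw [Real.norm_eq_abs, abs_of_nonneg (tri_nonneg ht _)]
        exact tri_le ht _)
      (integrable_const _)
      (Filter.Eventually.of_forall fun x w _ =>
        (hasDerivAt_kap t (w - u x)).comp_sub_const w (u x))
    exact this.2
  have hΨ'c : Continuous Ψ' := by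
    refine continuous_of_dominated (bound := fun _ => 1 / t)
      (fun v => ((continuous_tri t).comp (continuous_const.sub huc)).aestronglyMeasurable)
      (fun v => Filter.Eventually.of_forall fun x => ?_) (integrable_const _)
      (Filter.Eventually.of_forall fun x =>
        (continuous_tri t).comp (continuous_id.sub continuous_const))
    rw [Real.norm_eq_abs, abs_of_nonneg (tri_nonneg ht _)]
    exact tri_le ht _
  have hΨc : Continuous Ψ := continuous_iff_continuousAt.2 fun v => (hder v).continuousAt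
  have hud : Differentiable ℝ u := hu.differentiable (by norm_num)
  have hfd : ContDiff ℝ 1 (fderiv ℝ u) := hu.fderiv_right (by norm_num)
  have hg : ∀ y, HasFDerivAt (fun y => Ψ (u y)) (Ψ' (u y) • fderiv ℝ u y) y := fun y =>
    (hder (u y)).comp_hasFDerivAt y (hud y).hasFDerivAt
  have hgd : Differentiable ℝ (fun y => Ψ (u y)) := fun y => (hg y).differentiableAt
  -- one coordinate
  have hone : ∀ i : Fin N, ∫ y, (-D2 u y (e i) (e i)) * Ψ (u y) =
      ∫ y, (fderiv ℝ u y (e i)) ^ 2 * Ψ' (u y) := by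
    intro i
    set f : E N → ℝ := fun y => fderiv ℝ u y (e i) with hf
    have hfC : ContDiff ℝ 1 f := hfd.clm_apply contDiff_const
    have hfc : HasCompactSupport f := (hc.fderiv (𝕜 := ℝ)).comp_left (g := fun L : E N →L[ℝ] ℝ => L (e i)) rfl
    have hfdiff : Differentiable ℝ f := hfC.differentiable (by norm_num)
    have hD2 : ∀ y, fderiv ℝ f y (e i) = D2 u y (e i) (e i) := by
      intro y
      have h1 : HasFDerivAt f ((fderiv ℝ (fderiv ℝ u) y).flip (e i)) y := by
        have h2 := ((hfd.differentiable (by norm_num)) y).hasFDerivAt.clm_apply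
          (hasFDerivAt_const (e i) y)
        simpa using h2
      rw [h1.fderiv]
      rfl
    have hgf : ∀ y, fderiv ℝ (fun y => Ψ (u y)) y (e i) = Ψ' (u y) * f y := by
      intro y
      rw [(hg y).fderiv]
      rfl
    have hfcont : Continuous f := hfC.continuous
    have hD2c : Continuous (fun y => fderiv ℝ f y (e i)) := by
      have : Continuous (fderiv ℝ f) := hfC.continuous_fderiv (by norm_num)
      exact this.clm_apply continuous_const
    have hD2cs : HasCompactSupport (fun y => fderiv ℝ f y (e i)) :=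
      (hfc.fderiv (𝕜 := ℝ)).comp_left (g := fun L : E N →L[ℝ] ℝ => L (e i)) rfl
    have key := integral_mul_fderiv_eq_neg_fderiv_mul_of_integrable (μ := volume) (𝕜 := ℝ)
      (f := f) (g := fun y => Ψ (u y)) (v := e i)
      (by
        refine Continuous.integrable_of_hasCompactSupport ?_ hD2cs.mul_right
        exact hD2c.mul (hΨc.comp huc))
      (by
        simp_rw [hgf]
        refine Continuous.integrable_of_hasCompactSupport ?_ hfc.mul_right
        exact hfcont.mul ((hΨ'c.comp huc).mul hfcont))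
      (by
        refine Continuous.integrable_of_hasCompactSupport ?_ hfc.mul_right
        exact hfcont.mul (hΨc.comp huc))
      (fun x _ => hfdiff x) (fun x _ => hgd x)
    simp_rw [hgf, hD2] at key
    simp_rw [neg_mul]
    rw [integral_neg, ← key]
    refine integral_congr_ae (Filter.Eventually.of_forall fun y => ?_)
    simp only [hf]
    ring
  -- sum over the coordinates
  have hL : ∀ y, (-Lap u y) * Ψ (u y) = ∑ i, (-D2 u y (e i) (e i)) * Ψ (u y) := by
    intro y
    unfold Lap
    rw [← Finset.sum_neg_distrib, Finset.sum_mul]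
  have hR : ∀ y, ‖fderiv ℝ u y‖ ^ 2 * Ψ' (u y) = ∑ i, (fderiv ℝ u y (e i)) ^ 2 * Ψ' (u y) := by
    intro y
    rw [norm_sq_dual, Finset.sum_mul]
  have hLi : ∀ i : Fin N, Integrable (fun y => (-D2 u y (e i) (e i)) * Ψ (u y)) := fun i => by
    refine Continuous.integrable_of_hasCompactSupport ?_ ?_
    · exact (continuous_D2 hu _ _).neg.mul (hΨc.comp huc)
    · exact ((hasCompactSupport_D2 hc (e i) (e i)).neg).mul_right
  have hRi : ∀ i : Fin N, Integrable (fun y => (fderiv ℝ u y (e i)) ^ 2 * Ψ' (u y)) := fun i => by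
    have hfC : Continuous fun y => fderiv ℝ u y (e i) :=
      hfd.continuous.clm_apply continuous_const
    have hfc : HasCompactSupport fun y => fderiv ℝ u y (e i) :=
      (hc.fderiv (𝕜 := ℝ)).comp_left (g := fun L : E N →L[ℝ] ℝ => L (e i)) rfl
    refine Continuous.integrable_of_hasCompactSupport ?_ ?_
    · exact (hfC.pow 2).mul (hΨ'c.comp huc)
    · have : HasCompactSupport fun y => (fderiv ℝ u y (e i)) ^ 2 :=
        hfc.comp_left (g := fun z => z ^ 2) (by norm_num)
      exact this.mul_right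
  change ∫ y, (-Lap u y) * Ψ (u y) = ∫ y, ‖fderiv ℝ u y‖ ^ 2 * Ψ' (u y)
  simp_rw [hL, hR]
  rw [integral_finsetSum _ fun i _ => hLi i, integral_finsetSum _ fun i _ => hRi i]
  exact Finset.sum_congr rfl fun i _ => hone i

theorem RankAux.grad_facts {N : ℕ} {u : E N → ℝ} (hu : ContDiff ℝ 2 u)
    (hc : HasCompactSupport u) :
    Integrable (fun y => ‖fderiv ℝ u y‖ ^ 2) ∧ Measurable (fun y => ‖fderiv ℝ u y‖ ^ 2) := by
  have h1 : Continuous (fun y => ‖fderiv ℝ u y‖ ^ 2) :=
    ((hu.continuous_fderiv (by norm_num)).norm).pow 2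
  refine ⟨h1.integrable_of_hasCompactSupport ?_, h1.measurable⟩
  exact (hc.fderiv (𝕜 := ℝ)).comp_left (g := fun L : E N →L[ℝ] ℝ => ‖L‖ ^ 2) (by simp)

/-- Layer cake for the right-hand side. -/
theorem rank_slices {N : ℕ} (u : E N → ℝ) (hu : ContDiff ℝ 2 u) (hc : HasCompactSupport u)
    (Ω : Set (E N)) (hΩ : MeasurableSet Ω) (hfin : volume Ω ≠ ⊤) (t : ℝ) (ht : 0 < t) :
    ∫ y, ‖fderiv ℝ u y‖ ^ 2 * (∫ x in Ω, tri t (u y - u x))
      = 1 / t ^ 2 * ∫ s : ℝ, (volume ({x | s < u x ∧ u x < s + t} ∩ Ω)).toReal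
          * ∫ y in {y | s < u y ∧ u y < s + t}, ‖fderiv ℝ u y‖ ^ 2 := by
  obtain ⟨hG, hGm⟩ := RankAux.grad_facts hu hc
  obtain ⟨M, hM⟩ := hc.exists_bound_of_continuous hu.continuous
  have hM' : ∀ y, |u y| ≤ M := fun y => hM y
  have hprod := prod_int hu.continuous hM' hΩ hfin t hG hGm (fun y => by positivity)
  have h1 : ∀ s : ℝ, (volume ({x | s < u x ∧ u x < s + t} ∩ Ω)).toReal
      * ∫ y in {y | s < u y ∧ u y < s + t}, ‖fderiv ℝ u y‖ ^ 2 =
      ∫ y, av u Ω t s * (‖fderiv ℝ u y‖ ^ 2 * ind u t (s, y)) := by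
    intro s
    rw [slice_eq hu.continuous, integral_const_mul, av_eq hu.continuous hΩ]
  simp_rw [h1]
  rw [integral_integral_swap hprod, ← integral_const_mul]
  refine integral_congr_ae (Filter.Eventually.of_forall fun y => ?_)
  simp only
  have h2 : ∫ s : ℝ, av u Ω t s * (‖fderiv ℝ u y‖ ^ 2 * ind u t (s, y)) =
      ‖fderiv ℝ u y‖ ^ 2 * ∫ s : ℝ, av u Ω t s * ind u t (s, y) := by
    rw [← integral_const_mul]
    refine integral_congr_ae (Filter.Eventually.of_forall fun s => ?_)
    simp only
    ring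
  rw [h2, int_s hu.continuous hΩ hfin ht]
  field_simp

/-- The integrand of the right-hand side is integrable. -/
theorem rank_slices_integrable {N : ℕ} (u : E N → ℝ) (hu : ContDiff ℝ 2 u)
    (hc : HasCompactSupport u)
    (Ω : Set (E N)) (hΩ : MeasurableSet Ω) (hfin : volume Ω ≠ ⊤) (t : ℝ) (ht : 0 < t) :
    Integrable (fun s : ℝ => (volume ({x | s < u x ∧ u x < s + t} ∩ Ω)).toReal
          * ∫ y in {y | s < u y ∧ u y < s + t}, ‖fderiv ℝ u y‖ ^ 2) := by
  obtain ⟨hG, hGm⟩ := RankAux.grad_facts hu hc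
  obtain ⟨M, hM⟩ := hc.exists_bound_of_continuous hu.continuous
  have hM' : ∀ y, |u y| ≤ M := fun y => hM y
  have hprod := prod_int hu.continuous hM' hΩ hfin t hG hGm (fun y => by positivity)
  have h1 : ∀ s : ℝ, (volume ({x | s < u x ∧ u x < s + t} ∩ Ω)).toReal
      * ∫ y in {y | s < u y ∧ u y < s + t}, ‖fderiv ℝ u y‖ ^ 2 =
      ∫ y, av u Ω t s * (‖fderiv ℝ u y‖ ^ 2 * ind u t (s, y)) := by
    intro s
    rw [slice_eq hu.continuous, integral_const_mul, av_eq hu.continuous hΩ]
  simp_rw [h1]
  exact hprod.integral_prod_left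

end Pool.Agent.Lib.MP_d3943d_an
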