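import Mathlib

set_option autoImplicit false

/-!
The variance of a rank-type function is at most that of the uniform distribution.
-/

namespace Pool.Agent.Lib.MP_d3943d_an

open MeasureTheory Set
open scoped ENNReal ContDiff

theorem variance_sorted (κ : ℝ → ℝ) (hodd : ∀ s, κ (-s) = -κ s)
    (hmono : Monotone κ) (hb : ∀ s, |κ s| ≤ 1 / 2) (p q r : ℝ) (h1 : p ≤ q) (h2 : q ≤ r) :
    κ (q - p) * κ (q - r) + κ (p - q) * κ (p - r) + κ (r - p) * κ (r - q) ≤ 1 / 4 := by
  have h0 : κ 0 = 0 := by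
    have := hodd 0
    rw [neg_zero] at this
    linarith
  have e1 : κ (q - r) = -κ (r - q) := by rw [← hodd, neg_sub]
  have e2 : κ (p - q) = -κ (q - p) := by rw [← hodd, neg_sub]
  have e3 : κ (p - r) = -κ (r - p) := by rw [← hodd, neg_sub]
  rw [e1, e2, e3]
  have ha : 0 ≤ κ (q - p) := by
    rw [← h0]
    exact hmono (by linarith)
  have hb' : 0 ≤ κ (r - q) := by
    rw [← h0]
    exact hmono (by linarith)
  have hac : κ (q - p) ≤ κ (r - p) := hmono (by linarith)
  have hbc : κ (r - q) ≤ κ (r - p) := hmono (by linarith)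
  have hc : κ (r - p) ≤ 1 / 2 := (abs_le.1 (hb _)).2
  nlinarith [mul_nonneg (sub_nonneg.2 hac) (sub_nonneg.2 hbc)]

theorem variance_pointwise (κ : ℝ → ℝ) (hodd : ∀ s, κ (-s) = -κ s)
    (hmono : Monotone κ) (hb : ∀ s, |κ s| ≤ 1 / 2) (x y z : ℝ) :
    κ (x - y) * κ (x - z) + κ (y - x) * κ (y - z) + κ (z - x) * κ (z - y) ≤ 1 / 4 := by
  have key := variance_sorted κ hodd hmono hb
  rcases le_total x y with h1 | h1 <;> rcases le_total y z with h2 | h2 <;>
    rcases le_total x z with h3 | h3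
  · linarith [key x y z h1 h2]
  · linarith [key x y z h1 h2]
  · linarith [key x z y h3 h2]
  · linarith [key z x y h3 h1]
  · linarith [key y x z h1 h3]
  · linarith [key y z x h2 h3]
  · linarith [key z y x h2 h1]
  · linarith [key z y x h2 h1]

theorem variance_int {β : Type*} [MeasurableSpace β] (ν : Measure β) [IsFiniteMeasure ν]
    (f : β → ℝ) (hf : Measurable f) (C : ℝ) (hC : ∀ x, |f x| ≤ C) : Integrable f ν :=
  Integrable.of_bound hf.aestronglyMeasurable C (Filter.Eventually.of_forall hC)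

theorem variance_add {β : Type*} [MeasurableSpace β] {ν : Measure β} {f g h : β → ℝ}
    (hf : Integrable f ν) (hg : Integrable g ν) (hh : Integrable h ν) {C : ℝ}
    (hC : ∫ x, f x + g x + h x ∂ν ≤ C) : ∫ x, f x ∂ν + ∫ x, g x ∂ν + ∫ x, h x ∂ν ≤ C := by
  have h1 : ∫ x, f x + g x ∂ν = ∫ x, f x ∂ν + ∫ x, g x ∂ν := integral_add hf hg
  have h2 : ∫ x, f x + g x + h x ∂ν = ∫ x, f x + g x ∂ν + ∫ x, h x ∂ν :=
    integral_add (hf.add hg) hh
  rwa [← h1, ← h2]

theorem variance {α : Type*} [MeasurableSpace α] (μ : Measure α) [IsFiniteMeasure μ]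
    (u : α → ℝ) (hu : Measurable u) (κ : ℝ → ℝ) (hodd : ∀ s, κ (-s) = -κ s)
    (hmono : Monotone κ) (hb : ∀ s, |κ s| ≤ 1 / 2) :
    ∫ y, (∫ x, κ (u y - u x) ∂μ) ^ 2 ∂μ ≤ (μ univ).toReal ^ 3 / 12 := by
  have hκ : Measurable κ := hmono.measurable
  set M : ℝ := (μ univ).toReal with hM
  have hM0 : 0 ≤ M := ENNReal.toReal_nonneg
  set m : α → ℝ := fun y => ∫ x, κ (u y - u x) ∂μ with hm
  have hmm : Measurable m := by
    have h1 : StronglyMeasurable (Function.uncurry fun y x => κ (u y - u x)) := by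
      apply Measurable.stronglyMeasurable
      unfold Function.uncurry
      fun_prop
    exact h1.integral_prod_right.measurable
  have hmb : ∀ y, |m y| ≤ 1 / 2 * M := by
    intro y
    have h1 := norm_integral_le_of_norm_le_const (μ := μ) (f := fun x => κ (u y - u x))
      (C := 1 / 2) (Filter.Eventually.of_forall fun x => hb _)
    exact h1
  have hprod : ∀ a b : ℝ, |κ a * κ b| ≤ 1 / 4 := by
    intro a b
    rw [abs_mul]
    nlinarith [hb a, hb b, abs_nonneg (κ a), abs_nonneg (κ b)]
  have hprodm : ∀ (a : ℝ) (y : α), |κ a * m y| ≤ 1 / 2 * (1 / 2 * M) := by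
    intro a y
    rw [abs_mul]
    exact mul_le_mul (hb a) (hmb y) (abs_nonneg _) (by norm_num)
  -- the inner integrals
  have i1 : ∀ x y, ∫ z, κ (u x - u y) * κ (u x - u z) ∂μ = κ (u x - u y) * m x := by
    intro x y
    rw [integral_const_mul]
  have i2 : ∀ x y, ∫ z, κ (u y - u x) * κ (u y - u z) ∂μ = κ (u y - u x) * m y := by
    intro x y
    rw [integral_const_mul]
  -- three expressions
  have a1 : ∫ x, ∫ y, ∫ z, κ (u x - u y) * κ (u x - u z) ∂μ ∂μ ∂μ = ∫ x, m x ^ 2 ∂μ := by
    refine integral_congr_ae (Filter.Eventually.of_forall fun x => ?_)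
    simp only [i1]
    rw [integral_mul_const, sq]
  have a2 : ∫ x, ∫ y, ∫ z, κ (u y - u x) * κ (u y - u z) ∂μ ∂μ ∂μ = ∫ x, m x ^ 2 ∂μ := by
    simp only [i2]
    rw [integral_integral_swap]
    · refine integral_congr_ae (Filter.Eventually.of_forall fun y => ?_)
      simp only
      rw [integral_mul_const, sq]
    · refine variance_int (μ.prod μ) (Function.uncurry fun x y => κ (u y - u x) * m y) ?_ _
        (fun p : α × α => hprodm (u p.2 - u p.1) p.2)
      unfold Function.uncurry
      fun_prop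
  have a3 : ∫ x, ∫ y, ∫ z, κ (u z - u x) * κ (u z - u y) ∂μ ∂μ ∂μ = ∫ x, m x ^ 2 ∂μ := by
    have h1 : ∀ x, ∫ y, ∫ z, κ (u z - u x) * κ (u z - u y) ∂μ ∂μ =
        ∫ z, κ (u z - u x) * m z ∂μ := by
      intro x
      rw [integral_integral_swap]
      · refine integral_congr_ae (Filter.Eventually.of_forall fun z => ?_)
        simp only
        rw [integral_const_mul]
      · refine variance_int (μ.prod μ) (Function.uncurry fun y z =>
          κ (u z - u x) * κ (u z - u y)) ?_ _
          (fun p : α × α => hprod (u p.2 - u x) (u p.2 - u p.1))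
        unfold Function.uncurry
        fun_prop
    simp only [h1]
    rw [integral_integral_swap]
    · refine integral_congr_ae (Filter.Eventually.of_forall fun y => ?_)
      simp only
      rw [integral_mul_const, sq]
    · refine variance_int (μ.prod μ) (Function.uncurry fun x y => κ (u y - u x) * m y) ?_ _
        (fun p : α × α => hprodm (u p.2 - u p.1) p.2)
      unfold Function.uncurry
      fun_prop
  -- the sum
  have hG : ∀ x y, ∫ z, κ (u x - u y) * κ (u x - u z) ∂μ +
      ∫ z, κ (u y - u x) * κ (u y - u z) ∂μ + ∫ z, κ (u z - u x) * κ (u z - u y) ∂μ ≤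
        1 / 4 * M := by
    intro x y
    have j1 : Integrable (fun z => κ (u x - u y) * κ (u x - u z)) μ :=
      variance_int _ _ (by fun_prop) _ (fun z => hprod _ _)
    have j2 : Integrable (fun z => κ (u y - u x) * κ (u y - u z)) μ :=
      variance_int _ _ (by fun_prop) _ (fun z => hprod _ _)
    have j3 : Integrable (fun z => κ (u z - u x) * κ (u z - u y)) μ :=
      variance_int _ _ (by fun_prop) _ (fun z => hprod _ _)
    refine variance_add j1 j2 j3 ?_
    calc ∫ z, (κ (u x - u y) * κ (u x - u z) + κ (u y - u x) * κ (u y - u z)) +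
          κ (u z - u x) * κ (u z - u y) ∂μ ≤ ∫ _z, (1 / 4 : ℝ) ∂μ :=
          integral_mono ((j1.add j2).add j3) (integrable_const _)
            (fun z => variance_pointwise κ hodd hmono hb (u x) (u y) (u z))
      _ = 1 / 4 * M := by
        rw [integral_const, smul_eq_mul, mul_comm]
        rfl
  -- middle functions
  have hf3m : Measurable (Function.uncurry fun x y => ∫ z, κ (u z - u x) * κ (u z - u y) ∂μ) := by
    have h1 : StronglyMeasurable (Function.uncurry fun (p : α × α) z =>
        κ (u z - u p.1) * κ (u z - u p.2)) := by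
      apply Measurable.stronglyMeasurable
      unfold Function.uncurry
      fun_prop
    exact h1.integral_prod_right.measurable
  have hf3b : ∀ x y, |∫ z, κ (u z - u x) * κ (u z - u y) ∂μ| ≤ 1 / 4 * M := by
    intro x y
    have h1 := norm_integral_le_of_norm_le_const (μ := μ)
      (f := fun z => κ (u z - u x) * κ (u z - u y)) (C := 1 / 4)
      (Filter.Eventually.of_forall fun z => hprod _ _)
    exact h1
  have hH : ∀ x, ∫ y, ∫ z, κ (u x - u y) * κ (u x - u z) ∂μ ∂μ +
      ∫ y, ∫ z, κ (u y - u x) * κ (u y - u z) ∂μ ∂μ +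
      ∫ y, ∫ z, κ (u z - u x) * κ (u z - u y) ∂μ ∂μ ≤ 1 / 4 * M * M := by
    intro x
    have j1 : Integrable (fun y => ∫ z, κ (u x - u y) * κ (u x - u z) ∂μ) μ := by
      simp only [i1]
      exact variance_int _ _ (by fun_prop) _ (fun y => hprodm _ _)
    have j2 : Integrable (fun y => ∫ z, κ (u y - u x) * κ (u y - u z) ∂μ) μ := by
      simp only [i2]
      exact variance_int _ _ (by fun_prop) _ (fun y => hprodm _ _)
    have j3 : Integrable (fun y => ∫ z, κ (u z - u x) * κ (u z - u y) ∂μ) μ :=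
      variance_int _ _ (hf3m.comp measurable_prodMk_left) _ (fun y => hf3b x y)
    refine variance_add j1 j2 j3 ?_
    refine (integral_mono ((j1.add j2).add j3) (integrable_const (1 / 4 * M))
      (fun y => hG x y)).trans (le_of_eq ?_)
    rw [integral_const, smul_eq_mul, mul_comm]
    rfl
  have k1 : Integrable (fun x => ∫ y, ∫ z, κ (u x - u y) * κ (u x - u z) ∂μ ∂μ) μ := by
    have h1 : (fun x => ∫ y, ∫ z, κ (u x - u y) * κ (u x - u z) ∂μ ∂μ) = fun x => m x * m x := by
      funext x
      simp only [i1]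
      rw [integral_mul_const]
    rw [h1]
    refine variance_int _ _ (by fun_prop) (1 / 2 * M * (1 / 2 * M)) (fun x => ?_)
    rw [abs_mul]
    exact mul_le_mul (hmb x) (hmb x) (abs_nonneg _) (by positivity)
  have hbnd : ∀ (F : α → α → ℝ) (C : ℝ), Measurable (Function.uncurry F) →
      (∀ x y, |F x y| ≤ C) → Integrable (fun x => ∫ y, F x y ∂μ) μ := by
    intro F C hF hC
    refine variance_int _ _ ?_ (C * M) (fun x => ?_)
    · exact hF.stronglyMeasurable.integral_prod_right.measurable
    · exact norm_integral_le_of_norm_le_const (μ := μ) (f := fun y => F x y)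
        (Filter.Eventually.of_forall fun y => hC x y)
  have k2 : Integrable (fun x => ∫ y, ∫ z, κ (u y - u x) * κ (u y - u z) ∂μ ∂μ) μ := by
    simp only [i2]
    refine hbnd (fun x y => κ (u y - u x) * m y) _ ?_ (fun x y => hprodm _ _)
    unfold Function.uncurry
    fun_prop
  have k3 : Integrable (fun x => ∫ y, ∫ z, κ (u z - u x) * κ (u z - u y) ∂μ ∂μ) μ :=
    hbnd (fun x y => ∫ z, κ (u z - u x) * κ (u z - u y) ∂μ) _ hf3m hf3b
  have hfin : 3 * ∫ x, m x ^ 2 ∂μ ≤ 1 / 4 * M * M * M := by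
    have h1 : 3 * ∫ x, m x ^ 2 ∂μ = ∫ x, ∫ y, ∫ z, κ (u x - u y) * κ (u x - u z) ∂μ ∂μ ∂μ +
          ∫ x, ∫ y, ∫ z, κ (u y - u x) * κ (u y - u z) ∂μ ∂μ ∂μ +
          ∫ x, ∫ y, ∫ z, κ (u z - u x) * κ (u z - u y) ∂μ ∂μ ∂μ := by
      rw [a1, a2, a3]
      ring
    rw [h1]
    refine variance_add k1 k2 k3 ?_
    refine (integral_mono ((k1.add k2).add k3) (integrable_const (1 / 4 * M * M)) hH).trans
      (le_of_eq ?_)
    rw [integral_const, smul_eq_mul, mul_comm]
    rfl
  have : ∫ x, m x ^ 2 ∂μ ≤ M ^ 3 / 12 := by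
    rw [le_div_iff₀ (by norm_num)]
    linarith
  exact this

end Pool.Agent.Lib.MP_d3943d_an
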