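import Pool.Agent.Lib.MP_d3943d_an.Strip
import Pool.Agent.Lib.MP_d3943d_an.Rank
import Pool.Agent.Lib.MP_d3943d_an.Variance

set_option autoImplicit false

/-!
The sharp inequality in the plane.
-/

namespace Pool.Agent.Lib.MP_d3943d_an

open MeasureTheory Set
open scoped ENNReal ContDiff

namespace PTwo

/-- Cauchy-Schwarz for integrals of real functions. -/
theorem cs {α : Type*} [MeasurableSpace α] {μ : Measure α} {f g : α → ℝ}
    (hf : Integrable (fun x => f x ^ 2) μ) (hg : Integrable (fun x => g x ^ 2) μ)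
    (hfg : Integrable (fun x => f x * g x) μ) :
    (∫ x, f x * g x ∂μ) ^ 2 ≤ (∫ x, f x ^ 2 ∂μ) * ∫ x, g x ^ 2 ∂μ := by
  have h1 : ∀ c : ℝ, 0 ≤ (∫ x, g x ^ 2 ∂μ) * (c * c) + (-2 * ∫ x, f x * g x ∂μ) * c +
      ∫ x, f x ^ 2 ∂μ := by
    intro c
    have h2 : 0 ≤ ∫ x, (f x - c * g x) ^ 2 ∂μ := integral_nonneg (fun x => sq_nonneg _)
    have j1 : Integrable (fun x => f x ^ 2 - 2 * c * (f x * g x)) μ := hf.sub (hfg.const_mul _)
    have h3 : ∫ x, (f x - c * g x) ^ 2 ∂μ = (∫ x, f x ^ 2 ∂μ) - 2 * c * (∫ x, f x * g x ∂μ) +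
        c ^ 2 * ∫ x, g x ^ 2 ∂μ := by
      rw [← integral_const_mul, ← integral_const_mul, ← integral_sub hf (hfg.const_mul _),
        ← integral_add j1 (hg.const_mul _)]
      refine integral_congr_ae (Filter.Eventually.of_forall (fun x => ?_))
      simp only
      ring
    rw [h3] at h2
    nlinarith
  have h2 := discrim_le_zero h1
  unfold discrim at h2
  nlinarith

section

variable {u : E 2 → ℝ}

theorem fd_facts (hu : ContDiff ℝ 2 u) (hc : HasCompactSupport u) :
    Continuous (fun x => ‖fderiv ℝ u x‖) ∧ Integrable (fun x => ‖fderiv ℝ u x‖) ∧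
      Integrable (fun x => ‖fderiv ℝ u x‖ ^ 2) := by
  have h1 : Continuous (fun x => ‖fderiv ℝ u x‖) := (hu.continuous_fderiv (by norm_num)).norm
  have h2 : HasCompactSupport (fun x => ‖fderiv ℝ u x‖) := (hc.fderiv (𝕜 := ℝ)).norm
  refine ⟨h1, h1.integrable_of_hasCompactSupport h2, ?_⟩
  refine (h1.pow 2).integrable_of_hasCompactSupport ?_
  have := h2.comp_left (g := fun r : ℝ => r ^ 2) (by norm_num)
  exact this

/-- Pointwise lower bound. -/
theorem lower {Ω : Set (E 2)} (hfin : volume Ω ≠ ⊤) (hu : ContDiff ℝ 2 u)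
    (hc : HasCompactSupport u) (hs : tsupport u ⊆ Ω) {s t : ℝ} (hs0 : 0 < s) (ht : 0 < t)
    (hnull : volume {x | u x = s} = 0) :
    4 * Real.pi * t ^ 2 * (volume {x | s + t < u x}).toReal ≤
      (volume ({x | s < u x ∧ u x < s + t} ∩ Ω)).toReal *
        ∫ y in {y | s < u y ∧ u y < s + t}, ‖fderiv ℝ u y‖ ^ 2 := by
  obtain ⟨f1, f2, f3⟩ := fd_facts hu hc
  obtain ⟨S, hS⟩ : ∃ S : Set (E 2), S = {x | s < u x ∧ u x < s + t} := ⟨_, rfl⟩
  have hSΩ : S ⊆ Ω := by
    rw [hS]
    intro x hx
    refine hs (subset_tsupport _ ?_)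
    intro h
    have := hx.1
    rw [h] at this
    linarith
  have hSm : MeasurableSet S := by
    rw [hS]
    exact ((isOpen_lt continuous_const hu.continuous).inter
      (isOpen_lt hu.continuous continuous_const)).measurableSet
  have h1 := strip u hu hc s t hs0 ht hnull
  rw [← hS] at h1 ⊢
  rw [inter_eq_self_of_subset_left hSΩ]
  have hSf : volume S ≠ ⊤ := ne_top_of_le_ne_top hfin (measure_mono hSΩ)
  have hfinS : IsFiniteMeasure (volume.restrict S) := by
    refine ⟨?_⟩
    rw [Measure.restrict_apply_univ]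
    exact lt_top_iff_ne_top.2 hSf
  have h2 := cs (μ := volume.restrict S) (f := fun x => ‖fderiv ℝ u x‖) (g := fun _ => (1 : ℝ))
    f3.integrableOn (integrable_const _) (by
      simp only [mul_one]
      exact f2.integrableOn)
  simp only [mul_one, one_pow, integral_const, smul_eq_mul, measureReal_restrict_apply_univ] at h2
  have h3 : (2 * √Real.pi * t * √((volume {x | s + t < u x}).toReal)) ^ 2 ≤
      (∫ x in S, ‖fderiv ℝ u x‖) ^ 2 := by
    exact pow_le_pow_left₀ (by positivity) h1 2
  have h4 : (2 * √Real.pi * t * √((volume {x | s + t < u x}).toReal)) ^ 2 =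
      4 * Real.pi * t ^ 2 * (volume {x | s + t < u x}).toReal := by
    rw [mul_pow, mul_pow, mul_pow, Real.sq_sqrt Real.pi_pos.le, Real.sq_sqrt ENNReal.toReal_nonneg]
    ring
  rw [h4] at h3
  refine h3.trans (h2.trans (le_of_eq ?_))
  rw [mul_comm]
  rfl

/-- The part of the slice integral over positive levels. -/
theorem half {Ω : Set (E 2)} (hΩ : MeasurableSet Ω) (hfin : volume Ω ≠ ⊤) (hu : ContDiff ℝ 2 u)
    (hc : HasCompactSupport u) (hs : tsupport u ⊆ Ω) {t : ℝ} (ht : 0 < t) :
    4 * Real.pi * t ^ 2 * ∫ x, max (u x - t) 0 ≤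
      ∫ s in Ioi (0 : ℝ), (volume ({x | s < u x ∧ u x < s + t} ∩ Ω)).toReal *
        ∫ y in {y | s < u y ∧ u y < s + t}, ‖fderiv ℝ u y‖ ^ 2 := by
  have hcm : Continuous (fun x => max (u x - t) 0) :=
    (hu.continuous.sub continuous_const).max continuous_const
  have hcs : HasCompactSupport (fun x => max (u x - t) 0) := by
    have := hc.comp_left (g := fun r : ℝ => max (r - t) 0) (by
      simp only [zero_sub]
      exact max_eq_right (by linarith))
    exact this
  have hi : Integrable (fun x => max (u x - t) 0) := hcm.integrable_of_hasCompactSupport hcs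
  have h1 := hi.integral_eq_integral_meas_lt (Filter.Eventually.of_forall
    (fun x => le_max_right _ _))
  have hint := (rank_slices_integrable u hu hc Ω hΩ hfin t ht).integrableOn (s := Ioi (0:ℝ))
  rw [h1]
  by_cases hmi : IntegrableOn (fun s : ℝ => volume.real {a | s < max (u a - t) 0}) (Ioi 0)
  swap
  · rw [integral_undef hmi, mul_zero]
    exact integral_nonneg (fun s => mul_nonneg ENNReal.toReal_nonneg
      (integral_nonneg (fun y => sq_nonneg _)))
  rw [← integral_const_mul]
  refine integral_mono_ae (hmi.const_mul _) hint ?_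
  have hcount := Measure.countable_meas_level_set_pos (μ := (volume : Measure (E 2)))
    hu.continuous.measurable
  have hae : ∀ᵐ s : ℝ, s ∉ {s : ℝ | 0 < volume {a : E 2 | u a = s}} :=
    hcount.ae_notMem _
  refine (ae_restrict_iff' measurableSet_Ioi).2 ?_
  filter_upwards [hae] with s hs' hs0
  have hs0' : (0 : ℝ) < s := hs0
  have hnull : volume {a : E 2 | u a = s} = 0 := by
    by_contra h
    exact hs' (pos_iff_ne_zero.2 h)
  have h2 := lower hfin hu hc hs hs0' ht hnull
  have h3 : {a : E 2 | s < max (u a - t) 0} = {x | s + t < u x} := by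
    ext a
    simp only [mem_ofPred_eq, lt_max_iff]
    constructor
    · rintro (h | h)
      · linarith
      · linarith
    · intro h
      left
      linarith
  rw [h3]
  exact h2

/-- The main estimate for fixed `t`. -/
theorem main_t {Ω : Set (E 2)} (hΩ : MeasurableSet Ω) (hfin : volume Ω ≠ ⊤)
    (hu : ContDiff ℝ 2 u) (hc : HasCompactSupport u) (hs : tsupport u ⊆ Ω) {t : ℝ} (ht : 0 < t) :
    4 * Real.pi * ((∫ x, |u x|) - t * (volume Ω).toReal) ≤
      √((volume Ω).toReal ^ 3 / 12 * ∫ x, (Lap u x) ^ 2) := by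
  have hfinΩ : IsFiniteMeasure (volume.restrict Ω) := by
    refine ⟨?_⟩
    rw [Measure.restrict_apply_univ]
    exact lt_top_iff_ne_top.2 hfin
  obtain ⟨F, hF⟩ : ∃ F : ℝ → ℝ, F = fun s => (volume ({x | s < u x ∧ u x < s + t} ∩ Ω)).toReal *
        ∫ y in {y | s < u y ∧ u y < s + t}, ‖fderiv ℝ u y‖ ^ 2 := ⟨_, rfl⟩
  have hFi : Integrable F := by
    rw [hF]; exact rank_slices_integrable u hu hc Ω hΩ hfin t ht
  have hF0 : ∀ s, 0 ≤ F s := by
    intro s
    rw [hF]
    exact mul_nonneg ENNReal.toReal_nonneg (integral_nonneg (fun y => sq_nonneg _))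
  -- lower bound for the integral of `F`
  have hpos := half hΩ hfin hu hc hs ht
  have hneg := half (u := fun x => -u x) hΩ hfin hu.neg hc.neg (by
    have : tsupport (fun x => -u x) = tsupport u := by
      unfold tsupport
      congr 1
      ext x
      simp
    rw [this]; exact hs) ht
  have e1 : ∫ s in Ioi (0 : ℝ), (volume ({x | s < -u x ∧ -u x < s + t} ∩ Ω)).toReal *
      ∫ y in {y | s < -u y ∧ -u y < s + t}, ‖fderiv ℝ (fun x => -u x) y‖ ^ 2 =
      ∫ s in Iio (-t), F s := by
    have e2 : ∫ s in Iio (-t), F s = ∫ s in Ioi (0:ℝ), F (-t - s) := by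
      rw [← integral_indicator measurableSet_Iio, ← integral_indicator measurableSet_Ioi,
        ← integral_sub_left_eq_self (fun s => (Iio (-t)).indicator F s) _ (-t)]
      refine integral_congr_ae (Filter.Eventually.of_forall (fun s => ?_))
      simp only
      by_cases h : s ∈ Ioi (0:ℝ)
      · rw [indicator_of_mem h, indicator_of_mem (show -t - s ∈ Iio (-t) by
          rw [mem_Iio]; rw [mem_Ioi] at h; linarith)]
      · rw [indicator_of_notMem h, indicator_of_notMem (show -t - s ∉ Iio (-t) by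
          rw [mem_Iio]; rw [mem_Ioi] at h; linarith)]
    rw [e2]
    refine integral_congr_ae (Filter.Eventually.of_forall (fun s => ?_))
    rw [hF]
    simp only
    have s1 : {x : E 2 | s < -u x ∧ -u x < s + t} = {x | -t - s < u x ∧ u x < -t - s + t} := by
      ext x
      simp only [mem_ofPred_eq]
      constructor
      · rintro ⟨h1, h2⟩
        constructor <;> linarith
      · rintro ⟨h1, h2⟩
        constructor <;> linarith
    rw [s1]
    congr 1
    refine integral_congr_ae (Filter.Eventually.of_forall (fun y => ?_))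
    simp only [fderiv_fun_neg, norm_neg]
  rw [e1] at hneg
  have hposF : ∫ s in Ioi (0 : ℝ), (volume ({x | s < u x ∧ u x < s + t} ∩ Ω)).toReal *
        ∫ y in {y | s < u y ∧ u y < s + t}, ‖fderiv ℝ u y‖ ^ 2 = ∫ s in Ioi (0:ℝ), F s := by
    rw [hF]
  rw [hposF] at hpos
  have hsum : (∫ s in Ioi (0:ℝ), F s) + ∫ s in Iio (-t), F s ≤ ∫ s, F s := by
    have hdisj : Disjoint (Ioi (0:ℝ)) (Iio (-t)) := by
      rw [Set.disjoint_left]
      intro x hx hx'
      rw [mem_Ioi] at hx
      rw [mem_Iio] at hx'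
      linarith
    rw [← setIntegral_union hdisj measurableSet_Iio hFi.integrableOn hFi.integrableOn]
    exact setIntegral_le_integral hFi (Filter.Eventually.of_forall hF0)
  have hcu : Continuous u := hu.continuous
  have iu : Integrable (fun x => |u x|) := (hcu.integrable_of_hasCompactSupport hc).abs
  have im : ∀ w : E 2 → ℝ, Continuous w → HasCompactSupport w →
      Integrable (fun x => max (w x - t) 0) := by
    intro w hw hwc
    have hcm : Continuous (fun x => max (w x - t) 0) :=
      (hw.sub continuous_const).max continuous_const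
    have hcs : HasCompactSupport (fun x => max (w x - t) 0) := by
      have := hwc.comp_left (g := fun r : ℝ => max (r - t) 0) (by
        simp only [zero_sub]
        exact max_eq_right (by linarith))
      exact this
    exact hcm.integrable_of_hasCompactSupport hcs
  have hlow : (∫ x, |u x|) - t * (volume Ω).toReal ≤
      (∫ x, max (u x - t) 0) + ∫ x, max (-u x - t) 0 := by
    rw [← integral_add (im u hcu hc) (im (fun x => -u x) hcu.neg hc.neg)]
    have iΩ : Integrable (Ω.indicator (fun _ : E 2 => t)) :=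
      (integrable_indicator_iff hΩ).2 (integrable_const t)
    have : t * (volume Ω).toReal = ∫ x, Ω.indicator (fun _ : E 2 => t) x := by
      rw [integral_indicator hΩ, integral_const, measureReal_restrict_apply_univ, smul_eq_mul,
        mul_comm]
      rfl
    rw [this, ← integral_sub iu iΩ]
    refine integral_mono (iu.sub iΩ) ((im u hcu hc).add (im (fun x => -u x) hcu.neg hc.neg))
      (fun x => ?_)
    simp only
    by_cases hx : x ∈ Ω
    · rw [indicator_of_mem hx]
      rcases le_total 0 (u x) with h | h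
      · rw [abs_of_nonneg h]
        linarith [le_max_left (u x - t) 0, le_max_right (-u x - t) 0]
      · rw [abs_of_nonpos h]
        linarith [le_max_right (u x - t) 0, le_max_left (-u x - t) 0]
    · rw [indicator_of_notMem hx]
      have : u x = 0 := image_eq_zero_of_notMem_tsupport (fun h => hx (hs h))
      rw [this]
      simp only [abs_zero, sub_zero]
      exact add_nonneg (le_max_right _ _) (le_max_right _ _)
  -- the left-hand side
  obtain ⟨W, hW⟩ : ∃ W : E 2 → ℝ, W = fun y => ∫ x in Ω, kap t (u y - u x) := ⟨_, rfl⟩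
  have hkc : Continuous (kap t) :=
    continuous_iff_continuousAt.2 (fun s => (hasDerivAt_kap t s).continuousAt)
  have hWc : Continuous W := by
    rw [hW]
    refine continuous_of_dominated (bound := fun _ => 1 / 2) ?_ ?_ ?_ ?_
    · intro y
      exact (hkc.comp (continuous_const.sub hcu)).aestronglyMeasurable
    · intro y
      exact Filter.Eventually.of_forall (fun x => abs_kap_le ht _)
    · exact integrable_const _
    · exact Filter.Eventually.of_forall (fun x => hkc.comp (hcu.sub continuous_const))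
  have hvar : ∫ y in Ω, (W y) ^ 2 ≤ (volume Ω).toReal ^ 3 / 12 := by
    have := variance (volume.restrict Ω) u hcu.measurable (kap t) (kap_neg t) (monotone_kap t)
      (abs_kap_le ht)
    rw [Measure.restrict_apply_univ] at this
    rw [hW]
    exact this
  have hWb : ∀ y, |W y| ≤ 1 / 2 * (volume Ω).toReal := by
    intro y
    rw [hW]
    have := norm_integral_le_of_norm_le_const (μ := volume.restrict Ω) (C := 1 / 2)
      (f := fun x => kap t (u y - u x)) (Filter.Eventually.of_forall (fun x => abs_kap_le ht _))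
    rw [measureReal_restrict_apply_univ] at this
    exact this
  have hLc : Continuous (fun x => Lap u x) := continuous_Lap hu
  have hLs : HasCompactSupport (fun x => Lap u x) := hasCompactSupport_Lap hc
  have hL2 : Integrable (fun x => (Lap u x) ^ 2) := by
    refine (hLc.pow 2).integrable_of_hasCompactSupport ?_
    exact hLs.comp_left (g := fun r : ℝ => r ^ 2) (by norm_num)
  have hLW : Integrable (fun y => (-Lap u y) * W y) := by
    refine (hLc.neg.mul hWc).integrable_of_hasCompactSupport ?_
    exact (hLs.neg).mul_right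
  have hW2 : Integrable (fun y => W y ^ 2) (volume.restrict Ω) := by
    refine Integrable.of_bound (C := (1 / 2 * (volume Ω).toReal) ^ 2)
      (hWc.pow 2).aestronglyMeasurable (Filter.Eventually.of_forall (fun y => ?_))
    rw [norm_pow, Real.norm_eq_abs]
    exact pow_le_pow_left₀ (abs_nonneg _) (hWb y) 2
  have hLz : ∀ x, x ∉ Ω → Lap u x = 0 := by
    intro x hx
    have hx' : x ∉ tsupport u := fun h => hx (hs h)
    have h1 : u =ᶠ[nhds x] fun _ => 0 := by
      filter_upwards [(isClosed_tsupport u).isOpen_compl.mem_nhds hx'] with y hy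
      exact image_eq_zero_of_notMem_tsupport hy
    have h2 : fderiv ℝ u =ᶠ[nhds x] fun _ => 0 := by
      filter_upwards [h1.eventually_nhds] with y hy
      rw [Filter.EventuallyEq.fderiv_eq hy]
      simp
    unfold Lap D2
    rw [h2.fderiv_eq]
    simp
  have hX : ∫ y, (-Lap u y) * W y = ∫ y in Ω, (-Lap u y) * W y := by
    rw [setIntegral_eq_integral_of_forall_compl_eq_zero]
    intro x hx
    rw [hLz x hx]
    simp
  have hcs := cs (μ := volume.restrict Ω) (f := fun y => -Lap u y) (g := W)
    (by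
      simp only [neg_sq]
      exact hL2.integrableOn) hW2 hLW.integrableOn
  have hrank := ibp_rank u hu hc Ω hΩ hfin t ht
  rw [rank_slices u hu hc Ω hΩ hfin t ht] at hrank
  have hrank' : ∫ y, (-Lap u y) * W y = 1 / t ^ 2 * ∫ s, F s := by
    rw [hW, hF]
    exact hrank
  have hB : (∫ y, (-Lap u y) * W y) ^ 2 ≤ (volume Ω).toReal ^ 3 / 12 * ∫ x, (Lap u x) ^ 2 := by
    rw [hX]
    refine hcs.trans ?_
    have h1 : ∫ y in Ω, (-Lap u y) ^ 2 ≤ ∫ x, (Lap u x) ^ 2 := by
      simp only [neg_sq]
      exact setIntegral_le_integral hL2 (Filter.Eventually.of_forall (fun x => sq_nonneg _))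
    have h2 : 0 ≤ ∫ y in Ω, W y ^ 2 := integral_nonneg (fun y => sq_nonneg _)
    have h3 : 0 ≤ ∫ x, (Lap u x) ^ 2 := integral_nonneg (fun y => sq_nonneg _)
    calc _ ≤ (∫ x, (Lap u x) ^ 2) * ((volume Ω).toReal ^ 3 / 12) :=
          mul_le_mul h1 hvar h2 h3
      _ = _ := mul_comm _ _
  have hC : 4 * Real.pi * ((∫ x, |u x|) - t * (volume Ω).toReal) ≤ ∫ y, (-Lap u y) * W y := by
    rw [hrank']
    have h1 : 4 * Real.pi * t ^ 2 * ((∫ x, |u x|) - t * (volume Ω).toReal) ≤ ∫ s, F s := by
      calc _ ≤ 4 * Real.pi * t ^ 2 * ((∫ x, max (u x - t) 0) + ∫ x, max (-u x - t) 0) :=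
            mul_le_mul_of_nonneg_left hlow (by positivity)
        _ ≤ _ := by linarith
    rw [one_div, inv_mul_eq_div, le_div_iff₀ (by positivity)]
    linarith
  exact hC.trans (Real.le_sqrt_of_sq_le hB)

end

end PTwo

theorem plate_two (Ω : Set (E 2)) (hΩ : IsOpen Ω) (hb : Bornology.IsBounded Ω) (φ : E 2 → ℝ)
    (hφ : IsTest φ Ω) :
    192 * Real.pi ^ 2 * (∫ x, |φ x|) ^ 2
      ≤ (volume Ω).toReal ^ 3 * ∫ x, (Lap φ x) ^ 2 := by
  have hfin : volume Ω ≠ ⊤ := hb.measure_lt_top.ne
  have hu : ContDiff ℝ 2 φ := by exact_mod_cast (contDiff_infty.1 hφ.smooth 2)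
  obtain ⟨M, hM⟩ : ∃ M : ℝ, M = (volume Ω).toReal ^ 3 / 12 * ∫ x, (Lap φ x) ^ 2 := ⟨_, rfl⟩
  have hM0 : 0 ≤ M := by
    rw [hM]
    have h3 : 0 ≤ ∫ x, (Lap φ x) ^ 2 := integral_nonneg (fun y => sq_nonneg _)
    have : 0 ≤ (volume Ω).toReal := ENNReal.toReal_nonneg
    positivity
  have h0 : 0 ≤ ∫ x, |φ x| := integral_nonneg (fun x => abs_nonneg _)
  have h1 : 4 * Real.pi * ∫ x, |φ x| ≤ √M := by
    refine le_of_forall_pos_le_add (fun ε hε => ?_)
    have hA : 0 ≤ (volume Ω).toReal := ENNReal.toReal_nonneg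
    have h2 := PTwo.main_t hΩ.measurableSet hfin hu hφ.compact hφ.supp
      (t := ε / (4 * Real.pi * ((volume Ω).toReal + 1))) (by positivity)
    rw [← hM] at h2
    have h3 : 4 * Real.pi * (ε / (4 * Real.pi * ((volume Ω).toReal + 1)) * (volume Ω).toReal) ≤ ε := by
      have e : 4 * Real.pi * (ε / (4 * Real.pi * ((volume Ω).toReal + 1)) * (volume Ω).toReal) =
          ε * ((volume Ω).toReal / ((volume Ω).toReal + 1)) := by
        field_simp
      rw [e]
      refine mul_le_of_le_one_right hε.le ?_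
      rw [div_le_one (by positivity)]
      linarith
    rw [mul_sub] at h2
    linarith
  have h4 : (4 * Real.pi * ∫ x, |φ x|) ^ 2 ≤ M := by
    calc _ ≤ √M ^ 2 := pow_le_pow_left₀ (by positivity) h1 2
      _ = M := Real.sq_sqrt hM0
  rw [hM] at h4
  nlinarith

end Pool.Agent.Lib.MP_d3943d_an
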