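import Pool.Agent.Lib.MP_d3943d_an.Steiner

set_option autoImplicit false

/-!
The Riesz energy increases under Steiner symmetrisation.
-/

namespace Pool.Agent.Lib.MP_d3943d_an

open MeasureTheory Set
open scoped ENNReal ContDiff Pointwise

/-- The energy as an extended nonnegative real. -/
noncomputable def FKl {N : ℕ} (K : ℝ → ℝ) (f h : E N → ℝ) : ℝ≥0∞ :=
  ∫⁻ x, ∫⁻ z, ENNReal.ofReal (f x) * ENNReal.ofReal (h z) * ENNReal.ofReal (K ‖x - z‖)

theorem rieszStep_finite {N : ℕ} {L ρ : ℝ} {f : E N → ℝ} (hf : Adm L ρ f) :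
    ∫⁻ x, ENNReal.ofReal (f x) ≠ ⊤ := by
  have h1 : Integrable f := hf.continuous.integrable_of_hasCompactSupport hf.hasCompactSupport
  exact (h1.lintegral_lt_top).ne

theorem FKl_ne_top {N : ℕ} {K : ℝ → ℝ} {M : ℝ} (hKM : ∀ r, K r ≤ M) {L ρ : ℝ}
    {f : E N → ℝ} (hf : Adm L ρ f) : FKl K f f ≠ ⊤ := by
  have hm : Measurable fun x => ENNReal.ofReal (f x) :=
    ENNReal.measurable_ofReal.comp hf.continuous.measurable
  have h1 : FKl K f f ≤ ∫⁻ x, ∫⁻ z, ENNReal.ofReal (f x) * ENNReal.ofReal (f z) *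
      ENNReal.ofReal M := by
    refine lintegral_mono fun x => lintegral_mono fun z => ?_
    exact mul_le_mul' le_rfl (ENNReal.ofReal_le_ofReal (hKM _))
  have h2 : ∫⁻ x, ∫⁻ z, ENNReal.ofReal (f x) * ENNReal.ofReal (f z) * ENNReal.ofReal M =
      (∫⁻ x, ENNReal.ofReal (f x)) * (∫⁻ x, ENNReal.ofReal (f x)) * ENNReal.ofReal M := by
    have e1 : ∀ x, ∫⁻ z, ENNReal.ofReal (f x) * ENNReal.ofReal (f z) * ENNReal.ofReal M =
        ENNReal.ofReal (f x) * ((∫⁻ z, ENNReal.ofReal (f z)) * ENNReal.ofReal M) := by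
      intro x
      rw [lintegral_mul_const _ (hm.const_mul _), lintegral_const_mul _ hm, mul_assoc]
    rw [lintegral_congr e1, lintegral_mul_const _ hm, mul_assoc]
  rw [h2] at h1
  refine (h1.trans_lt ?_).ne
  exact ENNReal.mul_lt_top (ENNReal.mul_lt_top (rieszStep_finite hf).lt_top
    (rieszStep_finite hf).lt_top) ENNReal.ofReal_lt_top

theorem rieszStep_isom {N : ℕ} (K : ℝ → ℝ) (f : E N → ℝ) (g : E N ≃ₗᵢ[ℝ] E N) :
    FKl K (fun x => f (g x)) (fun x => f (g x)) = FKl K f f := by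
  unfold FKl
  have e1 : ∀ x, ∫⁻ z, ENNReal.ofReal (f (g x)) * ENNReal.ofReal (f (g z)) *
      ENNReal.ofReal (K ‖x - z‖) = ∫⁻ z, ENNReal.ofReal (f (g x)) * ENNReal.ofReal (f z) *
      ENNReal.ofReal (K ‖g x - z‖) := by
    intro x
    rw [← lintegral_isom g (fun z => ENNReal.ofReal (f (g x)) * ENNReal.ofReal (f z) *
      ENNReal.ofReal (K ‖g x - z‖))]
    refine lintegral_congr fun z => ?_
    rw [← map_sub, g.norm_map]
  rw [lintegral_congr e1]
  exact lintegral_isom g (fun x => ∫⁻ z, ENNReal.ofReal (f x) * ENNReal.ofReal (f z) *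
      ENNReal.ofReal (K ‖x - z‖))

theorem rieszStep_measurable {N : ℕ} {K : ℝ → ℝ} (hK : Antitone K) {f h : E N → ℝ}
    (hf : Measurable f) (hh : Measurable h) :
    Measurable (fun p : E N × E N => ENNReal.ofReal (f p.1) * ENNReal.ofReal (h p.2) *
      ENNReal.ofReal (K ‖p.1 - p.2‖)) := by
  have h1 : Measurable (fun p : E N × E N => ENNReal.ofReal (f p.1)) :=
    ENNReal.measurable_ofReal.comp (hf.comp measurable_fst)
  have h2 : Measurable (fun p : E N × E N => ENNReal.ofReal (h p.2)) :=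
    ENNReal.measurable_ofReal.comp (hh.comp measurable_snd)
  have h3 : Measurable (fun p : E N × E N => ENNReal.ofReal (K ‖p.1 - p.2‖)) :=
    ENNReal.measurable_ofReal.comp
      (hK.measurable.comp ((measurable_fst.sub measurable_snd).norm))
  exact (h1.mul h2).mul h3

/-- the energy as an iterated integral over the coordinates -/
theorem rieszStep_split {n : ℕ} {K : ℝ → ℝ} (hK : Antitone K) {f : E (n + 1) → ℝ}
    (hf : Measurable f) :
    FKl K f f = ∫⁻ y₁ : E n, ∫⁻ y₂ : E n, ∫⁻ t : Fin 2 → ℝ,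
      ENNReal.ofReal (K (Real.sqrt ((t 0 - t 1) ^ 2 + ‖y₁ - y₂‖ ^ 2))) *
        ∏ i, ENNReal.ofReal ((![fun s => f (ins s y₁), fun s => f (ins s y₂)] :
          Fin 2 → ℝ → ℝ) i (t i)) := by
  have hF := rieszStep_measurable hK hf hf
  set F : E (n + 1) × E (n + 1) → ℝ≥0∞ := fun p => ENNReal.ofReal (f p.1) *
    ENNReal.ofReal (f p.2) * ENNReal.ofReal (K ‖p.1 - p.2‖) with hFdef
  have h0 : FKl K f f = ∫⁻ x, ∫⁻ z, F (x, z) := rfl
  rw [h0]
  have hm1 : Measurable (fun x => ∫⁻ z, F (x, z)) := hF.lintegral_prod_right'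
  rw [lintegral_ins _ hm1]
  refine lintegral_congr fun y₁ => ?_
  have e1 : ∀ s : ℝ, ∫⁻ z, F (ins s y₁, z) = ∫⁻ y₂ : E n, ∫⁻ r : ℝ, F (ins s y₁, ins r y₂) := by
    intro s
    exact lintegral_ins _ (hF.comp measurable_prodMk_left)
  rw [lintegral_congr e1]
  have hins : Measurable (fun p : ℝ × E n => ins p.1 p.2) := continuous_ins.measurable
  have hG : Measurable (fun p : (ℝ × E n) × ℝ => F (ins p.1.1 y₁, ins p.2 p.1.2)) := by
    apply hF.comp
    exact (hins.comp ((measurable_fst.comp measurable_fst).prodMk measurable_const)).prodMk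
      (hins.comp (measurable_snd.prodMk (measurable_snd.comp measurable_fst)))
  rw [lintegral_lintegral_swap]
  · refine lintegral_congr fun y₂ => ?_
    have hH : Measurable (fun p : ℝ × ℝ => F (ins p.1 y₁, ins p.2 y₂)) := by
      apply hF.comp
      exact (hins.comp (measurable_fst.prodMk measurable_const)).prodMk
        (hins.comp (measurable_snd.prodMk measurable_const))
    have e2 : ∫⁻ s : ℝ, ∫⁻ r : ℝ, F (ins s y₁, ins r y₂) =
        ∫⁻ p : ℝ × ℝ, F (ins p.1 y₁, ins p.2 y₂) := by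
      rw [Measure.volume_eq_prod, lintegral_prod _ hH.aemeasurable]
    rw [e2, ← (volume_preserving_finTwoArrow ℝ).lintegral_comp_emb
      MeasurableEquiv.finTwoArrow.measurableEmbedding]
    refine lintegral_congr fun t => ?_
    simp only [MeasurableEquiv.finTwoArrow_apply, hFdef, Fin.prod_univ_two, Matrix.cons_val_zero,
      Matrix.cons_val_one]
    have e3 : ‖ins (t 0) y₁ - ins (t 1) y₂‖ = Real.sqrt ((t 0 - t 1) ^ 2 + ‖y₁ - y₂‖ ^ 2) := by
      rw [← ins_sub, ← norm_ins_sq, Real.sqrt_sq (norm_nonneg _)]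
    rw [e3, mul_comm]
  · exact (hG.lintegral_prod_right').aemeasurable

theorem rieszStep_quasi (a : ℝ) (t u : Fin 2 → ℝ) (l k : ℝ) (hl : 0 ≤ l) (hk : 0 ≤ k)
    (hlk : l + k = 1) :
    Real.sqrt (((l • t + k • u) 0 - (l • t + k • u) 1) ^ 2 + a) ≤
      max (Real.sqrt ((t 0 - t 1) ^ 2 + a)) (Real.sqrt ((u 0 - u 1) ^ 2 + a)) := by
  have hmono : Monotone Real.sqrt := fun x y h => Real.sqrt_le_sqrt h
  rw [← hmono.map_max]
  apply Real.sqrt_le_sqrt
  simp only [Pi.add_apply, Pi.smul_apply, smul_eq_mul]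
  set x := t 0 - t 1 with hx
  set y := u 0 - u 1 with hy
  have e : l * t 0 + k * u 0 - (l * t 1 + k * u 1) = l * x + k * y := by rw [hx, hy]; ring
  rw [e]
  have h1 : (l * x + k * y) ^ 2 ≤ l * x ^ 2 + k * y ^ 2 := by
    have : l * x ^ 2 + k * y ^ 2 - (l * x + k * y) ^ 2 = l * k * (x - y) ^ 2 := by
      have hk' : k = 1 - l := by linarith
      rw [hk']; ring
    nlinarith [mul_nonneg (mul_nonneg hl hk) (sq_nonneg (x - y))]
  have h2 : l * x ^ 2 + k * y ^ 2 + a = l * (x ^ 2 + a) + k * (y ^ 2 + a) := by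
    have : a = l * a + k * a := by rw [← add_mul, hlk, one_mul]
    linarith
  have h3 : l * (x ^ 2 + a) ≤ l * max (x ^ 2 + a) (y ^ 2 + a) :=
    mul_le_mul_of_nonneg_left (le_max_left _ _) hl
  have h4 : k * (y ^ 2 + a) ≤ k * max (x ^ 2 + a) (y ^ 2 + a) :=
    mul_le_mul_of_nonneg_left (le_max_right _ _) hk
  have h5 : l * max (x ^ 2 + a) (y ^ 2 + a) + k * max (x ^ 2 + a) (y ^ 2 + a) =
      max (x ^ 2 + a) (y ^ 2 + a) := by rw [← add_mul, hlk, one_mul]
  linarith

theorem FKl_SG {n : ℕ} {K : ℝ → ℝ} (hK : Antitone K) (hK0 : ∀ r, 0 ≤ K r) {L ρ : ℝ}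
    {f : E (n + 1) → ℝ} (hf : Adm L ρ f) (g : E (n + 1) ≃ₗᵢ[ℝ] E (n + 1)) :
    FKl K f f ≤ FKl K (SG g f) (SG g f) := by
  have _ := hK0
  set φ : E (n + 1) → ℝ := fun x => f (g x) with hφdef
  have hφ : Adm L ρ φ := hf.comp g
  have e1 : FKl K φ φ = FKl K f f := rieszStep_isom K f g
  have e2 : FKl K (SG g f) (SG g f) = FKl K (St φ) (St φ) := rieszStep_isom K (St φ) g.symm
  rw [← e1, e2, rieszStep_split hK hφ.continuous.measurable,
    rieszStep_split hK (hφ.st).continuous.measurable]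
  refine lintegral_mono fun y₁ => lintegral_mono fun y₂ => ?_
  have hρm : Measurable (fun t : Fin 2 → ℝ =>
      Real.sqrt ((t 0 - t 1) ^ 2 + ‖y₁ - y₂‖ ^ 2)) := by fun_prop
  have h := bll_fun bm_2
    (fun t : Fin 2 → ℝ => ENNReal.ofReal (K (Real.sqrt ((t 0 - t 1) ^ 2 + ‖y₁ - y₂‖ ^ 2))))
    (ENNReal.measurable_ofReal.comp (hK.measurable.comp hρm)) (by
      intro c t ht u hu l k hl hk hlk
      simp only [mem_ofPred_eq] at ht hu ⊢
      have hq := hK (rieszStep_quasi (‖y₁ - y₂‖ ^ 2) t u l k hl hk hlk)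
      rcases le_total (Real.sqrt ((t 0 - t 1) ^ 2 + ‖y₁ - y₂‖ ^ 2))
        (Real.sqrt ((u 0 - u 1) ^ 2 + ‖y₁ - y₂‖ ^ 2)) with h1 | h1
      · rw [max_eq_right h1] at hq
        exact hu.trans_le (ENNReal.ofReal_le_ofReal hq)
      · rw [max_eq_left h1] at hq
        exact ht.trans_le (ENNReal.ofReal_le_ofReal hq)) (by
      intro t
      have : ((-t) 0 - (-t) 1) ^ 2 = (t 0 - t 1) ^ 2 := by
        simp only [Pi.neg_apply]; ring
      simp only [this])
    ![fun s => φ (ins s y₁), fun s => φ (ins s y₂)] (by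
      intro i
      fin_cases i
      · exact (hφ.sec y₁).1
      · exact (hφ.sec y₂).1) (by
      intro i
      fin_cases i
      · exact (hφ.sec y₁).2
      · exact (hφ.sec y₂).2) (by
      intro i t
      fin_cases i
      · exact hφ.nonneg _
      · exact hφ.nonneg _)
  refine h.trans (le_of_eq (lintegral_congr fun t => ?_))
  rw [Fin.prod_univ_two, Fin.prod_univ_two]
  rfl

theorem rieszStep_lip {N : ℕ} {K : ℝ → ℝ} (hK : Antitone K) (hK0 : ∀ r, 0 ≤ K r) {M : ℝ}
    (hKM : ∀ r, K r ≤ M) {L ρ : ℝ} {f h : E N → ℝ} (hf : Adm L ρ f) (hh : Adm L ρ h) {ε : ℝ}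
    (hε : ∀ x, |f x - h x| ≤ ε) :
    FKl K f f ≤ FKl K h h + ENNReal.ofReal (2 * M * ε) *
      (volume (Metric.ball (0 : E N) ρ) * volume (Metric.ball (0 : E N) ρ)) := by
  have hε0 : 0 ≤ ε := (abs_nonneg _).trans (hε 0)
  have hM0 : 0 ≤ M := (hK0 0).trans (hKM 0)
  set B := Metric.ball (0 : E N) ρ with hB
  have hBm : MeasurableSet B := Metric.isOpen_ball.measurableSet
  have hpt : ∀ x z : E N, ENNReal.ofReal (f x) * ENNReal.ofReal (f z) *
      ENNReal.ofReal (K ‖x - z‖) ≤ ENNReal.ofReal (h x) * ENNReal.ofReal (h z) *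
      ENNReal.ofReal (K ‖x - z‖) + ENNReal.ofReal (2 * M * ε) *
        (B.indicator 1 x * B.indicator 1 z) := by
    intro x z
    by_cases hx : x ∈ B
    · by_cases hz : z ∈ B
      · rw [indicator_of_mem hx, indicator_of_mem hz, Pi.one_apply, Pi.one_apply, mul_one, mul_one,
          ← ENNReal.ofReal_mul (hf.nonneg x), ← ENNReal.ofReal_mul (hh.nonneg x),
          ← ENNReal.ofReal_mul (mul_nonneg (hf.nonneg x) (hf.nonneg z)),
          ← ENNReal.ofReal_mul (mul_nonneg (hh.nonneg x) (hh.nonneg z)),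
          ← ENNReal.ofReal_add (mul_nonneg (mul_nonneg (hh.nonneg x) (hh.nonneg z)) (hK0 _))
            (by positivity)]
        apply ENNReal.ofReal_le_ofReal
        have h1 := hε x
        have h2 := hε z
        rw [abs_le] at h1 h2
        have h3 : f x * f z - h x * h z ≤ 2 * ε := by
          have e : f x * f z - h x * h z = (f x - h x) * f z + h x * (f z - h z) := by ring
          rw [e]
          have h4 : (f x - h x) * f z ≤ ε := by
            calc (f x - h x) * f z ≤ ε * f z := mul_le_mul_of_nonneg_right h1.2 (hf.nonneg z)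
              _ ≤ ε * 1 := mul_le_mul_of_nonneg_left (hf.le_one z) hε0
              _ = ε := mul_one _
          have h5 : h x * (f z - h z) ≤ ε := by
            calc h x * (f z - h z) ≤ h x * ε := mul_le_mul_of_nonneg_left h2.2 (hh.nonneg x)
              _ ≤ 1 * ε := mul_le_mul_of_nonneg_right (hh.le_one x) hε0
              _ = ε := one_mul _
          linarith
        have h6 : (f x * f z - h x * h z) * K ‖x - z‖ ≤ 2 * M * ε := by
          calc (f x * f z - h x * h z) * K ‖x - z‖ ≤ (2 * ε) * K ‖x - z‖ :=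
                mul_le_mul_of_nonneg_right h3 (hK0 _)
            _ ≤ (2 * ε) * M := mul_le_mul_of_nonneg_left (hKM _) (by positivity)
            _ = 2 * M * ε := by ring
        nlinarith
      · have : f z = 0 := hf.supp z (by
          rw [hB, mem_ball_zero_iff, not_lt] at hz
          exact hz)
        rw [this]
        simp
    · have : f x = 0 := hf.supp x (by
        rw [hB, mem_ball_zero_iff, not_lt] at hx
        exact hx)
      rw [this]
      simp
  have hA := rieszStep_measurable hK hh.continuous.measurable hh.continuous.measurable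
  have hind : Measurable (B.indicator (1 : E N → ℝ≥0∞)) := measurable_one.indicator hBm
  calc FKl K f f ≤ ∫⁻ x, ∫⁻ z, (ENNReal.ofReal (h x) * ENNReal.ofReal (h z) *
      ENNReal.ofReal (K ‖x - z‖) + ENNReal.ofReal (2 * M * ε) *
        (B.indicator 1 x * B.indicator 1 z)) :=
        lintegral_mono fun x => lintegral_mono fun z => hpt x z
    _ = ∫⁻ x, ((∫⁻ z, ENNReal.ofReal (h x) * ENNReal.ofReal (h z) *
      ENNReal.ofReal (K ‖x - z‖)) + ∫⁻ z, ENNReal.ofReal (2 * M * ε) *
        (B.indicator 1 x * B.indicator 1 z)) := by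
        refine lintegral_congr fun x => ?_
        exact lintegral_add_left (hA.comp measurable_prodMk_left) _
    _ = FKl K h h + ∫⁻ x, ∫⁻ z, ENNReal.ofReal (2 * M * ε) *
        (B.indicator 1 x * B.indicator 1 z) :=
        lintegral_add_left hA.lintegral_prod_right' _
    _ = _ := by
        congr 1
        have e1 : ∀ x, ∫⁻ z, ENNReal.ofReal (2 * M * ε) * (B.indicator 1 x * B.indicator 1 z) =
            ENNReal.ofReal (2 * M * ε) * (B.indicator 1 x * volume B) := by
          intro x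
          rw [lintegral_const_mul _ (hind.const_mul _), lintegral_const_mul _ hind,
            lintegral_indicator_one hBm]
        rw [lintegral_congr e1, lintegral_const_mul _ (hind.mul_const _),
          lintegral_mul_const _ hind, lintegral_indicator_one hBm]

theorem FKl_lip {N : ℕ} {K : ℝ → ℝ} (hK : Antitone K) (hK0 : ∀ r, 0 ≤ K r) {M : ℝ}
    (hKM : ∀ r, K r ≤ M) (L ρ : ℝ) :
    ∃ C : ℝ, ∀ f h : E N → ℝ, Adm L ρ f → Adm L ρ h →
      ∀ ε : ℝ, (∀ x, |f x - h x| ≤ ε) → |(FKl K f f).toReal - (FKl K h h).toReal| ≤ C * ε := by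
  set V := volume (Metric.ball (0 : E N) ρ) with hV
  have hVf : V ≠ ⊤ := Metric.isBounded_ball.measure_lt_top.ne
  have hM0 : 0 ≤ M := (hK0 0).trans (hKM 0)
  refine ⟨2 * M * (V * V).toReal, ?_⟩
  have key : ∀ f h : E N → ℝ, Adm L ρ f → Adm L ρ h →
      ∀ ε : ℝ, (∀ x, |f x - h x| ≤ ε) →
      (FKl K f f).toReal - (FKl K h h).toReal ≤ 2 * M * (V * V).toReal * ε := by
    intro f h hf hh ε hε
    have hε0 : 0 ≤ ε := (abs_nonneg _).trans (hε 0)
    have h1 := rieszStep_lip hK hK0 hKM hf hh hε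
    have hfin : ENNReal.ofReal (2 * M * ε) * (V * V) ≠ ⊤ :=
      ENNReal.mul_ne_top ENNReal.ofReal_ne_top (ENNReal.mul_ne_top hVf hVf)
    have h2 := ENNReal.toReal_mono (ENNReal.add_ne_top.2 ⟨FKl_ne_top hKM hh, hfin⟩) h1
    rw [ENNReal.toReal_add (FKl_ne_top hKM hh) hfin, ENNReal.toReal_mul,
      ENNReal.toReal_ofReal (by positivity)] at h2
    linarith
  intro f h hf hh ε hε
  rw [abs_le]
  constructor
  · have := key h f hh hf ε (fun x => by rw [abs_sub_comm]; exact hε x)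
    linarith
  · exact key f h hf hh ε hε

end Pool.Agent.Lib.MP_d3943d_an
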