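import Pool.Agent.Lib.MP_d3943d_an.Steiner

set_option autoImplicit false

/-!
The second moment strictly decreases under Steiner symmetrisation.
-/

namespace Pool.Agent.Lib.MP_d3943d_an

open MeasureTheory Set
open scoped ENNReal ContDiff Pointwise

section oneD

private theorem set_lemma {A : Set ℝ} (hA : MeasurableSet A) {a : ℝ} (ha : 0 ≤ a)
    (hv : volume A = ENNReal.ofReal (2 * a)) :
    (∫⁻ s in Ioo (-a) a, ENNReal.ofReal (s ^ 2)) ≤ ∫⁻ s in A, ENNReal.ofReal (s ^ 2) ∧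
    ((∫⁻ s in A, ENNReal.ofReal (s ^ 2)) ≤ ∫⁻ s in Ioo (-a) a, ENNReal.ofReal (s ^ 2) →
      volume (A \ Ioo (-a) a) = 0 ∧ volume (Ioo (-a) a \ A) = 0) := by
  set B := Ioo (-a) a with hB
  have hBm : MeasurableSet B := measurableSet_Ioo
  have hvB : volume B = ENNReal.ofReal (2 * a) := by
    rw [hB, Real.volume_Ioo]
    congr 1
    ring
  have hfin : volume (A ∩ B) ≠ ⊤ :=
    ((measure_mono inter_subset_left).trans_lt (hv ▸ ENNReal.ofReal_lt_top)).ne
  have h1 : volume (A \ B) = volume (B \ A) := by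
    have e1 := measure_inter_add_diff (μ := volume) A hBm
    have e2 := measure_inter_add_diff (μ := volume) B hA
    rw [hv] at e1
    rw [hvB, inter_comm B A, ← e1] at e2
    exact ((ENNReal.add_right_inj hfin).mp e2).symm
  have hI1 := lintegral_inter_add_sdiff (μ := volume) (fun s : ℝ => ENNReal.ofReal (s ^ 2)) A hBm
  have hI2 := lintegral_inter_add_sdiff (μ := volume) (fun s : ℝ => ENNReal.ofReal (s ^ 2)) B hA
  rw [inter_comm B A] at hI2
  have h2 : ENNReal.ofReal (a ^ 2) * volume (A \ B) ≤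
      ∫⁻ s in A \ B, ENNReal.ofReal (s ^ 2) := by
    rw [← setLIntegral_const]
    refine setLIntegral_mono' (hA.diff hBm) fun s hs => ENNReal.ofReal_le_ofReal ?_
    have : ¬ |s| < a := fun h => hs.2 (abs_lt.mp h)
    rw [← sq_abs s]
    exact pow_le_pow_left₀ ha (not_lt.mp this) 2
  have h3 : ∫⁻ s in B \ A, ENNReal.ofReal (s ^ 2) ≤ ENNReal.ofReal (a ^ 2) * volume (B \ A) := by
    rw [← setLIntegral_const]
    refine setLIntegral_mono' (hBm.diff hA) fun s hs => ENNReal.ofReal_le_ofReal ?_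
    rw [← sq_abs s]
    exact pow_le_pow_left₀ (abs_nonneg _) (abs_lt.mpr hs.1).le 2
  have hBfin : volume B ≠ ⊤ := hvB ▸ ENNReal.ofReal_ne_top
  have hwfin : ∫⁻ s in B, ENNReal.ofReal (s ^ 2) ≠ ⊤ := by
    have : ∫⁻ s in B, ENNReal.ofReal (s ^ 2) ≤ ENNReal.ofReal (a ^ 2) * volume B := by
      rw [← setLIntegral_const]
      refine setLIntegral_mono' hBm fun s hs => ENNReal.ofReal_le_ofReal ?_
      rw [← sq_abs s]
      exact pow_le_pow_left₀ (abs_nonneg _) (abs_lt.mpr hs).le 2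
    exact (this.trans_lt (ENNReal.mul_lt_top ENNReal.ofReal_lt_top hBfin.lt_top)).ne
  refine ⟨?_, fun h => ?_⟩
  · rw [← hI1, ← hI2]
    refine add_le_add le_rfl (h3.trans ?_)
    rw [← h1]
    exact h2
  · rw [← hI1, ← hI2] at h
    have hABfin : ∫⁻ s in A ∩ B, ENNReal.ofReal (s ^ 2) ≠ ⊤ :=
      ((lintegral_mono_set inter_subset_right).trans_lt hwfin.lt_top).ne
    have h4 : ∫⁻ s in A \ B, ENNReal.ofReal (s ^ 2) ≤ ∫⁻ s in B \ A, ENNReal.ofReal (s ^ 2) :=
      (ENNReal.add_le_add_iff_left hABfin).mp h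
    have h5 : volume (B \ A) = 0 := by
      by_contra h0
      have h6 : ∫⁻ s in B \ A, ENNReal.ofReal (s ^ 2) <
          ∫⁻ _ in B \ A, ENNReal.ofReal (a ^ 2) := by
        refine setLIntegral_strict_mono (hBm.diff hA) h0 measurable_const ?_ ?_
        · exact ((lintegral_mono_set diff_subset).trans_lt hwfin.lt_top).ne
        · refine Filter.Eventually.of_forall fun s hs => ?_
          have h7 : |s| < a := abs_lt.mpr hs.1
          have h8 : s ^ 2 < a ^ 2 := by
            rw [← sq_abs s]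
            exact pow_lt_pow_left₀ h7 (abs_nonneg _) two_ne_zero
          exact (ENNReal.ofReal_lt_ofReal_iff (lt_of_le_of_lt (sq_nonneg _) h8)).mpr h8
      rw [setLIntegral_const, ← h1] at h6
      exact absurd (h2.trans h4) (not_le.mpr h6)
    exact ⟨h1.trans h5, h5⟩

private theorem fun_lemma {φ ψ : ℝ → ℝ} (hφ : Continuous φ) (hφc : HasCompactSupport φ)
    (hφ0 : ∀ s, 0 ≤ φ s) (hψ : Continuous ψ) (hψc : HasCompactSupport ψ) (hψ0 : ∀ s, 0 ≤ ψ s)
    (h : ∀ c, 0 ≤ c → ∀ s, c < ψ s ↔ ENNReal.ofReal (2 * |s|) < volume {t | c < φ t}) :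
    (∫ s, ψ s = ∫ s, φ s) ∧ (∫ s, ψ s * s ^ 2 ≤ ∫ s, φ s * s ^ 2) ∧
      (∫ s, φ s * s ^ 2 ≤ ∫ s, ψ s * s ^ 2 → φ = ψ) := by
  -- the level sets
  have hVfin : ∀ c, 0 ≤ c → volume {t | c < φ t} ≠ ⊤ := by
    intro c hc
    refine ((measure_mono fun t ht => ?_).trans_lt hφc.measure_lt_top).ne
    exact subset_tsupport φ (ne_of_gt (hc.trans_lt ht))
  set a : ℝ → ℝ := fun c => (volume {t | c < φ t}).toReal / 2 with ha
  have ha0 : ∀ c, 0 ≤ a c := fun c => div_nonneg ENNReal.toReal_nonneg two_pos.le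
  have hva : ∀ c, 0 ≤ c → volume {t | c < φ t} = ENNReal.ofReal (2 * a c) := by
    intro c hc
    simp only [ha]
    rw [mul_div_cancel₀ _ (two_ne_zero' ℝ), ENNReal.ofReal_toReal (hVfin c hc)]
  have hset : ∀ c, 0 ≤ c → {s | c < ψ s} = Ioo (-(a c)) (a c) := by
    intro c hc
    ext s
    rw [mem_setOf_eq, h c hc s, ENNReal.ofReal_lt_iff_lt_toReal (by positivity) (hVfin c hc),
      mem_Ioo, ← abs_lt]
    simp only [ha]
    constructor <;> intro h1 <;> linarith
  have hvψ : ∀ c, 0 ≤ c → volume {s | c < ψ s} = volume {t | c < φ t} := by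
    intro c hc
    rw [hset c hc, hva c hc, Real.volume_Ioo]
    congr 1
    ring
  have hmφ : ∀ c, MeasurableSet {t | c < φ t} := fun c =>
    (isOpen_lt continuous_const hφ).measurableSet
  have hmψ : ∀ c, MeasurableSet {t | c < ψ t} := fun c =>
    (isOpen_lt continuous_const hψ).measurableSet
  -- layer cake with the weight
  set μ : Measure ℝ := volume.withDensity fun s => ENNReal.ofReal (s ^ 2) with hμ
  have hwm : Measurable fun s : ℝ => ENNReal.ofReal (s ^ 2) := by fun_prop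
  have hlay : ∀ f : ℝ → ℝ, Continuous f → HasCompactSupport f → (∀ s, 0 ≤ f s) →
      ENNReal.ofReal (∫ s, f s * s ^ 2) = ∫⁻ c in Ioi 0, μ {s | c < f s} := by
    intro f hf hfc hf0
    have hi : Integrable fun s => f s * s ^ 2 :=
      (hf.mul (by fun_prop)).integrable_of_hasCompactSupport hfc.mul_right
    rw [ofReal_integral_eq_lintegral_ofReal hi
      (Filter.Eventually.of_forall fun s => mul_nonneg (hf0 s) (sq_nonneg s)),
      ← lintegral_eq_lintegral_meas_lt μ (Filter.Eventually.of_forall hf0) hf.measurable.aemeasurable,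
      hμ, lintegral_withDensity_eq_lintegral_mul _ hwm (by fun_prop)]
    refine lintegral_congr fun s => ?_
    rw [ENNReal.ofReal_mul (hf0 s), Pi.mul_apply, mul_comm]
  have hsl : ∀ c, 0 < c → μ {s | c < ψ s} ≤ μ {s | c < φ s} ∧
      (μ {s | c < φ s} ≤ μ {s | c < ψ s} → volume ({s | c < φ s} \ {s | c < ψ s}) = 0 ∧
        volume ({s | c < ψ s} \ {s | c < φ s}) = 0) := by
    intro c hc
    have h1 := set_lemma (hmφ c) (ha0 c) (hva c hc.le)
    rw [hμ, withDensity_apply _ (hmφ c), withDensity_apply _ (hmψ c), hset c hc.le]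
    exact h1
  have hle : ∫ s, ψ s * s ^ 2 ≤ ∫ s, φ s * s ^ 2 := by
    have h1 : ENNReal.ofReal (∫ s, ψ s * s ^ 2) ≤ ENNReal.ofReal (∫ s, φ s * s ^ 2) := by
      rw [hlay ψ hψ hψc hψ0, hlay φ hφ hφc hφ0]
      exact setLIntegral_mono' measurableSet_Ioi fun c hc => (hsl c hc).1
    exact (ENNReal.ofReal_le_ofReal_iff
      (integral_nonneg fun s => mul_nonneg (hφ0 s) (sq_nonneg s))).mp h1
  refine ⟨?_, hle, fun hge => ?_⟩
  · rw [integral_eq_lintegral_of_nonneg_ae (Filter.Eventually.of_forall hψ0)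
      hψ.aestronglyMeasurable, integral_eq_lintegral_of_nonneg_ae (Filter.Eventually.of_forall hφ0)
      hφ.aestronglyMeasurable, lintegral_eq_lintegral_meas_lt _ (Filter.Eventually.of_forall hψ0)
      hψ.measurable.aemeasurable, lintegral_eq_lintegral_meas_lt _
      (Filter.Eventually.of_forall hφ0) hφ.measurable.aemeasurable]
    congr 1
    exact setLIntegral_congr_fun measurableSet_Ioi fun c hc => hvψ c (le_of_lt hc)
  · -- equality case
    have hanti : ∀ f : ℝ → ℝ, Measurable fun c => μ {s | c < f s} := by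
      intro f
      refine Antitone.measurable fun c d hcd => measure_mono fun s hs => ?_
      exact lt_of_le_of_lt hcd hs
    have hae : (fun c => μ {s | c < ψ s}) =ᵐ[volume.restrict (Ioi 0)]
        fun c => μ {s | c < φ s} := by
      refine ae_eq_of_ae_le_of_lintegral_le ?_ ?_ (hanti φ).aemeasurable ?_
      · exact (ae_restrict_iff' measurableSet_Ioi).mpr
          (Filter.Eventually.of_forall fun c hc => (hsl c hc).1)
      · rw [← hlay ψ hψ hψc hψ0]
        exact ENNReal.ofReal_ne_top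
      · rw [← hlay ψ hψ hψc hψ0, ← hlay φ hφ hφc hφ0]
        exact ENNReal.ofReal_le_ofReal hge
    have hae2 : ∀ᵐ c ∂(volume.restrict (Ioi (0:ℝ))),
        volume ({s | c < φ s} \ {s | c < ψ s}) = 0 ∧
        volume ({s | c < ψ s} \ {s | c < φ s}) = 0 := by
      filter_upwards [hae, ae_restrict_mem measurableSet_Ioi] with c h1 hc
      exact (hsl c hc).2 h1.ge
    -- general contradiction
    have key : ∀ f g : ℝ → ℝ, Continuous f → Continuous g → (∀ s, 0 ≤ g s) →
        (∀ᵐ c ∂(volume.restrict (Ioi (0:ℝ))), volume ({s | c < f s} \ {s | c < g s}) = 0) →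
        ∀ s, f s ≤ g s := by
      intro f g hf hg hg0 hfg s₀
      by_contra hlt
      rw [not_le] at hlt
      obtain ⟨c₁, h1, h2⟩ := exists_between hlt
      obtain ⟨c₂, h3, h4⟩ := exists_between h2
      have hc₁ : 0 < c₁ := (hg0 s₀).trans_lt h1
      have hU : IsOpen {s | g s < c₁ ∧ c₂ < f s} :=
        (isOpen_lt hg continuous_const).inter (isOpen_lt continuous_const hf)
      have hUpos : 0 < volume {s | g s < c₁ ∧ c₂ < f s} := hU.measure_pos _ ⟨s₀, h1, h4⟩
      have hne : volume (Ioo c₁ c₂) ≠ 0 := by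
        rw [Real.volume_Ioo]
        exact (ENNReal.ofReal_pos.mpr (sub_pos.mpr h3)).ne'
      have hsub : Ioo c₁ c₂ ⊆ Ioi 0 := fun c hc => hc₁.trans hc.1
      obtain ⟨c, hc, hc2⟩ := Measure.exists_mem_of_measure_ne_zero_of_ae hne
        (ae_restrict_of_ae_restrict_of_subset hsub hfg)
      refine absurd (measure_mono_null (fun s hs => ?_) hc2) hUpos.ne'
      exact ⟨hc.2.trans hs.2, fun h5 => absurd (hs.1.trans hc.1) (not_lt.mpr (le_of_lt h5))⟩
    funext s
    exact le_antisymm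
      (key φ ψ hφ hψ hψ0 (hae2.mono fun c h => h.1) s)
      (key ψ φ hψ hφ hφ0 (hae2.mono fun c h => h.2) s)

end oneD

/-- The second moment. -/
noncomputable def G2 {N : ℕ} (f : E N → ℝ) : ℝ := ∫ x, f x * ‖x‖ ^ 2

/-- fibrewise comparison -/
private theorem G2_St {n : ℕ} {L ρ : ℝ} {f : E (n + 1) → ℝ} (hf : Adm L ρ f) :
    G2 (St f) ≤ G2 f ∧ (G2 f ≤ G2 (St f) → St f = f) := by
  have hst := hf.st
  have hcn : Continuous fun x : E (n + 1) => ‖x‖ ^ 2 := by fun_prop
  have hi1 : Integrable fun x => f x * ‖x‖ ^ 2 :=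
    (hf.continuous.mul hcn).integrable_of_hasCompactSupport hf.hasCompactSupport.mul_right
  have hi2 : Integrable fun x => St f x * ‖x‖ ^ 2 :=
    (hst.continuous.mul hcn).integrable_of_hasCompactSupport hst.hasCompactSupport.mul_right
  set F : E (n + 1) → ℝ := fun x => f x * ‖x‖ ^ 2 - St f x * ‖x‖ ^ 2 with hF
  have hFi : Integrable F := hi1.sub hi2
  have hG : G2 f - G2 (St f) = ∫ y : E n, ∫ s : ℝ, F (ins s y) := by
    rw [← integral_ins F hFi, hF, integral_sub hi1 hi2]
    rfl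
  have hfib : ∀ y : E n, (∫ s : ℝ, F (ins s y) = (∫ s, f (ins s y) * s ^ 2) -
      ∫ s, St f (ins s y) * s ^ 2) ∧ (∫ s, St f (ins s y) * s ^ 2 ≤ ∫ s, f (ins s y) * s ^ 2) ∧
      (∫ s, f (ins s y) * s ^ 2 ≤ ∫ s, St f (ins s y) * s ^ 2 →
        (fun s => f (ins s y)) = fun s => St f (ins s y)) := by
    intro y
    obtain ⟨h1, h2⟩ := hf.sec y
    obtain ⟨h3, h4⟩ := hst.sec y
    obtain ⟨h5, h6, h7⟩ := fun_lemma h1 h2 (fun s => hf.nonneg _) h3 h4 (fun s => hst.nonneg _)
      (fun c hc s => lt_St_iff hf hc s y)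
    refine ⟨?_, h6, h7⟩
    have i1 : Integrable fun s : ℝ => f (ins s y) * s ^ 2 :=
      (h1.mul (by fun_prop)).integrable_of_hasCompactSupport h2.mul_right
    have i2 : Integrable fun s : ℝ => St f (ins s y) * s ^ 2 :=
      (h3.mul (by fun_prop)).integrable_of_hasCompactSupport h4.mul_right
    have i3 : Integrable fun s : ℝ => f (ins s y) := h1.integrable_of_hasCompactSupport h2
    have i4 : Integrable fun s : ℝ => St f (ins s y) := h3.integrable_of_hasCompactSupport h4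
    have e1 : (fun s : ℝ => F (ins s y)) = fun s => (f (ins s y) * s ^ 2 - St f (ins s y) * s ^ 2) +
        ‖y‖ ^ 2 * (f (ins s y) - St f (ins s y)) := by
      funext s
      simp only [hF, norm_ins_sq]
      ring
    have i5 : Integrable fun s : ℝ => f (ins s y) * s ^ 2 - St f (ins s y) * s ^ 2 := i1.sub i2
    have i6 : Integrable fun s : ℝ => ‖y‖ ^ 2 * (f (ins s y) - St f (ins s y)) :=
      (i3.sub i4).const_mul _
    rw [e1, integral_add i5 i6, integral_sub i1 i2, integral_const_mul, integral_sub i3 i4, h5,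
      sub_self, mul_zero, add_zero]
  have hnn : ∀ y : E n, 0 ≤ ∫ s : ℝ, F (ins s y) := by
    intro y
    obtain ⟨h1, h2, -⟩ := hfib y
    rw [h1]
    linarith
  have hge : 0 ≤ G2 f - G2 (St f) := by
    rw [hG]
    exact integral_nonneg hnn
  refine ⟨by linarith, fun hle => ?_⟩
  have hG0 : ∫ y : E n, ∫ s : ℝ, F (ins s y) = 0 := by
    rw [← hG]
    linarith
  have hprod : Integrable (fun p : ℝ × E n => F (ins p.1 p.2)) := by
    have := ((mp_ins n).integrable_comp_emb (insEquiv n).measurableEmbedding (g := F)).mpr hFi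
    exact this
  have hprod2 : Integrable fun y : E n => ∫ s : ℝ, F (ins s y) :=
    Integrable.integral_prod_right (μ := (volume : Measure ℝ)) (ν := (volume : Measure (E n)))
      (f := fun p : ℝ × E n => F (ins p.1 p.2)) hprod
  have hae : (fun y : E n => ∫ s : ℝ, F (ins s y)) =ᵐ[volume] 0 :=
    (integral_eq_zero_iff_of_nonneg hnn hprod2).mp hG0
  have hae2 : ∀ᵐ y : E n, ∀ s, f (ins s y) = St f (ins s y) := by
    filter_upwards [hae] with y hy s
    obtain ⟨h1, -, h3⟩ := hfib y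
    have h4 : ∫ s : ℝ, F (ins s y) = 0 := hy
    rw [h1] at h4
    exact congrFun (h3 (by linarith)) s
  funext x
  have hcs : ∀ s : ℝ, Continuous fun y : E n => ins s y := fun s =>
    continuous_ins.comp (Continuous.prodMk_right s)
  have h5 : (fun y : E n => f (ins (x 0) y)) = fun y => St f (ins (x 0) y) := by
    refine (Continuous.ae_eq_iff_eq (volume : Measure (E n)) (hf.continuous.comp (hcs _))
      (hst.continuous.comp (hcs _))).mp ?_
    filter_upwards [hae2] with y hy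
    exact hy _
  have h6 := congrFun h5 (tl x)
  simp only [ins_tl] at h6
  exact h6.symm

private theorem G2_isom {N : ℕ} (f : E N → ℝ) (g : E N ≃ₗᵢ[ℝ] E N) :
    G2 (fun x => f (g x)) = G2 f := by
  unfold G2
  rw [← integral_isom g (fun x => f x * ‖x‖ ^ 2)]
  simp only [LinearIsometryEquiv.norm_map]

private theorem G2_SG {n : ℕ} (f : E (n + 1) → ℝ) (g : E (n + 1) ≃ₗᵢ[ℝ] E (n + 1)) :
    G2 (SG g f) = G2 (St fun y => f (g y)) :=
  G2_isom (St fun y => f (g y)) g.symm

theorem G2_SG_le {n : ℕ} {L ρ : ℝ} {f : E (n + 1) → ℝ} (hf : Adm L ρ f)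
    (g : E (n + 1) ≃ₗᵢ[ℝ] E (n + 1)) : G2 (SG g f) ≤ G2 f := by
  rw [G2_SG, ← G2_isom f g]
  exact (G2_St (hf.comp g)).1

theorem SG_eq_of_G2 {n : ℕ} {L ρ : ℝ} {f : E (n + 1) → ℝ} (hf : Adm L ρ f)
    (g : E (n + 1) ≃ₗᵢ[ℝ] E (n + 1)) (h : G2 f ≤ G2 (SG g f)) : SG g f = f := by
  rw [G2_SG, ← G2_isom f g] at h
  have h1 := (G2_St (hf.comp g)).2 h
  funext x
  unfold SG
  rw [h1]
  simp

theorem G2_lip {N : ℕ} (L ρ : ℝ) : ∃ C : ℝ, ∀ f h : E N → ℝ, Adm L ρ f → Adm L ρ h →
    ∀ ε : ℝ, (∀ x, |f x - h x| ≤ ε) → |G2 f - G2 h| ≤ C * ε := by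
  refine ⟨∫ x in Metric.ball (0 : E N) ρ, ‖x‖ ^ 2, fun f h hf hh ε hε => ?_⟩
  have hcn : Continuous fun x : E N => ‖x‖ ^ 2 := by fun_prop
  have hi1 : Integrable fun x => f x * ‖x‖ ^ 2 :=
    (hf.continuous.mul hcn).integrable_of_hasCompactSupport hf.hasCompactSupport.mul_right
  have hi2 : Integrable fun x => h x * ‖x‖ ^ 2 :=
    (hh.continuous.mul hcn).integrable_of_hasCompactSupport hh.hasCompactSupport.mul_right
  have hball : IntegrableOn (fun x : E N => ‖x‖ ^ 2) (Metric.ball 0 ρ) :=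
    (hcn.continuousOn.integrableOn_compact (isCompact_closedBall (0 : E N) ρ)).mono_set
      Metric.ball_subset_closedBall
  unfold G2
  rw [← integral_sub hi1 hi2, ← integral_mul_const]
  have h0 : ∀ x, x ∉ Metric.ball (0 : E N) ρ → f x * ‖x‖ ^ 2 - h x * ‖x‖ ^ 2 = 0 := by
    intro x hx
    rw [Metric.mem_ball, dist_zero_right, not_lt] at hx
    rw [hf.supp x hx, hh.supp x hx]
    ring
  rw [← setIntegral_eq_integral_of_forall_compl_eq_zero h0, ← Real.norm_eq_abs]
  refine norm_integral_le_of_norm_le (hball.mul_const ε) (Filter.Eventually.of_forall fun x => ?_)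
  rw [← sub_mul, norm_mul, Real.norm_eq_abs, Real.norm_of_nonneg (sq_nonneg _), mul_comm]
  exact mul_le_mul_of_nonneg_left (hε x) (sq_nonneg _)

end Pool.Agent.Lib.MP_d3943d_an
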