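import Pool.Agent.Lib.MP_d3943d_an.Thick

set_option autoImplicit false

/-!
The isoperimetric inequality for level strips in the plane.
-/

namespace Pool.Agent.Lib.MP_d3943d_an

open MeasureTheory Set
open scoped ENNReal ContDiff

namespace StripAux

open Filter Topology

/-- Taylor bound -/
theorem taylor {u : E 2 → ℝ} (hu : ContDiff ℝ 2 u) (hc : HasCompactSupport u) :
    ∃ C : ℝ, 0 ≤ C ∧ ∀ x y : E 2, u y ≤ u x + ‖fderiv ℝ u x‖ * ‖y - x‖ + C * ‖y - x‖ ^ 2 := by
  obtain ⟨C, hC⟩ := ContDiff.lipschitzWith_of_hasCompactSupport (𝕂 := ℝ) (hc.fderiv ℝ)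
    (hu.fderiv_right (m := 1) (by norm_num)) (by norm_num)
  refine ⟨C, C.2, fun x y => ?_⟩
  have hd : Differentiable ℝ u := hu.differentiable (by norm_num)
  have h1 := Convex.norm_image_sub_le_of_norm_fderiv_le' (𝕜 := ℝ) (f := u) (C := C * ‖y - x‖)
    (s := Metric.closedBall x ‖y - x‖) (x := x) (y := y) (φ := fderiv ℝ u x)
    (fun z _ => hd z) (fun z hz => ?_) (convex_closedBall _ _)
    (Metric.mem_closedBall_self (norm_nonneg _))
    (by rw [Metric.mem_closedBall, dist_eq_norm])
  · have h2 : u y - u x - fderiv ℝ u x (y - x) ≤ C * ‖y - x‖ * ‖y - x‖ :=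
      (le_abs_self _).trans h1
    have h3 : fderiv ℝ u x (y - x) ≤ ‖fderiv ℝ u x‖ * ‖y - x‖ :=
      (le_abs_self _).trans ((fderiv ℝ u x).le_opNorm _)
    nlinarith
  · have h2 := hC.dist_le_mul z x
    rw [dist_eq_norm, dist_eq_norm] at h2
    refine h2.trans (mul_le_mul_of_nonneg_left ?_ C.2)
    rw [Metric.mem_closedBall, dist_eq_norm] at hz
    exact hz

/-- the majorant of the maximal function -/
noncomputable def ww (u : E 2 → ℝ) (C ε : ℝ) (x : E 2) : ℝ :=
  u x + ‖fderiv ℝ u x‖ * ε + C * ε ^ 2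

theorem thick_sub {u : E 2 → ℝ} {C : ℝ} (hC0 : 0 ≤ C)
    (hC : ∀ x y : E 2, u y ≤ u x + ‖fderiv ℝ u x‖ * ‖y - x‖ + C * ‖y - x‖ ^ 2) {ε : ℝ}
    (c : ℝ) : Metric.thickening ε {x | c < u x} ⊆ {x | c < ww u C ε x} := by
  intro x hx
  obtain ⟨y, hy, hxy⟩ := Metric.mem_thickening_iff.1 hx
  rw [dist_comm, dist_eq_norm] at hxy
  have h1 := hC x y
  have h2 : ‖fderiv ℝ u x‖ * ‖y - x‖ ≤ ‖fderiv ℝ u x‖ * ε :=
    mul_le_mul_of_nonneg_left hxy.le (norm_nonneg _)
  have h3 : C * ‖y - x‖ ^ 2 ≤ C * ε ^ 2 :=
    mul_le_mul_of_nonneg_left (pow_le_pow_left₀ (norm_nonneg _) hxy.le 2) hC0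
  have h4 : c < u y := hy
  show c < ww u C ε x
  unfold ww
  linarith

theorem bounded_super {u : E 2 → ℝ} (hc : HasCompactSupport u) {c : ℝ} (h : 0 < c) :
    Bornology.IsBounded {x | c < u x} := by
  refine hc.isCompact.isBounded.subset fun x hx => ?_
  by_contra hn
  have : u x = 0 := image_eq_zero_of_notMem_tsupport hn
  have hx' : c < u x := hx
  rw [this] at hx'
  linarith

/-- the inequality at one level -/
theorem level {u : E 2 → ℝ} (hcont : Continuous u) (hc : HasCompactSupport u) {C : ℝ}
    (hC0 : 0 ≤ C)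
    (hC : ∀ x y : E 2, u y ≤ u x + ‖fderiv ℝ u x‖ * ‖y - x‖ + C * ‖y - x‖ ^ 2) {ε : ℝ}
    (hε : 0 < ε) {c c' : ℝ} (h0 : 0 < c) (hcc : c ≤ c') :
    ENNReal.ofReal (2 * √Real.pi * ε * √((volume {x | c' < u x}).toReal)) ≤
      volume {x | u x ≤ c ∧ c < ww u C ε x} := by
  have hb := bounded_super hc h0
  have hopen : IsOpen {x | c < u x} := isOpen_lt continuous_const hcont
  have h1 := bm_thick {x | c < u x} hopen hb ε hε
  have hfin : volume {x | c < u x} ≠ ⊤ := hb.measure_lt_top.ne
  have hfin2 : volume (Metric.thickening ε {x | c < u x}) ≠ ⊤ :=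
    (hb.thickening).measure_lt_top.ne
  have hmono : (volume {x | c' < u x}).toReal ≤ (volume {x | c < u x}).toReal :=
    ENNReal.toReal_mono hfin (measure_mono fun x hx => lt_of_le_of_lt hcc hx)
  have h2 : 2 * √Real.pi * ε * √((volume {x | c' < u x}).toReal) ≤
      2 * √Real.pi * ε * √((volume {x | c < u x}).toReal) :=
    mul_le_mul_of_nonneg_left (Real.sqrt_le_sqrt hmono) (by positivity)
  have h3 : 2 * √Real.pi * ε * √((volume {x | c' < u x}).toReal) ≤
      (volume (Metric.thickening ε {x | c < u x})).toReal - (volume {x | c < u x}).toReal := by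
    linarith
  have h4 : volume (Metric.thickening ε {x | c < u x}) ≤
      volume {x | c < u x} + volume {x | u x ≤ c ∧ c < ww u C ε x} := by
    refine (measure_mono fun x hx => ?_).trans (measure_union_le _ _)
    have hx' := thick_sub hC0 hC c hx
    by_cases h : c < u x
    · exact Or.inl h
    · exact Or.inr ⟨not_lt.1 h, hx'⟩
  refine (ENNReal.ofReal_le_ofReal h3).trans ?_
  rw [ENNReal.ofReal_sub _ ENNReal.toReal_nonneg, ENNReal.ofReal_toReal hfin2,
    ENNReal.ofReal_toReal hfin]
  exact tsub_le_iff_left.2 h4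

theorem continuous_ww {u : E 2 → ℝ} (hu : ContDiff ℝ 2 u) (C ε : ℝ) : Continuous (ww u C ε) := by
  unfold ww
  exact (hu.continuous.add ((hu.continuous_fderiv (by norm_num)).norm.mul continuous_const)).add
    continuous_const

/-- the inequality after integration over the levels -/
theorem integrated {u : E 2 → ℝ} (hu : ContDiff ℝ 2 u) (hc : HasCompactSupport u) {C : ℝ}
    (hC0 : 0 ≤ C)
    (hC : ∀ x y : E 2, u y ≤ u x + ‖fderiv ℝ u x‖ * ‖y - x‖ + C * ‖y - x‖ ^ 2) {ε : ℝ}
    (hε : 0 < ε) {s h : ℝ} (hs : 0 < s) (hh : 0 < h) :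
    ENNReal.ofReal (2 * √Real.pi * ε * √((volume {x | s + h < u x}).toReal) * h) ≤
      ∫⁻ x in {x | u x < s + h ∧ s < ww u C ε x},
        ENNReal.ofReal (‖fderiv ℝ u x‖ * ε + C * ε ^ 2) := by
  have hcw := continuous_ww hu C ε
  have hcu := hu.continuous
  set S : Set (ℝ × E 2) := {q | u q.2 ≤ q.1 ∧ q.1 < ww u C ε q.2} with hS
  have hSm : MeasurableSet S :=
    (measurableSet_le (hcu.comp continuous_snd).measurable measurable_fst).inter
      (measurableSet_lt measurable_fst (hcw.comp continuous_snd).measurable)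
  set μ : Measure ℝ := volume.restrict (Ioo s (s + h)) with hμ
  have e1 := Measure.prod_apply (μ := μ) (ν := (volume : Measure (E 2))) hSm
  have e2 := Measure.prod_apply_symm (μ := μ) (ν := (volume : Measure (E 2))) hSm
  have h1 : ENNReal.ofReal (2 * √Real.pi * ε * √((volume {x | s + h < u x}).toReal) * h) ≤
      ∫⁻ c, volume (Prod.mk c ⁻¹' S) ∂μ := by
    have h2 : ∫⁻ _ in Ioo s (s + h),
        ENNReal.ofReal (2 * √Real.pi * ε * √((volume {x | s + h < u x}).toReal)) =
        ENNReal.ofReal (2 * √Real.pi * ε * √((volume {x | s + h < u x}).toReal) * h) := by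
      rw [setLIntegral_const, Real.volume_Ioo, ← ENNReal.ofReal_mul (by positivity)]
      congr 1
      ring
    rw [← h2]
    refine setLIntegral_mono' measurableSet_Ioo fun c hc' => ?_
    exact level hcu hc hC0 hC hε (hs.trans hc'.1) hc'.2.le
  refine h1.trans ?_
  rw [← e1, e2, ← lintegral_indicator]
  · refine lintegral_mono fun x => ?_
    have hpre : (fun c => (c, x)) ⁻¹' S = Ico (u x) (ww u C ε x) := rfl
    rw [hpre, hμ, Measure.restrict_apply measurableSet_Ico]
    by_cases hx : u x < s + h ∧ s < ww u C ε x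
    · rw [indicator_of_mem (show x ∈ {x | u x < s + h ∧ s < ww u C ε x} from hx)]
      refine (measure_mono inter_subset_left).trans ?_
      rw [Real.volume_Ico]
      refine ENNReal.ofReal_le_ofReal ?_
      unfold ww
      linarith
    · have hempty : Ico (u x) (ww u C ε x) ∩ Ioo s (s + h) = ∅ := by
        ext c
        simp only [mem_inter_iff, mem_Ico, mem_Ioo, mem_empty_iff_false, iff_false]
        rintro ⟨⟨a1, a2⟩, a3, a4⟩
        exact hx ⟨by linarith, by linarith⟩
      rw [hempty, measure_empty]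
      exact bot_le
  · exact (isOpen_lt hcu continuous_const).measurableSet.inter
      (isOpen_lt continuous_const hcw).measurableSet

/-- the real form -/
theorem real_form {u : E 2 → ℝ} (hu : ContDiff ℝ 2 u) (hc : HasCompactSupport u) {C : ℝ}
    (hC0 : 0 ≤ C)
    (hC : ∀ x y : E 2, u y ≤ u x + ‖fderiv ℝ u x‖ * ‖y - x‖ + C * ‖y - x‖ ^ 2) {ε : ℝ}
    (hε : 0 < ε) {s h : ℝ} (hs : 0 < s) (hh : 0 < h) (hεs : C * ε ^ 2 < s) :
    2 * √Real.pi * h * √((volume {x | s + h < u x}).toReal) ≤
      (∫ x, {x | u x < s + h ∧ s < ww u C ε x}.indicator (fun x => ‖fderiv ℝ u x‖) x) +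
        C * ε * (volume (tsupport u)).toReal := by
  have hcw := continuous_ww hu C ε
  have hcu := hu.continuous
  have hcf : Continuous fun x => ‖fderiv ℝ u x‖ := (hu.continuous_fderiv (by norm_num)).norm
  set A : Set (E 2) := {x | u x < s + h ∧ s < ww u C ε x} with hA
  have hAm : MeasurableSet A := (isOpen_lt hcu continuous_const).measurableSet.inter
      (isOpen_lt continuous_const hcw).measurableSet
  have hAs : A ⊆ tsupport u := by
    intro x hx
    by_contra hn
    have h1 : u x = 0 := image_eq_zero_of_notMem_tsupport hn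
    have h2 : fderiv ℝ u x = 0 := by
      by_contra h
      exact hn (support_fderiv_subset ℝ h)
    have h3 : s < ww u C ε x := hx.2
    unfold ww at h3
    rw [h1, h2, norm_zero] at h3
    linarith
  have hKfin : volume (tsupport u) ≠ ⊤ := hc.isCompact.measure_lt_top.ne
  have hAfin : volume A ≠ ⊤ := (lt_of_le_of_lt (measure_mono hAs) hc.isCompact.measure_lt_top).ne
  have hint1 : IntegrableOn (fun x => ‖fderiv ℝ u x‖) A :=
    (hcf.integrable_of_hasCompactSupport (hc.fderiv ℝ).norm).integrableOn
  have hint2 : IntegrableOn (fun x => ‖fderiv ℝ u x‖ * ε + C * ε ^ 2) A :=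
    (hint1.mul_const ε).add (integrableOn_const hAfin)
  have h1 := integrated hu hc hC0 hC hε hs hh
  rw [← ofReal_integral_eq_lintegral_ofReal hint2
    (ae_of_all _ fun x => by positivity)] at h1
  have h2 : 2 * √Real.pi * ε * √((volume {x | s + h < u x}).toReal) * h ≤
      ∫ x in A, (‖fderiv ℝ u x‖ * ε + C * ε ^ 2) := by
    refine (ENNReal.ofReal_le_ofReal_iff ?_).1 h1
    exact integral_nonneg fun x => by positivity
  have h3 : ∫ x in A, (‖fderiv ℝ u x‖ * ε + C * ε ^ 2) =
      (∫ x in A, ‖fderiv ℝ u x‖) * ε + (volume A).toReal * (C * ε ^ 2) := by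
    rw [integral_add (hint1.mul_const ε) (integrableOn_const hAfin), integral_mul_const,
      setIntegral_const]
    rfl
  have h4 : (volume A).toReal ≤ (volume (tsupport u)).toReal :=
    ENNReal.toReal_mono hKfin (measure_mono hAs)
  rw [h3] at h2
  rw [integral_indicator hAm]
  have h5 : (volume A).toReal * (C * ε ^ 2) ≤ (volume (tsupport u)).toReal * (C * ε ^ 2) :=
    mul_le_mul_of_nonneg_right h4 (by positivity)
  have h6 : ε * (2 * √Real.pi * h * √((volume {x | s + h < u x}).toReal)) ≤
      ε * ((∫ x in A, ‖fderiv ℝ u x‖) + C * ε * (volume (tsupport u)).toReal) := by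
    calc _ = 2 * √Real.pi * ε * √((volume {x | s + h < u x}).toReal) * h := by ring
      _ ≤ _ := h2.trans (add_le_add le_rfl h5)
      _ = _ := by ring
  exact le_of_mul_le_mul_left h6 hε

end StripAux

theorem strip (u : E 2 → ℝ) (hu : ContDiff ℝ 2 u) (hc : HasCompactSupport u) (s h : ℝ)
    (hs : 0 < s) (hh : 0 < h) (hnull : volume {x | u x = s} = 0) :
    2 * √Real.pi * h * √((volume {x | s + h < u x}).toReal)
      ≤ ∫ x in {x | s < u x ∧ u x < s + h}, ‖fderiv ℝ u x‖ := by
  obtain ⟨C, hC0, hC⟩ := StripAux.taylor hu hc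
  have hcu := hu.continuous
  have hcf : Continuous fun x => ‖fderiv ℝ u x‖ := (hu.continuous_fderiv (by norm_num)).norm
  have hintg : Integrable fun x => ‖fderiv ℝ u x‖ :=
    hcf.integrable_of_hasCompactSupport (hc.fderiv ℝ).norm
  have hBm : MeasurableSet {x | s < u x ∧ u x < s + h} :=
    (isOpen_lt continuous_const hcu).measurableSet.inter
      (isOpen_lt hcu continuous_const).measurableSet
  set eps : ℕ → ℝ := fun n => 1 / ((n : ℝ) + 1) with heps
  have he0 : ∀ n, 0 < eps n := fun n => by simp only [heps]; positivity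
  have he : Filter.Tendsto eps Filter.atTop (nhds 0) := tendsto_one_div_add_atTop_nhds_zero_nat
  have hlim : Filter.Tendsto (fun n => (∫ x, {x | u x < s + h ∧
      s < StripAux.ww u C (eps n) x}.indicator (fun x => ‖fderiv ℝ u x‖) x) +
        C * eps n * (volume (tsupport u)).toReal) Filter.atTop
      (nhds ((∫ x, {x | s < u x ∧ u x < s + h}.indicator (fun x => ‖fderiv ℝ u x‖) x) +
        C * 0 * (volume (tsupport u)).toReal)) := by
    refine Filter.Tendsto.add ?_ ((he.const_mul C).mul_const _)
    refine tendsto_integral_of_dominated_convergence (fun x => ‖fderiv ℝ u x‖) (fun n => ?_)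
      hintg (fun n => ae_of_all _ fun x => ?_) ?_
    · refine (hcf.measurable.indicator ?_).aestronglyMeasurable
      exact (isOpen_lt hcu continuous_const).measurableSet.inter
        (isOpen_lt continuous_const (StripAux.continuous_ww hu C _)).measurableSet
    · refine (norm_indicator_le_norm_self _ _).trans ?_
      rw [norm_norm]
    · have hae : ∀ᵐ x : E 2, u x ≠ s := by
        rw [ae_iff]
        simpa using hnull
      filter_upwards [hae] with x hx
      by_cases h1 : u x < s + h
      · rcases lt_or_gt_of_ne hx with h2 | h2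
        · have hB : x ∉ {x | s < u x ∧ u x < s + h} := fun hb => lt_asymm h2 hb.1
          rw [indicator_of_notMem hB]
          have hw : Filter.Tendsto (fun n => StripAux.ww u C (eps n) x) Filter.atTop
              (nhds (u x + ‖fderiv ℝ u x‖ * 0 + C * 0 ^ 2)) := by
            unfold StripAux.ww
            exact (tendsto_const_nhds.add (he.const_mul _)).add ((he.pow 2).const_mul _)
          have hev := hw.eventually_lt_const (u := s) (by simpa using h2)
          refine tendsto_const_nhds.congr' ?_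
          filter_upwards [hev] with n hn
          rw [indicator_of_notMem]
          intro hb
          exact lt_asymm hn hb.2
        · have hB : x ∈ {x | s < u x ∧ u x < s + h} := ⟨h2, h1⟩
          rw [indicator_of_mem hB]
          refine tendsto_const_nhds.congr fun n => ?_
          rw [indicator_of_mem]
          refine ⟨h1, ?_⟩
          have a1 : 0 ≤ ‖fderiv ℝ u x‖ * eps n := mul_nonneg (norm_nonneg _) (he0 n).le
          have a2 : 0 ≤ C * eps n ^ 2 := by positivity
          unfold StripAux.ww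
          linarith
      · have hB : x ∉ {x | s < u x ∧ u x < s + h} := fun hb => h1 hb.2
        rw [indicator_of_notMem hB]
        refine tendsto_const_nhds.congr fun n => ?_
        rw [indicator_of_notMem]
        intro hb
        exact h1 hb.1
  have hsmall : ∀ᶠ n in Filter.atTop, C * eps n ^ 2 < s := by
    have h1 : Filter.Tendsto (fun n => C * eps n ^ 2) Filter.atTop (nhds (C * 0 ^ 2)) :=
      (he.pow 2).const_mul C
    exact h1.eventually_lt_const (by simpa using hs)
  have hmain := ge_of_tendsto hlim (b := 2 * √Real.pi * h * √((volume {x | s + h < u x}).toReal))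
    (hsmall.mono fun n hn => StripAux.real_form hu hc hC0 hC (he0 n) hs hh hn)
  rw [integral_indicator hBm, mul_zero, zero_mul, add_zero] at hmain
  exact hmain

end Pool.Agent.Lib.MP_d3943d_an
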