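import Pool.Agent.Lib.MP_d3943d_an.Graph

set_option autoImplicit false

/-!
Plane sections of the ball in `E 3`.
-/

namespace Pool.Agent.Lib.MP_d3943d_an

open MeasureTheory Set
open scoped ENNReal ContDiff Pointwise

/-- Total mass of the direction measure in graph coordinates. -/
noncomputable def m0 : ℝ≥0∞ := ∫⁻ ν : E 2, (ENNReal.ofReal ((√(1 + ‖ν‖ ^ 2)) ^ 3))⁻¹

namespace TBallAux

theorem s_pos (ν : E 2) : 0 < √(1 + ‖ν‖ ^ 2) := Real.sqrt_pos.2 (by positivity)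

theorem s_sq (ν : E 2) : √(1 + ‖ν‖ ^ 2) ^ 2 = 1 + ‖ν‖ ^ 2 := Real.sq_sqrt (by positivity)

theorem meas_m0 : Measurable (fun ν : E 2 => (ENNReal.ofReal ((√(1 + ‖ν‖ ^ 2)) ^ 3))⁻¹) := by
  have h : Continuous (fun ν : E 2 => (√(1 + ‖ν‖ ^ 2)) ^ 3) := by fun_prop
  exact (ENNReal.measurable_ofReal.comp h.measurable).inv

/-- The linear map turning ellipses into discs. -/
noncomputable def TT (ν : E 2) : E 2 →ₗ[ℝ] E 2 :=
  LinearMap.id + (1 + √(1 + ‖ν‖ ^ 2))⁻¹ •
    ((innerSL ℝ ν).toLinearMap.smulRight ν)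

theorem TT_apply (ν y : E 2) :
    TT ν y = y + ((1 + √(1 + ‖ν‖ ^ 2))⁻¹ * inner ℝ ν y) • ν := by
  simp [TT, smul_smul]

theorem TT_det (ν : E 2) : LinearMap.det (TT ν) = √(1 + ‖ν‖ ^ 2) := by
  have hs := s_pos ν
  have hsq := s_sq ν
  set s := √(1 + ‖ν‖ ^ 2) with hs'
  have hn : ‖ν‖ ^ 2 = ν 0 ^ 2 + ν 1 ^ 2 := by
    rw [EuclideanSpace.norm_sq_eq, Fin.sum_univ_two]
    simp
  rw [← LinearMap.det_toMatrix (EuclideanSpace.basisFun (Fin 2) ℝ).toBasis, Matrix.det_fin_two]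
  have hent : ∀ i j : Fin 2, LinearMap.toMatrix (EuclideanSpace.basisFun (Fin 2) ℝ).toBasis
      (EuclideanSpace.basisFun (Fin 2) ℝ).toBasis (TT ν) i j =
      (if i = j then 1 else 0) + (1 + s)⁻¹ * ν j * ν i := by
    intro i j
    rw [LinearMap.toMatrix_apply]
    simp only [OrthonormalBasis.coe_toBasis, OrthonormalBasis.coe_toBasis_repr_apply,
      EuclideanSpace.basisFun_repr, EuclideanSpace.basisFun_apply]
    rw [TT_apply]
    simp [EuclideanSpace.inner_single_right, Pi.single_apply, ← hs']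
  simp only [hent]
  simp only [Fin.isValue, if_true, zero_ne_one, if_false, one_ne_zero]
  have h1 : (1 + s)⁻¹ * (ν 0 ^ 2 + ν 1 ^ 2) = s - 1 := by
    rw [← hn]
    have : ‖ν‖ ^ 2 = (s - 1) * (1 + s) := by nlinarith
    rw [this]
    field_simp
  nlinarith

/-- The quadratic form. -/
theorem TT_norm (ν y : E 2) (c : ℝ) :
    ‖TT ν y + (c / √(1 + ‖ν‖ ^ 2)) • ν‖ ^ 2 + c ^ 2 / (1 + ‖ν‖ ^ 2) =
      (c + inner ℝ ν y) ^ 2 + ‖y‖ ^ 2 := by
  have hs := s_pos ν
  have hsq := s_sq ν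
  set s := √(1 + ‖ν‖ ^ 2) with hs'
  rw [← hsq]
  have hn : ‖ν‖ ^ 2 = s ^ 2 - 1 := by linarith
  have e1 : TT ν y + (c / s) • ν = y + ((1 + s)⁻¹ * inner ℝ ν y + c / s) • ν := by
    rw [TT_apply, ← hs', add_assoc, ← add_smul]
  rw [e1, norm_add_sq_real, inner_smul_right, norm_smul, mul_pow, Real.norm_eq_abs, sq_abs, hn,
    real_inner_comm]
  set q := (inner ℝ ν y : ℝ) with hq
  have h1 : (1 + s) ≠ 0 := by positivity
  have h2 : s ≠ 0 := hs.ne'
  field_simp
  ring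

/-- Area of a plane section of the ball. -/
theorem sec_ball (R : ℝ) (hR : 0 < R) (ν : E 2) (c : ℝ) :
    sec ((Metric.ball (0 : E 3) R).indicator fun _ => 1) c ν =
      ENNReal.ofReal (Real.pi / √(1 + ‖ν‖ ^ 2) *
        max (R ^ 2 - (c / √(1 + ‖ν‖ ^ 2)) ^ 2) 0) := by
  have hs := s_pos ν
  have hsq := s_sq ν
  set s := √(1 + ‖ν‖ ^ 2) with hs'
  set ρ := √(R ^ 2 - (c / s) ^ 2) with hρ
  have hset : ∀ y : E 2, (ins (c + inner ℝ ν y) y ∈ Metric.ball (0 : E 3) R) ↔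
      y ∈ (TT ν) ⁻¹' (Metric.ball (-((c / s) • ν)) ρ) := by
    intro y
    rw [mem_ball_zero_iff, Set.mem_preimage, mem_ball_iff_norm, sub_neg_eq_add,
      Real.lt_sqrt (norm_nonneg _)]
    have e1 := TT_norm ν y c
    rw [← hs', ← hsq] at e1
    have e2 := norm_ins_sq (c + inner ℝ ν y) y
    have e3 : (c / s) ^ 2 = c ^ 2 / s ^ 2 := div_pow _ _ _
    rw [e3]
    constructor
    · intro h
      have h1 : ‖ins (c + inner ℝ ν y) y‖ ^ 2 < R ^ 2 :=
        pow_lt_pow_left₀ h (norm_nonneg _) (by norm_num)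
      linarith
    · intro h
      refine lt_of_pow_lt_pow_left₀ 2 hR.le ?_
      linarith
  have h1 : sec ((Metric.ball (0 : E 3) R).indicator fun _ => 1) c ν =
      volume ((TT ν) ⁻¹' (Metric.ball (-((c / s) • ν)) ρ)) := by
    unfold sec
    have h2 : ∀ y : E 2, (Metric.ball (0 : E 3) R).indicator (fun _ => (1 : ℝ≥0∞))
        (ins (c + inner ℝ ν y) y) =
        ((TT ν) ⁻¹' (Metric.ball (-((c / s) • ν)) ρ)).indicator (fun _ => (1 : ℝ≥0∞)) y := by
      intro y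
      by_cases h : y ∈ (TT ν) ⁻¹' (Metric.ball (-((c / s) • ν)) ρ)
      · rw [Set.indicator_of_mem h, Set.indicator_of_mem ((hset y).2 h)]
      · rw [Set.indicator_of_notMem h, Set.indicator_of_notMem (fun h' => h ((hset y).1 h'))]
    simp_rw [h2]
    have hm : MeasurableSet ((TT ν) ⁻¹' (Metric.ball (-((c / s) • ν)) ρ)) :=
      (Metric.isOpen_ball.preimage (LinearMap.continuous_of_finiteDimensional _)).measurableSet
    rw [lintegral_indicator hm, setLIntegral_const, one_mul]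
  have hdet : LinearMap.det (TT ν) ≠ 0 := by
    rw [TT_det]; exact hs.ne'
  rw [h1, Measure.addHaar_preimage_linearMap volume hdet, TT_det, ← hs',
    EuclideanSpace.volume_ball_fin_two, ← ENNReal.ofReal_pow (Real.sqrt_nonneg _),
    ← ENNReal.ofReal_mul (by positivity), ← ENNReal.ofReal_mul (by positivity), Real.sq_sqrt',
    abs_of_pos (by positivity)]
  congr 1
  field_simp

theorem integral_cube (R : ℝ) (hR : 0 < R) :
    ∫ t : ℝ, (max (R ^ 2 - t ^ 2) 0) ^ 3 = 32 / 35 * R ^ 7 := by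
  have h1 : ∀ t : ℝ, (max (R ^ 2 - t ^ 2) 0) ^ 3 =
      (Ioc (-R) R).indicator (fun t => (R ^ 2 - t ^ 2) ^ 3) t := by
    intro t
    by_cases ht : t ∈ Ioc (-R) R
    · rw [Set.indicator_of_mem ht, max_eq_left]
      nlinarith [ht.1, ht.2]
    · rw [Set.indicator_of_notMem ht, max_eq_right]
      · norm_num
      · simp only [Set.mem_Ioc, not_and_or, not_lt, not_le] at ht
        rcases ht with ht | ht <;> nlinarith
  simp_rw [h1]
  rw [integral_indicator measurableSet_Ioc, ← intervalIntegral.integral_of_le (by linarith)]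
  have h2 : ∀ t ∈ Set.uIcc (-R) R, HasDerivAt
      (fun t : ℝ => R ^ 6 * t - R ^ 4 * t ^ 3 + 3 / 5 * R ^ 2 * t ^ 5 - 1 / 7 * t ^ 7)
      ((R ^ 2 - t ^ 2) ^ 3) t := by
    intro t _
    have h3 := ((((hasDerivAt_id t).const_mul (R ^ 6)).sub
      ((hasDerivAt_pow 3 t).const_mul (R ^ 4))).add
      ((hasDerivAt_pow 5 t).const_mul (3 / 5 * R ^ 2))).sub
      ((hasDerivAt_pow 7 t).const_mul (1 / 7))
    refine h3.congr_deriv ?_
    push_cast
    ring
  rw [intervalIntegral.integral_eq_sub_of_hasDerivAt h2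
    ((by fun_prop : Continuous fun t : ℝ => (R ^ 2 - t ^ 2) ^ 3).intervalIntegrable _ _)]
  ring

theorem integrable_cube (R : ℝ) (hR : 0 < R) (K s : ℝ) (hs : 0 < s) :
    Integrable (fun c : ℝ => (K * max (R ^ 2 - (c / s) ^ 2) 0) ^ 3) := by
  refine Continuous.integrable_of_hasCompactSupport (by fun_prop) ?_
  refine HasCompactSupport.intro (isCompact_Icc (a := -(R * s)) (b := R * s)) fun c hc => ?_
  have : R ^ 2 - (c / s) ^ 2 ≤ 0 := by
    have h1 : R * s < |c| := by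
      by_contra hcon
      exact hc ⟨by linarith [neg_abs_le c], by linarith [le_abs_self c]⟩
    have h2 : R < |c| / s := by rw [lt_div_iff₀ hs]; exact h1
    have h3 : (c / s) ^ 2 = (|c| / s) ^ 2 := by rw [div_pow, div_pow, sq_abs]
    rw [h3]
    nlinarith
  rw [max_eq_right this]
  norm_num

end TBallAux

open TBallAux

theorem m0_ne_zero : m0 ≠ 0 := by
  unfold m0
  rw [← pos_iff_ne_zero, lintegral_pos_iff_support meas_m0]
  have : Function.support (fun ν : E 2 => (ENNReal.ofReal ((√(1 + ‖ν‖ ^ 2)) ^ 3))⁻¹) = univ := by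
    ext ν
    simp only [Function.mem_support, Set.mem_univ, iff_true]
    exact ENNReal.inv_ne_zero.2 ENNReal.ofReal_ne_top
  rw [this]
  exact Measure.measure_univ_pos.2 (NeZero.ne _)

theorem m0_ne_top : m0 ≠ ⊤ := by
  have h1 : Integrable (fun ν : E 2 => ((1 : ℝ) + ‖ν‖ ^ 2) ^ (-(3 : ℝ) / 2)) :=
    integrable_rpow_neg_one_add_norm_sq (by simp; norm_num)
  have h2 : ∀ ν : E 2, (ENNReal.ofReal ((√(1 + ‖ν‖ ^ 2)) ^ 3))⁻¹ =
      ENNReal.ofReal (((1 : ℝ) + ‖ν‖ ^ 2) ^ (-(3 : ℝ) / 2)) := by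
    intro ν
    have hs := s_pos ν
    rw [← ENNReal.ofReal_inv_of_pos (by positivity)]
    congr 1
    rw [Real.sqrt_eq_rpow, ← Real.rpow_natCast, ← Real.rpow_mul (by positivity),
      ← Real.rpow_neg (by positivity)]
    norm_num
  unfold m0
  simp_rw [h2]
  exact h1.lintegral_lt_top.ne

theorem CB_three (R : ℝ) (hR : 0 < R) : CB 3 R = 4 * Real.pi * R ^ 7 / 1575 := by
  have h1 : CB 3 R = ∫ x : E 3, (fun r : ℝ => if r < R then
      (R ^ 2 - r ^ 2) ^ 2 / (8 * ((3 : ℕ) : ℝ) * (((3 : ℕ) : ℝ) + 2)) else 0) ‖x‖ := by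
    unfold CB
    rw [← integral_indicator Metric.isOpen_ball.measurableSet]
    refine integral_congr_ae (Filter.Eventually.of_forall fun x => ?_)
    by_cases hx : x ∈ Metric.ball (0 : E 3) R
    · rw [Set.indicator_of_mem hx]
      simp only
      rw [if_pos (mem_ball_zero_iff.1 hx)]
    · rw [Set.indicator_of_notMem hx]
      simp only
      rw [if_neg (fun h => hx (mem_ball_zero_iff.2 h))]
  rw [h1, integral_fun_norm_addHaar volume (fun r : ℝ => if r < R then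
      (R ^ 2 - r ^ 2) ^ 2 / (8 * ((3 : ℕ) : ℝ) * (((3 : ℕ) : ℝ) + 2)) else 0)]
  have h2 : (volume : Measure (E 3)).real (Metric.ball 0 1) = Real.pi * 4 / 3 := by
    rw [measureReal_def, EuclideanSpace.volume_ball_fin_three]
    simp [Real.pi_pos.le, ENNReal.toReal_ofReal (by positivity : (0:ℝ) ≤ Real.pi * 4 / 3)]
  have h3 : ∫ y in Ioi (0 : ℝ), y ^ (Module.finrank ℝ (E 3) - 1) • (if y < R then
      (R ^ 2 - y ^ 2) ^ 2 / (8 * ((3 : ℕ) : ℝ) * (((3 : ℕ) : ℝ) + 2)) else 0) =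
      R ^ 7 / 1575 := by
    have h4 : ∀ y : ℝ, y ^ (Module.finrank ℝ (E 3) - 1) • (if y < R then
        (R ^ 2 - y ^ 2) ^ 2 / (8 * ((3 : ℕ) : ℝ) * (((3 : ℕ) : ℝ) + 2)) else 0) =
        (Iio R).indicator (fun y => y ^ 2 * (R ^ 2 - y ^ 2) ^ 2 / 120) y := by
      intro y
      simp only [finrank_euclideanSpace, Fintype.card_fin, smul_eq_mul, Set.indicator_apply,
        Set.mem_Iio]
      split_ifs
      · norm_num
        ring
      · ring
    simp_rw [h4]
    rw [setIntegral_indicator measurableSet_Iio]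
    have h5 : Ioi (0 : ℝ) ∩ Iio R = Ioo 0 R := by ext y; simp
    rw [h5, ← integral_Ioc_eq_integral_Ioo, ← intervalIntegral.integral_of_le hR.le]
    have h6 : ∀ t ∈ Set.uIcc 0 R, HasDerivAt
        (fun t : ℝ => (R ^ 4 / 3 * t ^ 3 - 2 / 5 * R ^ 2 * t ^ 5 + 1 / 7 * t ^ 7) / 120)
        (t ^ 2 * (R ^ 2 - t ^ 2) ^ 2 / 120) t := by
      intro t _
      have h7 := ((((hasDerivAt_pow 3 t).const_mul (R ^ 4 / 3)).sub
        ((hasDerivAt_pow 5 t).const_mul (2 / 5 * R ^ 2))).add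
        ((hasDerivAt_pow 7 t).const_mul (1 / 7))).div_const 120
      refine h7.congr_deriv ?_
      push_cast
      ring
    rw [intervalIntegral.integral_eq_sub_of_hasDerivAt h6
      ((by fun_prop : Continuous fun t : ℝ => t ^ 2 * (R ^ 2 - t ^ 2) ^ 2 / 120).intervalIntegrable
        _ _)]
    ring
  rw [h2, h3]
  simp only [finrank_euclideanSpace, Fintype.card_fin, smul_eq_mul, nsmul_eq_mul]
  push_cast
  ring

theorem Tg_ball (R : ℝ) (hR : 0 < R) :
    Tg ((Metric.ball (0 : E 3) R).indicator fun _ => 1)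
      = m0 * ENNReal.ofReal (360 * Real.pi ^ 2 * CB 3 R) := by
  have hK : 360 * Real.pi ^ 2 * CB 3 R = Real.pi ^ 3 * (32 / 35 * R ^ 7) := by
    rw [CB_three R hR]
    ring
  rw [hK]
  unfold Tg m0
  rw [← lintegral_mul_const _ meas_m0]
  refine lintegral_congr fun ν => ?_
  have hs := s_pos ν
  set s := √(1 + ‖ν‖ ^ 2) with hs'
  have h1 : ∫⁻ c : ℝ, (sec ((Metric.ball (0 : E 3) R).indicator fun _ => 1) c ν) ^ 3 =
      ENNReal.ofReal (Real.pi ^ 3 / s ^ 2 * (32 / 35 * R ^ 7)) := by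
    have h2 : ∀ c : ℝ, (sec ((Metric.ball (0 : E 3) R).indicator fun _ => 1) c ν) ^ 3 =
        ENNReal.ofReal ((Real.pi / s * max (R ^ 2 - (c / s) ^ 2) 0) ^ 3) := by
      intro c
      rw [sec_ball R hR, ← hs', ENNReal.ofReal_pow (by positivity)]
    simp_rw [h2]
    rw [← ofReal_integral_eq_lintegral_ofReal (integrable_cube R hR _ s hs)
      (Filter.Eventually.of_forall fun c => by positivity)]
    congr 1
    simp_rw [mul_pow]
    rw [integral_const_mul]
    have h3 := Measure.integral_comp_div (fun t : ℝ => (max (R ^ 2 - t ^ 2) 0) ^ 3) s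
    rw [integral_cube R hR, abs_of_pos hs] at h3
    rw [h3, smul_eq_mul]
    field_simp
  rw [h1, ← ENNReal.ofReal_inv_of_pos hs, ← ENNReal.ofReal_inv_of_pos (by positivity),
    ← ENNReal.ofReal_mul (by positivity), ← ENNReal.ofReal_mul (by positivity)]
  congr 1
  field_simp

end Pool.Agent.Lib.MP_d3943d_an
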