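import Pool.Agent.Lib.MP_d3943d_an.TBall
import Pool.Agent.Lib.MP_d3943d_an.Steiner

set_option autoImplicit false

/-!
Radial functions: the last step of the symmetrisation argument in `E 3`.
-/

namespace Pool.Agent.Lib.MP_d3943d_an

open MeasureTheory Set
open scoped ENNReal ContDiff Pointwise

namespace TRAux

/-- the integral inequality of Minkowski for the exponent three -/
theorem mink {X T : Type*} [MeasurableSpace X] [MeasurableSpace T] {μ : Measure X} [SFinite μ]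
    {τ : Measure T} [SFinite τ] {S : T → X → ℝ≥0∞} (hS : Measurable (Function.uncurry S))
    (hfin : ∫⁻ x, (∫⁻ t, S t x ∂τ) ^ 3 ∂μ ≠ ⊤) :
    ∫⁻ x, (∫⁻ t, S t x ∂τ) ^ 3 ∂μ ≤
      (∫⁻ t, (∫⁻ x, (S t x) ^ 3 ∂μ) ^ (1 / 3 : ℝ) ∂τ) ^ 3 := by
  set g : X → ℝ≥0∞ := fun x => ∫⁻ t, S t x ∂τ with hg
  have hgm : Measurable g := hS.lintegral_prod_left'
  set I : ℝ≥0∞ := ∫⁻ x, g x ^ 3 ∂μ with hI
  set Q : ℝ≥0∞ := ∫⁻ t, (∫⁻ x, (S t x) ^ 3 ∂μ) ^ (1 / 3 : ℝ) ∂τ with hQ
  by_cases h0 : I = 0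
  · rw [h0]; exact bot_le
  have hSt : ∀ t, Measurable (S t) := fun t => hS.comp measurable_prodMk_left
  have hSx : ∀ x, Measurable fun t => S t x := fun x => hS.comp measurable_prodMk_right
  have h1 : I = ∫⁻ t, ∫⁻ x, g x ^ 2 * S t x ∂μ ∂τ := by
    rw [lintegral_lintegral_swap]
    · refine lintegral_congr fun x => ?_
      rw [lintegral_const_mul _ (hSx x)]
      rw [pow_succ]
    · exact ((((hgm.comp measurable_snd).pow_const 2).mul hS)).aemeasurable
  have hconj : Real.HolderConjugate (3 / 2) 3 := by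
    rw [Real.holderConjugate_iff]
    norm_num
  have h2 : ∀ t, ∫⁻ x, g x ^ 2 * S t x ∂μ ≤
      I ^ (2 / 3 : ℝ) * (∫⁻ x, (S t x) ^ 3 ∂μ) ^ (1 / 3 : ℝ) := by
    intro t
    have h3 := ENNReal.lintegral_mul_le_Lp_mul_Lq μ hconj (f := fun x => g x ^ 2) (g := S t)
      (hgm.pow_const 2).aemeasurable (hSt t).aemeasurable
    refine h3.trans (le_of_eq ?_)
    congr 1
    · have e1 : ∀ x, (g x ^ 2) ^ (3 / 2 : ℝ) = g x ^ 3 := by
        intro x
        rw [← ENNReal.rpow_natCast, ← ENNReal.rpow_mul, ← ENNReal.rpow_natCast]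
        norm_num
      simp only [e1]
      rw [hI]
      norm_num
    · have e1 : ∀ x, (S t x) ^ (3 : ℝ) = (S t x) ^ 3 := by
        intro x
        rw [← ENNReal.rpow_natCast]
        norm_num
      simp only [e1]
  have h3 : I ≤ I ^ (2 / 3 : ℝ) * Q := by
    calc I = ∫⁻ t, ∫⁻ x, g x ^ 2 * S t x ∂μ ∂τ := h1
      _ ≤ ∫⁻ t, I ^ (2 / 3 : ℝ) * (∫⁻ x, (S t x) ^ 3 ∂μ) ^ (1 / 3 : ℝ) ∂τ := lintegral_mono h2
      _ = I ^ (2 / 3 : ℝ) * Q := by
        rw [lintegral_const_mul']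
        exact ENNReal.rpow_ne_top_of_nonneg (by norm_num) hfin
  have h4 : I = I ^ (2 / 3 : ℝ) * I ^ (1 / 3 : ℝ) := by
    rw [← ENNReal.rpow_add _ _ h0 hfin]
    norm_num
  have h5 : I ^ (1 / 3 : ℝ) ≤ Q := by
    have h6 : I ^ (2 / 3 : ℝ) * I ^ (1 / 3 : ℝ) ≤ I ^ (2 / 3 : ℝ) * Q := by
      rw [← h4]; exact h3
    have h7 : I ^ (2 / 3 : ℝ) ≠ 0 := by
      intro h
      rcases ENNReal.rpow_eq_zero_iff.1 h with h8 | h8
      · exact h0 h8.1
      · exact hfin h8.1
    exact (ENNReal.mul_le_mul_iff_right h7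
      (ENNReal.rpow_ne_top_of_nonneg (by norm_num) hfin)).1 h6
  calc I = (I ^ (1 / 3 : ℝ)) ^ 3 := by
        rw [← ENNReal.rpow_natCast, ← ENNReal.rpow_mul]
        norm_num
    _ ≤ Q ^ 3 := pow_le_pow_left' h5 3

/-- the weight -/
noncomputable def wt (ν : E 2) : ℝ≥0∞ := (ENNReal.ofReal (√(1 + ‖ν‖ ^ 2)))⁻¹

theorem measurable_wt : Measurable wt := by
  unfold wt
  have : Continuous fun ν : E 2 => √(1 + ‖ν‖ ^ 2) := by fun_prop
  exact (ENNReal.measurable_ofReal.comp this.measurable).inv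

/-- the measure on the space of planes -/
noncomputable def mu : Measure (E 2 × ℝ) :=
  ((volume : Measure (E 2)).withDensity wt).prod (volume : Measure ℝ)

instance : SFinite mu := by unfold mu; infer_instance

theorem continuous_plane : Continuous fun p : (E 2 × ℝ) × E 2 =>
    ins (p.1.2 + inner ℝ p.1.1 p.2) p.2 := by
  have h1 : Continuous fun p : (E 2 × ℝ) × E 2 => p.1.2 + inner ℝ p.1.1 p.2 :=
    (continuous_snd.comp continuous_fst).add
      ((continuous_fst.comp continuous_fst).inner continuous_snd)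
  exact continuous_ins.comp (h1.prodMk continuous_snd)

theorem measurable_sec {f : E 3 → ℝ≥0∞} (hf : Measurable f) :
    Measurable fun q : E 2 × ℝ => sec f q.2 q.1 := by
  unfold sec
  exact Measurable.lintegral_prod_right' (hf.comp continuous_plane.measurable)

theorem Tg_eq {f : E 3 → ℝ≥0∞} (hf : Measurable f) :
    Tg f = ∫⁻ q, (sec f q.2 q.1) ^ 3 ∂mu := by
  unfold mu Tg
  have hm : Measurable fun q : E 2 × ℝ => (sec f q.2 q.1) ^ 3 := (measurable_sec hf).pow_const 3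
  rw [lintegral_prod _ hm.aemeasurable, lintegral_withDensity_eq_lintegral_mul _ measurable_wt
    hm.lintegral_prod_right']
  rfl

/-- the layers -/
noncomputable def lay (h : E 3 → ℝ) (t : ℝ) : E 3 → ℝ≥0∞ := {x | t < h x}.indicator fun _ => 1

theorem measurable_lay {h : E 3 → ℝ} (hh : Continuous h) (t : ℝ) : Measurable (lay h t) :=
  measurable_const.indicator (isOpen_lt continuous_const hh).measurableSet

theorem measurable_S {h : E 3 → ℝ} (hh : Continuous h) :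
    Measurable (Function.uncurry fun (t : ℝ) (q : E 2 × ℝ) => sec (lay h t) q.2 q.1) := by
  have h1 : Measurable fun p : (ℝ × (E 2 × ℝ)) × E 2 =>
      lay h p.1.1 (ins (p.1.2.2 + inner ℝ p.1.2.1 p.2) p.2) := by
    have hc : Continuous fun p : (ℝ × (E 2 × ℝ)) × E 2 =>
        h (ins (p.1.2.2 + inner ℝ p.1.2.1 p.2) p.2) :=
      hh.comp (continuous_plane.comp
        ((continuous_snd.comp continuous_fst).prodMk continuous_snd))
    have hs : MeasurableSet {p : (ℝ × (E 2 × ℝ)) × E 2 |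
        p.1.1 < h (ins (p.1.2.2 + inner ℝ p.1.2.1 p.2) p.2)} :=
      (isOpen_lt (continuous_fst.comp continuous_fst) hc).measurableSet
    exact (measurable_const (a := (1 : ℝ≥0∞))).indicator hs
  exact Measurable.lintegral_prod_right' h1

/-- layer cake for one value -/
theorem layer_one {a : ℝ} (h0 : 0 ≤ a) (h1 : a ≤ 1) :
    ∫⁻ t in Ioo (0 : ℝ) 1, {t : ℝ | t < a}.indicator (fun _ => (1 : ℝ≥0∞)) t =
      ENNReal.ofReal a := by
  have hm : MeasurableSet {t : ℝ | t < a} := measurableSet_Iio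
  rw [lintegral_indicator hm, Measure.restrict_restrict hm, setLIntegral_one]
  have : {t : ℝ | t < a} ∩ Ioo 0 1 = Ioo 0 a := by
    ext t
    simp only [mem_inter_iff, mem_setOf_eq, mem_Ioo]
    constructor
    · rintro ⟨h2, h3, h4⟩; exact ⟨h3, h2⟩
    · rintro ⟨h2, h3⟩; exact ⟨h3, h2, by linarith⟩
  rw [this, Real.volume_Ioo, sub_zero]

theorem sec_layers {h : E 3 → ℝ} (hh : Continuous h) (h0 : ∀ x, 0 ≤ h x) (h1 : ∀ x, h x ≤ 1)
    (c : ℝ) (ν : E 2) :
    ∫⁻ t in Ioo (0 : ℝ) 1, sec (lay h t) c ν = sec (fun x => ENNReal.ofReal (h x)) c ν := by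
  unfold sec
  rw [lintegral_lintegral_swap]
  · refine lintegral_congr fun y => ?_
    exact layer_one (h0 _) (h1 (ins (c + inner ℝ ν y) y))
  · have hc : Continuous fun p : ℝ × E 2 => h (ins (c + inner ℝ ν p.2) p.2) :=
      hh.comp (continuous_ins.comp ((continuous_const.add
        (continuous_const.inner continuous_snd)).prodMk continuous_snd))
    have hs : MeasurableSet {p : ℝ × E 2 | p.1 < h (ins (c + inner ℝ ν p.2) p.2)} :=
      (isOpen_lt continuous_fst hc).measurableSet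
    exact ((measurable_const (a := (1 : ℝ≥0∞))).indicator hs).aemeasurable

/-- superlevel sets of radial functions are balls -/
theorem level_ball {h : E 3 → ℝ} (hh : Continuous h) {ρ : ℝ} (hρ : ∀ x, ρ ≤ ‖x‖ → h x = 0)
    (hrad : ∀ x y, ‖x‖ ≤ ‖y‖ → h y ≤ h x) {t : ℝ} (ht : 0 ≤ t) :
    ∃ r : ℝ, 0 ≤ r ∧ {x | t < h x} = Metric.ball (0 : E 3) r := by
  set H : ℝ → ℝ := fun s => h (s • e 0) with hH
  have he : ‖(e 0 : E 3)‖ = 1 := by simp [e]
  have hHc : Continuous H := hh.comp (continuous_id.smul continuous_const)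
  have hHx : ∀ x, h x = H ‖x‖ := by
    intro x
    have hn : ‖‖x‖ • (e 0 : E 3)‖ = ‖x‖ := by rw [norm_smul, he, norm_norm, mul_one]
    exact le_antisymm (hrad _ _ hn.le) (hrad _ _ hn.ge)
  have hHa : ∀ s s', 0 ≤ s → s ≤ s' → H s' ≤ H s := by
    intro s s' hs hss
    refine hrad _ _ ?_
    rw [norm_smul, norm_smul, he, mul_one, mul_one, Real.norm_eq_abs, Real.norm_eq_abs,
      abs_of_nonneg hs, abs_of_nonneg (hs.trans hss)]
    exact hss
  by_cases hne : ∃ s, 0 ≤ s ∧ t < H s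
  · set A : Set ℝ := {s | 0 ≤ s ∧ t < H s} with hA
    have hAb : BddAbove A := by
      refine ⟨ρ, fun s hs => ?_⟩
      by_contra hlt
      rw [not_le] at hlt
      have h1 : H s = 0 := by
        refine hρ _ ?_
        rw [norm_smul, he, mul_one, Real.norm_eq_abs, abs_of_nonneg hs.1]
        exact hlt.le
      have h2 := hs.2
      rw [h1] at h2
      linarith
    obtain ⟨s₀, hs₀⟩ := hne
    refine ⟨sSup A, hs₀.1.trans (le_csSup hAb hs₀), ?_⟩
    ext x
    rw [mem_setOf_eq, Metric.mem_ball, dist_zero_right, hHx x]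
    constructor
    · intro hx
      have hev : ∀ᶠ s in nhds ‖x‖, t < H s := (hHc.tendsto ‖x‖).eventually_const_lt hx
      have hev2 : ∀ᶠ s in nhdsWithin ‖x‖ (Ioi ‖x‖), t < H s :=
        hev.filter_mono nhdsWithin_le_nhds
      obtain ⟨s, hs1, hs2⟩ := (hev2.and self_mem_nhdsWithin).exists
      have hs2' : ‖x‖ < s := hs2
      exact lt_of_lt_of_le hs2' (le_csSup hAb ⟨(norm_nonneg x).trans hs2'.le, hs1⟩)
    · intro hx
      obtain ⟨s, hs, hxs⟩ := exists_lt_of_lt_csSup ⟨s₀, hs₀⟩ hx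
      exact lt_of_lt_of_le hs.2 (hHa _ _ (norm_nonneg x) hxs.le)
  · refine ⟨0, le_rfl, ?_⟩
    rw [Metric.ball_zero]
    ext x
    simp only [mem_setOf_eq, mem_empty_iff_false, iff_false]
    intro hx
    rw [hHx x] at hx
    exact hne ⟨_, norm_nonneg x, hx⟩

/-- the functional of balls as a function of the volume -/
theorem ball_scale : ∃ D : ℝ≥0∞, ∀ r : ℝ, 0 ≤ r →
    Tg ((Metric.ball (0 : E 3) r).indicator fun _ => 1) =
      D * (volume (Metric.ball (0 : E 3) r)) ^ (7 / 3 : ℝ) := by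
  set K : ℝ≥0∞ := ENNReal.ofReal (Real.pi * 4 / 3) with hK
  have hK0 : K ≠ 0 := by
    rw [hK]
    have : 0 < Real.pi * 4 / 3 := by positivity
    exact (ENNReal.ofReal_pos.2 this).ne'
  have hKt : K ≠ ⊤ := ENNReal.ofReal_ne_top
  have hK7 : K ^ (7 / 3 : ℝ) ≠ 0 := by
    intro h
    rcases ENNReal.rpow_eq_zero_iff.1 h with h8 | h8
    · exact hK0 h8.1
    · exact hKt h8.1
  have hK7t : K ^ (7 / 3 : ℝ) ≠ ⊤ := ENNReal.rpow_ne_top_of_nonneg (by norm_num) hKt
  refine ⟨m0 * ENNReal.ofReal (360 * Real.pi ^ 2 * (4 * Real.pi / 1575)) *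
    (K ^ (7 / 3 : ℝ))⁻¹, fun r hr => ?_⟩
  rcases hr.eq_or_lt with hr0 | hr0
  · rw [← hr0, Metric.ball_zero, measure_empty, ENNReal.zero_rpow_of_pos (by norm_num), mul_zero]
    unfold Tg sec
    simp
  · rw [Tg_ball r hr0, CB_three r hr0, EuclideanSpace.volume_ball_fin_three,
      ENNReal.mul_rpow_of_nonneg _ _ (by norm_num : (0 : ℝ) ≤ 7 / 3)]
    have e1 : (ENNReal.ofReal r ^ 3) ^ (7 / 3 : ℝ) = ENNReal.ofReal (r ^ 7) := by
      rw [← ENNReal.rpow_natCast, ← ENNReal.rpow_mul, ENNReal.ofReal_pow hr0.le,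
        ← ENNReal.rpow_natCast]
      norm_num
    have e2 : ENNReal.ofReal (360 * Real.pi ^ 2 * (4 * Real.pi * r ^ 7 / 1575)) =
        ENNReal.ofReal (360 * Real.pi ^ 2 * (4 * Real.pi / 1575)) * ENNReal.ofReal (r ^ 7) := by
      rw [← ENNReal.ofReal_mul (by positivity)]
      congr 1
      ring
    rw [e1, e2]
    calc m0 * (ENNReal.ofReal (360 * Real.pi ^ 2 * (4 * Real.pi / 1575)) * ENNReal.ofReal (r ^ 7))
        = m0 * ENNReal.ofReal (360 * Real.pi ^ 2 * (4 * Real.pi / 1575)) *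
          ((K ^ (7 / 3 : ℝ))⁻¹ * K ^ (7 / 3 : ℝ)) * ENNReal.ofReal (r ^ 7) := by
          rw [ENNReal.inv_mul_cancel hK7 hK7t]; ring
      _ = _ := by ring

theorem Tg_mono {f g : E 3 → ℝ≥0∞} (h : ∀ x, f x ≤ g x) : Tg f ≤ Tg g := by
  unfold Tg sec
  gcongr
  exact h _

end TRAux

theorem Tg_radial_le {L ρ : ℝ} {h : E 3 → ℝ} (hh : Adm L ρ h)
    (hrad : ∀ x y, ‖x‖ ≤ ‖y‖ → h y ≤ h x) (R : ℝ) (hR : 0 < R)
    (hint : ENNReal.ofReal (∫ x, h x) ≤ volume (Metric.ball (0 : E 3) R)) :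
    Tg (fun x => ENNReal.ofReal (h x)) ≤ Tg ((Metric.ball (0 : E 3) R).indicator fun _ => 1) := by
  have hc : Continuous h := hh.continuous
  obtain ⟨D, hD⟩ := TRAux.ball_scale
  have hfm : Measurable fun x => ENNReal.ofReal (h x) := ENNReal.measurable_ofReal.comp hc.measurable
  -- finiteness
  have hfin : Tg (fun x => ENNReal.ofReal (h x)) ≠ ⊤ := by
    have hpos : 0 < |ρ| + 1 := by positivity
    refine ne_top_of_le_ne_top ?_ (TRAux.Tg_mono (g := (Metric.ball (0 : E 3)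
      (|ρ| + 1)).indicator fun _ => 1) fun x => ?_)
    · rw [Tg_ball _ hpos]
      exact ENNReal.mul_ne_top m0_ne_top ENNReal.ofReal_ne_top
    · by_cases hx : x ∈ Metric.ball (0 : E 3) (|ρ| + 1)
      · rw [indicator_of_mem hx]
        exact ENNReal.ofReal_le_one.2 (hh.le_one x)
      · rw [indicator_of_notMem hx]
        rw [Metric.mem_ball, dist_zero_right, not_lt] at hx
        rw [hh.supp x (by have := le_abs_self ρ; linarith), ENNReal.ofReal_zero]
  have h1 : Tg (fun x => ENNReal.ofReal (h x)) =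
      ∫⁻ q, (∫⁻ t in Ioo (0 : ℝ) 1, sec (TRAux.lay h t) q.2 q.1) ^ 3 ∂TRAux.mu := by
    rw [TRAux.Tg_eq hfm]
    refine lintegral_congr fun q => ?_
    rw [TRAux.sec_layers hc hh.nonneg hh.le_one]
  have hlay : ∀ t, 0 ≤ t → ∫⁻ q, (sec (TRAux.lay h t) q.2 q.1) ^ 3 ∂TRAux.mu =
      D * (volume {x | t < h x}) ^ (7 / 3 : ℝ) := by
    intro t ht
    rw [← TRAux.Tg_eq (TRAux.measurable_lay hc t)]
    obtain ⟨r, hr, hball⟩ := TRAux.level_ball hc hh.supp hrad ht
    unfold TRAux.lay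
    rw [hball]
    exact hD r hr
  rw [h1] at hfin ⊢
  refine (TRAux.mink (TRAux.measurable_S hc) hfin).trans ?_
  have h2 : ∫⁻ t in Ioo (0 : ℝ) 1, (∫⁻ q, (sec (TRAux.lay h t) q.2 q.1) ^ 3 ∂TRAux.mu) ^
      (1 / 3 : ℝ) = ∫⁻ t in Ioo (0 : ℝ) 1, D ^ (1 / 3 : ℝ) *
        (volume {x | t < h x}) ^ (7 / 9 : ℝ) := by
    refine setLIntegral_congr_fun measurableSet_Ioo fun t ht => ?_
    rw [hlay t ht.1.le, ENNReal.mul_rpow_of_nonneg _ _ (by norm_num : (0 : ℝ) ≤ 1 / 3),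
      ← ENNReal.rpow_mul]
    norm_num
  have hVm : Measurable fun t : ℝ => volume {x : E 3 | t < h x} := by
    refine Antitone.measurable fun s t hst => measure_mono fun x hx => ?_
    exact lt_of_le_of_lt hst hx
  rw [h2, lintegral_const_mul _ (hVm.pow_const _)]
  -- Jensen
  have h3 : ∫⁻ t in Ioo (0 : ℝ) 1, (volume {x : E 3 | t < h x}) ^ (7 / 9 : ℝ) ≤
      (∫⁻ t in Ioo (0 : ℝ) 1, volume {x : E 3 | t < h x}) ^ (7 / 9 : ℝ) := by
    have hconj : Real.HolderConjugate (9 / 7) (9 / 2) := by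
      rw [Real.holderConjugate_iff]
      norm_num
    have h4 := ENNReal.lintegral_mul_le_Lp_mul_Lq (volume.restrict (Ioo (0 : ℝ) 1)) hconj
      (f := fun t => (volume {x : E 3 | t < h x}) ^ (7 / 9 : ℝ)) (g := fun _ => 1)
      (hVm.pow_const _).aemeasurable measurable_const.aemeasurable
    simp only [Pi.mul_apply, mul_one, ENNReal.one_rpow, setLIntegral_one, Real.volume_Ioo,
      sub_zero, ENNReal.ofReal_one] at h4
    refine h4.trans (le_of_eq ?_)
    congr 1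
    · refine lintegral_congr fun t => ?_
      rw [← ENNReal.rpow_mul]
      norm_num
    · norm_num
  have h5 : ∫⁻ t in Ioo (0 : ℝ) 1, volume {x : E 3 | t < h x} = ENNReal.ofReal (∫ x, h x) := by
    rw [ofReal_integral_eq_lintegral_ofReal
      (hc.integrable_of_hasCompactSupport hh.hasCompactSupport) (ae_of_all _ hh.nonneg)]
    have e1 : ∀ t : ℝ, volume {x : E 3 | t < h x} = ∫⁻ x, TRAux.lay h t x := by
      intro t
      unfold TRAux.lay
      rw [lintegral_indicator (isOpen_lt continuous_const hc).measurableSet, setLIntegral_one]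
    simp only [e1]
    rw [lintegral_lintegral_swap]
    · refine lintegral_congr fun x => ?_
      rw [← TRAux.layer_one (hh.nonneg x) (hh.le_one x)]
      rfl
    · have hs : MeasurableSet {p : ℝ × E 3 | p.1 < h p.2} :=
        (isOpen_lt continuous_fst (hc.comp continuous_snd)).measurableSet
      exact ((measurable_const (a := (1 : ℝ≥0∞))).indicator hs).aemeasurable
  rw [hD R hR.le, mul_pow]
  have h6 : (D ^ (1 / 3 : ℝ)) ^ 3 = D := by
    rw [← ENNReal.rpow_natCast, ← ENNReal.rpow_mul]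
    norm_num
  rw [h6]
  refine mul_le_mul' le_rfl ?_
  calc (∫⁻ t in Ioo (0 : ℝ) 1, (volume {x : E 3 | t < h x}) ^ (7 / 9 : ℝ)) ^ 3
      ≤ ((volume (Metric.ball (0 : E 3) R)) ^ (7 / 9 : ℝ)) ^ 3 := by
        refine pow_le_pow_left' (h3.trans ?_) 3
        rw [h5]
        exact ENNReal.rpow_le_rpow hint (by norm_num)
    _ = (volume (Metric.ball (0 : E 3) R)) ^ (7 / 3 : ℝ) := by
        rw [← ENNReal.rpow_natCast, ← ENNReal.rpow_mul]
        norm_num

end Pool.Agent.Lib.MP_d3943d_an
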