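import Pool.Agent.Lib.MP_d3943d_an.Defs
import Pool.Agent.Lib.MP_6d4359_pr.PL

set_option autoImplicit false

/-!
Additive Brunn-Minkowski with a disc in the plane.
-/

namespace Pool.Agent.Lib.MP_d3943d_an

open MeasureTheory Set
open scoped ENNReal ContDiff

open scoped Pointwise in
private lemma bm_E2 {A B : Set (E 2)} (hA : MeasurableSet A) (hB : MeasurableSet B)
    {l k : ℝ} (hl : 0 < l) (hk : 0 < k) (hlk : l + k = 1) :
    volume A ^ l * volume B ^ k ≤ volume (l • A + k • B) := by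
  have hmp := PiLp.volume_preserving_toLp (Fin 2)
  have hv : ∀ T : Set (E 2), MeasurableSet T →
      volume ((WithLp.toLp 2 : (Fin 2 → ℝ) → E 2) ⁻¹' T) = volume T := fun T hT =>
    hmp.measure_preimage hT.nullMeasurableSet
  have h := Pool.Agent.Lib.MP_6d4359_pr.bm_fin_two (hmp.measurable hA) (hmp.measurable hB)
    hl hk hlk
  rw [hv A hA, hv B hB] at h
  refine h.trans ?_
  have hmp2 := PiLp.volume_preserving_ofLp (Fin 2)
  have hsub : l • ((WithLp.toLp 2 : (Fin 2 → ℝ) → E 2) ⁻¹' A)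
      + k • ((WithLp.toLp 2 : (Fin 2 → ℝ) → E 2) ⁻¹' B)
      ⊆ (WithLp.toLp 2 : (Fin 2 → ℝ) → E 2) ⁻¹' (l • A + k • B) := by
    rintro x ⟨u, ⟨a, ha, rfl⟩, v, ⟨b, hb, rfl⟩, rfl⟩
    exact ⟨_, ⟨_, ha, rfl⟩, _, ⟨_, hb, rfl⟩, rfl⟩
  refine (measure_mono hsub).trans ?_
  exact ((EuclideanSpace.volume_preserving_symm_measurableEquiv_toLp (Fin 2)).symm
    |>.measure_preimage_equiv _).le

open scoped Pointwise in
theorem bm_thick (S : Set (E 2)) (hS : IsOpen S) (hb : Bornology.IsBounded S) (ε : ℝ)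
    (hε : 0 < ε) :
    (volume S).toReal + 2 * √Real.pi * ε * √((volume S).toReal)
      ≤ (volume (Metric.thickening ε S)).toReal := by
  set V := (volume S).toReal with hV
  have hV0 : 0 ≤ V := ENNReal.toReal_nonneg
  rcases hV0.eq_or_lt with h0 | hpos
  · rw [← h0]; simp
  have hfin : volume S ≠ ⊤ := hb.measure_lt_top.ne
  have hfin2 : volume (Metric.thickening ε S) ≠ ⊤ := hb.thickening.measure_lt_top.ne
  have ha : 0 < √V := Real.sqrt_pos.2 hpos
  have hpi : 0 < √Real.pi := Real.sqrt_pos.2 Real.pi_pos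
  have hbb : 0 < √Real.pi * ε := mul_pos hpi hε
  set a := √V with hadef
  set b := √Real.pi * ε with hbdef
  have haV : a ^ 2 = V := Real.sq_sqrt hV0
  have hbV : b ^ 2 = Real.pi * ε ^ 2 := by
    rw [hbdef, mul_pow, Real.sq_sqrt Real.pi_pos.le]
  have hab : 0 < a + b := by linarith
  have hl : 0 < a / (a + b) := by positivity
  have hk : 0 < b / (a + b) := by positivity
  have hlk : a / (a + b) + b / (a + b) = 1 := by field_simp
  have hsm : ∀ (r : ℝ) (T : Set (E 2)), volume (r • T) = ENNReal.ofReal (r ^ 2) * volume T := by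
    intro r T
    rw [Measure.addHaar_smul, finrank_euclideanSpace_fin, abs_of_nonneg (sq_nonneg r)]
  have h1 : volume ((a / (a + b))⁻¹ • S) = ENNReal.ofReal ((a + b) ^ 2) := by
    rw [hsm, ← ENNReal.ofReal_toReal hfin, ← hV, ← ENNReal.ofReal_mul (sq_nonneg _), ← haV]
    congr 1
    field_simp
  have h2 : volume ((b / (a + b))⁻¹ • Metric.ball (0 : E 2) ε) = ENNReal.ofReal ((a + b) ^ 2) := by
    rw [hsm, EuclideanSpace.volume_ball_fin_two]
    have : ENNReal.ofReal ε ^ 2 * ENNReal.ofReal Real.pi = ENNReal.ofReal (b ^ 2) := by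
      rw [hbV, mul_comm Real.pi, ENNReal.ofReal_mul (sq_nonneg _), ENNReal.ofReal_pow hε.le]
    rw [this, ← ENNReal.ofReal_mul (sq_nonneg _)]
    congr 1
    field_simp
  have hmain := bm_E2 (A := (a / (a + b))⁻¹ • S) (B := (b / (a + b))⁻¹ • Metric.ball (0 : E 2) ε)
    ((hS.smul₀ (inv_ne_zero hl.ne')).measurableSet)
    ((Metric.isOpen_ball.smul₀ (inv_ne_zero hk.ne')).measurableSet) hl hk hlk
  rw [h1, h2, ← ENNReal.rpow_add_of_nonneg _ _ hl.le hk.le, hlk, ENNReal.rpow_one,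
    smul_inv_smul₀ hl.ne', smul_inv_smul₀ hk.ne', add_ball_zero] at hmain
  have h3 : (a + b) ^ 2 ≤ (volume (Metric.thickening ε S)).toReal := by
    rw [← ENNReal.ofReal_le_iff_le_toReal hfin2]
    exact hmain
  nlinarith [sq_nonneg b, h3, haV, hbdef]

end Pool.Agent.Lib.MP_d3943d_an
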